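import Pool.Agent.Lib.FBC.T7.Blue7

/-! Periodic elements that are not elliptic translate a Nielsen class. -/

namespace Pool.Agent.Lib.FBC.T7

open Forest T2

namespace AXN

variable {G : Type} [Group G] {d : Dg G} {Y : Forest d} {s : Flow Y} {u : G} {x y : Y.V}

/-- points of the axis -/
def Ax (u : G) (x : Y.V) : Prop := Y.btw x (u • x) (u • u • x)

lemma lev_pow (h0 : dg d u = 0) (k : ℕ) (y : Y.V) : Y.lev y = Y.lev (u ^ k • y) := by
  simp [lev_smul', h0]

lemma disp (h0 : dg d u = 0) (k : ℕ) (y : Y.V) :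
    Y.dist y (u ^ k • y) ≤ k * Y.dist y (u • y) := by
  induction k with
  | zero => simp
  | succ k ih =>
    have := dist_triangle (lev_pow h0 k y) ((lev_pow h0 k y).symm.trans (lev_pow h0 (k + 1) y))
    rw [pow_succ, mul_smul] at *
    rw [ds_smul] at this
    linarith

variable (hu : ∀ y : Y.V, u • y ≠ y)
include hu

lemma ex_ax (h0 : dg d u = 0) (y : Y.V) :
    ∃ x, Ax u x ∧ Y.btw y x (u • x) ∧ Y.btw x (u • x) (u • y) := by
  induction' hD : Y.dist y (u • y) using Nat.strong_induction_on with D ih generalizing y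
  have l : Y.lev y = Y.lev (u • y) := by simpa using lev_pow h0 1 y
  obtain ⟨e, e1, e2⟩ := exists_step l (hu y).symm
  obtain ⟨f, f1, f2⟩ := exists_last l (hu y).symm
  by_cases c : f.rv = e.tr u
  swap
  · refine ⟨y, ?_, btw_left l, btw_right l⟩
    simpa [f1, Ax] using btw_of_turn (by simp [f1, e1]) c f2.symm.2 (e2.smul u).2
  have g : f.src = u • e.tgt := by simpa using congrArg Dir.tgt c
  have a := e2.dist_src
  have b := f2.dist_src
  rw [e1, ds_self] at a
  rw [f1] at b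
  have n : f.src ≠ y := fun t => hu y (by
    rw [eq_one_of_tr (e := e) (g := u) (by
      rw [← c, step_unique e2 f2 (e1.trans t.symm)]; rfl), one_smul])
  have p := dist_pos f2.btw_src.lev1 n.symm
  have o := e2.btw_tgt.of_dist_le f2.btw_src (by omega)
  have q := o.dist_add
  have r := f2.btw_src.trans_left' o
  rw [g] at o q r b
  obtain ⟨x, h1, h2, h3⟩ := ih _ (by omega) e.tgt rfl
  exact ⟨x, h1, (o.trans_right' (h2.glue' h3 (hu x).symm)).trans_right h2,
    (r.trans_left' (h2.glue h3 (hu x).symm)).trans_left h3⟩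

lemma up (h : Ax u x) (hy : Y.btw y x (u • x)) (k : ℕ) :
    Y.btw y (u ^ k • x) (u ^ (k + 1) • x) ∧ Y.btw y x (u ^ k • x) ∧
      Y.dist y (u ^ k • x) = Y.dist y x + k * Y.dist x (u • x) := by
  induction k with
  | zero => simpa using ⟨hy, btw_right hy.lev1⟩
  | succ k ih =>
    have a := btw.smul h (u ^ k)
    have b := ih.1.dist_add
    rw [smul_smul, smul_smul, smul_smul, ← pow_succ, ← pow_succ] at a
    refine ⟨ih.1.glue' a fun e => hu (u ^ k • x) ?_, ih.1.trans_left ih.2.1, ?_⟩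
    · rw [smul_smul, ← pow_succ', e]
    · rw [← b, pow_succ, mul_smul, ds_smul, ih.2.2]; ring

lemma cover (h : Ax u x) (hy : Y.btw y x (u • x)) (hy' : Y.btw x (u • x) (u • y)) (k : ℕ) :
    Y.btw y x (u ^ (k + 1) • y) ∧ Y.btw y (u ^ (k + 1) • x) (u ^ (k + 1) • y) := by
  have a := hy'.smul (u ^ k)
  rw [smul_smul, smul_smul, ← pow_succ] at a
  have b := (up hu h hy k).1.glue' a fun e => hu (u ^ k • x) (by rw [smul_smul, ← pow_succ', ← e])
  exact ⟨b.trans_left (up hu h hy (k + 1)).2.1, b⟩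

lemma ds (h : Ax u x) (k : ℕ) : Y.dist x (u ^ k • x) = k * Y.dist x (u • x) := by
  simpa using (up hu h (btw_left h.lev1) k).2.2

lemma min_le (h0 : dg d u = 0) (h : Ax u x) (l : Y.lev x = Y.lev y) :
    Y.dist x (u • x) ≤ Y.dist y (u • y) := by
  by_contra c
  set k := 2 * Y.dist x y + 1 with hk
  have a := ds hu h k
  have b := disp h0 k y
  have t1 := dist_triangle l (l.symm.trans (lev_pow h0 k x))
  have t2 := dist_triangle (lev_pow h0 k y) (lev_sm (u ^ k) l.symm)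
  rw [ds_smul, ds_comm y x] at t2
  nlinarith

lemma noleg (h0 : dg d u = 0) (hd : FC d) (T : s.TT) {B : ℕ}
    (hB : ∀ x : Y.V, Ax u x → Y.dist x (u • x) ≤ B) :
    ∃ L, ∀ (K : ℕ) x, Ax u x → s.NoLeg L x (u ^ K • x) := by
  obtain ⟨C, hC⟩ := cn_grow hd T
  obtain ⟨Λ, -, hΛ⟩ := s.exists_lip 1
  refine ⟨2 * C + 2 * (Λ * B) + 1, fun K x hx v w h1 h2 h3 => by_contra fun c => ?_⟩
  have key : ∀ (i : ℕ) x v w, Ax u x → Y.btw x v (u ^ K • x) → Y.btw x w (u ^ K • x) →
      s.LegalP v w → 2 * C + 2 * (Λ * B) + 1 ≤ Y.dist v w → Y.dist v w + i ≤ K * B := by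
    intro i
    induction i with
    | zero =>
      intro x v w hx h1 h2 _ _
      exact (h1.dist_mid h2).trans ((ds hu hx K).le.trans (Nat.mul_le_mul_left _ (hB x hx)))
    | succ i ih =>
      intro x v w hx h1 h2 h3 h4
      obtain ⟨x', k1, k2, k3⟩ := ex_ax hu h0 (s.σ x)
      have a : Y.dist (s.σ x) x' ≤ Λ * B := by
        refine (k2.glue k3 (hu x').symm).dist_le.trans ?_
        rw [← σ_smul]
        exact (hΛ _ _ hx.lev1).trans (Nat.mul_le_mul_left _ (hB x hx))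
      obtain ⟨v', w', j1, j2, j3, j4⟩ := hC (Λ * B) _ _ v w x' (u ^ K • x') h1 h2 h3 k2.lev1
        (by rw [σ_smul]; exact lev_sm _ k2.lev1) a (by rwa [σ_smul, ds_smul])
      have := ih x' v' w' k1 j1 j2 j3 (by omega)
      omega
  have := key (K * B + 1) x v w hx h1 h2 h3 (not_lt.1 c)
  omega

lemma ovl (T : s.TT) {N K : ℕ} (hN : ∀ p y q, s.INP p y q → Y.dist p q ≤ N) (h : Ax u x)
    {p q m n : Y.V} (c : s.Cls p q) (h1 : Y.btw p m q) (h2 : Y.btw p n q)
    (h3 : Y.btw x m (u ^ K • x)) (h4 : Y.btw x n (u ^ K • x))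
    (e : Y.dist x (u • x) + (2 * N + 1) ≤ Y.dist m n) : s.Cls p (u • p) := by
  wlog o : Y.dist x m ≤ Y.dist x n generalizing m n
  · exact this h2 h1 h4 h3 (by rwa [ds_comm n]) (by omega)
  have a := (up hu h (btw_left h.lev1) K).1
  have b : Y.btw x (u • x) (u ^ (K + 1) • x) := by
    have := (up hu (x := u • x) (btw.smul h u) h K).2.1
    rwa [smul_smul, ← pow_succ] at this
  have k : ∀ {z}, Y.btw x z (u ^ K • x) → Y.btw x (u • z) (u ^ (K + 1) • x) ∧
      Y.dist x (u • z) = Y.dist x (u • x) + Y.dist x z := fun hz => by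
    have := hz.smul u
    rw [smul_smul, ← pow_succ'] at this
    exact ⟨b.trans_right this, by rw [← (b.trans_right' this).dist_add, ds_smul]⟩
  have m1 := a.trans_left h3
  have n1 := a.trans_left h4
  have r := (h3.of_dist_le h4 o).dist_add
  obtain ⟨m2, m3⟩ := k h3
  obtain ⟨n2, n3⟩ := k h4
  have t := (m2.of_dist_le n1 (by omega)).dist_add
  exact cls_over T hN c (cls_smul u c) (h1.convex h2 (bt_of_pos m1 m2 n1 (by omega) (by omega))) h2
    (h1.smul u) ((h1.smul u).convex (h2.smul u) (bt_of_pos m2 n1 n2 (by omega) (by omega)))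
    (by omega)

omit hu in
lemma shift (s : Flow Y) {g : G} (hg : dg d g ≠ 0) (a : Y.V) (l : ℤ) :
    ∃ (q : ℤ) (r : ℕ), r < (dg d g).natAbs ∧ Y.lev (g ^ q • s.σ^[r] a) = l := by
  have a1 := Int.emod_nonneg (l - Y.lev a) hg
  have a2 := Int.emod_lt_abs (l - Y.lev a) hg
  have a3 := Int.mul_ediv_add_emod (l - Y.lev a) (dg d g)
  refine ⟨(l - Y.lev a) / dg d g, ((l - Y.lev a) % dg d g).toNat, by
    rw [Int.abs_eq_natAbs] at a2; omega, ?_⟩
  rw [lev_smul', lev_it', dg_zpow, Int.toNat_of_nonneg a1]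
  linarith

end AXN

open AXN in
theorem stAXN : St_AXN := by
  intro G _ d hd Y s hs u hk hu g hg hc
  have T := hs.toTT
  have h0 := mem_ker_iff.1 hk
  replace hu : ∀ y : Y.V, u • y ≠ y := fun y e => hu ⟨y, e⟩
  have cm : ∀ (q : ℤ) (y : Y.V), u • g ^ q • y = g ^ q • u • y := fun q y => by
    rw [smul_smul, smul_smul, ((show Commute g u from hc).zpow_left q).eq]
  suffices h : ∃ p, s.Cls p (u • p) by
    obtain ⟨p, h⟩ := h
    obtain ⟨q, r, -, e⟩ := shift s hg p 0
    have c := cls_smul (g ^ q) (cls_it T h r)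
    rw [it_smul, ← cm] at c
    rcases c.cases_head with t | ⟨z, t, -⟩
    exacts [absurd t.symm (hu _), ⟨_, z, e, t, c⟩]
  by_contra hn
  obtain ⟨i⟩ := T.ne
  set a := Y.en i false
  obtain ⟨B, hB⟩ : ∃ B, ∀ x : Y.V, Ax u x → Y.dist x (u • x) ≤ B := by
    refine ⟨(Finset.range (dg d g).natAbs).sup fun r => Y.dist (s.σ^[r] a) (u • s.σ^[r] a),
      fun x hx => ?_⟩
    obtain ⟨q, r, h1, e⟩ := shift s hg a (Y.lev x)
    refine (min_le hu h0 hx e.symm).trans ?_
    rw [cm, ds_smul]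
    exact Finset.le_sup (f := fun r => Y.dist (s.σ^[r] a) (u • s.σ^[r] a)) (Finset.mem_range.2 h1)
  obtain ⟨L, hL⟩ := noleg hu h0 hd T hB
  obtain ⟨N, hN⟩ := inp_bound hs
  set K := (2 * L + 1) * (B + (2 * N + 1))
  obtain ⟨j, hj⟩ := sp_il hs (Y.dist a (u ^ (K + 1) • a))
  obtain ⟨x, h1, h2, h3⟩ := ex_ax hu h0 (s.σ^[L] (s.σ^[j] a))
  obtain ⟨h4, h5⟩ := cover hu h1 h2 h3 K
  rw [← it_smul, ← it_smul] at h4 h5
  have l := lev_pow h0 (K + 1) x
  have := ch_ds (ch_sub (R := s.Piece)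
    (S := fun m n => Y.lev m = Y.lev n ∧ Y.dist m n ≤ B + (2 * N + 1)) (fun _ _ => piece_lev)
    (fun m n h => ⟨h.1.symm, by rw [ds_comm]; exact h.2⟩) (fun m _ => ⟨rfl, by simp⟩)
    (fun v w m n h k1 k2 k3 k4 => ⟨k1.lev2.trans k2.lev2.symm, ?_⟩)
    ((hj _ _ (il_ds (lev_pow h0 _ a))).nl T le_rfl h4 h5 (hL _ x h1)) (btw_left l) (btw_right l))
  · have p := dist_pos h1.lev1 (hu x).symm
    rw [ds hu h1] at this
    exact absurd ((Nat.le_mul_of_pos_right _ p).trans this) (Nat.not_succ_le_self K)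
  · have := k1.dist_mid k2
    rcases h with rfl | h | ⟨p, q, c, p1, p2⟩
    · rw [ds_self] at this; omega
    · rw [h.dist] at this; omega
    · have := hB x h1
      exact by_contra fun t => hn ⟨p, ovl hu T hN h1 c (p1.convex p2 k1) (p1.convex p2 k2) k3 k4
        (by omega)⟩

end Pool.Agent.Lib.FBC.T7
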