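import Pool.Agent.Lib.FBC.T7.Blue7

set_option linter.unusedVariables false

/-!
Forests from darts and walls.
-/

namespace Pool.Agent.Lib.FBC.T7

open Forest

variable {K : Type} [Group K] {e : Dg K} {V D : Type} [MulAction K V] [MulAction K D]
  (A : FData e V D)

/-- darts of one unoriented orbit -/
def mkfSetoid : Setoid D where
  r a b := ∃ k : K, k • a = b ∨ k • a = A.rv b
  iseqv := ⟨fun a => ⟨1, Or.inl (one_smul _ _)⟩, fun {a b} ⟨k, h⟩ => ⟨k⁻¹, by
      rcases h with rfl | h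
      · exact Or.inl (inv_smul_smul _ _)
      · exact Or.inr (by rw [← A.rv_rv b, ← h, A.rv_smul, inv_smul_smul])⟩,
    fun {a b c} ⟨k, h⟩ ⟨l, h'⟩ => ⟨l * k, by
      rw [mul_smul]
      rcases h with h | h
      · rwa [h]
      · rw [h, ← A.rv_smul]
        rcases h' with h' | h'
        · exact Or.inr (by rw [h'])
        · exact Or.inl (by rw [h', A.rv_rv])⟩⟩

lemma mkf_finite : Finite (Quotient (mkfSetoid A)) := by
  obtain ⟨S, hS⟩ := A.fin
  refine Finite.of_surjective (fun x : S => Quotient.mk (mkfSetoid A) x.1) fun q => ?_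
  induction q using Quotient.inductionOn with | _ δ =>
  obtain ⟨k, hk⟩ := hS δ
  exact ⟨⟨_, hk⟩, Quotient.sound ⟨k⁻¹, Or.inl (inv_smul_smul _ _)⟩⟩

/-- a representative of level zero -/
noncomputable def mkfBase (i : Quotient (mkfSetoid A)) : D :=
  (A.lev_zero i.out).choose • i.out

lemma mkf_lev (i : Quotient (mkfSetoid A)) : A.lev (A.src (mkfBase A i)) = 0 := by
  rw [mkfBase, A.src_smul]; exact (A.lev_zero i.out).choose_spec

lemma mkf_mk (i : Quotient (mkfSetoid A)) : Quotient.mk (mkfSetoid A) (mkfBase A i) = i :=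
  (Quotient.sound (s := mkfSetoid A) ⟨_, Or.inl (inv_smul_smul _ _)⟩).trans i.out_eq

lemma mkf_inj {i j : Quotient (mkfSetoid A)} {g : K}
    (h : g • mkfBase A j = mkfBase A i ∨ g • mkfBase A j = A.rv (mkfBase A i)) :
    g = 1 ∧ j = i := by
  obtain rfl : j = i := by
    rw [← mkf_mk A i, ← mkf_mk A j]; exact Quotient.sound ⟨g, h⟩
  exact ⟨A.free _ _ h, rfl⟩

/-- the dart with given position, type and orientation -/
noncomputable def mkfDart (g : K) (i : Quotient (mkfSetoid A)) : Bool → D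
  | false => g • mkfBase A i
  | true => A.rv (g • mkfBase A i)

lemma mkf_rv (g : K) (i : Quotient (mkfSetoid A)) (b : Bool) :
    A.rv (mkfDart A g i b) = mkfDart A g i (!b) := by
  cases b
  · rfl
  · exact A.rv_rv _

lemma mkf_smul (k g : K) (i : Quotient (mkfSetoid A)) (b : Bool) :
    k • mkfDart A g i b = mkfDart A (k * g) i b := by
  cases b <;> simp [mkfDart, mul_smul, A.rv_smul]

lemma mkf_surj (δ : D) : ∃ g i b, mkfDart A g i b = δ := by
  obtain ⟨k, h | h⟩ := Quotient.exact (mkf_mk A (Quotient.mk _ δ))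
  · exact ⟨k, _, false, h⟩
  · exact ⟨k, _, true, by rw [mkfDart, h, A.rv_rv]⟩

lemma mkf_ne (δ : D) : A.rv δ ≠ δ := fun h => A.sd_src δ (by simpa [h] using A.sd_tgt δ)

lemma mkf_sd_rv (δ : D) {v : V} (h : A.lev v = A.lev (A.src δ)) :
    A.sd (A.rv δ) v ↔ ¬ A.sd δ v := by
  have h1 := A.conn _ _ h.symm
  induction h1 with
  | refl => exact iff_of_true (by simpa [A.rv_rv] using A.sd_tgt (A.rv δ)) (A.sd_src δ)
  | tail _ hxy ih =>
    obtain ⟨δ', rfl, rfl⟩ := hxy
    have l := (A.lev_rv δ').symm.trans h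
    by_cases e1 : δ' = δ
    · subst e1; exact iff_of_false (A.sd_src _) (not_not.2 (A.sd_tgt _))
    by_cases e2 : δ' = A.rv δ
    · subst e2; exact iff_of_true (A.sd_tgt _) (by rw [A.rv_rv]; exact A.sd_src _)
    rw [← A.sd_ne δ δ' l e1 e2, ← A.sd_ne (A.rv δ) δ' (l.trans (A.lev_rv δ).symm) e2
      (by rwa [A.rv_rv])]
    exact ih l

open Classical in
/-- the forest -/
noncomputable def mkf : Forest e where
  V := V
  I := Quotient (mkfSetoid A)
  fin := @Fintype.ofFinite _ (mkf_finite A)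
  en i b := A.src (mkfDart A 1 i b)
  lev := A.lev
  lev_smul := A.lev_smul
  lev_en i b := by
    cases b
    · simpa [mkfDart] using mkf_lev A i
    · simpa [mkfDart, A.lev_rv] using mkf_lev A i
  side i v := decide (A.lev v = 0 ∧ A.sd (mkfBase A i) v)
  side_en i b := by
    cases b
    · simp [mkfDart, A.sd_src]
    · simp [mkfDart, A.sd_tgt, A.lev_rv, mkf_lev]
  cross i j g hne := by
    simp only [mkfDart, one_smul, ← A.src_smul, ← A.rv_smul, decide_eq_decide, A.lev_rv]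
    refine and_congr_right fun l => A.sd_ne _ _ (l.trans (mkf_lev A i).symm) (fun h => ?_) fun h => ?_
    · exact hne (Prod.ext_iff.2 (mkf_inj A (Or.inl h)))
    · exact hne (Prod.ext_iff.2 (mkf_inj A (Or.inr h)))
  conn u v h := by
    refine Relation.ReflTransGen.mono ?_ u v (A.conn u v h)
    rintro _ _ ⟨δ, rfl, rfl⟩
    obtain ⟨g, i, b, rfl⟩ := mkf_surj A δ
    exact ⟨g, i, b, by rw [← A.src_smul, mkf_smul, mul_one],
      by rw [← A.src_smul, mkf_smul, mul_one, mkf_rv]⟩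

lemma mkf_bij : Function.Bijective fun a : (mkf A).Dir => mkfDart A a.1.g a.1.i a.2 := by
  refine ⟨?_, fun δ => let ⟨g, i, b, h⟩ := mkf_surj A δ; ⟨(⟨g, i⟩, b), h⟩⟩
  rintro ⟨⟨g, i⟩, b⟩ ⟨⟨g', i'⟩, b'⟩ h
  have h1 : mkfDart A (g'⁻¹ * g) i b = mkfDart A 1 i' b' := by
    rw [← mkf_smul, show mkfDart A g i b = mkfDart A g' i' b' from h, mkf_smul, inv_mul_cancel]
  have h2 : g'⁻¹ * g = 1 ∧ i = i' := mkf_inj A (by
    cases b <;> cases b' <;> simp only [mkfDart, one_smul] at h1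
    · exact Or.inl h1
    · exact Or.inr h1
    · exact Or.inr (by rw [← h1, A.rv_rv])
    · exact Or.inl (by rw [← A.rv_rv (mkfBase A i'), ← h1, A.rv_rv]))
  obtain ⟨h2, rfl⟩ := h2
  obtain rfl : g' = g := inv_mul_eq_one.1 h2
  obtain rfl : b = b' := by
    by_contra hb
    obtain rfl : b' = !b := Bool.eq_not_iff.2 (Ne.symm hb)
    exact mkf_ne A _ ((mkf_rv A g' i b).trans (Eq.symm h))
  rfl

theorem stMKF : St_MKF := by
  intro K _ e V D _ _ A
  let ψ := Equiv.ofBijective _ (mkf_bij A)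
  have src : ∀ a : (mkf A).Dir, a.src = A.src (ψ a) := fun a =>
    ((A.src_smul _ _).symm.trans (congrArg A.src (mkf_smul A _ _ _ _))).trans (by rw [mul_one]; rfl)
  refine ⟨mkf A, Equiv.refl _, ψ.symm, fun _ _ => rfl, fun k δ => ?_, fun _ => rfl, fun δ => ?_,
    fun δ => ?_, fun δ v h => ?_⟩
  · obtain ⟨a, rfl⟩ := ψ.surjective δ
    rw [ψ.symm_apply_apply, ψ.symm_apply_eq]
    exact mkf_smul A _ _ _ _
  · rw [src, ψ.apply_symm_apply]; rfl
  · obtain ⟨a, rfl⟩ := ψ.surjective δ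
    rw [ψ.symm_apply_apply, ψ.symm_apply_eq]
    exact mkf_rv A _ _ _
  · obtain ⟨⟨⟨g, i⟩, b⟩, rfl⟩ := ψ.surjective δ
    rw [ψ.symm_apply_apply]
    have l0 : A.lev (A.src (ψ (⟨g, i⟩, b))) = A.lev (A.src (g • mkfBase A i)) := by
      cases b
      · rfl
      · exact A.lev_rv _
    have l1 : A.lev (g⁻¹ • v) = 0 := by
      rw [A.lev_smul, h, l0, A.src_smul, A.lev_smul, mkf_lev, dg_inv]; ring
    have s1 : A.sd (mkfBase A i) (g⁻¹ • v) ↔ A.sd (g • mkfBase A i) v := by
      rw [← A.sd_smul g, smul_inv_smul]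
    refine (and_iff_right (h.trans (congrArg A.lev (src _).symm))).trans ?_
    have s2 : (⟨g, i⟩ : (mkf A).E).sd v = true ↔ A.sd (g • mkfBase A i) v := by
      simp only [E.sd, mkf, decide_eq_true_eq]
      exact (and_iff_right l1).trans s1
    cases b
    · exact s2
    · exact (Bool.eq_false_iff.trans s2.not).trans (mkf_sd_rv A _ (h.trans l0)).symm

end Pool.Agent.Lib.FBC.T7
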