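import Pool.Agent.Lib.FBC.T7.Blue7
import Pool.Agent.Lib.FBC.X1.Max

set_option linter.unusedVariables false

/-!
Pieces are connected through vertex groups.
-/

namespace Pool.Agent.Lib.FBC.T7.One

open Forest T2 MulAction

variable {G : Type} [Group G] {d : Dg G} {Y : Forest d} {s : Flow Y} {r : Y.E → Y.E → Prop}

/-- a nontrivial element fixes `y` and preserves the piece of `c` -/
def Nt (r : Y.E → Y.E → Prop) (y : Y.V) (c : Y.E) : Prop :=
  ∃ u : G, u ≠ 1 ∧ u • y = y ∧ r c (u • c)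

/-- the geodesic from `y` to `z` starts in the piece of `c` -/
def Side (r : Y.E → Y.E → Prop) (y : Y.V) (c : Y.E) (z : Y.V) : Prop :=
  ∃ e : Y.Dir, e.src = y ∧ r c e.1 ∧ z ∈ e.H

/-- An element that moves a half-tree into itself fixes no vertex of its level. -/
lemma no_fix {e : Y.Dir} {g : G} (hg : g ≠ 1) (h : (e.tr g).H ⊆ e.H) {z : Y.V}
    (l : Y.lev z = Y.lev e.src) (hz : g • z = z) : False := by
  have key : ∀ (e : Y.Dir) (g : G), g ≠ 1 → (e.tr g).H ⊆ e.H → z ∈ e.H → g • z = z → False := by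
    intro e g hg h ze hz
    have h1 := h (tgt_mem_H _)
    have h2 : (e.tr g).src ∈ e.H := ⟨(lev_src_tgt _).trans h1.1,
      (sd_src_tgt fun q => hg (eq_one_of_tr q.symm)).trans h1.2⟩
    have h3 : Y.Cross e.src z (e.tr g) :=
      ⟨mem_rv_H_of_not h2.1.symm fun q => src_not_mem_H e (h q), hz ▸ (smul_mem_H g).2 ze⟩
    have h4 := dist_smul g e.src z
    rw [hz, ← src_tr] at h4
    exact src_not_mem_H e (h3.btw_src.eq_left h4.ge ▸ h2)
  rcases mem_H_or l with q | q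
  · exact key e g hg h q hz
  · have l0 := deg_eq_zero_of_fix hz
    refine key e.rv g⁻¹ (inv_ne_one.2 hg) (fun x hx => ?_) q (by rw [inv_smul_eq_iff, hz])
    rw [mem_tr_H, inv_inv] at hx
    refine mem_rv_H_of_not (by have := rv_H_lev hx; rwa [lev_smul', l0, add_zero] at this)
      fun t => ?_
    exact not_mem_H_both (h ((smul_mem_H g).2 t)) hx

lemma tr_pow_subset {e : Y.Dir} {g : G} (h : (e.tr g).H ⊆ e.H) (n : ℕ) :
    (e.tr (g ^ n)).H ⊆ e.H := by
  induction n with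
  | zero => rw [pow_zero, tr_one]
  | succ n ih =>
    intro x hx
    refine h ?_
    rw [pow_succ', ← Forest.tr_tr, mem_tr_H] at hx
    rw [mem_tr_H]
    exact ih hx

variable (P : s.PieceRel r)
include P

lemma r_desc {n : ℕ} {e e' : Y.Dir} (h : s.Desc n e e') : r e.1 e'.1 := by
  induction n generalizing e' with
  | zero =>
    have := Cross.mem h
    simp only [Function.iterate_zero, id, sep_src_tgt, Finset.mem_singleton] at this
    rw [this]; exact P.eqv.refl _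
  | succ n ih =>
    rw [Flow.Desc, Function.iterate_succ_apply', Function.iterate_succ_apply'] at h
    obtain ⟨x, h1, h2⟩ := s.cover_dir 1 h
    exact P.eqv.trans (ih h1) (P.desc _ _ h2)

/-- every piece has edges on every level -/
lemma pres (T : s.TT) (c : Y.E) (l : ℤ) : ∃ c', r c c' ∧ Y.lev (c'.ed false) = l := by
  rcases le_total (Y.lev (c.ed false)) l with q | q
  · obtain ⟨n, hn⟩ := Int.eq_ofNat_of_zero_le (sub_nonneg.2 q)
    have h := lp_adj (s := s) (adj_dir (c, false))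
    obtain ⟨x, h1, h2⟩ := exists_step (lev_it n h.1) (exp_ne T h (src_ne_tgt _) n)
    refine ⟨x.1, r_desc P (e := (c, false)) h2, (lev_ed_eq _ _ x.2).trans ?_⟩
    show Y.lev x.src = l
    rw [h1, lev_it']
    show Y.lev (c.ed false) + n = l
    omega
  · obtain ⟨n, hn⟩ := Int.eq_ofNat_of_zero_le (sub_nonneg.2 q)
    have key : ∀ n : ℕ, ∃ c', r c c' ∧ Y.lev (c'.ed false) = Y.lev (c.ed false) - n := fun n => by
      induction n with
      | zero => exact ⟨c, P.eqv.refl _, by simp⟩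
      | succ n ih =>
        obtain ⟨c', h1, h2⟩ := ih
        obtain ⟨x, -, h3⟩ := T.sa_anc (c', false) c'.i
        refine ⟨x.1, P.eqv.trans h1 (P.eqv.symm (P.desc _ _ h3.1)), (lev_ed_eq _ _ x.2).trans ?_⟩
        have h4 : Y.lev (s.σ^[1] x.src) = Y.lev (c'.ed false) := Cross.lev_src h3.1
        rw [lev_it'] at h4
        show Y.lev x.src = _
        push_cast at h4 ⊢
        omega
    obtain ⟨c', h1, h2⟩ := key n
    exact ⟨c', h1, by omega⟩

lemma r_smul {c c' : Y.E} {u : G} (h : r c c') (q : r c (u • c)) : r c' (u • c') :=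
  P.eqv.trans (P.eqv.symm h) (P.eqv.trans q (P.inv u _ _ h))

/-- every piece is preserved by a hyperbolic element -/
lemma hyp (hF : FC d) (T : s.TT) (c : Y.E) :
    ∃ u ∈ d.ker, r c (u • c) ∧ ∀ n : ℕ, 0 < n → u ^ n ∉ Y.Ell := by
  have h := lp_adj (s := s) (adj_dir (c, false))
  obtain ⟨k, hk, k', hk', hne, q⟩ := Finset.exists_ne_map_eq_of_card_lt_of_maps_to
    (t := (Finset.univ : Finset (Y.I × Bool)))
    (f := fun k : Y.E => (k.i, k.sd (s.σ^[Fintype.card (Y.I × Bool)] (Dir.src (c, false)))))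
    (exp_lt T h (src_ne_tgt _) (Fintype.card (Y.I × Bool))) fun _ _ => Finset.mem_univ _
  simp only [Prod.mk.injEq] at q
  have key : ∀ a b : Y.Dir, s.Desc (Fintype.card (Y.I × Bool)) (c, false) a →
      s.Desc (Fintype.card (Y.I × Bool)) (c, false) b → a.1 ≠ b.1 → a.1.i = b.1.i → a.2 = b.2 →
      b.H ⊆ a.H → ∃ u ∈ d.ker, r c (u • c) ∧ ∀ n : ℕ, 0 < n → u ^ n ∉ Y.Ell := by
    intro a b ha hb h1 h2 h3 h4
    obtain ⟨u, rfl⟩ : ∃ u : G, b = a.tr u := ⟨_, Prod.ext (eq_smul_of_i h2) h3.symm⟩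
    have l := (Cross.lev_src ha).symm.trans (Cross.lev_src hb)
    rw [src_tr, lev_smul'] at l
    refine ⟨u, mem_ker_iff.2 (by omega), r_smul P (P.eqv.symm (r_desc P ha))
      (P.eqv.trans (P.eqv.symm (r_desc P ha)) (r_desc P hb)), fun n hn t => ?_⟩
    rw [← ellAt_eq s.hom_all (Y.lev a.src)] at t
    obtain ⟨z, z1, z2⟩ := t
    refine no_fix (fun t => h1 ?_) (tr_pow_subset h4 n) z1 z2
    rw [hF.torsionFree hn t, tr_one]
  have c1 := cross_of_mem hk
  have c2 := cross_of_mem hk'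
  rcases c1.nested c2 with t | t
  · exact key _ _ c2 c1 hne.symm q.1.symm q.2.symm t
  · exact key _ _ c1 c2 hne q.1 q.2 t

lemma Nt.congr {y : Y.V} {c c' : Y.E} (h : Nt r y c) (q : r c c') : Nt r y c' :=
  let ⟨u, h1, h2, h3⟩ := h; ⟨u, h1, h2, r_smul P q h3⟩

/-- a vertex fixed by a nontrivial element that preserves a piece lies on the piece -/
lemma inc (T : s.TT) {y : Y.V} {c : Y.E} (h : Nt r y c) : ∃ e : Y.Dir, e.src = y ∧ r c e.1 := by
  obtain ⟨c0, h1, h2⟩ := pres P T c (Y.lev y)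
  obtain ⟨u, u1, u2, u3⟩ := h.congr P h1
  obtain ⟨b, hb⟩ : ∃ b, y ≠ c0.ed b := by
    by_contra q
    push Not at q
    exact ed_ne c0 false ((q _).symm.trans (q _))
  have l : Y.lev (c0.ed b) = Y.lev y := (lev_ed_eq _ _ _).trans h2
  obtain ⟨e, e1, e2⟩ := exists_step l.symm hb
  refine ⟨e, e1, P.eqv.trans h1 (P.conv c0 (u • c0) b b _ u3 ?_)⟩
  rw [ed_smul]
  exact (btw_of_fix u1 u2 l).subset e2.symm.mem

/-- first darts towards two ends of edges of one piece lie in one piece -/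
lemma k1 {c c' : Y.E} {b b' : Bool} {e e' : Y.Dir} (h : r c c') (q : e.src = e'.src)
    (h1 : c.ed b ∈ e.H) (h2 : c'.ed b' ∈ e'.H) : r e.1 e'.1 := by
  by_cases t : e = e'
  · rw [t]; exact P.eqv.refl _
  have k := btw_of_turn q t h1 h2
  have m1 := k.subset (Cross.symm ⟨src_mem_rv_H e, h1⟩).mem
  have m2 := k.subset' (Cross.mem (e := e') ⟨q ▸ src_mem_rv_H e', h2⟩)
  exact P.eqv.trans (P.eqv.symm (P.conv _ _ _ _ _ h m1)) (P.conv _ _ _ _ _ h m2)

/-- Both ends of another incident pair lie on one side of the wall of `(y, c)`. -/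
lemma side_pair {y : Y.V} {c : Y.E} {e' : Y.Dir} (l : Y.lev e'.src = Y.lev y)
    (hne : ¬ (e'.src = y ∧ r c e'.1)) :
    Side r y c e'.src ↔ ∃ c' b, r e'.1 c' ∧ Side r y c (c'.ed b) := by
  refine ⟨fun h => ⟨e'.1, e'.2, P.eqv.refl _, h⟩, ?_⟩
  rintro ⟨c', b, h1, e, rfl, h2, h3⟩
  by_cases q : e.src = e'.src
  · refine (hne ⟨q.symm, P.eqv.trans h2 (P.eqv.symm (P.conv _ c' e'.2 b _ h1 ?_))⟩).elim
    exact Cross.mem (e := e) ⟨(show e.src = e'.1.ed e'.2 from q) ▸ src_mem_rv_H e, h3⟩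
  · obtain ⟨x, x1, x2⟩ := exists_step l.symm q
    exact ⟨x, x1, P.eqv.trans h2 (k1 P (P.eqv.symm h1) x1.symm h3 x2.2), x2.2⟩

/-! ### the tree of incident pairs -/

/-- pieces -/
def Pc : Type := Quotient ⟨r, P.eqv⟩

/-- the piece of an edge -/
def pc (c : Y.E) : Pc P := Quotient.mk _ c

lemma pc_eq {c c' : Y.E} : pc P c = pc P c' ↔ r c c' := Quotient.eq

lemma pc_surj (S : Pc P) : ∃ c, pc P c = S := Quotient.exists_rep S

instance : MulAction G (Pc P) where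
  smul g := Quotient.map (g • ·) (P.inv g)
  one_smul S := by obtain ⟨c, rfl⟩ := pc_surj P S; exact congrArg (pc P) (one_smul _ _)
  mul_smul a b S := by obtain ⟨c, rfl⟩ := pc_surj P S; exact congrArg (pc P) (mul_smul _ _ _)

lemma pc_smul (g : G) (c : Y.E) : g • pc P c = pc P (g • c) := rfl

/-- vertices of level zero -/
abbrev V0 (Y : Forest d) : Type := (Y.pow (gpow_ker d)).V

omit P in
lemma lev0 (y : V0 Y) : Y.lev y.1 = 0 := by simpa using y.2

/-- pairs with nontrivial stabilizer -/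
def NtP (y : V0 Y) (S : Pc P) : Prop := ∃ u : d.ker, u ≠ 1 ∧ u • y = y ∧ u • S = S

lemma ntP_iff {y : V0 Y} {c : Y.E} : NtP P y (pc P c) ↔ Nt r y.1 c :=
  ⟨fun ⟨u, h1, h2, h3⟩ => ⟨u, fun q => h1 (Subtype.ext q), congrArg Subtype.val h2,
      (pc_eq P).1 h3.symm⟩,
    fun ⟨u, h1, h2, h3⟩ => ⟨⟨u, mem_ker_iff.2 (deg_eq_zero_of_fix h2)⟩,
      fun q => h1 (congrArg Subtype.val q), Subtype.ext h2, ((pc_eq P).2 h3).symm⟩⟩

lemma NtP.smul {y : V0 Y} {S : Pc P} (h : NtP P y S) (k : d.ker) : NtP P (k • y) (k • S) :=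
  let ⟨u, h1, h2, h3⟩ := h
  ⟨k * u * k⁻¹, by simpa using h1, by rw [mul_smul, inv_smul_smul, mul_smul, h2],
    by rw [mul_smul, inv_smul_smul, mul_smul, h3]⟩

/-- incident pairs -/
def OnP (y : V0 Y) (S : Pc P) : Prop := ∃ e : Y.Dir, e.src = y.1 ∧ pc P e.1 = S

lemma OnP.smul {y : V0 Y} {S : Pc P} (h : OnP P y S) (k : d.ker) : OnP P (k • y) (k • S) :=
  let ⟨e, h1, h2⟩ := h
  ⟨e.tr k, by rw [src_tr, h1]; rfl, by rw [← h2]; rfl⟩

/-- the relation that is collapsed -/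
def RZ (z z' : V0 Y ⊕ Pc P) : Prop := ∃ y S, z = .inl y ∧ z' = .inr S ∧ NtP P y S

/-- the vertices of the new tree -/
def W : Type := Quot (RZ P)

/-- the class of a vertex or a piece -/
def cl (z : V0 Y ⊕ Pc P) : W P := Quot.mk _ z

instance : MulAction d.ker (W P) where
  smul k := Quot.map (k • ·) (by
    rintro _ _ ⟨y, S, rfl, rfl, h⟩
    exact ⟨_, _, rfl, rfl, h.smul P k⟩)
  one_smul := Quot.ind fun z => congrArg (cl P) (one_smul _ _)
  mul_smul a b := Quot.ind fun z => congrArg (cl P) (mul_smul _ _ _)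

lemma cl_smul (k : d.ker) (z : V0 Y ⊕ Pc P) : k • cl P z = cl P (k • z) := rfl

/-- the darts of the new tree -/
@[ext] structure Dt where
  /-- the vertex -/
  y : V0 Y
  /-- the piece -/
  S : Pc P
  /-- the direction -/
  b : Bool
  on : OnP P y S
  tv : ¬ NtP P y S

instance : MulAction d.ker (Dt P) where
  smul k δ := ⟨k • δ.y, k • δ.S, δ.b, δ.on.smul P k, fun h => δ.tv (by simpa using h.smul P k⁻¹)⟩
  one_smul δ := Dt.ext (one_smul _ δ.y) (one_smul _ δ.S) rfl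
  mul_smul a b δ := Dt.ext (mul_smul a b δ.y) (mul_smul a b δ.S) rfl

/-- the side of the piece -/
def SdV (y : V0 Y) (S : Pc P) (z : Y.V) : Prop :=
  ∃ e : Y.Dir, e.src = y.1 ∧ pc P e.1 = S ∧ z ∈ e.H

/-- the side of the piece -/
def SdZ (y : V0 Y) (S : Pc P) : V0 Y ⊕ Pc P → Prop
  | .inl z => SdV P y S z.1
  | .inr S' => ∃ c b, pc P c = S' ∧ SdV P y S (c.ed b)

lemma sdV_iff {y : V0 Y} {c : Y.E} {z : Y.V} : SdV P y (pc P c) z ↔ Side r y.1 c z :=
  exists_congr fun e => and_congr_right fun _ => and_congr_left fun _ => by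
    rw [eq_comm, pc_eq]

lemma sdZ_pair {y y' : V0 Y} {S S' : Pc P} (h : OnP P y' S') (hne : ¬ (y' = y ∧ S' = S)) :
    SdZ P y S (.inl y') ↔ SdZ P y S (.inr S') := by
  obtain ⟨c, rfl⟩ := pc_surj P S
  obtain ⟨e, h1, rfl⟩ := h
  have := side_pair P (y := y.1) (c := c) (e' := e) (by rw [h1, lev0, lev0])
    fun q => hne ⟨Subtype.ext (h1.symm.trans q.1), ((pc_eq P).2 q.2).symm⟩
  simp only [SdZ, sdV_iff, ← h1, this, eq_comm (b := pc P e.1), pc_eq]

lemma SdV.smul {y : V0 Y} {S : Pc P} {z : Y.V} (h : SdV P y S z) (k : d.ker) :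
    SdV P (k • y) (k • S) ((k : G) • z) :=
  let ⟨e, h1, h2, h3⟩ := h
  ⟨e.tr k, by rw [src_tr, h1]; rfl, by rw [← h2]; rfl, (smul_mem_H _).2 h3⟩

lemma SdZ.smul {y : V0 Y} {S : Pc P} {z : V0 Y ⊕ Pc P} (h : SdZ P y S z) (k : d.ker) :
    SdZ P (k • y) (k • S) (k • z) := by
  rcases z with z | z
  · exact SdV.smul P h k
  · obtain ⟨c, b, rfl, h⟩ := h
    exact ⟨(k : G) • c, b, rfl, by rw [ed_smul]; exact SdV.smul P h k⟩

lemma NtP.on (T : s.TT) {y : V0 Y} {S : Pc P} (h : NtP P y S) : OnP P y S := by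
  obtain ⟨c, rfl⟩ := pc_surj P S
  obtain ⟨e, h1, h2⟩ := inc P T ((ntP_iff P).1 h)
  exact ⟨e, h1, ((pc_eq P).2 h2).symm⟩

/-- the wall of a dart -/
def SdW (T : s.TT) (δ : Dt P) : W P → Prop := Quot.lift (SdZ P δ.y δ.S) (by
  rintro _ _ ⟨y, S, rfl, rfl, h⟩
  exact propext (sdZ_pair P (h.on P T) fun q => δ.tv (q.1 ▸ q.2 ▸ h)))

lemma sdW_smul (T : s.TT) (k : d.ker) (δ : Dt P) (v : W P) :
    SdW P T (k • δ) (k • v) ↔ SdW P T δ v := by
  induction v using Quot.ind with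
  | _ z =>
    refine ⟨fun h => ?_, fun h => SdZ.smul P h k⟩
    have := SdZ.smul P (y := k • δ.y) (S := k • δ.S) (z := k • z) h k⁻¹
    simp only [inv_smul_smul] at this
    exact this

lemma not_sd_y (T : s.TT) (δ : Dt P) : ¬ SdW P T δ (cl P (.inl δ.y)) :=
  fun ⟨e, h1, _, h3⟩ => src_not_mem_H e (h1 ▸ h3)

lemma sd_S (T : s.TT) (δ : Dt P) : SdW P T δ (cl P (.inr δ.S)) :=
  let ⟨e, h1, h2⟩ := δ.on; ⟨e.1, !e.2, h2, e, h1, h2, tgt_mem_H e⟩

/-- the source of a dart -/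
def Dt.src (δ : Dt P) : W P := if δ.b then cl P (.inr δ.S) else cl P (.inl δ.y)

/-- the reversed dart -/
def Dt.rv (δ : Dt P) : Dt P := ⟨δ.y, δ.S, !δ.b, δ.on, δ.tv⟩

/-- steps of the new tree -/
abbrev Cn : W P → W P → Prop :=
  Relation.ReflTransGen fun x y => ∃ δ : Dt P, x = δ.src ∧ y = δ.rv.src

lemma cn_pair {y : V0 Y} {S : Pc P} (h : OnP P y S) :
    Cn P (cl P (.inl y)) (cl P (.inr S)) ∧ Cn P (cl P (.inr S)) (cl P (.inl y)) := by
  by_cases q : NtP P y S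
  · rw [show cl P (.inl y) = cl P (.inr S) from Quot.sound ⟨_, _, rfl, rfl, q⟩]
    exact ⟨.refl, .refl⟩
  · exact ⟨.single ⟨⟨y, S, false, h, q⟩, rfl, rfl⟩, .single ⟨⟨y, S, true, h, q⟩, rfl, rfl⟩⟩

lemma cn_vert (y y' : V0 Y) : Cn P (cl P (.inl y)) (cl P (.inl y')) :=
  dir_ind (Y := Y.pow (gpow_ker d)) (P := fun y => Cn P (cl P (.inl y)) (cl P (.inl y'))) .refl
    (fun e _ ih => ((cn_pair P (S := pc P e.up.1) ⟨e.up, rfl, rfl⟩).1.trans
      (cn_pair P ⟨e.up.rv, rfl, rfl⟩).2).trans ih) (by simp [pow_lev])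

lemma exists_on (T : s.TT) (S : Pc P) : ∃ y, OnP P y S := by
  obtain ⟨c, rfl⟩ := pc_surj P S
  obtain ⟨c', h1, h2⟩ := pres P T c 0
  exact ⟨⟨c'.ed false, by simp [h2]⟩, (c', false), rfl, ((pc_eq P).2 h1).symm⟩

lemma cn_all (T : s.TT) (u v : W P) : Cn P u v := by
  have key : ∀ u : W P, ∃ y, Cn P u (cl P (.inl y)) ∧ Cn P (cl P (.inl y)) u := by
    refine Quot.ind ?_
    rintro (y | S)
    · exact ⟨y, .refl, .refl⟩
    · obtain ⟨y, h⟩ := exists_on P T S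
      exact ⟨y, (cn_pair P h).2, (cn_pair P h).1⟩
  obtain ⟨y, h, -⟩ := key u
  obtain ⟨y', -, h'⟩ := key v
  exact (h.trans (cn_vert P y y')).trans h'

lemma dt_fin : ∃ A : Finset (Dt P), ∀ δ : Dt P, ∃ k : d.ker, k • δ ∈ A := by
  have : {δ : Dt P | (δ.y.1, δ.S, δ.b) ∈ Set.range fun p : Y.I × Bool × Bool =>
      (Y.en p.1 p.2.1, pc P ⟨1, p.1⟩, p.2.2)}.Finite :=
    (Set.finite_range _).preimage (f := fun δ : Dt P => (δ.y.1, δ.S, δ.b)) fun a _ b _ q => by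
      simp only [Prod.mk.injEq] at q
      exact Dt.ext (Subtype.ext q.1) q.2.1 q.2.2
  refine ⟨this.toFinset, fun δ => ?_⟩
  obtain ⟨e, h1, h2⟩ := δ.on
  have hk : e.1.g ∈ d.ker := mem_ker_iff.2 (by rw [← lev_src, h1, lev0])
  refine ⟨⟨e.1.g, hk⟩⁻¹, this.mem_toFinset.2 ⟨(e.1.i, e.2, δ.b), Prod.ext ?_ (Prod.ext ?_ rfl)⟩⟩
  · show Y.en e.1.i e.2 = e.1.g⁻¹ • δ.y.1
    rw [← h1]; exact (inv_smul_smul _ _).symm
  · show pc P ⟨1, e.1.i⟩ = e.1.g⁻¹ • δ.S
    rw [← h2, pc_smul]; exact congrArg (pc P) (E.ext (by simp) rfl)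

/-- the data of the new tree -/
def fd (T : s.TT) : FData (1 : Dg d.ker) (W P) (Dt P) where
  src := Dt.src P
  rv := Dt.rv P
  lev _ := 0
  sd δ v := if δ.b then ¬ SdW P T δ v else SdW P T δ v
  src_smul k δ := by
    obtain ⟨y, S, b, h1, h2⟩ := δ
    cases b <;> rfl
  rv_smul _ _ := rfl
  lev_smul _ _ := rfl
  sd_smul k δ v := by
    show (if δ.b then _ else _) ↔ _
    rw [sdW_smul]
  rv_rv δ := Dt.ext rfl rfl (Bool.not_not _)
  free k δ := by
    rintro (h | h)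
    · exact by_contra fun q => δ.tv ⟨k, q, congrArg Dt.y h, congrArg Dt.S h⟩
    · exact absurd (show δ.b = !δ.b from congrArg Dt.b h) (by simp)
  fin := dt_fin P
  lev_zero _ := ⟨1, rfl⟩
  lev_rv _ := rfl
  sd_src δ := by
    have h1 := not_sd_y P T δ
    have h2 := sd_S P T δ
    obtain ⟨y, S, b, h3, h4⟩ := δ
    cases b
    · exact h1
    · exact fun q => q h2
  sd_tgt δ := by
    have h1 := not_sd_y P T δ
    have h2 := sd_S P T δ
    obtain ⟨y, S, b, h3, h4⟩ := δ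
    cases b
    · exact h2
    · exact h1
  sd_ne δ δ' _ h1 h2 := by
    have h3 : SdW P T δ (cl P (.inl δ'.y)) ↔ SdW P T δ (cl P (.inr δ'.S)) :=
      sdZ_pair P δ'.on fun q => by
        by_cases t : δ'.b = δ.b
        · exact h1 (Dt.ext q.1 q.2 t)
        · exact h2 (Dt.ext q.1 q.2 (Bool.eq_not_iff.2 t))
    have h4 : SdW P T δ δ'.src ↔ SdW P T δ δ'.rv.src := by
      obtain ⟨y, S, b, h5, h6⟩ := δ'
      cases b
      · exact h3
      · exact h3.symm
    rw [h4]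
  conn u v _ := cn_all P T u v

/-- connection through vertex groups -/
def RC (r : Y.E → Y.E → Prop) (c c' : Y.E) : Prop :=
  r c c' ∨ ∃ y, Y.lev y = 0 ∧ Nt r y c ∧ Nt r y c'

lemma cl_iff {c c' : Y.E} :
    cl P (.inr (pc P c)) = cl P (.inr (pc P c')) ↔ Relation.EqvGen (RC r) c c' := by
  constructor
  · intro h
    let Φ : V0 Y ⊕ Pc P → Y.E → Prop := fun z c => z = .inr (pc P c) ∨ ∃ y, z = .inl y ∧ Nt r y.1 c
    have h1 : ∀ z a b, Φ z a → Φ z b → Relation.EqvGen (RC r) a b := by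
      rintro _ a b (rfl | ⟨y, rfl, ha⟩) (hb | ⟨y', hb, hb'⟩)
      · exact .rel _ _ (Or.inl ((pc_eq P).1 (Sum.inr_injective hb)))
      · cases hb
      · cases hb
      · cases hb; exact .rel _ _ (Or.inr ⟨_, lev0 _, ha, hb'⟩)
    have h2 : ∀ z z', Relation.EqvGen (RZ P) z z' →
        z = z' ∨ ∃ a b, Φ z a ∧ Φ z' b ∧ Relation.EqvGen (RC r) a b := fun z z' q => by
      induction q with
      | rel _ _ q =>
        obtain ⟨y, S, rfl, rfl, q⟩ := q
        obtain ⟨a, rfl⟩ := pc_surj P S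
        exact Or.inr ⟨a, a, Or.inr ⟨y, rfl, (ntP_iff P).1 q⟩, Or.inl rfl, .refl _⟩
      | refl => exact Or.inl rfl
      | symm _ _ _ ih =>
        exact ih.imp Eq.symm fun ⟨a, b, q1, q2, q3⟩ => ⟨b, a, q2, q1, .symm _ _ q3⟩
      | trans _ _ _ _ _ ih ih' =>
        rcases ih with rfl | ⟨a, b, q1, q2, q3⟩
        · exact ih'
        rcases ih' with rfl | ⟨a', b', q4, q5, q6⟩
        · exact Or.inr ⟨a, b, q1, q2, q3⟩
        · exact Or.inr ⟨a, b', q1, q5, .trans _ _ _ q3 (.trans _ _ _ (h1 _ _ _ q2 q4) q6)⟩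
    rcases h2 _ _ (Quot.eqvGen_exact h) with q | ⟨a, b, q1, q2, q3⟩
    · exact h1 _ _ _ (Or.inl rfl) (Or.inl q)
    · exact .trans _ _ _ (h1 _ _ _ (Or.inl rfl) q1) (.trans _ _ _ q3 (h1 _ _ _ q2 (Or.inl rfl)))
  · intro h
    induction h with
    | rel a b q =>
      rcases q with q | ⟨y, l, q1, q2⟩
      · rw [(pc_eq P).2 q]
      · let y0 : V0 Y := ⟨y, by simp [l]⟩
        exact (Quot.sound ⟨y0, _, rfl, rfl, (ntP_iff P).2 q1⟩ : cl P _ = cl P _).symm.trans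
          (Quot.sound ⟨y0, _, rfl, rfl, (ntP_iff P).2 q2⟩)
    | refl => rfl
    | symm _ _ _ ih => exact ih.symm
    | trans _ _ _ _ _ ih ih' => exact ih.trans ih'

lemma Nt.move {y : Y.V} {c : Y.E} (h : Nt r y c) {n : ℤ} (f : Hom Y Y n) (g : G) :
    Nt r (f (g • y)) (g • c) :=
  let ⟨u, h1, h2, h3⟩ := h
  ⟨g * u * g⁻¹, by simpa using h1, by rw [← f.map_smul, mul_smul, inv_smul_smul, mul_smul, h2],
    by rw [mul_smul, inv_smul_smul, mul_smul]; exact P.inv g _ _ h3⟩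

lemma rc_smul {c c' : Y.E} (h : Relation.EqvGen (RC r) c c') (g : G) :
    Relation.EqvGen (RC r) (g • c) (g • c') := by
  obtain ⟨f⟩ := s.hom_all (- dg d g)
  induction h with
  | rel a b q =>
    refine .rel _ _ (q.imp (P.inv g _ _) fun ⟨y, l, q1, q2⟩ =>
      ⟨_, ?_, q1.move P f g, q2.move P f g⟩)
    rw [f.lev_map, lev_smul', l]; ring
  | refl => exact .refl _
  | symm _ _ _ ih => exact .symm _ _ ih
  | trans _ _ _ _ _ ih ih' => exact .trans _ _ _ ih ih'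

lemma fix_iff (x : d.ker) : (∃ v : W P, x • v = v) ↔
    (x : G) ∈ Y.Ell ∨ ∃ c, Relation.EqvGen (RC r) ((x : G) • c) c := by
  constructor
  · rintro ⟨v, h⟩
    induction v using Quot.ind with
    | _ z =>
      by_cases q : ∃ S, cl P z = cl P (.inr S)
      · obtain ⟨S, q⟩ := q
        obtain ⟨c, rfl⟩ := pc_surj P S
        change x • cl P z = cl P z at h
        rw [q] at h
        exact Or.inr ⟨c, (cl_iff P).1 h⟩
      · rcases z with y | S
        swap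
        · exact (q ⟨S, rfl⟩).elim
        have key : ∀ a b, Relation.EqvGen (RZ P) a b → (a = .inl y ↔ b = .inl y) := fun a b t => by
          induction t with
          | rel _ _ t =>
            obtain ⟨y', S, rfl, rfl, t⟩ := t
            exact ⟨fun k => (q ⟨S, k ▸ Quot.sound ⟨y', S, rfl, rfl, t⟩⟩).elim, fun k => by cases k⟩
          | refl => rfl
          | symm _ _ _ ih => exact ih.symm
          | trans _ _ _ _ _ ih ih' => exact ih.trans ih'
        exact Or.inl ⟨y.1, congrArg Subtype.val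
          (Sum.inl_injective ((key _ _ (Quot.eqvGen_exact h)).2 rfl))⟩
  · rintro (h | ⟨c, h⟩)
    · rw [← ellAt_eq s.hom_all 0] at h
      obtain ⟨y, l, h⟩ := h
      exact ⟨cl P (.inl ⟨y, by simp [l]⟩), congrArg (fun y => cl P (.inl y)) (Subtype.ext h)⟩
    · exact ⟨cl P (.inr (pc P c)), (cl_iff P).2 h⟩

omit P in
/-- All pieces are connected through vertex groups. -/
theorem zconn (hK : St_MKF) (hF : FC d) (T : s.TT) (hM : MAX d Y.Ell) (P : s.PieceRel r)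
    (c c' : Y.E) : Relation.EqvGen
      (fun c c' => r c c' ∨ ∃ y, Y.lev y = 0 ∧ Nt r y c ∧ Nt r y c') c c' := by
  obtain ⟨T', ν, φ, h1, -, h2, -⟩ := hK d.ker 1 (W P) (Dt P) (fd P T)
  have l0 : ∀ a, T'.lev a = 0 := fun a => by rw [← ν.apply_symm_apply a, h2]; rfl
  have ell : ∀ x : d.ker, x ∈ T'.Ell ↔
      (x : G) ∈ Y.Ell ∨ ∃ c, Relation.EqvGen (RC r) ((x : G) • c) c := fun x => by
    rw [← fix_iff P]
    exact ⟨fun ⟨a, h⟩ => ⟨ν.symm a, ν.injective (by rw [h1, ν.apply_symm_apply, h])⟩,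
      fun ⟨v, h⟩ => ⟨ν v, by rw [← h1, h]⟩⟩
  have all : ∀ x, x ∈ T'.Ell := by
    by_contra q
    obtain ⟨u, u1, u2, u3⟩ := hyp P hF T c
    refine u3 1 one_pos ?_
    rw [pow_one]
    refine hM d.ker d.ker.subtype Subtype.val_injective d.ker.range_subtype T' l0
      ⟨ν (cl P (.inr (pc P c)))⟩ (not_forall.1 q) 1 one_pos (fun g x y _ e hx => ?_)
      (fun x hx => (ell x).2 (Or.inl hx)) ⟨u, u1⟩
      ((ell _).2 (Or.inr ⟨c, .rel _ _ (Or.inl (P.eqv.symm u2))⟩))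
    change (y : G) = g * x * g⁻¹ at e
    rw [ell] at hx ⊢
    rw [e]
    refine hx.imp (fun ⟨a, h⟩ => ⟨g • a, by rw [mul_smul, inv_smul_smul, mul_smul, h]⟩)
      fun ⟨a, h⟩ => ⟨g • a, ?_⟩
    rw [mul_smul, inv_smul_smul, mul_smul]
    exact rc_smul P h g
  obtain ⟨v, -, hv⟩ := serre (Y := T') ⊤ (l := 0) fun x _ =>
    let ⟨a, h⟩ := all x; ⟨a, l0 a, h⟩
  have key : ∀ c, ν (cl P (.inr (pc P c))) = v := fun c => by
    obtain ⟨u, u1, u2, u3⟩ := hyp P hF T c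
    refine fix_unique (g := (⟨u, u1⟩ : d.ker)) (fun q => u3 1 one_pos ?_) ?_ (hv _ trivial)
      (by rw [l0, l0])
    · rw [pow_one, show u = 1 from congrArg Subtype.val q]
      exact ⟨c.ed false, one_smul _ _⟩
    · rw [← h1]
      exact congrArg (fun S => ν (cl P (.inr S))) ((pc_eq P).2 (P.eqv.symm u2))
  exact (cl_iff P).1 (ν.injective ((key c).trans (key c').symm))

end Pool.Agent.Lib.FBC.T7.One
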