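import Pool.Agent.Lib.FBC.T7.OneV
import Pool.Agent.Lib.FBC.T7.OneZ
import Pool.Agent.Lib.FBC.T7.MKF

/-!
There is only one piece.
-/

namespace Pool.Agent.Lib.FBC.T7

theorem stONE (hV : St_VHT) : St_ONE := by
  intro G _ d hd Y s hT hM r hr c c'
  have ns : ∀ y c, One.Nt r y c → Ns y (pc hr c) := fun y c ⟨u, h1, h2, h3⟩ =>
    ⟨u, h1, h2, (pc_eq.2 h3).symm⟩
  have hc : ∀ S S' : Pc hr, (ZG hr).Reachable (.inl S) (.inl S') := fun S S' => by
    obtain ⟨a, rfl⟩ := pc_surj S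
    obtain ⟨b, rfl⟩ := pc_surj S'
    induction One.zconn stMKF hd hT hM hr a b with
    | rel a b h =>
      rcases h with h | ⟨y, l, h, h'⟩
      · rw [pc_eq.2 h]
      · exact (zg_adj (w := ⟨y, l, _, ns y a h⟩) (ns y a h)).reachable.trans
          (zg_adj (ns y b h')).reachable.symm
    | refl => rfl
    | symm _ _ _ h => exact h.symm
    | trans _ _ _ _ _ h h' => exact h.trans h'
  induction One.zconn stMKF hd hT hM hr c c' with
  | rel a b h =>
    rcases h with h | ⟨y, l, h, h'⟩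
    exacts [h, pc_eq.1 (ns_eq hd hT hc (Sb.subV hT _ hV hd) l (ns y a h) (ns y b h'))]
  | refl => exact hr.eqv.refl _
  | symm _ _ _ h => exact hr.eqv.symm h
  | trans _ _ _ _ _ h h' => exact hr.eqv.trans h h'

end Pool.Agent.Lib.FBC.T7
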