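import Pool.Agent.Lib.FBC.T7.Blue7
import Pool.Agent.Lib.FBC.RIB.ELL

/-!
Vertex groups of ribbon trees are cyclic.
-/

namespace Pool.Agent.Lib.FBC.T7

open Forest RIB

namespace VCYC

variable {K : Type} [Group K] {T : Forest (1 : Dg K)} (R : Ribbon T)

/-- the rotation amounts realised by group elements -/
def amt (ξ : R.Fl) : AddSubgroup ℤ where
  carrier := {j | ∃ k : K, k • ξ = (rho R ^ j) ξ}
  zero_mem' := ⟨1, one_smul _ _⟩
  add_mem' := by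
    rintro a b ⟨k, hk⟩ ⟨l, hl⟩
    exact ⟨l * k, by rw [mul_smul, hk, ← rho_smul, hl, zpow_add, Equiv.Perm.mul_apply]⟩
  neg_mem' := by
    rintro a ⟨k, hk⟩
    refine ⟨k⁻¹, ?_⟩
    rw [inv_smul_eq_iff, ← rho_smul, hk, ← Equiv.Perm.mul_apply, ← zpow_add, neg_add_cancel]
    rfl

lemma zpow_smul_eq {k : K} {ξ : R.Fl} {a : ℤ} (h : k • ξ = (rho R ^ a) ξ) (n : ℤ) :
    k ^ n • ξ = (rho R ^ (n * a)) ξ := by
  induction n using Int.induction_on with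
  | zero => simp
  | succ n ih =>
    rw [zpow_add_one, mul_smul, h, ← rho_smul, ih, ← Equiv.Perm.mul_apply, ← zpow_add]
    congr 2; ring
  | pred n ih =>
    rw [sub_eq_neg_add, zpow_add, zpow_neg_one, mul_smul, ih, inv_smul_eq_iff, ← rho_smul, h,
      ← Equiv.Perm.mul_apply, ← zpow_add]
    congr 2; ring

end VCYC

open VCYC in
theorem stVCYC : St_VCYC := by
  intro K _ hK T R hc ξ
  have hT : TF K := fun k n hn => hK k n (Nat.pos_of_ne_zero hn)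
  obtain ⟨a, ha⟩ := Int.subgroup_cyclic (amt R ξ)
  have m : ∀ j, j ∈ amt R ξ ↔ ∃ n : ℤ, n • a = j := fun j => by
    rw [ha, AddSubgroup.mem_closure_singleton]
  obtain ⟨k, hk⟩ := (m a).2 ⟨1, one_smul _ _⟩
  have hs : k • src R ξ = src R ξ := by rw [← src_smul, hk, src_rho]
  refine ⟨⟨⟨k, hs⟩, fun x => ?_⟩⟩
  obtain ⟨j, hj⟩ := ELL.rot R hT hc (k := x.1) (ξ := ξ) x.2
  obtain ⟨n, rfl⟩ := (m j).1 ⟨_, hj⟩
  refine ⟨n, Subtype.ext (smul_left_inj R (ξ := ξ) ?_)⟩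
  rw [hj]
  exact zpow_smul_eq R hk n

end Pool.Agent.Lib.FBC.T7
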