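import Pool.Agent.Lib.FBC.T7.B1

/-!
The pairing of flags.
-/

namespace Pool.Agent.Lib.FBC.T7B

open Forest T2 Flow Flow.Flag T7

variable {G : Type} [Group G] {d : Dg G} {Y : Forest d} {s : Flow Y}
variable {n D N : ℕ} {ξ ζ η : s.Flag} {ι : ℕ → Y.Dir}

lemma ovl (hB : St_BT) (hd : FC d) (h : s.NF) (q : s.QL ι D) (h1 : ξ.x ∈ s.Fib ι)
    (h2 : η.x ∈ s.Fib ι) (hne : ξ.x ≠ η.x) (l : Y.lev ξ.x.src = Y.lev η.x.src) :
    ∃ L, ∀ᶠ n in Filter.atTop, ∀ ξ' η' : s.Flag, ξ.Opp ξ' → η.Opp η' →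
      Ov L (ξ.anc n).x.src (ξ'.anc n).x.src (η.anc n).x.src (η'.anc n).x.src := by
  obtain ⟨L, n0, k⟩ := stOVL hB G d hd Y s h ι (QL.itin q) _ h1 _ h2 hne l
  exact ⟨L, Filter.eventually_atTop.2 ⟨n0, fun n hn ξ' η' o1 o2 v w =>
    k n hn _ _ _ _ v w (anc_desc n ξ) (anc_desc n η) (o1.2 n) (o2.2 n)⟩⟩

lemma far_ev (h : ξ.Far ζ) (R : ℕ) :
    ∀ᶠ n in Filter.atTop, R ≤ Y.dist (ξ.anc n).x.src (ζ.anc n).x.src :=
  Filter.eventually_atTop.2 (h R)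

lemma lev_anc (n : ℕ) (l : Y.lev ξ.x.src = Y.lev ζ.x.src) :
    Y.lev (ξ.anc n).x.src = Y.lev (ζ.anc n).x.src := by
  have := (anc_desc n ξ).lh_lev; have := (anc_desc n ζ).lh_lev; omega

lemma opp_lev (h : ξ.Opp ζ) : Y.lev ξ.x.src = Y.lev ζ.x.src := by rw [h.1]

lemma opp_fib (T : s.TT) (h : ξ.Opp ζ) (hx : ξ.x ∈ s.Fib ι) (n : ℕ) : (ζ.anc n).x ∈ s.Fib ι :=
  fib_anc T (h.1 ▸ hx) (anc_desc n ζ)

lemma near_p (hN : ∀ p q, s.Wd p q → Y.dist p q ≤ N) (ξ : s.Flag) : Y.dist ξ.p ξ.x.src ≤ N :=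
  ξ.cr.btw_src.dist_le.trans (hN _ _ ξ.wd)

lemma near_q (hN : ∀ p q, s.Wd p q → Y.dist p q ≤ N) (ξ : s.Flag) : Y.dist ξ.q ξ.x.src ≤ N :=
  ξ.cr.btw_src.symm.dist_le.trans (hN _ _ ξ.wd.symm)

lemma lev_q (ξ : s.Flag) : Y.lev ξ.q = Y.lev ξ.x.src := ξ.cr.lev.symm.trans ξ.cr.lev_src

lemma dist_via {a b c : Y.V} {r : ℕ} (l : Y.lev c = Y.lev a) (l' : Y.lev c = Y.lev b)
    (h : Y.dist c a ≤ r) (h' : Y.dist c b ≤ r) : Y.dist a b ≤ r + r := by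
  have := dist_triangle l.symm l'
  rw [Forest.dist_comm a c] at this
  omega

/-- the partner of a flag along an interior itinerary -/
lemma partner (T : s.TT) (hN : ∀ p q, s.Wd p q → Y.dist p q ≤ N) (q : s.QL ι D)
    (e : ι 0 = ξ.x) {y : Y.V} (h : s.INP ξ.p y ξ.q) : ∃ η : s.Flag, η.p = ξ.q ∧ η.q = ξ.p ∧
      η.x ∈ s.Fib ι ∧ (Y.Cross ξ.p y ξ.x → Y.Cross ξ.q y η.x) := by
  obtain ⟨x, h1, h2⟩ := part T h q.int (e ▸ ξ.cr) (hN _ _ ξ.wd)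
  rw [e] at h2
  rcases h2 with t | t
  · exact ⟨⟨_, _, x, ξ.wd.symm, t.2.extend_right (btw.symm h.1)⟩, rfl, rfl, ⟨_, _, h1⟩,
      fun _ => t.2⟩
  · exact ⟨⟨_, _, x, ξ.wd.symm, t.2.extend_left (btw.symm h.1)⟩, rfl, rfl, ⟨_, _, h1⟩,
      fun r => (not_mem_H_both r.2 t.1.1).elim⟩

lemma first_arm {y : Y.V} (h : s.INP ξ.p y ξ.q) (e : ξ.x.src = ξ.p) : Y.Cross ξ.p y ξ.x :=
  (arm h ξ.cr).resolve_right fun t =>
    inp_ne h (btw.antisymm' (e ▸ t.btw_src) h.1).symm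

theorem stTS (hB : St_BT) : St_TS := by
  intro G _ d hd Y s h hq hf ξ ζ e1 e2 e3
  have T := h.toTT
  refine Flow.Flag.ext e3 (by_contra fun hne => ?_) e1.symm
  obtain ⟨N, hN⟩ := wd_bound h
  obtain ⟨ι, D, e, q⟩ := hq ξ.x
  obtain ⟨y, w⟩ := ξ.wd
  obtain ⟨y', w'⟩ := ζ.wd
  obtain ⟨η2, p2, q2, f2, c2⟩ := partner T hN q e w
  obtain ⟨η3, p3, q3, f3, c3⟩ := partner T hN q (e.trans e1) w'
  have c1 := first_arm w e2
  have s1 := anc_deep1 T hN le_rfl w c1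
  have s2 := anc_deep1 T hN le_rfl (ξ := η2) (p2 ▸ q2 ▸ inp_symm w) (p2 ▸ c2 c1)
  have s3 := anc_deep1 T hN le_rfl (ξ := η3) (p3 ▸ q3 ▸ inp_symm w')
    (p3 ▸ c3 (first_arm w' (e1 ▸ e2.trans e3.symm)))
  have g1 := fib_anc T (ι := ι) ⟨0, 0, e ▸ desc_refl _⟩ (anc_desc N ξ)
  have g2 := fib_anc T f2 (anc_desc N η2)
  have g3 := fib_anc T f3 (anc_desc N η3)
  have r2 := anc_pq N q2.symm
  have r3 := anc_pq N (q3.trans e3).symm
  have n23 : (η2.anc N).x ≠ (η3.anc N).x := fun t => hne (by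
    rw [← p3, ← p2, ← (anc_up N η3).1, ← (anc_up N η2).1, ← s3, ← s2, t])
  generalize ξ.anc N = θ1 at *
  generalize η2.anc N = θ2 at *
  generalize η3.anc N = θ3 at *
  have l2 : Y.lev θ1.x.src = Y.lev θ2.x.src := by rw [s1, r2, lev_q]
  have l3 : Y.lev θ1.x.src = Y.lev θ3.x.src := by rw [s1, r3, lev_q]
  obtain ⟨L1, o1⟩ := ovl hB hd h q g1 g2 (fun t => wd_ne θ2.wd (by rw [← s2, ← t, s1, r2])) l2
  obtain ⟨L2, o2⟩ := ovl hB hd h q g1 g3 (fun t => wd_ne θ3.wd (by rw [← s3, ← t, s1, r3])) l3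
  obtain ⟨L3, o3⟩ := ovl hB hd h q g2 g3 n23 (l2.symm.trans l3)
  obtain ⟨ζ1, a1, b1⟩ := hf θ1
  obtain ⟨ζ2, a2, b2⟩ := hf θ2
  obtain ⟨ζ3, a3, b3⟩ := hf θ3
  obtain ⟨n, ⟨⟨o1, o2⟩, o3⟩, ⟨b1, b2⟩, b3⟩ := (((o1.and o2).and o3).and
    (((far_ev b1 (D + (L1 + L2 + L3) + 2 * (N + N) + 1)).and (far_ev b2 _)).and
      (far_ev b3 _))).exists
  have m1 := lev_anc n (opp_lev a1)
  have m2 := lev_anc n l2
  have m3 := lev_anc n l3
  obtain ⟨m, hm⟩ := exists_med (m1.symm.trans (m2.trans (lev_anc n (opp_lev a2))))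
    (m1.symm.trans (m3.trans (lev_anc n (opp_lev a3))))
  have d1 := near_p hN (θ1.anc n)
  have d2 := near_q hN (θ2.anc n)
  have d3 := near_q hN (θ3.anc n)
  rw [← anc_pq n r2] at d2
  rw [← anc_pq n r3] at d3
  have k1 := (θ1.anc n).cr.lev_src
  have := trip3 m1 m2 m3 (dist_via k1 (k1.trans m2) d1 d2) (dist_via k1 (k1.trans m3) d1 d3)
    (dist_via (k1.trans m2) (k1.trans m3) d2 d3) hm
    (q.tri _ (opp_fib T a1 g1 n) _ (opp_fib T a2 g2 n) _ (opp_fib T a3 g3 n) m hm)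
    ((o1 _ _ a1 a2).mono (L' := L1 + L2 + L3) (by omega)) ((o2 _ _ a1 a3).mono (by omega))
    ((o3 _ _ a2 a3).mono (by omega)) b1 b2 b3
  omega

lemma eq_of_anc (h : s.NF) (ht : s.TS) (e : ∀ n, (ξ.anc n).x = (ζ.anc n).x) : ξ = ζ := by
  have T := h.toTT
  obtain ⟨N, hN⟩ := wd_bound h
  have same : ∀ {ξ ζ : s.Flag} {y y' : Y.V}, (∀ n, (ξ.anc n).x = (ζ.anc n).x) →
      s.INP ξ.p y ξ.q → s.INP ζ.p y' ζ.q → Y.Cross ξ.p y ξ.x → Y.Cross ζ.p y' ζ.x → ξ = ζ := by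
    intro ξ ζ y y' e w w' c c'
    have s1 := anc_deep1 T hN le_rfl w c
    have k := ht _ _ (e N) s1 (by rw [← anc_deep1 T hN le_rfl w' c', ← e, s1])
    refine Flow.Flag.ext ?_ ?_ (by simpa using e 0)
    · rw [← (anc_up N ξ).1, ← (anc_up N ζ).1, k]
    · rw [← (anc_up N ξ).2.1, ← (anc_up N ζ).2.1, k]
  have diff : ∀ {ξ ζ : s.Flag} {y y' : Y.V}, (∀ n, (ξ.anc n).x = (ζ.anc n).x) →
      s.INP ξ.p y ξ.q → s.INP ζ.p y' ζ.q → Y.Cross ξ.p y ξ.x → ¬ Y.Cross y' ζ.q ζ.x := by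
    intro ξ ζ y y' e w w' c c'
    have k : ∀ n, N ≤ n → (ξ.anc n).x.src = (ξ.anc n).p ∧ (ξ.anc n).x.tgt = (ζ.anc n).q :=
      fun n hn => ⟨anc_deep1 T hN hn w c, by
        have := anc_deep1 T hN hn (ξ := ζ.rev) (inp_symm w') c'.symm
        rw [anc_rev] at this
        rw [e]; exact this⟩
    have k1 := exp_adj T (adj_dir (ξ.anc (1 + N)).x)
    rw [(k _ (by omega)).1, (k _ (by omega)).2, anc_add T rfl ξ, anc_add T rfl ζ] at k1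
    have k2 : s.σ _ = _ := (anc_up 1 (ξ.anc N)).1
    have k3 : s.σ _ = _ := (anc_up 1 (ζ.anc N)).2.1
    rw [k2, k3, ← (k N le_rfl).1, ← (k N le_rfl).2, dist_src_tgt] at k1
    omega
  obtain ⟨y, w⟩ := ξ.wd
  obtain ⟨y', w'⟩ := ζ.wd
  rcases arm w ξ.cr with c | c <;> rcases arm w' ζ.cr with c' | c'
  · exact same e w w' c c'
  · exact (diff e w w' c c').elim
  · exact (diff (fun n => (e n).symm) w' w c' c).elim
  · have := same (ξ := ξ.rev) (ζ := ζ.rev) (fun n => by rw [anc_rev, anc_rev, rev_x, rev_x, e])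
      (inp_symm w) (inp_symm w') c.symm c'.symm
    simpa using congrArg Flow.Flag.rev this

theorem stDIST (hB : St_BT) : St_DIST := by
  intro G _ d hd Y s h ht ξ ζ hx hne
  have T := h.toTT
  by_contra hf
  obtain ⟨t, hne'⟩ := not_forall.1 fun e => hne (eq_of_anc h ht e)
  have k3 : s.Desc t (ζ.anc t).x ξ.x := hx ▸ anc_desc t ζ
  have ex : ∀ m, ∃ η : s.Flag, η.x = (ξ.anc t).x ∧ (η.anc m).x = (ξ.anc (m + t)).x ∧
      Y.Cross η.q η.p (ζ.anc t).x := fun m => by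
    have k1 := anc_anc T (rfl : m + t = m + t) ξ
    have k2 := anc_anc T (rfl : m + t = m + t) ζ
    rcases not_far hB hd h hx hf (m + t) with c | c
    · exact (hne' (mid_unique T k1 (c ▸ k2) (anc_desc t ξ) k3)).elim
    · exact (tip_td T c k1 k2 (anc_desc t ξ) k3).resolve_left fun r => hne' r.1
  choose η h1 h2 h3 using ex
  obtain ⟨k, hk⟩ := fin_unif (fin_flag h (ξ.anc t).x) (fun θ k => ∀ m ≥ k, η m ≠ θ)
    (fun _ _ _ r u m hm => u m (r.trans hm)) fun θ hθ => by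
      by_contra c
      simp only [not_exists, not_forall, not_not] at c
      have e : θ = ξ.anc t := eq_of_anc h ht fun i => by
        obtain ⟨m, hm, r⟩ := c i
        have e : m = m - i + i := by omega
        have k1 := anc_anc T e θ
        rw [← r, h2, anc_add T rfl ξ, r] at k1
        exact mid_unique T k1 (anc_anc T e _) (hθ ▸ anc_desc i θ) (anc_desc i _)
      obtain ⟨m, -, r⟩ := c 0
      obtain ⟨y, w⟩ := θ.wd
      refine nt T w (r ▸ h3 m) k3 ?_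
      rw [e, (anc_up t ξ).1, (anc_up t ξ).2.1]
      exact ξ.cr
  exact hk _ (h1 k) k le_rfl rfl

lemma far_symm (h : ξ.Far ζ) : ζ.Far ξ := fun R =>
  let ⟨n0, k⟩ := h R; ⟨n0, fun n hn => by rw [Forest.dist_comm]; exact k n hn⟩

lemma not_mid (hB : St_BT) (hd : FC d) (h : s.NF) (hf : s.Far2) (q : s.QL ι D) (e : ι 0 = ξ.x)
    (o1 : ξ.Opp ζ) (o3 : ξ.Opp η) (f1 : ξ.Far ζ) (f3 : ξ.Far η) : ∀ᶠ n in Filter.atTop, ∀ m,
      Y.Med (ξ.anc n).x.src (ζ.anc n).x.src (η.anc n).x.src m →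
        ¬ Y.dist (ξ.anc n).x.src m ≤ D := by
  have T := h.toTT
  obtain ⟨N, hN⟩ := wd_bound h
  obtain ⟨y, w⟩ := ξ.wd
  obtain ⟨θ, p2, q2, g2, -⟩ := partner T hN q e w
  have g1 : ξ.x ∈ s.Fib ι := ⟨0, 0, e ▸ desc_refl _⟩
  have l : Y.lev ξ.x.src = Y.lev θ.x.src := by rw [← lev_q ξ, ← p2, θ.cr.lev_src]
  obtain ⟨L, o⟩ := ovl hB hd h q g1 g2
    (fun t => not_mem_H_both ξ.cr.2 (t ▸ p2 ▸ θ.cr.1)) l
  obtain ⟨θ', a, b⟩ := hf θ
  filter_upwards [o, far_ev f1 (D + (L + D) + 2 * (N + N) + 1),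
    far_ev f3 (D + (L + D) + 2 * (N + N) + 1), far_ev b (D + (L + D) + 2 * (N + N) + 1)]
    with n o b1 b2 b3 m hm hD
  have m1 := lev_anc n (opp_lev o1)
  have m3 := lev_anc n l
  obtain ⟨m', hm'⟩ := exists_med (m1.symm.trans (lev_anc n (opp_lev o3)))
    (m1.symm.trans (m3.trans (lev_anc n (opp_lev a))))
  have d1 := near_p hN (ξ.anc n)
  have d2 := near_q hN (θ.anc n)
  rw [← anc_pq n q2.symm] at d2
  have k1 := (ξ.anc n).cr.lev_src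
  have k2 := dist_via k1 (k1.trans m3) d1 d2
  have := trip3 m1 rfl m3 (by simp) k2 k2 hm'
    (q.tri _ (opp_fib T o1 g1 n) _ (opp_fib T o3 g1 n) _ (opp_fib T a g2 n) m' hm')
    (L := L + D) (fun v w t1 t2 t3 t4 => by
      have := (t3.trans_right' (hm.gate t1)).dist_mid (t4.trans_right' (hm.gate t2))
      omega)
    ((o _ _ o1 a).mono (by omega)) ((o _ _ o3 a).mono (by omega)) b1 b2 b3
  omega

theorem stTWO (hB : St_BT) : St_TWO := by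
  intro G _ d hd Y s h hq hf hD ξ
  have T := h.toTT
  obtain ⟨ζ, o1, f1⟩ := hf ξ
  have n1 : ζ ≠ ξ := by
    rintro rfl
    obtain ⟨n, k⟩ := f1 1
    simpa using k n le_rfl
  refine ⟨ζ, ⟨n1, o1⟩, fun η ⟨n2, o2⟩ => by_contra fun n3 => ?_⟩
  obtain ⟨ι, D, e, q⟩ := hq ξ.x
  have o3 := opp_trans (opp_symm o1) o2
  have f2 := hD ξ η o2.1 n2.symm
  have f3 := hD ζ η o3.1 (Ne.symm n3)
  obtain ⟨n, ⟨k1, k2⟩, k3⟩ := (((not_mid hB hd h hf q e o1 o2 f1 f2).and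
    (not_mid hB hd h hf q (e.trans o1.1) o3 (opp_symm o1) f3 (far_symm f1))).and
    (not_mid hB hd h hf q (e.trans o2.1) (opp_symm o2) (opp_symm o3) (far_symm f2)
      (far_symm f3))).exists
  have g1 : ξ.x ∈ s.Fib ι := ⟨0, 0, e ▸ desc_refl _⟩
  obtain ⟨m, hm⟩ := exists_med (lev_anc n (opp_lev o1)) (lev_anc n (opp_lev o2))
  rcases q.tri _ (opp_fib T (opp_refl ξ) g1 n) _ (opp_fib T o1 g1 n) _ (opp_fib T o2 g1 n) m hm
    with t | t | t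
  exacts [k1 m hm t, k2 m hm.rot t, k3 m hm.rot.rot t]

theorem stPAIR (hB : St_BT) : St_PAIR :=
  pair_of stSTABK (stCOVER hB) (stFAR2 hB) (stTS hB) (stDIST hB) (stTWO hB)

end Pool.Agent.Lib.FBC.T7B
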