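import Pool.Agent.Lib.FBC.T7.Blue7

/-!
Close darts with a common descendant merge or become a tip in bounded time.
-/

namespace Pool.Agent.Lib.FBC.T7

open Forest Flow T2

namespace BT

variable {G : Type} [Group G] {d : Dg G} {Y : Forest d} {s : Flow Y}
  {a b t w z z' : Y.V} {e e' : Y.Dir} {r n : ℕ} {p y q : ℕ → Y.V} {c : Y.E}

/-- the points behind `b`, seen from `a`, form a convex set -/
lemma behind (h : Y.btw a b z) (h' : Y.btw a b z') (k : Y.btw z w z') : Y.btw a b w := by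
  refine ⟨h.1, h.2.1.trans k.1, fun c => ?_⟩
  have h1 := h.2.2 c; have h2 := h'.2.2 c; have h3 := k.2.2 c
  revert h1 h2 h3
  cases c.sd a <;> cases c.sd b <;> cases c.sd z <;> cases c.sd z' <;> cases c.sd w <;> simp

lemma tail (h : Loc s (r + 1) a b p y q) :
    Loc s r (y 0) b (fun i => p (i + 1)) (fun i => y (i + 1)) (fun i => q (i + 1)) where
  inp i hi := h.inp _ (by omega)
  mid i hi := h.mid _ (by omega)
  zero e := by subst e; exact (h.lst one_pos).2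
  fst hr := ⟨bt_out' (h.mid 0 (by omega)).1 (h.mid 0 (by omega)).2.1, (h.mid 0 (by omega)).2.2⟩
  lst hr := by
    obtain ⟨k, rfl⟩ : ∃ k, r = k + 1 := ⟨r - 1, by omega⟩
    exact h.lst (by omega)

/-- passing a wedge -/
lemma pass (T : s.TT) {p y q : Y.V} (h : s.INP p y q) (l : s.Legal t p y) :
    s.Legal t p q ∧ (s.Legal y q w → s.Legal t q w) := by
  have : ∀ n, Y.btw (s.σ^[n] t) (s.σ^[n] p) (s.σ^[n] q) ∧
      (s.Legal y q w → Y.btw (s.σ^[n] t) (s.σ^[n] q) (s.σ^[n] w)) := fun n => by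
    obtain ⟨m, k1, k2, k3, -⟩ := inp_it T h n
    have e := bt_four (bt_in' (l n) k2) k1.1 (inp_ne k1)
    exact ⟨e, fun l' => bt_four' (bt_out' e k1.1) (bt_in k3 (l' n)) (inp_ne' k1)⟩
  exact ⟨fun n => (this n).1, fun l' n => (this n).2 l'⟩

lemma pos (h : Loc s (r + 1) a b p y q) : Y.btw a (p 0) b ∧ Y.btw a (y 0) b ∧ Y.btw a (q 0) b ∧
    Y.btw (y 0) (q 0) b ∧ (0 < r → Y.btw (y 0) (q 0) (p 1)) := by
  obtain ⟨k1, k2, k3, -, k5⟩ := st_on h.st (i := 0) (by omega)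
  exact ⟨k1, k2, k3, bt_in (bt_of_le k2 k3 k5.le) k3,
    fun hr => bt_in' (h.mid 0 (by omega)).1 (h.mid 0 (by omega)).2.1⟩

/-- points before the first wedge cut the path for ever -/
lemma cut (T : s.TT) (h : Loc s r a b p y q) (h1 : Y.btw a t z) (h2 : Y.btw a z b)
    (h3 : 0 < r → Y.btw a z (p 0)) (h4 : Y.btw z w b) : s.Legal t z w := by
  induction r generalizing a p y q t z w with
  | zero => exact (h.zero rfl).2 _ _ _ (bt_out h1 h2) h2 (bt_out' h2 h4) (bt_in h1 (bt_in' h2 h4))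
  | succ r ih =>
    obtain ⟨f1, f2⟩ := h.fst (by omega)
    have k := h.inp 0 (by omega)
    have g1 := h3 (by omega)
    have g2 := bt_out g1 f1
    have g3 := bt_out h1 g2
    have L : ∀ u, Y.btw z u (y 0) → s.Legal t z u := fun u hu =>
      f2.2 _ _ _ g3 g2 (bt_out' g2 hu) (bt_in h1 (bt_in' g2 hu))
    obtain ⟨o1, o2, o3, o4, o5⟩ := pos h
    have P := fun w => pass (w := w) T k
      (f2.2 _ _ _ g3 f1 (bt_right f2.1) (bt_in (bt_out h1 g1) f1))
    have Q : s.Legal t z (q 0) := fun n =>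
      bt_out (f2.2 _ _ _ g3 g2 f1 (bt_in h1 g1) n) ((P w).1 n)
    rcases bt_split (bt_in g2 o2) h4 with e | e
    · exact L w e
    rcases bt_split o4 e with e' | e'
    · exact fun n => behind (L _ (bt_right g2.2.1) n) (Q n) (lp_lg k.2.2.1 e' n)
    · exact fun n => bt_out (Q n) ((P w).2 (ih (tail h) (bt_left o4.1) o4 o5 e') n)

lemma cut_q (T : s.TT) (h : Loc s (r + 1) a b p y q) (h1 : Y.btw a t (q 0))
    (h2 : Y.btw (q 0) w b) : s.Legal t (q 0) w := by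
  obtain ⟨f1, f2⟩ := h.fst (by omega)
  have k := h.inp 0 (by omega)
  obtain ⟨o1, o2, o3, o4, o5⟩ := pos h
  have l := cut T (tail h) (bt_left o4.1) o4 o5 h2
  rcases bt_split (bt_in' o2 o4) h1 with e | e
  · exact fun n => bt_symm (behind (bt_symm ((pass T k (lp_lg f2 f1)).2 l n)) (bt_symm (l n))
      (lp_lg f2 e n))
  · exact cut T (tail h) e o4 o5 h2

/-- the `n`-th image of the dart `e` contains the edge `c` -/
def Ov (s : Flow Y) (n : ℕ) (c : Y.E) (e : Y.Dir) : Prop :=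
  c.sd (s.σ^[n] e.src) ≠ c.sd (s.σ^[n] e.tgt)

lemma no_cut (h : Ov s n c e) (h' : Ov s n c e') (z : Y.V)
    (k : ∀ t w, (t = e.src ∨ t = e.tgt) → (w = e'.src ∨ w = e'.tgt) → s.Legal t z w) : False := by
  have h1 := (k _ _ (.inl rfl) (.inl rfl) n).2.2 c
  have h2 := (k _ _ (.inl rfl) (.inr rfl) n).2.2 c
  have h3 := (k _ _ (.inr rfl) (.inl rfl) n).2.2 c
  have h4 := (k _ _ (.inr rfl) (.inr rfl) n).2.2 c
  unfold Ov at h h'
  revert h h' h1 h2 h3 h4
  cases c.sd (s.σ^[n] e.src) <;> cases c.sd (s.σ^[n] e.tgt) <;> cases c.sd (s.σ^[n] e'.src) <;>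
    cases c.sd (s.σ^[n] e'.tgt) <;> cases c.sd (s.σ^[n] z) <;> simp

lemma early (T : s.TT) (h : Loc s r a b p y q) (c1 : Y.Cross a b e) (c2 : b ∈ e'.H)
    (o : e.tgt ∈ e'.rv.H) (k : 0 < r → p 0 ∈ e.H) (h1 : Ov s n c e) (h2 : Ov s n c e') : False := by
  have c3 : Y.Cross e.tgt b e' := ⟨o, c2⟩
  refine no_cut h1 h2 e.tgt fun t w ht hw => cut T h ?_ c1.btw_tgt
    (fun hr => Cross.btw_tgt ⟨c1.1, k hr⟩) ?_
  · rcases ht with rfl | rfl
    exacts [c1.btw1, bt_right c1.btw_tgt.1]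
  · rcases hw with rfl | rfl
    exacts [c3.btw_src, c3.btw_tgt]

lemma loc0 (h : s.LegalP a b) : Loc s 0 a b p y q :=
  ⟨by simp, by simp, fun _ => h, by simp, by simp⟩

/-- two darts of a stable path whose images share an edge lie on the two arms of a wedge -/
lemma core (T : s.TT) (h : Loc s r a b p y q) (c1 : Y.Cross a b e) (c2 : Y.Cross a b e')
    (o : e.tgt ∈ e'.rv.H) (h1 : Ov s n c e) (h2 : Ov s n c e') :
    ∃ p y q, s.INP p y q ∧ Y.Cross p y e ∧ Y.Cross y q e' := by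
  have sub : ∀ z ∈ e.rv.H, z ∈ e'.rv.H := fun z hz =>
    mem_rv_H_of_not ((rv_H_lev hz).trans (c1.lev_src.symm.trans c2.lev_src)) fun hz' =>
      not_mem_H_both ((Cross.btw_tgt ⟨hz, c1.2⟩).mem_H hz' c2.2) o
  induction r generalizing a p y q with
  | zero => exact (early T h c1 c2.2 o (by simp) h1 h2).elim
  | succ r ih =>
    have k := h.inp 0 (by omega)
    obtain ⟨o1, o2, o3, o4, -⟩ := pos h
    rcases c1.split o3.1 with d1 | d1
    swap
    · exact ih h.tail d1 ⟨sub _ d1.1, c2.2⟩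
    rcases c2.split o3.1 with d2 | d2
    swap
    · refine (no_cut h1 h2 (q 0) fun t w ht hw => cut_q T h ?_ ?_).elim
      · rcases ht with rfl | rfl
        exacts [d1.btw_src, d1.btw_tgt]
      · rcases hw with rfl | rfl
        exacts [d2.btw_src, d2.btw_tgt]
    rcases c1.split o1.1 with d3 | d3
    · exact (early T h c1 c2.2 o (fun _ => d3.2) h1 h2).elim
    rcases c1.split o2.1 with d4 | d4
    swap
    · exact (early T (loc0 (p := p) (y := y) (q := q) k.2.2.1) ⟨d4.1, d1.2⟩ d2.2 o (by simp)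
        h1 h2).elim
    rcases c2.split o2.1 with d5 | d5
    · exact (early T (loc0 (p := p) (y := y) (q := q) k.2.1) ⟨d3.1, d4.2⟩ d5.2 o (by simp)
        h1 h2).elim
    · exact ⟨_, _, _, k, ⟨d3.1, d4.2⟩, d5.1, d2.2⟩

lemma face (l : Y.lev e'.src = Y.lev e.src) (ne : e.1 ≠ e'.1) :
    ∃ g, (g = e ∨ g = e.rv) ∧ ∀ g', (g' = e' ∨ g' = e'.rv) → g'.src ∈ g.H ∧ g'.tgt ∈ g.H := by
  have key : ∀ g : Y.Dir, g.1 = e.1 → e'.src ∈ g.H →
      ∀ g', (g' = e' ∨ g' = e'.rv) → g'.src ∈ g.H ∧ g'.tgt ∈ g.H := fun g hg h => by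
    have h' : e'.tgt ∈ g.H :=
      ⟨(lev_src_tgt e').symm.trans h.1, (sd_src_tgt (hg ▸ ne)).symm.trans h.2⟩
    rintro _ (rfl | rfl)
    exacts [⟨h, h'⟩, ⟨h', by simpa using h⟩]
  exact (mem_H_or l).elim (fun h => ⟨e, .inl rfl, key _ rfl h⟩) fun h => ⟨_, .inr rfl, key _ rfl h⟩

lemma ends {g : Y.Dir} (h : s.Desc n e e') (hg : g = e' ∨ g = e'.rv) :
    ∃ u, Y.lev e.src = Y.lev u ∧ Y.dist e.src u ≤ 1 ∧ s.σ^[n] u ∈ g.rv.H := by
  rcases hg with rfl | rfl
  exacts [⟨_, rfl, by simp, h.1⟩, ⟨_, lev_src_tgt e, by simp, by simpa using h.2⟩]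

lemma ov {g : Y.Dir} (h : s.Desc n e e') (hg : g = e ∨ g = e.rv) : Ov s n e'.1 g := by
  have := sd_ne_of_mem (Cross.mem h)
  rcases hg with rfl | rfl
  exacts [this, by simpa [Ov] using this.symm]

end BT

open BT in
theorem stBT : St_BT := by
  intro G _ d _ Y s h R
  have T := h.toTT
  obtain ⟨j, hj⟩ := stab h (R + 2)
  refine ⟨j, fun i a b a' b' x hR ha hb ha' hb' => or_iff_not_imp_left.2 fun ne => ⟨ha', hb', ?_⟩⟩
  have ne' : a'.1 ≠ b'.1 := fun e => by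
    rcases eq_or_rv e with e | e
    · exact ne e.symm
    · subst e
      exact not_mem_H_both ha'.2 hb'.1
  have l1 : Y.lev a'.src = Y.lev b'.src := by
    have h1 := (Cross.lev_src ha').trans (Cross.lev_src hb').symm
    simpa using h1
  have l2 : Y.lev a.src = Y.lev b.src := by
    have h1 := ((Cross.lev_src ha).trans l1).trans (Cross.lev_src hb).symm
    simpa using h1
  obtain ⟨g, g1, g2⟩ := face l1.symm ne'
  obtain ⟨k, k1, k2⟩ := face l1 ne'.symm
  obtain ⟨u, u1, u2, u3⟩ := ends ha g1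
  obtain ⟨v, v1, v2, v3⟩ := ends hb k1
  have l3 : Y.lev u = Y.lev v := u1.symm.trans (l2.trans v1)
  obtain ⟨r, p, y, q, -, st⟩ := hj u v (il_le l3 (by
    have := ds_tri u1.symm (l2.trans v1)
    have := ds_tri l2 v1
    have := ds_comm u a.src
    omega))
  have dj : Disjoint g.rv.H k.rv.H :=
    H_disjoint (by simpa using (k2 g g1).1) (by simpa using (g2 k k1).1)
  have l4 := lev_it (s := s) j l3
  have c1 : Y.Cross (s.σ^[j] u) (s.σ^[j] v) g :=
    ⟨u3, mem_H_of_not (l4.symm.trans (rv_H_lev u3)) fun e => Set.disjoint_left.1 dj e v3⟩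
  have c2 : Y.Cross (s.σ^[j] v) (s.σ^[j] u) k :=
    ⟨v3, mem_H_of_not (l4.trans (rv_H_lev v3)) fun e => Set.disjoint_left.1 dj u3 e⟩
  have k1' : k.rv = b' ∨ k.rv = b'.rv := by rcases k1 with rfl | rfl <;> simp
  obtain ⟨p, y, q, w1, w2, w3⟩ := core T (loc_of_st st) c1 c2.symm
    (by simpa using (k2 g g1).2) (ov ha' g1) (ov hb' k1')
  have w4 := w2.extend_right w1.1
  have w5 := w3.extend_left w1.1
  rcases g1 with rfl | rfl <;> rcases k1' with e | e <;> rw [e] at w3 w5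
  · exact (not_mem_H_both (w1.2.1.lh_cross w2 ha').2 (w1.2.2.1.lh_cross w3 hb').1).elim
  · exact ⟨p, q, ⟨y, w1⟩, w4, by simpa using w5.symm⟩
  · exact ⟨q, p, ⟨y, inp_symm w1⟩, by simpa using w4.symm, w5⟩
  · exact (not_mem_H_both (w1.2.1.lh_cross w2 ha'.lh_rv).2
      (w1.2.2.1.lh_cross w3 hb'.lh_rv).1).elim

end Pool.Agent.Lib.FBC.T7
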