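import Pool.Agent.Lib.FBC.T7.Blue7

/-!
Margins, divergence from interior itineraries.
-/

namespace Pool.Agent.Lib.FBC.T2

open Forest

variable {G : Type} [Group G] {d : Dg G} {Y : Forest d} {s : Flow Y}
variable {a b c u v w x y A B : Y.V} {e e₀ e₁ e₂ e₃ : Y.Dir}

lemma dir_adj (e : Y.Dir) : Adj e.src e.tgt := first_adj (first_self e)

lemma dir_ds (e : Y.Dir) : Y.dist e.src e.tgt = 1 := (adj_ds (dir_adj e)).2

lemma dir_lp (T : s.TT) (e : Y.Dir) (n : ℕ) : s.LegalP (s.σ^[n] e.src) (s.σ^[n] e.tgt) :=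
  lp_it T (lp_adj (dir_adj e)) n

lemma adj_side (h : Adj x y) (l : Y.lev y = Y.lev w) : Y.btw w x y ∨ Y.btw x y w := by
  obtain ⟨m, m1, m2, m3⟩ := ex_med (adj_ds h).1 l
  rcases bt_adj h m1 with rfl | rfl
  · exact Or.inl (bt_symm m2)
  · exact Or.inr m3

lemma rvs (e : Y.Dir) : e.rv.src = e.tgt := rfl

lemma rvt (e : Y.Dir) : e.rv.tgt = e.src := by simp [Dir.rv, Dir.tgt, Dir.src]

lemma marg_src (T : s.TT) {K i : ℕ} (l : s.LegalP w e.tgt) (o : Y.btw w e.src e.tgt)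
    (h1 : s.IDesc K e e₁) (h2 : s.Desc i e₁ e₂) :
    i < Y.dist (s.σ^[i + K] w) e₂.src ∧ Y.btw (s.σ^[i + K] w) e₂.src e₂.tgt := by
  obtain ⟨a1, a2, a3⟩ := cross_bt h1.1
  obtain ⟨b1, b2, b3⟩ := cross_bt h2
  have l1 := dir_lp T e K
  have k1 := lp_lg l o (i + K)
  have k2 := lp_lg l1 a2 i
  have k3 := lp_lg (lp_left l1 a2) a3 i
  have k4 := exp_lt T (lp_left l1 a1) h1.2.1.symm i
  rw [← Function.iterate_add_apply] at k3 k4
  rw [← Function.iterate_add_apply, ← Function.iterate_add_apply] at k2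
  have k5 := bt_in' k1 k2
  have k6 := bt_out' k3 b2
  have k7 := bt_out' (bt_in' k3 b2) b3
  have k8 := bt_in' k5 k6
  have := bt_ds (bt_in' k8 k7)
  have := bt_ds (bt_in' k3 b1)
  exact ⟨by omega, bt_out' k8 k7⟩

/-- margins: a vertex of a legal path through `e` moves away from interior descendants of `e` -/
lemma marg (T : s.TT) {K i : ℕ} (l : s.LegalP A B) (h : Y.btw A e.src B) (h' : Y.btw A e.tgt B)
    (hw : Y.btw A w B) (h1 : s.IDesc K e e₁) (h2 : s.Desc i e₁ e₂) :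
    i < Y.dist e₂.src (s.σ^[i + K] w) ∧ i < Y.dist e₂.tgt (s.σ^[i + K] w) := by
  rw [ds_comm e₂.src, ds_comm e₂.tgt]
  rcases adj_side (dir_adj e) (h'.2.1.trans hw.2.1.symm) with o | o
  · obtain ⟨k1, k2⟩ := marg_src T (lp_sub l hw h') o h1 h2
    have := bt_ds k2
    exact ⟨k1, by omega⟩
  · obtain ⟨k1, k2⟩ := marg_src T (e := e.rv) (w := w) (rvt e ▸ lp_sub l hw h)
      (rvt e ▸ bt_symm o) h1.sa_rv h2.lh_rv
    rw [rvt] at k2
    have := bt_ds k2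
    rw [rvs] at *
    exact ⟨by omega, k1⟩

lemma cls_not_lp (T : s.TT) (h : s.Cls a b) (hne : a ≠ b) : ¬ s.LegalP a b := fun l => by
  have := exp_σ T l
  have := cls_ds T h
  have := ds_pos l.1 hne
  omega

/-- the maximal legal initial segment of a split path is controlled by one orbit -/
lemma SP.head (T : s.TT) {N : ℕ} (hN : ∀ p y q, s.INP p y q → Y.dist p q ≤ N) (h : SP s a b) :
    ∃ w, s.LegalP a w ∧ s.Legal a w b ∧ ∀ n x, Y.btw (s.σ^[n] w) x (s.σ^[n] b) →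
      s.LegalP (s.σ^[n] w) x → Y.dist (s.σ^[n] w) x ≤ 2 * N := by
  induction h with
  | refl a => exact ⟨a, lp_refl _, lg_left rfl, fun n x hx _ => by simp [bt_self hx]⟩
  | @step a u b e1 e2 h ih =>
    have e3 : (s.Cls a u ∧ a ≠ u) ∨ s.LegalP a u := by
      by_cases e : a = u
      · exact Or.inr (e ▸ lp_refl _)
      · exact e2.imp (fun l => ⟨l, e⟩) id
    rcases e3 with ⟨c, hne⟩ | l
    · refine ⟨a, lp_refl _, lg_left (bt_lev (lg_bt e1)), fun n x hx l => ?_⟩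
      have c' := cls_it T c n
      rcases bt_total hx (e1 n) with o | o
      · exact Nat.le_of_lt_succ (cls_noleg T hN c' _ _ (bt_left (bt_lev o)) o l)
      · refine (cls_not_lp T c' (fun e => ?_) (lp_left l o)).elim
        have := cls_ds_it T c n
        have := ds_pos (cls_lev c) hne
        simp_all
    · obtain ⟨w, k1, k2, k3⟩ := ih
      exact ⟨w, lp_cat l k1 fun n => bt_in' (e1 n) (k2 n), fun n => bt_out' (e1 n) (k2 n), k3⟩

lemma Pr.symm {m : Y.V} (h : Pr a b u m) : Pr b a u m := ⟨bt_symm h.1, h.2.2, h.2.1⟩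

lemma Pr.uniq {m n : Y.V} (h : Pr a b u m) (h' : Pr a b u n) : m = n :=
  (h.two h').elim id fun e => (bt_self e.1).trans (bt_self e.2).symm

/-- the projection to a legal path follows the orbit of a vertex of the path -/
lemma proj_orbit (T : s.TT) {N : ℕ} (hN : ∀ p y q, s.INP p y q → Y.dist p q ≤ N)
    (l : s.LegalP A B) (h : SP s A c) (h' : SP s B c) : ∃ w, Y.btw A w B ∧ ∀ n μ,
      Pr (s.σ^[n] A) (s.σ^[n] B) (s.σ^[n] c) μ → Y.dist (s.σ^[n] w) μ ≤ 2 * N := by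
  have key : ∀ A B w, s.LegalP A B → Y.btw A w B → s.Legal A w c →
      (∀ n x, Y.btw (s.σ^[n] w) x (s.σ^[n] c) → s.LegalP (s.σ^[n] w) x →
        Y.dist (s.σ^[n] w) x ≤ 2 * N) → ∀ n μ,
      Pr (s.σ^[n] A) (s.σ^[n] B) (s.σ^[n] c) μ → Y.dist (s.σ^[n] w) μ ≤ 2 * N :=
    fun A B w l o k2 k3 n μ p =>
      k3 n μ (p.bt (lp_lg l o n)) (lp_sub (lp_it T l n) (lp_lg l o n) p.1)
  obtain ⟨w, k1, k2, k3⟩ := h.head T hN
  obtain ⟨w', j1, j2, j3⟩ := h'.head T hN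
  obtain ⟨m, p⟩ := ex_pr l.1 h'.lev
  rcases bt_total (lg_bt k2) p.2.1 with o | o
  · exact ⟨w, bt_out o p.1, key A B w l (bt_out o p.1) k2 k3⟩
  rcases bt_total (lg_bt j2) p.2.2 with o' | o'
  · exact ⟨w', bt_symm (bt_out o' (bt_symm p.1)), fun n μ q =>
      key B A w' (lp_symm l) (bt_out o' (bt_symm p.1)) j2 j3 n μ q.symm⟩
  refine ⟨m, p.1, fun n μ q => ?_⟩
  rw [q.uniq ⟨lp_lg l p.1 n, bt_out (lp_lg k1 o n) (k2 n), bt_out (lp_lg j1 o' n) (j2 n)⟩]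
  simp

/-- divergence: the projection of `σ^n c` to the image of `e₀` is far from interior
descendants of `e₀` -/
theorem div (h : s.NF) : ∃ N, ∀ R, ∃ j, ∀ (K i : ℕ) (e₀ e₁ e₂ e₃ : Y.Dir) c μ,
    s.NL R e₀.src c → s.Desc j e₀ e₁ → s.IDesc K e₁ e₂ → s.Desc i e₂ e₃ →
    Pr (s.σ^[i + K + j] e₀.src) (s.σ^[i + K + j] e₀.tgt) (s.σ^[i + K + j] c) μ →
    i < Y.dist e₃.src μ + N ∧ i < Y.dist e₃.tgt μ + N := by
  have T := h.toTT
  obtain ⟨N, hN⟩ := inp_bound h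
  refine ⟨2 * N, fun R => ?_⟩
  obtain ⟨j, hj⟩ := sp_nl h (R + 1)
  refine ⟨j, fun K i e₀ e₁ e₂ e₃ c μ k h0 h1 h2 p => ?_⟩
  obtain ⟨w, k1, k2⟩ := proj_orbit T hN (dir_lp T e₀ j) (hj _ _ (nl_mono k R.le_succ))
    (hj _ _ (ch_succ'.2 ⟨_, piece_symm (Or.inr (Or.inl (dir_adj e₀))), k⟩))
  have k3 := k2 (i + K) μ (by simpa only [← Function.iterate_add_apply] using p)
  obtain ⟨a1, a2, -⟩ := cross_bt h0
  obtain ⟨k4, k5⟩ := marg T (dir_lp T e₀ j) a1 a2 k1 h1 h2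
  obtain ⟨b1, b2, -⟩ := cross_bt (T.lh_trans (T.lh_trans h0 h1.1) h2)
  rw [← add_assoc] at b1 b2
  have l : Y.lev μ = Y.lev (s.σ^[i + K] w) := by
    rw [← p.1.1, Function.iterate_add_apply]; exact lev_it _ k1.1
  have := ds_tri (b1.1.symm.trans p.1.1) l
  have := ds_tri (b2.1.symm.trans p.1.1) l
  rw [ds_comm] at k3
  omega

lemma chn_desc (T : s.TT) {ι : ℕ → Y.Dir} {n : ℕ} (h : s.Chn ι n) (i k : ℕ) (hk : i + k ≤ n) :
    s.Desc k (ι i) (ι (i + k)) := by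
  induction k with
  | zero => exact cross_self _
  | succ k ih =>
    have := T.lh_trans (ih (by omega)) (h (i + k) (by omega))
    rwa [add_comm 1 k] at this

/-- divergence for vertices at bounded coned-off distance -/
theorem div_nl (h : s.NF) (K R L : ℕ) : ∃ T : ℕ, ∀ t ≥ T, ∀ (ι : ℕ → Y.Dir) (c μ : Y.V),
    s.KI K ι t → s.NL R (ι 0).src c →
    Pr (s.σ^[t] (ι 0).src) (s.σ^[t] (ι 0).tgt) (s.σ^[t] c) μ →
    L ≤ Y.dist (ι t).src μ ∧ L ≤ Y.dist (ι t).tgt μ := by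
  obtain ⟨N, hN⟩ := div h
  obtain ⟨j, hj⟩ := hN R
  refine ⟨L + N + K + j, fun t ht ι c μ k e p => ?_⟩
  obtain ⟨i, rfl⟩ : ∃ i, t = i + K + j := ⟨t - K - j, by omega⟩
  have := hj K i (ι 0) (ι j) (ι (j + K)) (ι (i + K + j)) c μ e
    (by simpa using chn_desc h.toTT k.1 0 j (by omega)) (k.2 j (by omega))
    (by rw [show i + K + j = j + K + i by omega]; exact chn_desc h.toTT k.1 _ _ (by omega)) p
  omega

end Pool.Agent.Lib.FBC.T2

namespace Pool.Agent.Lib.FBC.T7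

open T2

theorem stDIV : St_DIV := fun _ _ _ _ _ _ h K R L _ =>
  let ⟨T, hT⟩ := div_nl h K R L
  ⟨T, fun t ht ι c μ k l e m => (hT t ht ι c μ k (nl_le l.symm e) ⟨m.1, m.2.2, m.2.1⟩).1⟩

theorem stLING : St_LING := fun _ _ _ hd Y s h K L B R _ => by
  obtain ⟨T, hT⟩ := div_nl h K R L
  obtain ⟨Λ, -, hΛ⟩ := s.exists_lip 1
  obtain ⟨Λ', -, hΛ'⟩ := s.exists_lip T
  obtain ⟨Q, hQ⟩ := s.exists_qi hd.surj T
  have drift : ∀ t, ∃ C, ∀ b : ℕ → Y.V, (∀ i < t, Y.lev (s.σ (b i)) = Y.lev (b (i + 1)) ∧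
      Y.dist (s.σ (b i)) (b (i + 1)) ≤ B) → Y.lev (s.σ^[t] (b 0)) = Y.lev (b t) ∧
      Y.dist (s.σ^[t] (b 0)) (b t) ≤ C := by
    intro t
    induction t with
    | zero => exact ⟨0, fun b _ => by simp⟩
    | succ t ih =>
      obtain ⟨C, hC⟩ := ih
      refine ⟨Λ * C + B, fun b hb => ?_⟩
      obtain ⟨k1, k2⟩ := hC b fun i hi => hb i (by omega)
      obtain ⟨k3, k4⟩ := hb t (by omega)
      rw [Function.iterate_succ_apply']
      have := ds_tri (lev_σ (s := s) k1) k3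
      have := (hΛ _ _ k1).trans (Nat.mul_le_mul_left Λ k2)
      exact ⟨(lev_σ k1).trans k3, by simp only [Function.iterate_one] at this; omega⟩
  obtain ⟨C, hC⟩ := drift T
  refine ⟨T, Q * (Λ' + L + C) + Q, fun ι b k hl hb hn e => ?_⟩
  have l0 := (hl 0 T.zero_le).symm
  obtain ⟨k1, k2⟩ := hC b fun i hi => ⟨by
    rw [hl (i + 1) hi, (k.1 i hi).lh_lev, show Y.lev (s.σ (b i)) = _ from s.f.lev_map _,
      hl i hi.le]; rfl, hb i hi⟩
  obtain ⟨μ, p⟩ := ex_pr (lev_it (s := s) T (Forest.lev_src_tgt (ι 0)))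
    (lev_it T ((Forest.lev_src_tgt (ι 0)).symm.trans l0))
  have k3 := (hT T le_rfl ι _ μ k e p).1
  have a0 := chn_desc h.toTT k.1 0 T (by omega)
  rw [zero_add] at a0
  obtain ⟨a1, -, -⟩ := cross_bt a0
  have k4 := p.bt a1
  obtain ⟨x, x1, x2⟩ := ex_at k4.1 k3
  have l := lp_left (lp_sub (dir_lp h.toTT (ι 0) T) a1 p.1) x1
  have x3 := bt_out x1 k4
  have k5 : Y.dist x (s.σ^[T] (b 0)) ≤ C := by
    rcases bt_cover x3 k1 with o | o
    · have := hn T le_rfl _ _ (bt_left (bt_lev o)) o l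
      omega
    · have := bt_ds o
      rw [ds_comm (b T)] at this
      have := ds_comm (b T) (s.σ^[T] (b 0))
      omega
  have := bt_ds x3
  have := bt_ds a1
  have := hΛ' _ _ (Forest.lev_src_tgt (ι 0))
  rw [dir_ds] at this
  have := ds_tri a1.1 (bt_lev x3)
  exact (hQ _ _ l0).trans (Nat.add_le_add_right (Nat.mul_le_mul_left _ (by omega)) _)

end Pool.Agent.Lib.FBC.T7
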