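import Pool.Agent.Lib.FBC.T7.Blue7

/-!
Periodic interior itineraries in both directions of time.
-/

namespace Pool.Agent.Lib.FBC.T7

open Forest Flow

namespace GOOD

variable {G : Type} [Group G] {d d' : Dg G} {Y : Forest d} {s : Flow Y} {e e₁ e₂ : Y.Dir}
  {a b N N' : ℕ} {β β' : ℤ → Y.Dir} {γ : G}

lemma src_eq (hT : s.TT) (h1 : s.Desc a e e₁) (h2 : s.Desc b e₁ e₂)
    (h : e₂.src = s.σ^[b + a] e.src) : e₁.src = s.σ^[a] e.src ∧ e₂.src = s.σ^[b] e₁.src := by
  have l := (hT.sa_iter_dir e a).sa_sub (btw_left (Cross.lev h1)) (Cross.btw_tgt h1)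
  have t := l.sa_btw (Cross.btw1 h1) b
  have u := Cross.btw_src h2
  rw [h, Function.iterate_add_apply] at u
  have v := t.antisymm' u
  refine ⟨by_contra fun n => T2.exp_ne hT (l.sa_sub (btw_left l.1) (Cross.btw1 h1)) (Ne.symm n) b v,
    ?_⟩
  rw [h, Function.iterate_add_apply, v]

lemma idesc (hT : s.TT) (h1 : s.Desc a e e₁) (h2 : s.Desc b e₁ e₂)
    (h : s.IDesc a e e₁ ∨ s.IDesc b e₁ e₂) : s.IDesc (b + a) e e₂ :=
  ⟨hT.lh_trans h1 h2, fun t => let u := src_eq hT h1 h2 t; h.elim (·.2.1 u.1) (·.2.1 u.2),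
    fun t => let u := src_eq hT h1.lh_rv h2.lh_rv t; h.elim (·.2.2 u.1) (·.2.2 u.2)⟩

lemma exists_chain (n : ℕ) : ∀ e', s.Desc n e e' →
    ∃ f : ℕ → Y.Dir, f 0 = e ∧ f n = e' ∧ ∀ i < n, s.Desc 1 (f i) (f (i + 1)) := by
  induction n with
  | zero => exact fun e' h => ⟨fun _ => e, rfl, (lh_desc_zero h).symm, by simp⟩
  | succ n ih =>
    intro e' h
    rw [Desc, Function.iterate_succ_apply', Function.iterate_succ_apply'] at h
    obtain ⟨c, c1, c2⟩ := s.cover_dir 1 h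
    obtain ⟨f, f0, f1, f2⟩ := ih c c1
    refine ⟨Function.update f (n + 1) e', by simp [f0], by simp, fun i hi => ?_⟩
    rw [Function.update_of_ne (by omega)]
    rcases (Nat.le_of_lt_succ hi).eq_or_lt with rfl | hi
    · simpa [f1] using c2
    · rw [Function.update_of_ne (by omega)]; exact f2 i hi

lemma extend {r : Y.Dir → Y.Dir → Prop} (hr : ∀ (g : G) a b, r a b → r (a.tr g) (b.tr g))
    (f : ℕ → Y.Dir) {n : ℕ} (hn : 0 < n) {g : G} (h : ∀ i < n, r (f i) (f (i + 1)))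
    (e : f n = (f 0).tr g) (l : ℤ) : ∃ β : ℤ → Y.Dir, (∀ i ≤ n, β (l + i) = f i) ∧
      (∀ t, r (β t) (β (t + 1))) ∧ ∀ t, β (t + n) = (β t).tr g := by
  obtain ⟨β, hβ⟩ : ∃ β : ℤ → Y.Dir, ∀ (q : ℤ) (i : ℕ), i < n →
      β (l + (i + n * q)) = (f i).tr (g ^ q) :=
    ⟨fun t => (f ((t - l) % n).toNat).tr (g ^ ((t - l) / n)), fun q i hi => by
      have h1 : (i : ℤ) % n = i := Int.emod_eq_of_lt (by omega) (by omega)
      have h2 : (i : ℤ) / n = 0 := Int.ediv_eq_zero_of_lt (by omega) (by omega)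
      simp [Int.add_mul_ediv_left _ _ (show (n : ℤ) ≠ 0 by omega), h1, h2]⟩
  have key : ∀ (q : ℤ) (i : ℕ), i ≤ n → β (l + (i + n * q)) = (f i).tr (g ^ q) := fun q i hi => by
    rcases hi.eq_or_lt with rfl | hi
    · rw [e, tr_tr, ← zpow_add_one, ← hβ _ 0 hn]; congr 1; push_cast; ring
    · exact hβ q i hi
  have dec : ∀ t : ℤ, ∃ (q : ℤ) (i : ℕ), i < n ∧ t = l + (i + n * q) := fun t => by
    have h1 := Int.emod_nonneg (t - l) (show (n : ℤ) ≠ 0 by omega)
    have h2 := Int.emod_lt_of_pos (t - l) (show (0 : ℤ) < n by omega)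
    have h3 := Int.emod_add_mul_ediv (t - l) n
    exact ⟨(t - l) / n, ((t - l) % n).toNat, by omega, by omega⟩
  refine ⟨β, fun i hi => by simpa using key 0 i hi, fun t => ?_, fun t => ?_⟩ <;>
    obtain ⟨q, i, hi, rfl⟩ := dec t
  · rw [show l + (i + n * q) + 1 = l + ((i + 1 : ℕ) + n * q) by push_cast; ring, key _ _ hi,
      hβ _ _ hi]
    exact hr _ _ _ (h i hi)
  · rw [show l + (i + n * q) + n = l + (i + n * (1 + q)) by ring, hβ _ _ hi, hβ _ _ hi, tr_tr,
      zpow_one_add]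

lemma lev_of (h : ∀ t, s.Desc 1 (β t) (β (t + 1))) {l : ℤ} (e : Y.lev (β l).src = l) (t : ℤ) :
    Y.lev (β t).src = t := by
  refine Int.inductionOn' t l e (fun k _ ih => ?_) fun k _ ih => ?_
  · rw [(h k).lh_lev, ih]; rfl
  · have := (h (k - 1)).lh_lev
    rw [sub_add_cancel, ih] at this
    push_cast at this
    omega

lemma run (hT : s.TT) (h : ∀ t, s.Desc 1 (β t) (β (t + 1))) (t : ℤ) (k : ℕ) :
    s.Desc k (β t) (β (t + k)) := by
  induction k with
  | zero => simpa [Desc] using Forest.cross_self _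
  | succ k ih => simpa [add_comm 1 k, add_assoc] using hT.lh_trans ih (h _)

lemma per_zpow (h : ∀ t, β (t + N) = (β t).tr γ) (t q : ℤ) : β (t + N * q) = (β t).tr (γ ^ q) := by
  induction q using Int.induction_on with
  | zero => simp
  | succ q ih => rw [mul_add, mul_one, ← add_assoc, h, ih, tr_tr, add_comm, zpow_one_add]
  | pred q ih =>
    apply tr_injective γ
    rw [← h, tr_tr, ← zpow_one_add, add_sub_cancel, ← ih]; congr 1; ring

lemma per_pow (h : ∀ t, β (t + N) = (β t).tr γ) (k : ℕ) (t : ℤ) :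
    β (t + (N * k : ℕ)) = (β t).tr (γ ^ k) := by simpa using per_zpow h t k

lemma bdd_per (φ : ℤ → ℕ) (hN : 0 < N) (h : ∀ t, φ (t + N) = φ t) : ∃ C, ∀ t, φ t ≤ C := by
  refine ⟨(Finset.range N).sup fun i => φ i, fun t => ?_⟩
  have h1 := Int.emod_nonneg t (show (N : ℤ) ≠ 0 by omega)
  have h2 := Int.emod_lt_of_pos t (show (0 : ℤ) < N by omega)
  have h3 : φ (t % N) = φ t := by
    rw [Int.emod_def, mul_comm]; exact Function.Periodic.sub_int_mul_eq h _
  rw [← h3, ← Int.toNat_of_nonneg h1]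
  exact Finset.le_sup (f := fun i : ℕ => φ i) (Finset.mem_range.2 (by omega))

/-- periodic interior itineraries, indexed by the level -/
structure Per (s : Flow Y) (β : ℤ → Y.Dir) (γ : G) (N : ℕ) : Prop where
  pos : 0 < N
  int : ∀ t, s.IDesc 1 (β t) (β (t + 1))
  lev : ∀ t, Y.lev (β t).src = t
  per : ∀ t, β (t + N) = (β t).tr γ

lemma Per.ki (h : Per s β γ N) (l : ℤ) (T : ℕ) : s.KI 1 (fun i => β (l + i)) T :=
  ⟨fun t _ => by simpa [add_assoc] using (h.int (l + t)).1,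
    fun t _ => by simpa [add_assoc] using h.int (l + t)⟩

lemma Per.pow (h : Per s β γ N) {k : ℕ} (hk : 0 < k) : Per s β (γ ^ k) (N * k) :=
  ⟨Nat.mul_pos h.pos hk, h.int, h.lev, per_pow h.per k⟩

lemma Per.deg (h : Per s β γ N) : dg d γ = N := by
  have := h.lev (0 + N)
  rw [h.per, src_tr, lev_smul', h.lev] at this
  omega

lemma Per.conj (h : Per s β γ N) (w : G) :
    Per s (fun t => (β (t - dg d w)).tr w) (w * γ * w⁻¹) N :=
  ⟨h.pos, fun t => by simpa only [add_sub_right_comm] using (h.int _).sa_tr w,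
    fun t => by simp [lev_smul', h.lev], fun t => by simp [add_sub_right_comm, h.per, tr_tr]⟩

lemma Per.uni (hU : St_UNI) (hG : FC d) (hs : s.NF) (h : Per s β (γ ^ N) N)
    (h' : Per s β' (γ ^ N') N') (t : ℤ) : (β' t).1 = (β t).1 := by
  obtain ⟨R, hR⟩ := bdd_per (fun t => Y.dist (β t).src (β' t).src) (Nat.mul_pos h.pos h'.pos)
    fun t => by
      rw [(h.pow h'.pos).per, mul_comm, (h'.pow h.pos).per, ← pow_mul, ← pow_mul, mul_comm]; simp
  obtain ⟨T, hT⟩ := hU G d hG Y s hs 1 R one_pos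
  simpa using hT _ _ (h.ki (t - T) _) (h'.ki (t - T) _).1 (by simp [h.lev, h'.lev]) fun _ _ => hR _

lemma fin_bad (hU : St_UNI) (hG : FC d) (hs : s.NF) (δ : G) (x : Y.Dir) (l : ℤ) :
    {b : ℕ → Y.E | ∃ (w : G) (β : ℤ → Y.Dir) (N : ℕ), Per s β ((w⁻¹ * δ * w) ^ N) N ∧ β l = x ∧
      b = fun i : ℕ => (β (l + i)).1}.Finite := by
  have key : ∀ {w β N}, Per s β ((w⁻¹ * δ * w) ^ N) N →
      Per s (fun t => (β (t - dg d w)).tr w) (δ ^ N) N := fun {w β N} h => by
    have := h.conj w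
    rw [← conj_pow] at this
    simpa [mul_assoc] using this
  by_cases h0 : ∃ β N, Per s β (δ ^ N) N
  swap
  · exact Set.finite_empty.subset fun _ ⟨_, _, _, h, _⟩ => h0 ⟨_, _, key h⟩
  obtain ⟨β₀, N₀, h0⟩ := h0
  refine ((Set.finite_Ico (0 : ℤ) N₀).biUnion fun r _ => (finite_smul_mem (β₀ r).1
    (Set.finite_singleton x.1)).image fun w (i : ℕ) => w • (β₀ (r + i)).1).subset ?_
  rintro _ ⟨w, β, N, h, hx, rfl⟩
  have h1 := h0.pos
  have h2 : ∀ i : ℕ, (w⁻¹ * (δ ^ N₀) ^ ((l + dg d w) / N₀)) • (β₀ ((l + dg d w) % N₀ + i)).1 =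
      (β (l + i)).1 := fun i => by
    have h3 := h0.uni hU hG hs (key h) ((l + dg d w) % N₀ + i + N₀ * ((l + dg d w) / N₀))
    rw [per_zpow h0.per, add_right_comm, Int.emod_add_mul_ediv] at h3
    rw [mul_smul, inv_smul_eq_iff]
    exact h3.symm.trans (by simp [Dir.tr, add_right_comm l])
  exact Set.mem_biUnion ⟨Int.emod_nonneg _ (by omega), Int.emod_lt_of_pos _ (by omega)⟩
    ⟨_, by simpa [hx] using h2 0, funext h2⟩

lemma avoid (hT : s.TT) (x : Y.Dir) (B : Finset (ℕ → Y.E)) : ∃ (f : ℕ → Y.Dir) (n : ℕ), f 0 = x ∧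
    (∀ i < n, s.IDesc 1 (f i) (f (i + 1))) ∧ ∀ b ∈ B, ∃ i ≤ n, (f i).1 ≠ b i := by
  classical
  induction B using Finset.induction_on with
  | empty => exact ⟨fun _ => x, 0, rfl, by simp, by simp⟩
  | insert b B _ ih =>
    obtain ⟨f, n, f0, f1, f2⟩ := ih
    obtain ⟨c, c1, c2⟩ : ∃ c, s.IDesc 1 (f n) c ∧ c.1 ≠ b (n + 1) := by
      obtain ⟨u, v, h, -, -, hu, hv⟩ := hT.prim (f n) x.1.i
      by_cases t : u.1 = b (n + 1)
      exacts [⟨v, hv, t ▸ h.symm⟩, ⟨u, hu, t⟩]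
    refine ⟨Function.update f (n + 1) c, n + 1, by simp [f0], fun i hi => ?_,
      Finset.forall_mem_insert .. |>.2 ⟨⟨n + 1, le_rfl, by simpa using c2⟩, fun b hb => ?_⟩⟩
    · rw [Function.update_of_ne (by omega)]
      rcases (Nat.le_of_lt_succ hi).eq_or_lt with rfl | hi
      · simpa using c1
      · rw [Function.update_of_ne (by omega)]; exact f1 i hi
    · obtain ⟨i, hi, t⟩ := f2 b hb
      exact ⟨i, by omega, by rwa [Function.update_of_ne (by omega)]⟩

lemma exists_per (hT : s.TT) (x : Y.Dir) (B : Finset (ℕ → Y.E)) : ∃ β g n, Per s β g n ∧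
    β (Y.lev x.src) = x ∧ (fun i : ℕ => (β (Y.lev x.src + i)).1) ∉ B := by
  obtain ⟨f, n, f0, f1, f2⟩ := avoid hT x B
  obtain ⟨c, -, -, c1, -, c2, -⟩ := hT.prim (f n) x.1.i
  obtain ⟨f', m, g, hm, g0, g1, g2⟩ : ∃ (f' : ℕ → Y.Dir) (m : ℕ) (g : G), n < m ∧
      (∀ i ≤ n, f' i = f i) ∧ (∀ i < m, s.IDesc 1 (f' i) (f' (i + 1))) ∧ f' m = x.tr g := by
    have a0 : ∀ i ≤ n, Function.update f (n + 1) c i = f i := fun i hi =>
      Function.update_of_ne (by omega) _ _
    have a1 : ∀ i < n + 1, s.IDesc 1 (Function.update f (n + 1) c i)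
        (Function.update f (n + 1) c (i + 1)) := fun i hi => by
      rw [a0 i (by omega)]
      rcases (Nat.le_of_lt_succ hi).eq_or_lt with rfl | hi
      · simpa using c2
      · rw [a0 _ hi]; exact f1 i hi
    have a2 : Function.update f (n + 1) c (n + 1) = c := by simp
    generalize Function.update f (n + 1) c = F at a0 a1 a2
    obtain ⟨u, rfl | rfl⟩ := exists_tr c1.symm
    · exact ⟨F, n + 1, u, by omega, a0, a1, a2⟩
    have a3 : ∀ i ≥ n + 1, (if i ≤ n + 1 then F i else (F (i - (n + 1))).rv.tr u) =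
        (F (i - (n + 1))).rv.tr u := fun i hi => by
      split_ifs with t
      · rw [le_antisymm t hi, a2, Nat.sub_self, a0 0 n.zero_le, f0, rv_tr]
      · rfl
    refine ⟨fun i => if i ≤ n + 1 then F i else (F (i - (n + 1))).rv.tr u, n + 1 + (n + 1), u * u,
      by omega, fun i hi => (if_pos (by omega)).trans (a0 i hi), fun i hi => ?_, ?_⟩
    · by_cases t : i < n + 1
      · simpa only [if_pos t.le, if_pos (Nat.succ_le_of_lt t)] using a1 i t
      · simp only [a3 i (by omega), a3 (i + 1) (by omega)]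
        rw [Nat.succ_sub (not_lt.1 t)]
        exact (a1 (i - (n + 1)) (by omega)).sa_rv.sa_tr u
    · simp only [a3 _ (Nat.le_add_right _ _), Nat.add_sub_cancel, a2, ← tr_tr]; simp
  have g3 : f' 0 = x := (g0 0 n.zero_le).trans f0
  obtain ⟨β, b0, b1, b2⟩ := extend (r := s.IDesc 1) (fun g _ _ h => h.sa_tr g) f' (Nat.zero_lt_of_lt hm) g1
    (by rw [g2, g3]) (Y.lev x.src)
  have b3 : β (Y.lev x.src) = x := by simpa [g3] using b0 0 m.zero_le
  refine ⟨β, g, m, ⟨by omega, b1, lev_of (fun t => (b1 t).1) (by rw [b3]), b2⟩, b3, fun t => ?_⟩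
  obtain ⟨i, hi, t⟩ := f2 _ t
  exact t (by rw [b0 i (by omega), g0 i hi])

/-- no vertex has the period of an interior itinerary -/
lemma Per.no_vert (hD : St_DIV) (hG : FC d) (hs : s.NF) (h : Per s β γ N) {w : Y.V}
    (hw : s.σ^[N] w = γ • w) : False := by
  have it : ∀ k : ℕ, s.σ^[N * k] w = γ ^ k • w := fun k => by
    induction k with
    | zero => simp
    | succ k ih => rw [Nat.mul_succ, add_comm, Function.iterate_add_apply, ih, iter_smul, hw,
        pow_succ, mul_smul]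
  obtain ⟨T, hT⟩ := hD G d hG Y s hs 1 (Y.dist (β (Y.lev w)).src w)
    (Y.dist (β (Y.lev w)).src w + 1) one_pos
  have c := run hs.toTT (fun t => (h.int t).1) (Y.lev w) (N * T)
  obtain ⟨μ, hμ⟩ := exists_med (Cross.lev c) (s.lev_iter_eq (N * T) (h.lev (Y.lev w)))
  have h1 := hT (N * T) (Nat.le_mul_of_pos_left _ h.pos) _ w μ (h.ki (Y.lev w) _)
    (by simp [h.lev]) (by simp) (by simpa using hμ)
  have h2 := (hμ.gate (Cross.btw_src c)).dist_le
  rw [it, per_pow h.per, src_tr, Forest.dist_smul, ← src_tr, ← per_pow h.per] at h2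
  omega

end GOOD

open GOOD in
theorem stGOOD (hA : St_THA) (hD : St_DIV) (hU : St_UNI) : St_GOOD := by
  classical
  intro G _ d d' hG X hs ht x
  obtain ⟨S, hS⟩ := finite_vert_orbits (Y := X.M) (hG.symm X).surj ht.ne ⊤
  choose δ hδ using ht.per
  obtain ⟨β, g, n, h, hx, hb⟩ := exists_per hs.toTT x (S.finite_toSet.biUnion fun v _ =>
    fin_bad hU hG hs (δ v)⁻¹ x (X.P.lev x.src)).toFinset
  have vert : ∀ k : ℕ, 0 < k → ∀ v, X.t.σ^[n * k] v ≠ g⁻¹ ^ k • v := fun k hk v hv => by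
    obtain ⟨w, -, hw⟩ := hS v
    have h1 : X.t.σ (X.t.σ v) = (w⁻¹ * δ (w • v) * w) • X.t.σ v := by
      have := hδ (w • v)
      simp only [σ_smul] at this
      rw [mul_smul, mul_smul, ← this, inv_smul_smul]
    have h2 : X.t.σ^[n * k] (X.t.σ v) = g⁻¹ ^ k • X.t.σ v := by
      rw [← Function.iterate_succ_apply, Function.iterate_succ_apply', hv, σ_smul]
    generalize X.t.σ v = u at h1 h2
    by_cases h3 : ∀ a : G, a • u = u → a = 1
    · have h4 : ∀ j : ℕ, X.t.σ^[j] u = (w⁻¹ * δ (w • v) * w) ^ j • u := fun j => by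
        induction j with
        | zero => simp
        | succ j ih => rw [Function.iterate_succ_apply', ih, σ_smul, h1, pow_succ, ← mul_smul]
      have h5 := h3 (g ^ k * (w⁻¹ * δ (w • v) * w) ^ (n * k)) (by simp [mul_smul, ← h4, h2])
      refine hb ((Set.Finite.mem_toFinset _).2 (Set.mem_biUnion hw ⟨w, β, n * k, ?_, hx, rfl⟩))
      convert h.pow hk using 1
      rw [eq_inv_of_mul_eq_one_left h5, ← inv_pow]; simp [mul_assoc]
    · obtain ⟨a, a1, a2⟩ : ∃ a : G, a • u = u ∧ a ≠ 1 := by simpa using h3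
      have h4 : (g⁻¹ ^ k * a * g ^ k) • u = u :=
        X.t.fix_of_fix_iter (n * k) a2 a1 (by simp [h2, mul_smul, a1])
      refine (h.pow hk).no_vert hD hG hs (w := X.h.f u) (fix_unique a2 ?_ ?_ ?_)
      · rw [← iter_smul, ← X.h.smul, a1]
      · rw [← X.h.smul, ← X.h.smul]
        congr 1
        simpa [mul_smul, inv_smul_eq_iff] using h4
      · rw [lev_iter, lev_smul', (h.pow hk).deg]
  have hT := hs.toTT
  have c : X.s.IDesc n x (x.tr g) := by
    obtain ⟨m, rfl⟩ := Nat.exists_eq_add_of_lt h.pos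
    have := idesc hT (h.int _).1 (run hT (fun t => (h.int t).1) _ m) (.inl (h.int (X.P.lev x.src)))
    rw [add_assoc, add_comm 1, ← Nat.cast_succ, ← zero_add m, h.per, hx] at this
    simpa using this
  obtain ⟨k, hk, N, -, hN, hp⟩ := hA G d' d (hG.symm X) X.symm ht hs g x ⟨n, h.pos, h.deg, c⟩
  obtain rfl : N = n * k := by
    have := X.neg g
    rw [h.deg] at this
    simp only [dg_pow, dg_inv, this, neg_neg] at hN
    exact_mod_cast hN.symm.trans (mul_comm _ _)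
  obtain ⟨c, hc⟩ := hp.resolve_left fun ⟨v, t⟩ => vert k hk v t
  obtain ⟨ε, hε⟩ : ∃ ε : X.M.Dir, X.t.Desc (n * (k + k)) ε (ε.tr (g⁻¹ ^ (k + k))) := by
    refine ⟨(c, false), ?_⟩
    rw [mul_add, pow_add, ← tr_tr]
    rcases (cross_or_of_mem hc : X.t.Desc (n * k) (c, false) (Dir.tr (g⁻¹ ^ k) (c, false)) ∨
      X.t.Desc (n * k) (c, false) (Dir.tr (g⁻¹ ^ k) (c, false)).rv) with t | t
    · exact ht.toTT.lh_trans t (Desc.lh_tr t _)
    · simpa [rv_tr] using ht.toTT.lh_trans t (Desc.lh_tr (Desc.lh_rv t) (g⁻¹ ^ k))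
  have hk2 : 0 < k + k := by omega
  generalize k + k = j at hε hk2
  have hI : X.t.IDesc (n * j) ε (ε.tr (g⁻¹ ^ j)) :=
    ⟨hε, fun t => vert j hk2 _ (by simpa using t.symm), fun t => vert j hk2 _ (by simpa using t.symm)⟩
  have hj := h.pow hk2
  obtain ⟨f, f0, f1, f2⟩ := exists_chain _ _ hε
  obtain ⟨ρ, r0, r1, r2⟩ := extend (r := X.t.Desc 1) (fun g _ _ h => h.lh_tr g) f hj.pos f2 (by rw [f1, f0])
    (X.M.lev ε.src)
  have r3 : ρ (X.M.lev ε.src) = ε := by simpa [f0] using r0 0 (Nat.zero_le _)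
  have r4 := lev_of r1 (by rw [r3])
  obtain ⟨C, hC⟩ := bdd_per (fun t => X.M.dist (X.h'.f (β t).src) (ρ (-t)).src) hj.pos fun t => by
    have := r2 (-(t + (n * j : ℕ)))
    rw [neg_add, neg_add_cancel_right] at this
    rw [hj.per, this, ← neg_add, src_tr, src_tr, X.h'.smul, ← Forest.dist_smul (g⁻¹ ^ j), inv_pow,
      inv_smul_smul]
  refine ⟨fun t => β (X.P.lev x.src + t), fun t => ρ (-(X.P.lev x.src + t)), 2 * (n * j), C,
    by have := hj.pos; omega, by simpa using hx, fun t => by simpa only [← add_assoc] using h.int _,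
    fun t => by convert r1 _ using 2; ring, fun t => ?_, fun t => ⟨by rw [r4, h.lev], hC _⟩⟩
  generalize hm : n * j = m at *
  obtain ⟨q, i, hi, e⟩ : ∃ (q : ℤ) (i : ℕ), i ≤ m ∧
      -(X.P.lev x.src + (t + (2 * m : ℕ))) + i = X.M.lev ε.src + m * q := by
    have h0 := hj.pos
    set z := X.M.lev ε.src + (X.P.lev x.src + (t + (2 * m : ℕ)))
    have h1 := Int.emod_nonneg z (show (m : ℤ) ≠ 0 by omega)
    have h2 := Int.emod_lt_of_pos z (show (0 : ℤ) < m by omega)
    have h3 := Int.emod_add_mul_ediv z m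
    exact ⟨-(z / m), (z % m).toNat, by omega, by rw [mul_neg]; omega⟩
  have a1 := run ht.toTT r1 (-(X.P.lev x.src + (t + (2 * m : ℕ)))) i
  have a2 : X.t.IDesc m (ρ (X.M.lev ε.src + m * q)) (ρ (X.M.lev ε.src + m * q + m)) := by
    rw [add_right_comm, per_zpow r2, per_zpow r2, r2, r3]
    exact hI.sa_tr _
  rw [e] at a1
  have a3 := idesc ht.toTT a1 a2.1 (.inr a2)
  have a4 := idesc ht.toTT a3.1 (run ht.toTT r1 _ (m - i)) (.inl a3)
  convert a4 using 2
  · omega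
  · push_cast [hi] at e ⊢
    omega

end Pool.Agent.Lib.FBC.T7
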