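import Pool.Agent.Lib.FBC.EM
import Pool.Agent.Lib.FBC.LH
import Pool.Agent.Lib.FBC.T2.Run

/-!
Descendants of darts and darts of Nielsen paths.
-/

namespace Pool.Agent.Lib.FBC.T7B

open Forest T2

variable {G : Type} [Group G] {d : Dg G} {Y : Forest d} {s : Flow Y}
variable {a b a' b' x x' z e : Y.Dir} {p q y u v : Y.V} {n i j k : ℕ}

lemma desc_lp (T : s.TT) (n : ℕ) (e : Y.Dir) : s.LegalP (s.σ^[n] e.src) (s.σ^[n] e.tgt) :=
  lp_it T (lp_adj (adj_dir e)) n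

lemma desc_refl (e : Y.Dir) : s.Desc 0 e e := cross_self e

/-- unique ancestor on a legal path -/
lemma ua (h : s.LegalP u v) (ha : Y.Cross u v a) (hb : Y.Cross u v b) (h1 : s.Desc n a x)
    (h2 : s.Desc n b x) : a = b := by
  have key : ∀ {a b : Y.Dir}, Y.Cross u v a → Y.Cross u v b → s.Desc n a x → s.Desc n b x →
      ¬ Y.btw a.tgt b.src v := fun ha hb h1 h2 t =>
    not_mem_H_both h1.2 (btw.mem_H (h.2 _ _ _ (btw_left h.1) ha.btw_tgt hb.btw_src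
      (ha.btw_tgt.trans_right' t) n) (h.lh_cross ha h1).1 h2.1)
  exact step_unique ha hb (((hb.side ha.btw_src).resolve_right (key hb ha h2 h1)).antisymm
    ((ha.side hb.btw_src).resolve_right (key ha hb h1 h2)))

lemma ua_opp (h : s.LegalP u v) (ha : Y.Cross u v a) (hb : Y.Cross v u b) (h1 : s.Desc n a x)
    (h2 : s.Desc n b x) : False :=
  not_mem_H_both (h.lh_cross ha h1).2 ((lp_symm h).lh_cross hb h2).1

lemma desc_mid (hk : k = j + i) (h : s.Desc k a x) : ∃ a', s.Desc j a a' ∧ s.Desc i a' x := by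
  subst hk
  unfold Flow.Desc at h
  rw [add_comm, Function.iterate_add_apply, Function.iterate_add_apply] at h
  exact s.cover_dir i h

lemma desc_trans (T : s.TT) (hk : k = j + i) (h : s.Desc j a a') (h' : s.Desc i a' x) :
    s.Desc k a x := by
  rw [hk, add_comm]; exact T.lh_trans h h'

lemma mid_unique (T : s.TT) (h1 : s.Desc j a a') (h2 : s.Desc j a b') (h3 : s.Desc i a' x)
    (h4 : s.Desc i b' x) : a' = b' := ua (desc_lp T j a) h1 h2 h3 h4

lemma two_anc (T : s.TT) (z : Y.Dir) : ∃ a b, a ≠ b ∧ s.Desc 1 a z ∧ s.Desc 1 b z := by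
  obtain ⟨e', e'', hne, h1, h2, ⟨h3, -⟩, h4, -⟩ := T.prim z z.1.i
  have key : ∀ e' : Y.Dir, e'.1.i = z.1.i → s.Desc 1 z e' →
      ∃ (g : G) (a : Y.Dir), z.1 = g • e'.1 ∧ a.1 = g • z.1 ∧ s.Desc 1 a z := by
    intro e' h1 h3
    obtain ⟨g, t | t⟩ := exists_tr h1
    · exact ⟨g, z.tr g, congrArg Prod.fst t, rfl, by have := h3.lh_tr g; rwa [← t] at this⟩
    · exact ⟨g, (z.tr g).rv, congrArg Prod.fst t, rfl, by
        have := (h3.lh_tr g).lh_rv; rwa [← t] at this⟩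
  obtain ⟨g, a, a1, a2, a3⟩ := key e' h1 h3
  obtain ⟨g', b, b1, b2, b3⟩ := key e'' h2 h4
  refine ⟨a, b, fun t => hne ?_, a3, b3⟩
  have : g = g' := tr_left_inj (e := z) (a2.symm.trans (t ▸ b2))
  exact MulAction.injective g (a1.symm.trans (this ▸ b1))

lemma ex_anc (T : s.TT) (n : ℕ) (z : Y.Dir) : ∃ a, s.Desc n a z := by
  induction n with
  | zero => exact ⟨z, desc_refl z⟩
  | succ n ih =>
    obtain ⟨a, h⟩ := ih
    obtain ⟨b, -, -, h', -⟩ := two_anc T a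
    exact ⟨b, desc_trans T (add_comm _ _) h' h⟩

/-- ancestors of close darts are close -/
lemma anc_close (hd : Function.Surjective d) (j R : ℕ) : ∃ Q, ∀ a b a' b' : Y.Dir,
    s.Desc j a a' → s.Desc j b b' → Y.lev a'.src = Y.lev b'.src → Y.dist a'.src b'.src ≤ R →
    Y.dist a.src b.src ≤ Q := by
  obtain ⟨Λ, -, hΛ⟩ := s.exists_lip j
  obtain ⟨Q, hQ⟩ := s.exists_qi hd j
  refine ⟨Q * (Λ + R + Λ) + Q, fun a b a' b' h1 h2 l hR => ?_⟩
  have k1 := (h1.btw_src.dist_le).trans (hΛ _ _ (lev_src_tgt a))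
  have k2 := (h2.btw_src.dist_le).trans (hΛ _ _ (lev_src_tgt b))
  rw [dist_src_tgt] at k1 k2
  have l1 := h1.lh_lev
  have l2 := h2.lh_lev
  have k3 := dist_triangle h1.lev_src (l.trans h2.lev_src.symm)
  have k4 := dist_triangle l h2.lev_src.symm
  rw [Forest.dist_comm b'.src] at k4
  exact (hQ _ _ (by omega)).trans (Nat.add_le_add_right (Nat.mul_le_mul_left _ (by omega)) _)

/-! ### darts of a Nielsen path -/

lemma arm (h : s.INP p y q) (ha : Y.Cross p q a) : Y.Cross p y a ∨ Y.Cross y q a :=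
  ha.split h.1.1

lemma inp_pre (h : s.INP p y q) (n : ℕ) :
    ∃ p' y' q', s.INP p' y' q' ∧ s.σ^[n] p' = p ∧ s.σ^[n] q' = q := by
  obtain ⟨γ, h1, h2⟩ := h.2.2.2.2
  refine ⟨_, _, _, inp_smul (γ ^ n)⁻¹ h, ?_, ?_⟩
  · rw [it_smul, fix_it h1, inv_smul_smul]
  · rw [it_smul, fix_it h2, inv_smul_smul]

lemma inp_fix (h : s.INP p y q) : Fix s p := let ⟨γ, h1, _⟩ := h.2.2.2.2; ⟨γ, h1⟩

lemma fix_inj (h : Fix s p) (h' : Fix s q) (n : ℕ) (t : s.σ^[n] p = s.σ^[n] q) : p = q := by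
  induction n generalizing p q with
  | zero => exact t
  | succ n ih => exact h.inj h' (ih h.σ h'.σ t)

/-- a dart has at most one ancestor on a Nielsen path -/
lemma anc_unique (h : s.INP p y q) (ha : Y.Cross p q a) (hb : Y.Cross p q b) (h1 : s.Desc n a x)
    (h2 : s.Desc n b x) : a = b := by
  rcases arm h ha with t | t <;> rcases arm h hb with r | r
  · exact ua h.2.1 t r h1 h2
  · exact (not_mem_H_both (h.2.1.lh_cross t h1).2 (h.2.2.1.lh_cross r h2).1).elim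
  · exact (not_mem_H_both (h.2.1.lh_cross r h2).2 (h.2.2.1.lh_cross t h1).1).elim
  · exact ua h.2.2.1 t r h1 h2

lemma nt (T : s.TT) (h : s.INP p y q) (hb : Y.Cross q p b) (h1 : s.Desc n b x) :
    ¬ Y.Cross (s.σ^[n] p) (s.σ^[n] q) x := fun t => by
  obtain ⟨m, m1, m2, m3, -⟩ := inp_it T h n
  rcases arm (inp_symm h) hb with r | r
  · exact not_mem_H_both t.2 ((lp_symm h.2.2.1).lh_cross r h1).1
  · exact not_mem_H_both ((lp_symm h.2.1).lh_cross r h1).2 t.1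

lemma td_aux (T : s.TT) (h : s.INP p y q) (ha : Y.Cross p y a) (hb : Y.Cross q y b)
    (h1 : s.Desc n a x) (h2 : s.Desc n b x') (h3 : s.Desc i x z) (h4 : s.Desc i x' z) :
    x = x' ∨ (Y.Cross (s.σ^[n] p) (s.σ^[n] q) x ∧ Y.Cross (s.σ^[n] q) (s.σ^[n] p) x') := by
  obtain ⟨m, m1, m2, m3, -⟩ := inp_it T h n
  have c1 := h.2.1.lh_cross ha h1
  have c2 := (lp_symm h.2.2.1).lh_cross hb h2
  rcases c1.split m2.1 with t | t
  swap
  · exact Or.inl (ua (lp_it T (lp_symm h.2.2.1) n) (t.extend_left (btw.symm m3)) c2 h3 h4)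
  rcases c2.split (btw.symm m3).1 with r | r
  swap
  · exact Or.inl (ua (lp_it T h.2.1 n) c1 (r.extend_left m2) h3 h4)
  exact Or.inr ⟨t.extend_right m1.1, r.extend_right (btw.symm m1.1)⟩

lemma opp_arms (h : s.INP p y q) (ha : Y.Cross p q a) (hb : Y.Cross q p b) (h1 : s.Desc n a z)
    (h2 : s.Desc n b z) : (Y.Cross p y a ∧ Y.Cross q y b) ∨ (Y.Cross y q a ∧ Y.Cross y p b) := by
  rcases arm h ha with t | t <;> rcases arm (inp_symm h) hb with r | r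
  · exact Or.inl ⟨t, r⟩
  · exact (ua_opp h.2.1 t r h1 h2).elim
  · exact (ua_opp h.2.2.1 t r h1 h2).elim
  · exact Or.inr ⟨t, r⟩

lemma td (T : s.TT) (h : s.INP p y q) (ha : Y.Cross p q a) (hb : Y.Cross q p b)
    (h1 : s.Desc n a x) (h2 : s.Desc n b x') (h3 : s.Desc i x z) (h4 : s.Desc i x' z) :
    x = x' ∨ (Y.Cross (s.σ^[n] p) (s.σ^[n] q) x ∧ Y.Cross (s.σ^[n] q) (s.σ^[n] p) x') := by
  rcases opp_arms h ha hb (desc_trans T rfl h1 h3) (desc_trans T rfl h2 h4) with ⟨t, r⟩ | ⟨t, r⟩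
  · exact td_aux T h t r h1 h2 h3 h4
  · rcases td_aux T h r.symm t.symm h2.lh_rv h1.lh_rv h4.lh_rv h3.lh_rv with k | k
    · exact Or.inl (rv_injective k).symm
    · exact Or.inr ⟨by simpa using k.2.symm, by simpa using k.1.symm⟩

lemma deep_aux (T : s.TT) (h : s.INP p y q) (hn : Y.dist p q ≤ n) (ha : Y.Cross p y a)
    (h1 : s.Desc n a x) (hx : Y.Cross (s.σ^[n] p) (s.σ^[n] q) x) : a.src = p := by
  by_contra t
  obtain ⟨m, m1, -, -, m4, m5⟩ := inp_it T h n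
  have k1 := exp_lt T (lp_left h.2.1 ha.btw_src) (Ne.symm t) n
  have k2 : Y.btw (s.σ^[n] p) (s.σ^[n] a.src) (s.σ^[n] a.tgt) :=
    h.2.1.2 _ _ _ (btw_left h.2.1.1) ha.btw_src ha.btw_tgt ha.btw1 n
  have k3 := (k2.trans_right' h1.btw_src).dist_le
  have k4 := hx.btw_src.dist_le
  have k5 := bt_ds m1.1
  have k6 := bt_ds h.1
  omega

/-- deep ancestors on a Nielsen path are its extreme darts -/
lemma deep (T : s.TT) (h : s.INP p y q) (hn : Y.dist p q ≤ n) (ha : Y.Cross p q a)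
    (h1 : s.Desc n a x) (hx : Y.Cross (s.σ^[n] p) (s.σ^[n] q) x) :
    (Y.Cross p y a ∧ a.src = p) ∨ (Y.Cross y q a ∧ a.tgt = q) :=
  (arm h ha).imp (fun t => ⟨t, deep_aux T h hn t h1 hx⟩) fun t =>
    ⟨t, deep_aux T (inp_symm h) (ds_comm p q ▸ hn) t.symm h1.lh_rv hx.symm⟩

lemma part_aux (T : s.TT) (h : s.INP p y q) {ι : ℕ → Y.Dir} (hι : ∀ t, s.Desc 1 (ι t) (ι (t + 1)))
    (hi : ∀ t, (ι (t + 1)).src ≠ s.σ (ι t).src) (h0 : Y.Cross p y (ι 0)) (hn : Y.dist p y ≤ n) :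
    ∃ x', Y.Cross q y x' ∧ s.Desc n x' (ι n) := by
  have key : ∀ t, Y.Cross (s.σ^[t] p) (s.σ^[t] y) (ι t) ∧ t ≤ Y.dist (s.σ^[t] p) (ι t).src := by
    intro t
    induction t with
    | zero => exact ⟨h0, Nat.zero_le _⟩
    | succ t ih =>
      have l := lp_it T h.2.1 t
      have c := l.lh_cross ih.1 (hι t)
      have k1 := exp_σ T (lp_left l ih.1.btw_src)
      have k2 : Y.btw (s.σ (s.σ^[t] p)) (s.σ (ι t).src) (s.σ (ι t).tgt) :=
        l.2 _ _ _ (btw_left l.1) ih.1.btw_src ih.1.btw_tgt ih.1.btw1 1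
      have k3 : Y.btw (s.σ (ι t).src) (ι (t + 1)).src (s.σ (ι t).tgt) := (hι t).btw_src
      have k4 := (k2.trans_right' k3).dist_add
      have k5 := dist_pos k3.lev1 (hi t).symm
      have k6 := ih.2
      rw [Function.iterate_succ_apply', Function.iterate_succ_apply']
      exact ⟨c, by omega⟩
  obtain ⟨m, m1, m2, m3, m4, -⟩ := inp_it T h n
  obtain ⟨c, k⟩ := key n
  rcases c.split m2.1 with t | t
  · have := t.dist_eq
    omega
  · exact (lp_symm h.2.2.1).lh_anc (t.extend_left (btw.symm m3))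

/-- an itinerary with interior steps leaves a Nielsen path through its tip -/
lemma part (T : s.TT) (h : s.INP p y q) {ι : ℕ → Y.Dir} (hι : ∀ t, s.IDesc 1 (ι t) (ι (t + 1)))
    (h0 : Y.Cross p q (ι 0)) (hn : Y.dist p q ≤ n) :
    ∃ x', s.Desc n x' (ι n) ∧ ((Y.Cross p y (ι 0) ∧ Y.Cross q y x') ∨
      (Y.Cross y q (ι 0) ∧ Y.Cross y p x')) := by
  have k := bt_ds h.1
  rcases arm h h0 with t | t
  · obtain ⟨x', h1, h2⟩ := part_aux T h (fun t => (hι t).1) (fun t => (hι t).2.1) t (n := n)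
      (by omega)
    exact ⟨x', h2, Or.inl ⟨t, h1⟩⟩
  · obtain ⟨x', h1, h2⟩ := part_aux T (inp_symm h) (ι := fun t => (ι t).rv)
      (fun t => (hι t).1.lh_rv) (fun t => (hι t).2.2) t.symm (n := n) (by rw [ds_comm]; omega)
    exact ⟨x'.rv, by simpa using h2.lh_rv, Or.inr ⟨t, h1.symm⟩⟩

/-- finitely many Nielsen paths cross a dart -/
lemma fin_wd (h : s.NF) (x : Y.Dir) :
    {w : Y.V × Y.V | (∃ y, s.INP w.1 y w.2) ∧ Y.Cross w.1 w.2 x}.Finite := by
  obtain ⟨S, hS⟩ := h.fin_inp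
  refine (S.finite_toSet.biUnion fun w _ => (finite_tr_mem x (finite_cross w.1 w.2)).image
    fun g => (g⁻¹ • w.1, g⁻¹ • w.2)).subset ?_
  rintro ⟨p, q⟩ ⟨⟨y, h1⟩, h2⟩
  obtain ⟨g, hg⟩ := hS p y q h1
  exact Set.mem_biUnion hg ⟨g, h2.smul g, by simp⟩

/-- uniform constants -/
lemma unif (P : Y.Dir → ℕ → Prop) (mono : ∀ e k k', k ≤ k' → P e k → P e k')
    (inv : ∀ (g : G) e k, P (e.tr g) k → P e k) (ex : ∀ e, ∃ k, P e k) : ∃ k, ∀ e, P e k := by
  obtain ⟨S, hS⟩ := finite_dir_orbits (Y := Y) ⊤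
  choose f hf using ex
  refine ⟨S.sup f, fun e => ?_⟩
  obtain ⟨g, -, hg⟩ := hS e
  exact inv g e _ (mono _ _ _ (Finset.le_sup hg) (hf _))

end Pool.Agent.Lib.FBC.T7B
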