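import Pool.Agent.Lib.FBC.T7.Defs7
import Pool.Agent.Lib.FBC.T7.B0

/-!
Ancestors of flags, tips and their components.
-/

namespace Pool.Agent.Lib.FBC.T7B

open Forest T2 Flow Flow.Flag

variable {G : Type} [Group G] {d : Dg G} {Y : Forest d} {s : Flow Y}
variable {a b a' b' x x' z e : Y.Dir} {p q y u v : Y.V} {n i j k : ℕ} {ξ ζ η η' : s.Flag}

lemma wd_it (T : s.TT) (h : s.Wd p q) (n : ℕ) : s.Wd (s.σ^[n] p) (s.σ^[n] q) :=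
  let ⟨_, h⟩ := h; let ⟨m, k, _⟩ := inp_it T h n; ⟨m, k⟩

lemma wd_fix (h : s.Wd p q) : Fix s p := let ⟨_, h⟩ := h; inp_fix h

lemma wd_ne (h : s.Wd p q) : p ≠ q := let ⟨_, h⟩ := h; inp_ne'' h

lemma wd_bound (h : s.NF) : ∃ N, ∀ p q, s.Wd p q → Y.dist p q ≤ N :=
  let ⟨N, hN⟩ := inp_bound h; ⟨N, fun _ _ ⟨_, k⟩ => hN _ _ _ k⟩

lemma ex_up (n : ℕ) (ξ : s.Flag) : ∃ η, Up n η ξ := by
  obtain ⟨y, h⟩ := ξ.wd
  obtain ⟨p', y', q', h1, h2, h3⟩ := inp_pre h n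
  obtain ⟨a, h4, h5⟩ := s.cover_dir n (a := p') (b := q') (e' := ξ.x) (by rw [h2, h3]; exact ξ.cr)
  exact ⟨⟨p', q', a, ⟨y', h1⟩, h4⟩, h2, h3, h5⟩

lemma anc_up (n : ℕ) (ξ : s.Flag) : Up n (ξ.anc n) ξ := Classical.epsilon_spec (ex_up n ξ)

lemma anc_desc (n : ℕ) (ξ : s.Flag) : s.Desc n (ξ.anc n).x ξ.x := (anc_up n ξ).2.2

lemma up_unique (h : Up n η ξ) (h' : Up n η' ξ) : η = η' := by
  have e1 := fix_inj (wd_fix η.wd) (wd_fix η'.wd) n (h.1.trans h'.1.symm)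
  have e2 := fix_inj (wd_fix η.wd.symm) (wd_fix η'.wd.symm) n (h.2.1.trans h'.2.1.symm)
  obtain ⟨y, k⟩ := η.wd
  exact Flow.Flag.ext e1 e2 (anc_unique k η.cr (e1 ▸ e2 ▸ η'.cr) h.2.2 h'.2.2)

lemma anc_eq (h : Up n η ξ) : ξ.anc n = η := up_unique (anc_up n ξ) h

@[simp] lemma anc_zero (ξ : s.Flag) : ξ.anc 0 = ξ := anc_eq ⟨rfl, rfl, desc_refl _⟩

lemma up_trans (T : s.TT) (hk : k = j + i) (h : Up j η η') (h' : Up i η' ξ) : Up k η ξ := by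
  refine ⟨?_, ?_, desc_trans T hk h.2.2 h'.2.2⟩
  · rw [hk, add_comm, Function.iterate_add_apply, h.1, h'.1]
  · rw [hk, add_comm, Function.iterate_add_apply, h.2.1, h'.2.1]

lemma anc_add (T : s.TT) (hk : k = j + i) (ξ : s.Flag) : ξ.anc k = (ξ.anc i).anc j :=
  anc_eq (up_trans T hk (anc_up _ _) (anc_up _ _))

lemma anc_anc (T : s.TT) (hk : k = j + i) (ξ : s.Flag) : s.Desc j (ξ.anc k).x (ξ.anc i).x := by
  rw [anc_add T hk]; exact anc_desc _ _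

lemma anc_rev (n : ℕ) (ξ : s.Flag) : ξ.rev.anc n = (ξ.anc n).rev :=
  let ⟨h1, h2, h3⟩ := anc_up n ξ; anc_eq ⟨h2, h1, h3.lh_rv⟩

lemma anc_smul (n : ℕ) (g : G) (ξ : s.Flag) : (g • ξ).anc n = g • ξ.anc n :=
  let ⟨h1, h2, h3⟩ := anc_up n ξ
  anc_eq ⟨by simp [h1], by simp [h2], h3.lh_tr g⟩

@[simp] lemma rev_rev (ξ : s.Flag) : ξ.rev.rev = ξ := Flow.Flag.ext rfl rfl (rv_rv _)

/-- flags on one wedge have their ancestors on one wedge -/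
lemma anc_p (n : ℕ) (h : ξ.p = ζ.p) : (ξ.anc n).p = (ζ.anc n).p :=
  fix_inj (wd_fix (ξ.anc n).wd) (wd_fix (ζ.anc n).wd) n
    ((anc_up n ξ).1.trans (h.trans (anc_up n ζ).1.symm))

lemma anc_pq (n : ℕ) (h : ξ.p = ζ.q) : (ξ.anc n).p = (ζ.anc n).q := by
  have := anc_p (ξ := ξ) (ζ := ζ.rev) n h
  rwa [anc_rev] at this

lemma anc_q (n : ℕ) (h : ξ.q = ζ.q) : (ξ.anc n).q = (ζ.anc n).q := by
  have := anc_p (ξ := ξ.rev) (ζ := ζ.rev) n h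
  rwa [anc_rev, anc_rev] at this

lemma fin_flag (h : s.NF) (x : Y.Dir) : {ξ : s.Flag | ξ.x = x}.Finite := by
  refine Set.Finite.of_finite_image (f := fun ξ => (ξ.p, ξ.q)) ((fin_wd h x).subset ?_) ?_
  · rintro _ ⟨ξ, rfl, rfl⟩
    exact ⟨ξ.wd, ξ.cr⟩
  · intro ξ h1 ζ h2 t
    exact Flow.Flag.ext (congrArg Prod.fst t) (congrArg Prod.snd t) (h1.trans h2.symm)

lemma card_flag (h : s.NF) : ∃ M, ∀ x : Y.Dir, {ξ : s.Flag | ξ.x = x}.ncard ≤ M := by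
  refine unif (fun x M => {ξ : s.Flag | ξ.x = x}.ncard ≤ M) (fun _ _ _ t r => r.trans t)
    (fun g e k r => le_trans ?_ r) fun _ => ⟨_, le_rfl⟩
  exact Set.ncard_le_ncard_of_injOn (fun ξ => g • ξ) (fun ξ t => congrArg (Dir.tr g) t)
    (MulAction.injective g).injOn (fin_flag h _)

lemma fin_flag_orbits (h : s.NF) : ∃ S : Finset s.Flag, ∀ ξ : s.Flag, ∃ g : G, g • ξ ∈ S := by
  obtain ⟨S, hS⟩ := finite_dir_orbits (Y := Y) ⊤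
  refine ⟨(S.finite_toSet.biUnion fun x _ => fin_flag h x).toFinset, fun ξ => ?_⟩
  obtain ⟨g, -, hg⟩ := hS ξ.x
  exact ⟨g, (Set.Finite.mem_toFinset _).2 (Set.mem_biUnion hg rfl)⟩

/-! ### tips -/

lemma tip_symm (h : s.Tip n x a b) : s.Tip n x b a :=
  let ⟨h1, h2, p, q, h3, h4, h5⟩ := h; ⟨h2, h1, q, p, h3.symm, h5, h4⟩

lemma cmp_symm (h : s.Cmp n x a b) : s.Cmp n x b a := by
  induction h with
  | refl => exact .refl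
  | tail _ t ih => exact .head (tip_symm t) ih

lemma cmp_desc (h : s.Cmp n x a b) (ha : s.Desc n a x) : s.Desc n b x := by
  induction h with
  | refl => exact ha
  | tail _ t _ => exact t.2.1

lemma tip_smul (g : G) (h : s.Tip n x a b) : s.Tip n (x.tr g) (a.tr g) (b.tr g) :=
  let ⟨h1, h2, _, _, h3, h4, h5⟩ := h
  ⟨h1.lh_tr g, h2.lh_tr g, _, _, h3.smul g, h4.smul g, h5.smul g⟩

lemma cmp_smul (g : G) (h : s.Cmp n x a b) : s.Cmp n (x.tr g) (a.tr g) (b.tr g) := by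
  induction h with
  | refl => exact .refl
  | tail _ t ih => exact ih.tail (tip_smul g t)

lemma tip_rv (h : s.Tip n x a b) : s.Tip n x.rv a.rv b.rv :=
  let ⟨h1, h2, p, q, h3, h4, h5⟩ := h
  ⟨h1.lh_rv, h2.lh_rv, q, p, h3.symm, h4.symm, h5.symm⟩

lemma cmp_rv (h : s.Cmp n x a b) : s.Cmp n x.rv a.rv b.rv := by
  induction h with
  | refl => exact .refl
  | tail _ t ih => exact ih.tail (tip_rv t)

lemma tip_dist {N : ℕ} (hN : ∀ p q, s.Wd p q → Y.dist p q ≤ N) (h : s.Tip n x a b) :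
    Y.lev a.src = Y.lev b.src ∧ Y.dist a.src b.src ≤ N :=
  let ⟨_, _, _, _, h3, h4, h5⟩ := h
  ⟨h4.lev_src.symm.trans (h4.lev.trans h5.lev_src),
    (h4.btw_src.dist_mid h5.btw_src.symm).trans (hN _ _ h3)⟩

/-- the general form of the descent of a tip -/
lemma tip_td (T : s.TT) (h : s.Tip k z a b) (h1 : s.Desc n a x) (h2 : s.Desc n b x')
    (h3 : s.Desc i x z) (h4 : s.Desc i x' z) : (x = x' ∧ s.Tip n x a b) ∨
      ∃ ξ : s.Flag, ξ.x = x ∧ (ξ.anc n).x = a ∧ Y.Cross ξ.q ξ.p x' := by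
  obtain ⟨-, -, p, q, ⟨y, w⟩, c1, c2⟩ := h
  rcases td T w c1 c2 h1 h2 h3 h4 with t | t
  · exact Or.inl ⟨t, h1, t ▸ h2, p, q, ⟨y, w⟩, c1, c2⟩
  · refine Or.inr ⟨⟨_, _, x, wd_it T ⟨y, w⟩ n, t.1⟩, rfl, ?_, t.2⟩
    rw [anc_eq (η := ⟨p, q, a, ⟨y, w⟩, c1⟩) ⟨rfl, rfl, h1⟩]

lemma tip_mono (T : s.TT) (h : s.Tip k x a b) (h1 : s.Desc j a a') (h2 : s.Desc j b b')
    (h3 : s.Desc i a' x) (h4 : s.Desc i b' x) : a' = b' ∨ s.Tip i x a' b' := by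
  rcases tip_td T h h1 h2 h3 h4 with t | ⟨ξ, t1, -, t2⟩
  · exact Or.inl t.1
  · exact Or.inr ⟨h3, h4, _, _, ξ.wd, t1 ▸ ξ.cr, t2⟩

lemma cmp_mono (T : s.TT) (hk : k = j + i) (h : s.Cmp k x a b) (h1 : s.Desc j a a')
    (h2 : s.Desc j b b') (h3 : s.Desc i a' x) (h4 : s.Desc i b' x) : s.Cmp i x a' b' := by
  induction h generalizing b' with
  | refl => rw [mid_unique T h1 h2 h3 h4]; exact .refl
  | tail _ t ih =>
    obtain ⟨c, c1, c2⟩ := desc_mid hk t.1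
    rcases tip_mono T t c1 h2 c2 h4 with r | r
    · exact r ▸ ih c1 c2
    · exact (ih c1 c2).tail r

lemma cmp_anc_mono (T : s.TT) (hx : ξ.x = ζ.x) (hk : i ≤ k)
    (h : s.Cmp k ξ.x (ξ.anc k).x (ζ.anc k).x) : s.Cmp i ξ.x (ξ.anc i).x (ζ.anc i).x :=
  have e : k = k - i + i := by omega
  cmp_mono T e h (anc_anc T e ξ) (anc_anc T e ζ) (anc_desc i ξ) (hx ▸ anc_desc i ζ)

lemma opp_refl (ξ : s.Flag) : ξ.Opp ξ := ⟨rfl, fun _ => .refl⟩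

lemma opp_symm (h : ξ.Opp ζ) : ζ.Opp ξ := ⟨h.1.symm, fun n => h.1 ▸ cmp_symm (h.2 n)⟩

lemma opp_trans (h : ξ.Opp ζ) (h' : ζ.Opp η) : ξ.Opp η :=
  ⟨h.1.trans h'.1, fun n => (h.2 n).trans (h.1 ▸ h'.2 n)⟩

lemma opp_smul (g : G) (h : ξ.Opp ζ) : (g • ξ).Opp (g • ζ) :=
  ⟨congrArg (Dir.tr g) h.1, fun n => by
    rw [anc_smul, anc_smul]; exact cmp_smul g (h.2 n)⟩

lemma opp_rev (h : ξ.Opp ζ) : ξ.rev.Opp ζ.rev :=
  ⟨congrArg Dir.rv h.1, fun n => by rw [anc_rev, anc_rev]; exact cmp_rv (h.2 n)⟩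

/-- deep ancestors of a flag are extreme darts of their wedge -/
lemma anc_deep (T : s.TT) {N : ℕ} (hN : ∀ p q, s.Wd p q → Y.dist p q ≤ N) (hn : N ≤ n)
    (ξ : s.Flag) : (ξ.anc n).x.src = (ξ.anc n).p ∨ (ξ.anc n).x.tgt = (ξ.anc n).q := by
  obtain ⟨y, h⟩ := (ξ.anc n).wd
  obtain ⟨h1, h2, h3⟩ := anc_up n ξ
  exact (deep T h ((hN _ _ ⟨y, h⟩).trans hn) (ξ.anc n).cr h3 (by rw [h1, h2]; exact ξ.cr)).imp
    And.right And.right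

/-- the arm of a flag is the arm of its ancestors -/
lemma anc_arm (T : s.TT) (h : s.INP ξ.p y ξ.q) (hx : Y.Cross ξ.p y ξ.x) (n : ℕ) :
    ∃ y', s.INP (ξ.anc n).p y' (ξ.anc n).q ∧ Y.Cross (ξ.anc n).p y' (ξ.anc n).x := by
  obtain ⟨y', h'⟩ := (ξ.anc n).wd
  obtain ⟨h1, h2, h3⟩ := anc_up n ξ
  refine ⟨y', h', (arm h' (ξ.anc n).cr).resolve_right fun t => ?_⟩
  obtain ⟨m, m1, m2, m3, -⟩ := inp_it T h' n
  rw [h1, h2] at m1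
  obtain rfl := apex_unique T h.1 m1.1 h.2.1 h.2.2.1 m1.2.1 m1.2.2.1 h.2.2.2.1
  rw [h1] at m2
  exact not_mem_H_both (hx.mem_H m2) (h'.2.2.1.lh_cross t h3).1

lemma anc_deep1 (T : s.TT) {N : ℕ} (hN : ∀ p q, s.Wd p q → Y.dist p q ≤ N) (hn : N ≤ n)
    (h : s.INP ξ.p y ξ.q) (hx : Y.Cross ξ.p y ξ.x) : (ξ.anc n).x.src = (ξ.anc n).p := by
  obtain ⟨y', h1, h2⟩ := anc_arm T h hx n
  obtain ⟨h3, h4, h5⟩ := anc_up n ξ
  exact deep_aux T h1 ((hN _ _ ⟨y', h1⟩).trans hn) h2 h5 (by rw [h3, h4]; exact ξ.cr)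

/-- the ancestors of a component form one component -/
lemma pull_cmp (T : s.TT) (hc : s.Cover) (hs : s.Stab k) (hn : k ≤ n) {m : ℕ} (hm : m = j + n)
    (h : s.Cmp n x a b) (ha : s.Desc n a x) (h1 : s.Desc j a' a) (h2 : s.Desc j b' b) :
    s.Cmp m x a' b' := by
  have hb := cmp_desc h ha
  obtain ⟨ξ, rfl, c1⟩ := hc m x a' (desc_trans T hm h1 ha)
  obtain ⟨ζ, e, c2⟩ := hc m ξ.x b' (desc_trans T hm h2 hb)
  have k1 := cmp_mono T hm c1 h1 (anc_anc T hm ξ) ha (anc_desc n ξ)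
  have k2 := cmp_mono T hm c2 h2 (anc_anc T hm ζ) hb (e ▸ anc_desc n ζ)
  exact (c1.trans ((hs n hn ξ ζ e.symm (((cmp_symm k1).trans h).trans k2)).2 m)).trans
    (cmp_symm c2)

end Pool.Agent.Lib.FBC.T7B
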