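import Pool.Agent.Lib.FBC.T7.Blue7
import Pool.Agent.Lib.FBC.T7.Flag
import Pool.Agent.Lib.FBC.FGG

/-!
The partition of the edges into pieces.
-/

namespace Pool.Agent.Lib.FBC.T7P

open Forest T2 Flow Flow.Flag T7B

variable {G : Type} [Group G] {d : Dg G} {Y : Forest d} {s : Flow Y}
variable {a b a' x z : Y.Dir} {n m k : ℕ} {ξ ζ η η' : s.Flag}

/-- the generators of the relation of flags -/
def Gn (ξ ζ : s.Flag) : Prop := (ζ.p = ξ.p ∧ ζ.q = ξ.q) ∨ ζ = ξ.rev ∨ Opp ξ ζ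

lemma rel_refl (ξ : s.Flag) : ξ.Rel ξ := .refl _
lemma rel_symm (h : ξ.Rel ζ) : ζ.Rel ξ := .symm _ _ h
lemma rel_trans (h : ξ.Rel ζ) (h' : ζ.Rel η) : ξ.Rel η := .trans _ _ _ h h'
lemma rel_w (h1 : ζ.p = ξ.p) (h2 : ζ.q = ξ.q) : ξ.Rel ζ := .rel _ _ (Or.inl ⟨h1, h2⟩)
lemma rel_rev (ξ : s.Flag) : ξ.Rel ξ.rev := .rel _ _ (Or.inr (Or.inl rfl))
lemma rel_opp (h : ξ.Opp ζ) : ξ.Rel ζ := .rel _ _ (Or.inr (Or.inr h))
lemma rel_w' (h1 : ζ.p = ξ.q) (h2 : ζ.q = ξ.p) : ξ.Rel ζ := rel_trans (rel_rev ξ) (rel_w h1 h2)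

lemma gn_smul (g : G) (h : Gn ξ ζ) : Gn (g • ξ) (g • ζ) := by
  rcases h with ⟨h1, h2⟩ | rfl | h
  · exact Or.inl ⟨by simp [h1], by simp [h2]⟩
  · exact Or.inr (Or.inl rfl)
  · exact Or.inr (Or.inr (opp_smul g h))

lemma rel_smul (g : G) (h : ξ.Rel ζ) : (g • ξ).Rel (g • ζ) := by
  induction h with
  | rel _ _ h => exact .rel _ _ (gn_smul g h)
  | refl _ => exact rel_refl _
  | symm _ _ _ ih => exact rel_symm ih
  | trans _ _ _ _ _ ih ih' => exact rel_trans ih ih'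

lemma lev_flag (ξ : s.Flag) : Y.lev ξ.p = Y.lev ξ.x.src := ξ.cr.lev_src

lemma rel_lev (h : ξ.Rel ζ) : Y.lev ξ.p = Y.lev ζ.p := by
  induction h with
  | rel ξ ζ h =>
    rcases h with ⟨h1, -⟩ | rfl | h
    · rw [h1]
    · exact ξ.cr.lev
    · rw [lev_flag, lev_flag, h.1]
  | refl _ => rfl
  | symm _ _ _ ih => exact ih.symm
  | trans _ _ _ _ _ ih ih' => exact ih.trans ih'

lemma lev_anc (n : ℕ) (ξ : s.Flag) : Y.lev ξ.p = Y.lev (ξ.anc n).p + n := by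
  rw [← s.lev_iter, (anc_up n ξ).1]

lemma ex_desc (T : s.TT) (n : ℕ) (x : Y.Dir) : ∃ z, s.Desc n x z := by
  induction n with
  | zero => exact ⟨x, desc_refl x⟩
  | succ n ih =>
    obtain ⟨a, h⟩ := ih
    obtain ⟨b, -, -, -, -, h', -⟩ := T.prim a a.1.i
    exact ⟨b, desc_trans T rfl h h'.1⟩

lemma stab_rel (hs : s.Stab k) (e : η.x = η'.x) (h1 : s.Cmp k η.x a (η.anc k).x)
    (h2 : s.Cmp k η.x a (η'.anc k).x) : η.Rel η' :=
  rel_opp (hs k le_rfl η η' e ((cmp_symm h1).trans h2))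

lemma p0 (T : s.TT) (hc : s.Cover) (hs : s.Stab k) (hm : m = k + n) (h : s.Cmp m z a a')
    (h1 : s.Desc k a η.x) (h2 : s.Desc n η.x z) (h3 : s.Cmp k η.x a (η.anc k).x)
    (h4 : s.Desc k a' η'.x) (h5 : s.Desc n η'.x z) (h6 : s.Cmp k η'.x a' (η'.anc k).x) :
    η.Rel η' := by
  induction h generalizing η' with
  | refl =>
    have e := mid_unique T h1 h4 h2 h5
    exact stab_rel hs e h3 (e ▸ h6)
  | @tail b c _ t ih =>
    obtain ⟨x, c1, c2⟩ := desc_mid hm t.1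
    obtain ⟨θ, rfl, c3⟩ := hc k x b c1
    refine rel_trans (ih c1 c2 c3) ?_
    obtain ⟨-, -, p, q, ⟨y, w⟩, d1, d2⟩ := t
    rcases td T w d1 d2 c1 h4 c2 h5 with r | r
    · refine stab_rel hs r c3 (.head ⟨c1, r ▸ h4, p, q, ⟨y, w⟩, d1, d2⟩ (r ▸ h6))
    · have W : s.Wd p q := ⟨y, w⟩
      have e1 : (⟨_, _, θ.x, wd_it T W k, r.1⟩ : s.Flag).anc k = ⟨p, q, b, W, d1⟩ :=
        anc_eq ⟨rfl, rfl, c1⟩
      have e2 : (⟨_, _, η'.x, wd_it T W.symm k, r.2⟩ : s.Flag).anc k = ⟨q, p, c, W.symm, d2⟩ :=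
        anc_eq ⟨rfl, rfl, h4⟩
      refine rel_trans (stab_rel hs (η' := ⟨_, _, θ.x, wd_it T W k, r.1⟩) rfl c3 ?_)
        (rel_trans (rel_w' (ζ := ⟨_, _, η'.x, wd_it T W.symm k, r.2⟩) rfl rfl)
          (rel_symm (stab_rel hs rfl h6 ?_)))
      · rw [e1]; exact .refl
      · rw [e2]; exact .refl

/-- flags on one dart are related -/
lemma p1 (T : s.TT) (hc : s.Cover) (hs : s.Stab k) (e : ξ.x = ζ.x) : ξ.Rel ζ := by
  obtain ⟨z, hz⟩ := ex_desc T k ξ.x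
  exact p0 T hc hs rfl (pull_cmp T hc hs le_rfl rfl .refl hz (anc_desc k ξ) (e ▸ anc_desc k ζ))
    (anc_desc k ξ) hz .refl (anc_desc k ζ) (e ▸ hz) .refl

lemma p1e (T : s.TT) (hc : s.Cover) (hs : s.Stab k) (e : ξ.x.1 = ζ.x.1) : ξ.Rel ζ := by
  rcases eq_or_rv e with r | r
  · exact p1 T hc hs r.symm
  · exact rel_trans (rel_rev ξ) (p1 T hc hs r.symm)

lemma cmp_rel (T : s.TT) (hc : s.Cover) (hs : s.Stab k) (h : s.Cmp n x a b) (h1 : η.x = a)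
    (h2 : η'.x = b) : η.Rel η' := by
  induction h generalizing η' with
  | refl => exact p1 T hc hs (h1.trans h2.symm)
  | @tail b c _ t ih =>
    obtain ⟨-, -, p, q, W, d1, d2⟩ := t
    exact rel_trans (ih (η' := ⟨p, q, b, W, d1⟩) rfl)
      (rel_trans (rel_w' (ζ := ⟨q, p, c, W.symm, d2⟩) rfl rfl) (p1 T hc hs h2.symm))

/-- the relation passes to ancestors -/
lemma p2 (T : s.TT) (hc : s.Cover) (hs : s.Stab k) (n : ℕ) (h : ξ.Rel ζ) :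
    (ξ.anc n).Rel (ζ.anc n) := by
  induction h with
  | rel ξ ζ h =>
    rcases h with ⟨h1, h2⟩ | rfl | h
    · exact rel_w (anc_p n h1) (anc_q n h2)
    · rw [anc_rev]; exact rel_rev _
    · exact cmp_rel T hc hs (h.2 n) rfl rfl
  | refl _ => exact rel_refl _
  | symm _ _ _ ih => exact rel_symm ih
  | trans _ _ _ _ _ ih ih' => exact rel_trans ih ih'

/-- the stabilizer of the class of a flag in its level -/
def stb (ξ : s.Flag) : Subgroup G where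
  carrier := {u | u ∈ d.ker ∧ ξ.Rel (u • ξ)}
  one_mem' := ⟨d.ker.one_mem, by rw [one_smul]; exact rel_refl _⟩
  mul_mem' {u v} hu hv := ⟨d.ker.mul_mem hu.1 hv.1, by
    rw [mul_smul]; exact rel_trans hu.2 (rel_smul u hv.2)⟩
  inv_mem' {u} hu := ⟨d.ker.inv_mem hu.1, by
    have := rel_smul u⁻¹ hu.2
    rw [inv_smul_smul] at this
    exact rel_symm this⟩

lemma mem_stb {u : G} (h : ξ.Rel (u • ξ)) : u ∈ stb ξ := by
  refine ⟨mem_ker_iff.2 ?_, h⟩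
  have := rel_lev h
  rw [smul_p, lev_smul'] at this
  omega

lemma fin_gn (h : s.NF) (ξ : s.Flag) : {ζ | Gn ξ ζ}.Finite := by
  refine ((((finite_cross ξ.p ξ.q).biUnion fun x _ => fin_flag h x).insert ξ.rev).union
    (fin_flag h ξ.x)).subset ?_
  rintro ζ (⟨h1, h2⟩ | rfl | t)
  · exact Or.inl (Or.inr (Set.mem_biUnion (h1 ▸ h2 ▸ ζ.cr) rfl))
  · exact Or.inl (Or.inl rfl)
  · exact Or.inr t.1.symm

lemma stab_fg (K : Subgroup G) (ξ : s.Flag) : (K ⊓ MulAction.stabilizer G ξ).FG := by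
  have : K ⊓ MulAction.stabilizer G ξ = ⊥ := (Subgroup.eq_bot_iff_forall _).2 fun g hg =>
    eq_one_of_tr (e := ξ.x) (congrArg (fun ζ : s.Flag => ζ.x.1) hg.2)
  rw [this]
  exact (Subgroup.fg_iff _).2 ⟨∅, by simp, Set.finite_empty⟩

lemma stb_fg (h : s.NF) (ξ : s.Flag) : (stb ξ).FG := by
  obtain ⟨S, hS⟩ := fin_flag_orbits h
  have h1 : ∀ ζ : s.Flag, ∃ g : G, (∃ g' : G, ξ.Rel (g' • ζ)) → ξ.Rel (g • ζ) := fun ζ => by
    by_cases t : ∃ g' : G, ξ.Rel (g' • ζ)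
    · exact t.imp fun _ t _ => t
    · exact ⟨1, fun r => (t r).elim⟩
  choose c hc using h1
  have h2 : ∀ ζ η : s.Flag, ζ.Rel η → ξ.Rel ζ →
      Relation.EqvGen (fun a b => Gn a b ∧ ξ.Rel a) ζ η := fun ζ η t => by
    induction t with
    | rel _ _ t => exact fun r => .rel _ _ ⟨t, r⟩
    | refl _ => exact fun _ => .refl _
    | symm _ _ t ih => exact fun r => .symm _ _ (ih (rel_trans r (rel_symm t)))
    | trans _ _ _ t _ ih ih' => exact fun r => .trans _ _ _ (ih r) (ih' (rel_trans r t))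
  refine fgg (stb ξ) (fun a b => Gn a b ∧ ξ.Rel a) ξ
    (⋃ ζ ∈ (S : Set s.Flag), (fun η => (c ζ • ζ, η)) '' {η | Gn (c ζ • ζ) η})
    (S.finite_toSet.biUnion fun ζ _ => (fin_gn h _).image _)
    (fun u hu => h2 _ _ hu.2 (rel_refl _)) (fun ζ η t => ?_) (stab_fg _ _)
    fun _ _ => ⟨stab_fg _ _, stab_fg _ _⟩
  obtain ⟨g, hg⟩ := hS ζ
  have r := hc (g • ζ) ⟨g⁻¹, by rw [inv_smul_smul]; exact t.2⟩
  rw [← mul_smul] at r
  refine ⟨_, mem_stb (rel_trans r (rel_symm (rel_smul _ t.2))),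
    Set.mem_biUnion hg ⟨_, ?_, by rw [← mul_smul]⟩⟩
  rw [← mul_smul]
  exact gn_smul _ t.1

lemma ex_gam (ξ : s.Flag) : ∃ γ : G, (ξ.anc 1).Rel (γ⁻¹ • ξ) := by
  obtain ⟨y, w⟩ := ξ.wd
  obtain ⟨γ, h1, h2⟩ := w.2.2.2.2
  obtain ⟨a1, a2, -⟩ := anc_up 1 ξ
  refine ⟨γ, rel_w (fix_inj (wd_fix (γ⁻¹ • ξ).wd) (wd_fix (ξ.anc 1).wd) 1 ?_)
    (fix_inj (wd_fix (γ⁻¹ • ξ).wd.symm) (wd_fix (ξ.anc 1).wd.symm) 1 ?_)⟩
  · rw [a1]; simp [h1]
  · rw [a2]; simp [h2]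

/-- the relation passes to descendants -/
lemma p3 (hd : FC d) (h : s.NF) (hc : s.Cover) (hs : s.Stab k) (t : (ξ.anc 1).Rel (ζ.anc 1)) :
    ξ.Rel ζ := by
  obtain ⟨γ, h1⟩ := ex_gam ξ
  obtain ⟨γ', h2⟩ := ex_gam ζ
  have key : ∀ u : G, (ξ.anc 1).Rel (u • ξ.anc 1) → γ * u * γ⁻¹ ∈ stb ξ := fun u r => by
    have := rel_smul γ (rel_trans (rel_symm h1) (rel_trans r (rel_smul u h1)))
    rw [smul_inv_smul, ← mul_smul, ← mul_smul] at this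
    exact mem_stb this
  have h3 : ((γ' * γ⁻¹) • ξ).Rel ζ := by
    have := rel_smul γ' (rel_trans (rel_symm h1) (rel_trans t h2))
    rwa [smul_inv_smul, ← mul_smul] at this
  have h4 := p2 h.toTT hc hs 1 h3
  rw [anc_smul] at h4
  have h5 := noasc' hd.lerf (stb_fg h ξ) (t := γ) (fun u hu => key u (by
    rw [← anc_smul]; exact p2 h.toTT hc hs 1 hu.2)) _ (key _ (rel_trans t (rel_symm h4)))
  have e : γ⁻¹ * (γ * (γ' * γ⁻¹) * γ⁻¹) * γ = γ' * γ⁻¹ := by group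
  rw [e] at h5
  exact rel_trans h5.2 h3

lemma p3n (hd : FC d) (h : s.NF) (hc : s.Cover) (hs : s.Stab k) (n : ℕ)
    (t : (ξ.anc n).Rel (ζ.anc n)) : ξ.Rel ζ := by
  induction n with
  | zero => simpa using t
  | succ n ih =>
    rw [anc_add h.toTT (add_comm n 1), anc_add h.toTT (add_comm n 1)] at t
    exact ih (p3 hd h hc hs t)

/-- every edge between related wedges carries a related flag -/
lemma rel_conv (h : ξ.Rel ζ) : ∀ c ∈ sep ξ.p ζ.p, ∃ η : s.Flag, η.x.1 = c ∧ ξ.Rel η := by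
  have w : ∀ (ξ : s.Flag) c, c ∈ sep ξ.p ξ.q → ∃ η : s.Flag, η.x.1 = c ∧ ξ.Rel η :=
    fun ξ c hc => ⟨⟨ξ.p, ξ.q, _, ξ.wd, cross_of_mem hc⟩, rfl, rel_w rfl rfl⟩
  induction h with
  | rel ξ ζ h =>
    intro c hc
    rcases h with ⟨h1, -⟩ | rfl | h
    · simp [h1] at hc
    · exact w ξ c hc
    · rcases Finset.mem_union.1 (sep_subset_union (lev_flag ξ)
        (h.1 ▸ (lev_flag ζ).symm) hc) with t | t
      · exact w ξ c (ξ.cr.btw_src.subset t)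
      · rw [sep_comm, h.1] at t
        exact (w ζ c (ζ.cr.btw_src.subset t)).imp fun _ r => ⟨r.1, rel_trans (rel_opp h) r.2⟩
  | refl _ => simp
  | symm _ _ t ih =>
    intro c hc
    rw [sep_comm] at hc
    exact (ih c hc).imp fun _ r => ⟨r.1, rel_trans (rel_symm t) r.2⟩
  | trans _ _ _ t t' ih ih' =>
    intro c hc
    rcases Finset.mem_union.1 (sep_subset_union (rel_lev t) (rel_lev t') hc) with r | r
    · exact ih c r
    · exact (ih' c r).imp fun _ r => ⟨r.1, rel_trans t r.2⟩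

lemma btw_ed (ξ : s.Flag) (b : Bool) : Y.btw ξ.p (ξ.x.1.ed b) ξ.q := by
  rcases ed_cases (c := ξ.x.1) (b := ξ.x.2) (b' := b) rfl with r | r
  · exact r ▸ ξ.cr.btw_src
  · exact r ▸ ξ.cr.btw_tgt

/-- edges of one piece -/
def PR (s : Flow Y) (c c' : Y.E) : Prop :=
  ∃ (ξ ζ : s.Flag) (n m : ℕ), ξ.x.1 = c ∧ ζ.x.1 = c' ∧ (ξ.anc n).Rel (ζ.anc m)

lemma pr_of_rel (h : ξ.Rel ζ) : PR s ξ.x.1 ζ.x.1 := ⟨ξ, ζ, 0, 0, rfl, rfl, by simpa using h⟩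

lemma lev_of_edge (e : ξ.x.1 = ζ.x.1) : Y.lev ξ.p = Y.lev ζ.p := by
  rw [lev_flag, lev_flag, lev_src, lev_src, e]

lemma rel_of_pr (hd : FC d) (h : s.NF) (hc : s.Cover) (hs : s.Stab k) (l : Y.lev ξ.p = Y.lev ζ.p)
    (t : PR s ξ.x.1 ζ.x.1) : ξ.Rel ζ := by
  obtain ⟨η, η', n, m, e1, e2, r⟩ := t
  have l1 := lev_of_edge e1
  have l2 := lev_of_edge e2
  have l3 := lev_anc n η
  have l4 := lev_anc m η'
  have l5 := rel_lev r
  obtain rfl : n = m := by omega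
  exact rel_trans (p1e h.toTT hc hs e1.symm) (rel_trans (p3n hd h hc hs n r) (p1e h.toTT hc hs e2))

theorem _root_.Pool.Agent.Lib.FBC.T7.stPIECE : T7.St_PIECE := by
  intro G _ d hd Y s h k ⟨hc, hs, _, _⟩
  have T := h.toTT
  have ex : ∀ x : Y.Dir, ∃ ξ : s.Flag, ξ.x = x := fun x =>
    (hc 0 x x (desc_refl x)).imp fun _ t => t.1
  have exe : ∀ c : Y.E, ∃ ξ : s.Flag, ξ.x.1 = c := fun c =>
    (ex (c, false)).imp fun _ t => congrArg Prod.fst t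
  refine ⟨PR s, ⟨⟨fun c => ?_, ?_, ?_⟩, ?_, fun e e' t => ?_, ?_, fun c => ?_⟩,
    fun ξ ζ l t => rel_of_pr hd h hc hs l t⟩
  · obtain ⟨ξ, rfl⟩ := exe c
    exact pr_of_rel (rel_refl ξ)
  · rintro _ _ ⟨ξ, ζ, n, m, rfl, rfl, t⟩
    exact ⟨ζ, ξ, m, n, rfl, rfl, rel_symm t⟩
  · rintro _ _ _ ⟨ξ, ζ, n, m, rfl, rfl, t⟩ ⟨ξ', ζ', n', m', e, rfl, t'⟩
    refine ⟨ξ, ζ', n' + n, m + m', rfl, rfl, ?_⟩
    have k1 := p2 T hc hs n' t
    have k2 := p2 T hc hs m t'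
    rw [← anc_add T rfl, ← anc_add T (add_comm m n')] at k1
    rw [← anc_add T rfl, ← anc_add T rfl] at k2
    exact rel_trans k1 (rel_trans (p2 T hc hs _ (p1e T hc hs e.symm)) k2)
  · rintro g _ _ ⟨ξ, ζ, n, m, rfl, rfl, t⟩
    exact ⟨g • ξ, g • ζ, n, m, rfl, rfl, by rw [anc_smul, anc_smul]; exact rel_smul g t⟩
  · obtain ⟨ξ, rfl, r⟩ := hc 1 e' e t
    obtain ⟨η, rfl⟩ := ex e
    exact ⟨η, ξ, 0, 1, rfl, rfl, by rw [anc_zero]; exact cmp_rel T hc hs r rfl rfl⟩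
  · intro c c' b b' j t hj
    obtain ⟨ξ, rfl⟩ := exe c
    obtain ⟨ζ, rfl⟩ := exe c'
    have b1 := btw_ed ξ b
    have b2 := btw_ed ζ b'
    have l := (b1.lev1.trans (lev_eq_of_mem hj)).trans b2.lev1.symm
    have r := rel_of_pr hd h hc hs l t
    suffices ∃ η : s.Flag, η.x.1 = j ∧ ξ.Rel η by
      obtain ⟨η, rfl, t⟩ := this
      exact pr_of_rel t
    rcases Finset.mem_union.1 (sep_subset_union b1.lev1.symm (l.trans b2.lev1) hj) with w | w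
    · rw [sep_comm] at w
      exact rel_conv (rel_rev ξ) j (b1.subset w)
    rcases Finset.mem_union.1 (sep_subset_union l b2.lev1 w) with w | w
    · exact rel_conv r j w
    · exact (rel_conv (rel_rev ζ) j (b2.subset w)).imp fun _ t => ⟨t.1, rel_trans r t.2⟩
  · obtain ⟨ξ, rfl⟩ := exe c
    refine ⟨stb ξ, stb_fg h ξ, fun u => and_congr_right fun hu => ⟨fun t => pr_of_rel t, fun t =>
      rel_of_pr hd h hc hs ?_ t⟩⟩
    rw [smul_p, lev_smul', mem_ker_iff.1 hu, add_zero]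

end Pool.Agent.Lib.FBC.T7P
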