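import Pool.Agent.Lib.FBC.T7.Div

/-!
`St_QL`: fibres of good itineraries are quasi-lines.
-/

namespace Pool.Agent.Lib.FBC.T7

open Forest T2

variable {G : Type} [Group G] {d d' : Dg G} {Y : Forest d} {s : Flow Y}

lemma ql_chain (T : s.TT) {k : ℕ} {a b : Y.Dir} (h : s.Desc k a b) :
    ∃ e : ℕ → Y.Dir, e 0 = a ∧ e k = b ∧ s.Chn e k := by
  induction k generalizing a with
  | zero => exact ⟨fun _ => a, rfl, (Flow.lh_desc_zero h).symm, fun _ h => by omega⟩
  | succ k ih =>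
    obtain ⟨c, h1, h2⟩ := (T.legal a).lh_anc (n := k) h
    obtain ⟨e, rfl, rfl, h3⟩ := ih h2
    refine ⟨fun t => Nat.casesOn t a e, rfl, rfl, fun t ht => ?_⟩
    cases t with
    | zero => exact h1
    | succ t => exact h3 t (by omega)

lemma ql_cat {f g : ℕ → Y.Dir} {a b : ℕ} (hf : s.Chn f a) (hg : s.Chn g b) (e : f a = g 0) :
    ∃ c : ℕ → Y.Dir, s.Chn c (a + b) ∧ (∀ t ≤ a, c t = f t) ∧ ∀ t, c (a + t) = g t := by
  have h1 : ∀ t ≤ a, (if t ≤ a then f t else g (t - a)) = f t := fun t ht => if_pos ht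
  have h2 : ∀ t, (if a + t ≤ a then f (a + t) else g (a + t - a)) = g t := fun t => by
    cases t with
    | zero => simpa using e
    | succ t => simp
  refine ⟨fun t => if t ≤ a then f t else g (t - a), fun t ht => ?_, h1, h2⟩
  by_cases c : t < a
  · beta_reduce
    rw [h1 t c.le, h1 (t + 1) c]; exact hf t c
  · obtain ⟨i, rfl⟩ : ∃ i, t = a + i := ⟨t - a, by omega⟩
    beta_reduce
    rw [h2 i, add_assoc, h2 (i + 1)]; exact hg i (by omega)

lemma ql_back (T : s.TT) {ε : ℕ → Y.Dir} {n : ℕ} (h : ∀ t < n, s.Desc 1 (ε (t + 1)) (ε t))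
    (t j : ℕ) (e : t + j ≤ n) : s.Desc j (ε (t + j)) (ε t) := by
  induction j with
  | zero => exact cross_self _
  | succ j ih => exact T.lh_trans (h (t + j) (by omega)) (ih (by omega))

/-- orbits that stay near an interior itinerary merge with it -/
lemma ql_merge (hD : St_DIV) (hU : St_UNI) (hd : FC d) (h : s.NF) {K : ℕ} (R : ℕ) (hK : 0 < K) :
    ∃ T W : ℕ, T ≤ W ∧ ∀ (ι : ℕ → Y.Dir) (b : ℕ → Y.V), s.KI K ι W →
      (∀ i ≤ W, Y.lev (b i) = Y.lev (ι i).src ∧ Y.dist (ι i).src (b i) ≤ R) →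
      ¬ (∀ i < W, s.σ (b i) = b (i + 1)) ∧ ∀ ε : ℕ → Y.Dir, s.Chn ε W →
        (∀ i ≤ W, (ε i).src = b i) → (ε T).1 = (ι T).1 := by
  obtain ⟨T1, h1⟩ := hD G d hd Y s h K R (R + 1) hK
  obtain ⟨T2, h2⟩ := hU G d hd Y s h K R hK
  refine ⟨T2, 2 * T2 + T1, by omega, fun ι b k hb => ⟨fun e => ?_, fun ε c e => ?_⟩⟩
  · have e1 : ∀ i ≤ 2 * T2 + T1, s.σ^[i] (b 0) = b i := by
      intro i hi
      induction i with
      | zero => rfl
      | succ i ih => rw [Function.iterate_succ_apply', ih (by omega), e i hi]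
    have l := (hb 0 (Nat.zero_le _)).1
    obtain ⟨μ, p⟩ := ex_pr (lev_it (s := s) (2 * T2 + T1) (lev_src_tgt (ι 0)))
      (lev_it _ ((lev_src_tgt (ι 0)).symm.trans l.symm))
    have := h1 _ (by omega) ι _ μ k l (hb 0 (Nat.zero_le _)).2 ⟨p.1, p.2.2, p.2.1⟩
    have a0 := chn_desc h.toTT k.1 0 _ (zero_add _).le
    rw [zero_add] at a0
    have := bt_ds (p.bt (cross_bt a0).1)
    rw [e1 _ le_rfl] at this
    have := (hb _ le_rfl).2
    omega
  · exact h2 ι ε ⟨fun t ht => k.1 t (by omega), fun t ht => k.2 t (by omega)⟩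
      (fun t ht => c t (by omega)) (by rw [e 0 (Nat.zero_le _), (hb 0 (Nat.zero_le _)).1])
      fun t ht => by rw [e t (by omega)]; exact (hb t (by omega)).2

lemma bt_near {A C w a c : Y.V} {E : ℕ} (h : Y.btw A w C) (la : Y.lev A = Y.lev a)
    (lc : Y.lev C = Y.lev c) (ha : Y.dist A a ≤ E) (hc : Y.dist C c ≤ E) :
    ∃ w', Y.btw a w' c ∧ Y.dist w w' ≤ E := by
  have l : Y.lev a = Y.lev c := la.symm.trans ((bt_lev h).trans lc)
  rcases bt_cover h ((bt_lev h).symm.trans la) with o | o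
  · exact ⟨a, bt_left l, by have := bt_ds o; omega⟩
  rcases bt_cover o lc with o' | o'
  · exact ⟨w, o', by simp⟩
  · exact ⟨c, bt_right l, by have := bt_ds o'; rw [ds_comm] at hc ⊢; omega⟩

/-- the leaf of a backward itinerary at time `m` -/
def On (s : Flow Y) (κ : ℤ → Y.Dir) (m : ℤ) (n : ℕ) (v : Y.V) : Prop :=
  Y.btw (s.σ^[n] (κ (m + n)).src) v (s.σ^[n] (κ (m + n)).tgt)

section
variable {κ : ℤ → Y.Dir} (T : s.TT) (hκ : ∀ t, s.Desc 1 (κ (t + 1)) (κ t)) {m : ℤ} {n n' : ℕ}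
  {v : Y.V}
include T hκ

lemma On.mono (h : On s κ m n v) (e : n ≤ n') : On s κ m n' v := by
  induction e with
  | refl => exact h
  | @step k _ ih =>
    obtain ⟨a1, a2, -⟩ := cross_bt (hκ (m + k))
    unfold On
    rw [Nat.cast_succ, ← add_assoc]
    exact bt_conv (lp_lg (T.legal _) a1 k) (lp_lg (T.legal _) a2 k) ih

omit hκ in
lemma On.dart (h : On s κ m n v) :
    ∃ ε, s.Desc n (κ (m + n)) ε ∧ (ε.src = v ∨ ε.tgt = v) := by
  by_cases e : v = s.σ^[n] (κ (m + n)).tgt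
  · obtain ⟨ε, h1, h2⟩ := exists_last (bt_lev h) (exp_ne T (lp_adj (dir_adj _)) (src_ne_tgt _) n)
    exact ⟨ε, h2, Or.inr (h1.trans e.symm)⟩
  · obtain ⟨ε, h1, h2⟩ := exists_step h.2.1 e
    exact ⟨ε, h2.extend_left h, Or.inl h1⟩

end

section
variable (hS : St_SH) (hD : St_DIV) (hU : St_UNI) (hd : FC d) (X : Pair d d') (hs : X.s.NF)
  (ht : X.t.NF) {ι : ℤ → X.P.Dir} {κ : ℤ → X.M.Dir} {K C : ℕ} (hK : 0 < K)
  (hι : ∀ t, X.s.IDesc 1 (ι t) (ι (t + 1))) (hκ : ∀ t, X.t.Desc 1 (κ (t + 1)) (κ t))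
  (hκ' : ∀ t, X.t.IDesc K (κ (t + K)) (κ t))
  (hC : ∀ t, X.M.lev (κ t).src = - X.P.lev (ι t).src ∧
    X.M.dist (X.h'.f (ι t).src) (κ t).src ≤ C)
include hS hD hU hd hs ht hK hι hκ hκ' hC

lemma ql_to_leaf : ∃ D, ∀ (k : ℕ) (n : ℤ) e, X.s.Desc k e (ι n) →
    ∃ j v, On X.t κ (n - k) j v ∧ X.M.lev v = - X.P.lev e.src ∧
      X.M.dist (X.h'.f e.src) v ≤ D := by
  obtain ⟨T, D, h1⟩ := hS G d d' hd X hs ht 1 one_pos
  obtain ⟨T', W, hW, h2⟩ := ql_merge hD hU (hd.symm X) ht (C + D) hK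
  refine ⟨D, fun k n e he => ?_⟩
  obtain ⟨f, rfl, f1, f2⟩ := ql_chain hs.toTT he
  obtain ⟨c, c1, c2, c3⟩ := ql_cat (g := fun t => ι (n + t)) (b := W + T) f2
    (fun t _ => by simpa [add_assoc] using (hι (n + t)).1) (by simpa using f1)
  obtain ⟨b, b1, b2, b3⟩ := h1 _ c c1
  have q : ∀ i ≤ W, c (k + W - i) = ι (n + W - i) := fun i hi => by
    rw [show k + W - i = k + (W - i) by omega, c3, Nat.cast_sub hi, add_sub_assoc]
  obtain ⟨m1, m2⟩ := h2 (fun i => κ (n + W - i)) (fun i => b (k + W - i))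
    ⟨fun t _ => by
      have := hκ (n + W - (t + 1 : ℕ))
      rwa [show n + W - (t + 1 : ℕ) + 1 = n + W - t by push_cast; ring] at this,
    fun t _ => by
      have := hκ' (n + W - (t + K : ℕ))
      rwa [show n + W - (t + K : ℕ) + K = n + W - t by push_cast; ring] at this⟩
    fun i hi => by
      have k1 := b1 (k + W - i) (by omega)
      have k2 := b3 (k + W - i) (by omega) (Or.inr (Or.inr ⟨by omega, fun t _ => ?_, fun t _ => ?_⟩))
      · rw [q i hi] at k1 k2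
        have k3 := hC (n + W - i)
        have := ds_tri (k3.1.trans (X.lev_h' _).symm) ((X.lev_h' _).trans k1.symm)
        rw [ds_comm] at k3
        exact ⟨k1.trans k3.1.symm, by omega⟩
      · exact c1 _ (by omega)
      · beta_reduce
        rw [show k + W - i + t = k + (W - i + t) by omega,
          show k + W - i + (t + 1) = k + (W - i + t + 1) by omega, c3, c3, Nat.cast_succ,
          ← add_assoc]
        exact hι _
  have q' : ∀ i < W, k + W - i = k + W - (i + 1) + 1 := fun i hi => by omega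
  obtain ⟨ε, e1, e2⟩ := b2.resolve_left fun e => m1 fun i hi => by
    rw [q' i hi]; exact e _ (by omega)
  have m3 := m2 (fun i => ε (k + W - i)) (fun i hi => by
    beta_reduce
    rw [q' i hi]; exact e2 _ (by omega)) fun i hi => e1 _ (by omega)
  have m4 := (cross_bt (ql_back ht.toTT e2 0 (k + W - T') (by omega))).1
  rw [zero_add, e1 0 (Nat.zero_le _)] at m4
  refine ⟨k + W - T', b 0, ?_, c2 0 k.zero_le ▸ b1 0 (Nat.zero_le _),
    c2 0 k.zero_le ▸ b3 0 (Nat.zero_le _) (Or.inl rfl)⟩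
  unfold On
  rw [show n - k + (k + W - T' : ℕ) = n + W - T' by omega]
  rcases eq_or_rv m3 with e | e
  · rw [e]; exact m4
  · rw [e, rvs, rvt]; exact bt_symm m4

lemma ql_of_leaf : ∃ D, ∀ (m : ℤ) (j : ℕ) v, On X.t κ m j v →
    ∃ (z : X.P.Dir) (k : ℕ) (n : ℤ), X.s.Desc k z (ι n) ∧ X.P.lev z.src = - X.M.lev v ∧
      X.P.dist (X.h.f v) z.src ≤ D := by
  obtain ⟨T, D, h1⟩ := hS G d' d (hd.symm X) X.symm ht hs K hK
  replace h1 : ∀ (n : ℕ) (e : ℕ → X.M.Dir), X.t.Chn e n →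
    ∃ b : ℕ → X.P.V, (∀ t ≤ n, X.P.lev (b t) = - X.M.lev (e t).src) ∧
      ((∀ t < n, X.s.σ (b (t + 1)) = b t) ∨ ∃ ε : ℕ → X.P.Dir, (∀ t ≤ n, (ε t).src = b t) ∧
        ∀ t < n, X.s.Desc 1 (ε (t + 1)) (ε t)) ∧
      ∀ t ≤ n, (t = 0 ∨ t = n ∨ (t + T ≤ n ∧ X.t.KI K (fun i => e (t + i)) T)) →
        X.P.dist (X.h.f (e t).src) (b t) ≤ D := h1
  obtain ⟨Λ, -, hΛ⟩ := X.h.exists_lip
  obtain ⟨C', hC'⟩ := (X.h.comp X.h').exists_disp hd.surj
  obtain ⟨T', W, hW, h2⟩ := ql_merge hD hU hd hs (C' + Λ * C + D) one_pos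
  refine ⟨Λ + D + 1, fun m j v hv => ?_⟩
  obtain ⟨ε, he, hε⟩ := hv.dart ht.toTT
  obtain ⟨f, f0, rfl, f2⟩ := ql_chain ht.toTT he
  obtain ⟨c, c1, c2, c3⟩ := ql_cat (f := fun t => κ (m + j + (W + T) - t)) (a := W + T)
    (fun t _ => by
      have := hκ (m + j + (W + T) - (t + 1 : ℕ))
      rwa [show m + j + (W + T) - (t + 1 : ℕ) + 1 = m + j + (W + T) - t by push_cast; ring]
        at this) f2 (by rw [f0]; congr 1; push_cast; ring)
  obtain ⟨b, b1, b2, b3⟩ := h1 _ c c1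
  have q : ∀ i ≤ W, c (W - i) = κ (m + j + T + i) := fun i hi => by
    rw [c2 _ (by omega), Nat.cast_sub hi]; congr 1; ring
  obtain ⟨m1, m2⟩ := h2 (fun i => ι (m + j + T + i)) (fun i => b (W - i))
    ⟨fun t _ => by simpa [add_assoc] using (hι (m + j + T + t)).1,
    fun t _ => by simpa [add_assoc] using hι (m + j + T + t)⟩
    fun i hi => by
      have k1 : X.P.lev (b (W - i)) = - X.M.lev (c (W - i)).src := b1 (W - i) (by omega)
      have k2 : X.P.dist (X.h.f (c (W - i)).src) (b (W - i)) ≤ D :=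
        b3 (W - i) (by omega) (Or.inr (Or.inr ⟨by omega, fun t _ => ?_, fun t _ => ?_⟩))
      · rw [q i hi] at k1 k2
        have k3 := hC (m + j + T + i)
        have l := (X.lev_h' _).trans k3.1.symm
        have k4 := (hΛ _ _ l).trans (Nat.mul_le_mul_left Λ k3.2)
        have k5 := hC' (ι (m + j + T + i)).src
        have := ds_tri (X.lev_hh (ι (m + j + T + i)).src).symm
          ((X.h.lev_eq l).trans ((X.lev_h _).trans k1.symm))
        have := ds_tri (X.h.lev_eq l) ((X.lev_h _).trans k1.symm)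
        rw [ds_comm] at k5
        simp only [EMap.comp_f] at k5
        exact ⟨by rw [k1, k3.1, neg_neg], by omega⟩
      · exact c1 _ (by omega)
      · beta_reduce
        rw [c2 _ (by omega), c2 _ (by omega)]
        have := hκ' (m + j + (W + T) - (W - i + (t + K) : ℕ))
        rwa [show m + j + (W + T) - (W - i + (t + K) : ℕ) + K =
          m + j + (W + T) - (W - i + t : ℕ) by push_cast; ring] at this
  have q' : ∀ i < W, W - i = W - (i + 1) + 1 := fun i hi => by omega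
  obtain ⟨η, e1, e2⟩ := b2.resolve_left fun e => m1 fun i hi => by
    rw [q' i hi]; exact e _ (by omega)
  have m3 := m2 (fun i => η (W - i)) (fun i hi => by
    beta_reduce
    rw [q' i hi]; exact e2 _ (by omega)) fun i hi => e1 _ (by omega)
  have m4 := ql_back hs.toTT e2 (W - T') (T' + T + j) (by omega)
  rw [show W - T' + (T' + T + j) = W + T + j by omega] at m4
  have k1 : X.P.lev (b (W + T + j)) = - X.M.lev (c (W + T + j)).src := b1 _ le_rfl
  have k2 : X.P.dist (X.h.f (c (W + T + j)).src) (b (W + T + j)) ≤ D :=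
    b3 _ le_rfl (Or.inr (Or.inl rfl))
  rw [c3, ← e1 _ le_rfl] at k1 k2
  have l : X.M.lev v = X.M.lev (f j).src := by
    rcases hε with rfl | rfl
    exacts [rfl, (lev_src_tgt _).symm]
  have k3 : X.M.dist v (f j).src ≤ 1 := by
    rcases hε with rfl | rfl
    · simp
    · rw [ds_comm, dir_ds]
  have k4 := (hΛ _ _ l).trans (Nat.mul_le_mul_left Λ k3)
  have l' := (X.lev_h _).trans k1.symm
  have k5 := ds_tri (X.h.lev_eq l) l'
  rcases eq_or_rv m3 with e | e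
  · exact ⟨_, _, _, e ▸ m4, by rw [k1, l], by omega⟩
  · refine ⟨_, _, _, e ▸ m4.lh_rv, by rw [rvs, ← lev_src_tgt, k1, l], ?_⟩
    have := ds_tri ((X.h.lev_eq l).trans l') (lev_src_tgt (η (W + T + j)))
    rw [dir_ds] at this
    rw [rvs]; omega

end

theorem stQL (hS : St_SH) (hG : St_GOOD) (hD : St_DIV) (hU : St_UNI) : St_QL := by
  intro G _ d d' hd X hs ht x
  obtain ⟨ι, κ, K, C, hK, rfl, hι, hκ, hκ', hC⟩ := hG G d d' hd X hs ht x
  obtain ⟨D1, h1⟩ := ql_to_leaf hS hD hU hd X hs ht hK hι hκ hκ' hC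
  obtain ⟨D2, h2⟩ := ql_of_leaf hS hD hU hd X hs ht hK hι hκ hκ' hC
  obtain ⟨Λ, -, hΛ⟩ := X.h.exists_lip
  obtain ⟨C', hC'⟩ := (X.h.comp X.h').exists_disp hd.surj
  obtain ⟨B, hB⟩ := X.h.exists_bcc (hd.symm X).surj X.h' X.lev_hh'
  obtain ⟨Q, hQ⟩ := X.h.exists_qi (hd.symm X).surj X.h' X.lev_hh'
  obtain ⟨E, hE⟩ : ∃ E, E = Λ * D1 + C' + D2 := ⟨_, rfl⟩
  have lv : ∀ t : ℤ, X.P.lev (ι t).src = X.P.lev (ι 0).src + t := by
    intro t
    induction t using Int.induction_on with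
    | zero => simp
    | succ t ih => rw [(hι t).1.lh_lev, ih]; push_cast; ring
    | pred t ih =>
      have := (hι (-t - 1)).1.lh_lev
      rw [sub_add_cancel, ih] at this
      push_cast at this; omega
  have dz : ∀ (t : ℤ) (i : ℕ), X.s.Desc i (ι t) (ι (t + i)) := fun t i => by
    simpa using chn_desc hs.toTT (ι := fun i => ι (t + i)) (n := i)
      (fun j _ => by simpa [add_assoc] using (hι (t + j)).1) 0 i (by omega)
  -- from the fibre to the leaf and back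
  have A : ∀ z ∈ X.s.Fib fun n : ℕ => ι n, ∃ j v,
      On X.t κ (X.P.lev z.src - X.P.lev (ι 0).src) j v ∧ X.P.lev (X.h.f v) = X.P.lev z.src ∧
        X.P.dist (X.h.f v) z.src ≤ E := by
    rintro z ⟨n, k, hz⟩
    obtain ⟨j, v, k1, k2, k3⟩ := h1 k n z hz
    have e := hz.lh_lev
    rw [lv] at e
    have l := (X.lev_h' _).trans k2.symm
    have k4 := (hΛ _ _ l).trans (Nat.mul_le_mul_left Λ k3)
    have k5 := hC' z.src
    simp only [EMap.comp_f] at k5
    have := ds_tri (X.h.lev_eq l).symm (X.lev_hh z.src)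
    rw [ds_comm] at k4
    exact ⟨j, v, by rwa [show X.P.lev z.src - X.P.lev (ι 0).src = n - k by omega],
      (X.h.lev_eq l).symm.trans (X.lev_hh _), by omega⟩
  have A' : ∀ m j v, On X.t κ m j v → ∃ z ∈ X.s.Fib fun n : ℕ => ι n,
      X.P.lev (X.h.f v) = X.P.lev z.src ∧ X.P.dist (X.h.f v) z.src ≤ E := by
    intro m j v hv
    obtain ⟨z, k, n, k1, k2, k3⟩ := h2 m j v hv
    have := hs.toTT.lh_trans k1 (dz n n.natAbs)
    refine ⟨z, ⟨(n + n.natAbs).toNat, n.natAbs + k, ?_⟩, (X.lev_h _).trans k2.symm, by omega⟩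
    beta_reduce
    rwa [Int.toNat_of_nonneg (by omega)]
  have M : ∀ (u v w : X.M.V) (a b c : X.P.V), X.M.btw u v w →
      X.P.lev (X.h.f u) = X.P.lev a ∧ X.P.dist (X.h.f u) a ≤ E →
      X.P.lev (X.h.f v) = X.P.lev b ∧ X.P.dist (X.h.f v) b ≤ E →
      X.P.lev (X.h.f w) = X.P.lev c ∧ X.P.dist (X.h.f w) c ≤ E →
      ∃ w', X.P.btw a w' c ∧ X.P.lev b = X.P.lev w' ∧ X.P.dist b w' ≤ 2 * E + B := by
    intro u v w a b c o ha hb hc
    obtain ⟨μ, m1, m2, m3⟩ := ex_med (X.h.lev_eq (bt_lev o)) (X.h.lev_eq o.2.1.symm)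
    have k1 := hB _ _ _ _ o ⟨m1, m2, m3⟩
    obtain ⟨w', k2, k3⟩ := bt_near m1 ha.1 hc.1 ha.2 hc.2
    have l := m1.1.symm.trans (ha.1.trans k2.1)
    have := ds_tri hb.1.symm (m3.2.1.symm.trans l)
    have := ds_tri m3.2.1.symm l
    have := hb.2
    rw [ds_comm] at this
    exact ⟨w', k2, hb.1.symm.trans (m3.2.1.symm.trans l), by omega⟩
  have T := ht.toTT
  refine ⟨fun n => ι n, 2 * E + B + Λ, rfl, fun t => by simpa using hι t, ?_, ?_, ?_⟩
  · intro x hx y hy z hz m hm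
    obtain ⟨j1, v1, o1, a1⟩ := A x hx
    obtain ⟨j2, v2, o2, a2⟩ := A y hy
    obtain ⟨j3, v3, o3, a3⟩ := A z hz
    rw [← bt_lev hm.1] at o2
    rw [← bt_lev hm.2.2] at o3
    have p1 := o1.mono T hκ (n' := j1 + j2 + j3) (by omega)
    have p2 := o2.mono T hκ (n' := j1 + j2 + j3) (by omega)
    have p3 := o3.mono T hκ (n' := j1 + j2 + j3) (by omega)
    have fin : ∀ {a b c w : X.P.V}, Pr a c b m → X.P.btw a w c → X.P.dist b w ≤ 2 * E + B →
        X.P.dist b m ≤ 2 * E + B + Λ := fun p o e => by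
      have := bt_ds (bt_symm (p.bt o)); omega
    have : X.M.btw v2 v1 v3 ∨ X.M.btw v1 v2 v3 ∨ X.M.btw v1 v3 v2 := by
      rcases bt_total p1 p2 with c | c
      · rcases bt_split p1 p3 with c' | c'
        · exact Or.inl (bt_symm (bt_in c' c))
        · exact Or.inr (bt_total (bt_in c p2) c')
      · rcases bt_split p1 p3 with c' | c'
        · exact Or.inr (bt_total (bt_symm c) (bt_symm c'))
        · exact Or.inl (bt_in c (bt_in' p1 c'))
    rcases this with c | c | c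
    · obtain ⟨w, k1, -, k2⟩ := M _ _ _ _ _ _ c a2 a1 a3
      exact Or.inl (fin ⟨hm.2.1, bt_symm hm.1, bt_symm hm.2.2⟩ k1 k2)
    · obtain ⟨w, k1, -, k2⟩ := M _ _ _ _ _ _ c a1 a2 a3
      exact Or.inr (Or.inl (fin ⟨hm.2.2, hm.1, bt_symm hm.2.1⟩ k1 k2))
    · obtain ⟨w, k1, -, k2⟩ := M _ _ _ _ _ _ c a1 a3 a2
      exact Or.inr (Or.inr (fin ⟨hm.1, hm.2.2, hm.2.1⟩ k1 k2))
  · intro x hx y hy c hc
    obtain ⟨j1, v1, o1, a1⟩ := A x hx
    obtain ⟨j2, v2, o2, a2⟩ := A y hy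
    rw [← bt_lev hc] at o2
    have p1 := o1.mono T hκ (n' := j1 + j2) (by omega)
    have p2 := o2.mono T hκ (n' := j1 + j2) (by omega)
    obtain ⟨c', k1, k2⟩ := bt_near hc a1.1.symm a2.1.symm ((ds_comm _ _).trans_le a1.2)
      ((ds_comm _ _).trans_le a2.2)
    have : ∃ u, X.M.btw v1 u v2 ∧ X.P.dist (X.h.f u) c' ≤ Λ := by
      by_cases e : v1 = v2
      · subst e; exact ⟨v1, bt_left rfl, by simp [bt_self k1]⟩
      · obtain ⟨ε, e1, e2⟩ := X.h.cover k1 e
        have := hΛ _ _ (lev_src_tgt ε)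
        have := bt_ds e2
        rw [dir_ds] at *
        exact ⟨_, e1.btw_src, by omega⟩
    obtain ⟨u, u1, u2⟩ := this
    obtain ⟨z, hz, z1, z2⟩ := A' _ _ u (bt_conv p1 p2 u1)
    have l1 : X.P.lev (X.h.f u) = X.P.lev c' := (X.h.lev_eq u1.1).symm.trans k1.1
    have l2 : X.P.lev c' = X.P.lev c := k1.1.symm.trans (a1.1.trans hc.1)
    have := ds_tri z1.symm (l1.trans l2)
    have := ds_tri l1 l2
    rw [ds_comm] at z2 k2
    exact ⟨z, hz, z1.symm.trans (l1.trans l2), by omega⟩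
  · intro x hx R
    obtain ⟨j, v, o, a⟩ := A x hx
    obtain ⟨R', hR⟩ : ∃ R', R' = Q * (R + 4 * E + B) + Q := ⟨_, rfl⟩
    have p := o.mono T hκ (n' := j + R') (by omega)
    have p' := p.mono T hκ (n' := j + R' + K) (by omega)
    obtain ⟨ε, e1, e2⟩ := p.dart T
    have i1 := hκ' (X.P.lev x.src - X.P.lev (ι 0).src + (j + R' : ℕ))
    rw [add_assoc, ← Nat.cast_add] at i1
    generalize X.P.lev x.src - X.P.lev (ι 0).src = m at *
    have l := lev_src_tgt (κ (m + (j + R' + K : ℕ)))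
    have g1 := marg T (lp_adj (dir_adj _)) (bt_left l) (bt_right l) (bt_left l) i1 e1
    have g2 := marg T (lp_adj (dir_adj _)) (bt_left l) (bt_right l) (bt_right l) i1 e1
    obtain ⟨y, hy, y1⟩ := A' m (j + R' + K) _ (bt_left (bt_lev p'))
    obtain ⟨z, hz, z1⟩ := A' m (j + R' + K) _ (bt_right (bt_lev p'))
    obtain ⟨w, k1, k2, k3⟩ := M _ _ _ _ _ _ p' y1 a z1
    have far : ∀ (u : X.M.V) (y : X.P.V), X.M.lev v = X.M.lev u → R' < X.M.dist v u →
        X.P.lev (X.h.f u) = X.P.lev y ∧ X.P.dist (X.h.f u) y ≤ E → R ≤ X.P.dist w y := by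
      intro u y l e hy
      by_contra c
      have l1 := (a.1.trans k2).symm.trans ((X.h.lev_eq l).trans hy.1)
      have := ds_tri a.1 (a.1.symm.trans (X.h.lev_eq l))
      have := ds_tri k2 (l1.trans hy.1.symm)
      have := ds_tri l1 hy.1.symm
      have := hy.2
      rw [ds_comm] at this
      have := a.2
      have := (hQ _ _ l).trans (Nat.add_le_add_right (Nat.mul_le_mul_left Q
        (show _ ≤ R + 4 * E + B by omega)) Q)
      omega
    refine ⟨y, hy, z, hz, w, k1, k2, by omega, far _ _ p'.1.symm ?_ y1, far _ _ p'.2.1 ?_ z1⟩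
    · rcases e2 with rfl | rfl <;> omega
    · rcases e2 with rfl | rfl <;> omega

end Pool.Agent.Lib.FBC.T7
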