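import Pool.Agent.Lib.FBC.T7.Blue7

/-!
Shadowing of finite itineraries by orbits of the backward flow.
-/

namespace Pool.Agent.Lib.FBC.T7

open Forest Flow

namespace SH

/-- twisted periodic extension -/
def ext {α : Type} (ρ : α → α) (w : ℕ → α) (n t : ℕ) : α :=
  if t ≤ n + 1 then w t else ρ (ext ρ w n (t - (n + 1)))
termination_by t

lemma ext_add {α : Type} {ρ : α → α} {w : ℕ → α} {n : ℕ} (h : w (n + 1) = ρ (w 0)) (t : ℕ) :
    ext ρ w n (t + (n + 1)) = ρ (ext ρ w n t) := by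
  rcases t with _ | t
  · rw [ext, ext.eq_def ρ w n 0]; simpa using h
  · rw [ext, if_neg (by omega), Nat.add_sub_cancel]

/-- reading a twisted periodic sequence backwards -/
lemma zext {α : Type} (δ : α → α) (u : ℕ → α) (P : ℕ) (hu : ∀ i, δ (u (i + (P + 1))) = u i)
    (R : α → α → Prop) (hR : ∀ x y, R x y → R (δ x) (δ y)) (hs : ∀ i, R (u i) (u (i + 1)))
    (lv : α → ℤ) (h1 : ∀ x y, R x y → lv y = lv x + 1) (h2 : ∀ x, lv (δ x) = lv x - (P + 1))
    (c : ℤ) : ∃ b : ℕ → α, (∀ t, b (t + (P + 1)) = δ (b t)) ∧ (∀ t, R (b (t + 1)) (b t)) ∧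
      ∀ t, lv (b t) = c - t := by
  have a1 : ∀ q x, lv (δ^[q] x) = lv x - q * (P + 1) := fun q x => by
    induction q with
    | zero => simp
    | succ q ih => rw [Function.iterate_succ_apply', h2, ih]; push_cast; ring
  have a2 : ∀ i, lv (u i) = lv (u 0) + i := fun i => by
    induction i with
    | zero => simp
    | succ i ih => rw [h1 _ _ (hs i), ih]; push_cast; ring
  have a3 : ∀ q x y, R x y → R (δ^[q] x) (δ^[q] y) := fun q => by
    induction q with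
    | zero => exact fun _ _ => id
    | succ q ih => exact fun x y h => ih _ _ (hR _ _ h)
  have a4 : ∀ q i, δ^[q] (u (i + q * (P + 1))) = u i := fun q => by
    induction q with
    | zero => simp
    | succ q ih => intro i; rw [Function.iterate_succ_apply, Nat.succ_mul, ← add_assoc, hu, ih]
  obtain ⟨q, i, h⟩ : ∃ q i : ℕ, (i : ℤ) - q * (P + 1) = c - lv (u 0) := by
    obtain ⟨m, hm | hm⟩ := Int.eq_nat_or_neg (c - lv (u 0))
    · exact ⟨0, m, by simp [hm]⟩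
    · exact ⟨m, m * P, by rw [hm]; push_cast; ring⟩
  refine ⟨fun t => δ^[q + t] (u (i + t * P)), fun t => ?_, fun t => ?_, fun t => ?_⟩
  · beta_reduce
    rw [← a4 P (i + t * P), ← Function.iterate_add_apply, ← Function.iterate_succ_apply' δ]
    congr 2
    · omega
    · ring
  · beta_reduce
    rw [← hu (i + t * P), ← Function.iterate_succ_apply, Nat.succ_mul, ← add_assoc i,
      ← add_assoc (i + t * P)]
    exact a3 _ _ _ (hs _)
  · rw [a1, a2]; push_cast; linarith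

variable {G : Type} [Group G] {d d' : Dg G} {Y : Forest d} {s : Flow Y}

lemma peri {w : ℕ → Y.Dir} {n : ℕ} {g : G} (hn : 0 < n) (h : s.Chn w n)
    (e : w n = (w 0).tr g ∨ w n = ((w 0).tr g).rv) :
    ∃ E : ℕ → Y.Dir, (∀ t ≤ n, E t = w t) ∧ s.Itin E ∧ ∀ t, E (t + 2 * n) = (E t).tr (g ^ 2) := by
  obtain ⟨n, rfl⟩ := Nat.exists_eq_succ_of_ne_zero hn.ne'
  obtain ⟨ρ, r1, r2, r3⟩ : ∃ ρ : Y.Dir → Y.Dir, w (n + 1) = ρ (w 0) ∧
      (∀ x y, s.Desc 1 x y → s.Desc 1 (ρ x) (ρ y)) ∧ ∀ x, ρ (ρ x) = x.tr (g ^ 2) :=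
    e.elim (fun e => ⟨Dir.tr g, e, fun _ _ t => t.lh_tr g, fun x => by rw [Forest.tr_tr, sq]⟩)
      fun e => ⟨fun x => (x.tr g).rv, e, fun _ _ t => (t.lh_tr g).lh_rv, fun x => by
        beta_reduce
        rw [← rv_tr g (x.tr g), Forest.rv_rv, Forest.tr_tr, sq]⟩
  have a : ∀ t ≤ n + 1, ext ρ w n t = w t := fun t ht => by rw [ext, if_pos ht]
  refine ⟨ext ρ w n, a, fun t => ?_, fun t => by rw [two_mul, ← add_assoc, ext_add r1, ext_add r1, r3]⟩
  induction t using Nat.strong_induction_on with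
  | _ t ih =>
    rcases lt_or_ge t (n + 1) with c | c
    · rw [a t c.le, a _ c]; exact h t c
    · obtain ⟨k, rfl⟩ := Nat.exists_eq_add_of_le' c
      rw [add_right_comm k, ext_add r1, ext_add r1]
      exact r2 _ _ (ih k (by omega))

lemma chn_of_desc {n : ℕ} {x y : Y.Dir} (h : s.Desc n x y) : T2.Ch (s.Desc 1) n x y := by
  induction n generalizing y with
  | zero => exact T2.ch_zero.2 (lh_desc_zero h).symm
  | succ n ih =>
    rw [Desc, Function.iterate_succ_apply', Function.iterate_succ_apply'] at h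
    obtain ⟨z, h1, h2⟩ := s.cover_dir 1 h
    exact (ih h1).snoc h2

lemma idesc_trans (T : s.TT) {m : ℕ} {x y z : Y.Dir} (h : s.IDesc 1 x y) (h' : s.Desc m y z) :
    s.IDesc (m + 1) x z := by
  have key : ∀ {x y z : Y.Dir}, s.IDesc 1 x y → s.Desc m y z → z.src ≠ s.σ^[m + 1] x.src := by
    intro x y z h h' t
    have l := (T.legal x).sa_sub (btw_left (T.legal x).1) (Cross.btw_src h.1)
    have a := (T.legal x).2 _ _ _ (btw_left (T.legal x).1) (Cross.btw_src h.1)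
      (Cross.btw_tgt h.1) (Cross.btw1 h.1) m
    have b := a.trans_right' (Cross.btw_src h')
    rw [t] at b
    exact T2.exp_ne T l h.2.1.symm m b.eq_of_self.symm
  exact ⟨T.lh_trans h.1 h', key h h', by simpa using key h.sa_rv h'.lh_rv⟩

/-- pseudo-orbits -/
def Po (s : Flow Y) (B : ℕ) (x y : Y.V) : Prop := Y.lev (s.σ x) = Y.lev y ∧ Y.dist (s.σ x) y ≤ B

lemma po_desc (s : Flow Y) : ∃ B, ∀ x y, s.Desc 1 x y → Po s B x.src y.src :=
  let ⟨B, hB⟩ := (s.it 1).exists_lip_dir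
  ⟨B, fun x _ h => ⟨(Cross.btw_src h).lev1, (Cross.btw_src h).dist_le.trans (hB x)⟩⟩

lemma Po.mono {B B' : ℕ} {x y : Y.V} (h : Po s B x y) (e : B ≤ B') : Po s B' x y :=
  ⟨h.1, h.2.trans e⟩

lemma po_iter (s : Flow Y) (B j : ℕ) : ∃ C, ∀ a : ℕ → Y.V, (∀ t, Po s B (a t) (a (t + 1))) →
    ∀ t, Y.lev (s.σ^[j] (a t)) = Y.lev (a (t + j)) ∧ Y.dist (s.σ^[j] (a t)) (a (t + j)) ≤ C := by
  obtain ⟨Λ, -, hΛ⟩ := s.exists_lip 1
  induction j with
  | zero => exact ⟨0, fun a _ t => by simp⟩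
  | succ j ih =>
    obtain ⟨C, hC⟩ := ih
    refine ⟨Λ * C + B, fun a h t => ?_⟩
    obtain ⟨h1, h2⟩ := hC a h t
    obtain ⟨h3, h4⟩ := h (t + j)
    rw [Function.iterate_succ_apply']
    exact ⟨(s.lev_σ_eq h1).trans h3, (dist_triangle (s.lev_σ_eq h1) h3).trans
      (add_le_add ((hΛ _ _ h1).trans (Nat.mul_le_mul_left _ h2)) h4)⟩

lemma po_flip (hd : FC d) (X : Pair d d') (B : ℕ) :
    ∃ B', ∀ x y, Po X.s B x y → Po X.t B' (X.h'.f y) (X.h'.f x) := by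
  obtain ⟨Λ, -, hΛ⟩ := ((X.t.it 1).comp X.h').exists_lip
  obtain ⟨C, hC⟩ := X.exists_round hd.surj 1
  refine ⟨Λ * B + C, fun x y h => ?_⟩
  have l1 : X.M.lev (X.t.σ (X.h'.f y)) = X.M.lev (X.t.σ (X.h'.f (X.s.σ x))) :=
    X.t.lev_σ_eq (X.h'.lev_eq h.1.symm)
  have l2 : X.M.lev (X.t.σ (X.h'.f (X.s.σ x))) = X.M.lev (X.h'.f x) := by simp [X.lev_h']
  exact ⟨l1.trans l2, (dist_triangle l1 l2).trans (add_le_add ((hΛ _ _ h.1.symm).trans
    (Nat.mul_le_mul_left _ ((Forest.dist_comm _ _).trans_le h.2))) (hC x))⟩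

lemma grow (hd : FC d) (T : s.TT) (B : ℕ) : ∃ L₀, ∀ L ≥ L₀, ∀ (k : ℕ) (a b : ℕ → Y.V),
    (∀ t < k, Po s B (a t) (a (t + 1)) ∧ Po s B (b t) (b (t + 1))) →
    Y.dist (a k) (b k) < k → s.NoLeg L (a 0) (b 0) := by
  obtain ⟨C, hC⟩ := T2.cn_grow hd T
  refine ⟨2 * C + 2 * B + 1, fun L hL k a b h h' x y hx hy l => not_le.1 fun e => ?_⟩
  have : ∀ t ≤ k, ∃ x y, Y.btw (a t) x (b t) ∧ Y.btw (a t) y (b t) ∧ s.LegalP x y ∧
      L + t ≤ Y.dist x y := fun t ht => by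
    induction t with
    | zero => exact ⟨x, y, hx, hy, l, e⟩
    | succ t ih =>
      obtain ⟨x, y, h1, h2, h3, h4⟩ := ih (by omega)
      obtain ⟨p, q⟩ := h t ht
      obtain ⟨x', y', k1, k2, k3, k4⟩ := hC B _ _ _ _ _ _ h1 h2 h3 p.1 q.1 p.2 q.2
      exact ⟨x', y', k1, k2, k3, by omega⟩
  obtain ⟨x, y, h1, h2, -, h4⟩ := this k le_rfl
  have := h1.dist_mid h2
  omega

lemma per_iter {a : ℕ → Y.V} {P : ℕ} {δ : G} (h : ∀ t, a (t + P) = δ • a t) (q t : ℕ) :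
    a (t + q * P) = δ ^ q • a t := by
  induction q with
  | zero => simp
  | succ q ih => rw [Nat.succ_mul, ← add_assoc, h, ih, pow_succ', mul_smul]

lemma noLeg_smul {L : ℕ} {a b : Y.V} (g : G) (h : s.NoLeg L (g • a) (g • b)) : s.NoLeg L a b :=
  fun x y hx hy l => by simpa using h _ _ (hx.smul g) (hy.smul g) (T2.lp_smul g l)

/-- two periodic pseudo-orbits with the same period -/
lemma core (hd : FC d) (X : Pair d d') (hs : X.s.NF) (ht : X.t.NF) (B₀ : ℕ) : ∃ L B R : ℕ,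
    ∀ (a : ℕ → X.P.V) (b : ℕ → X.M.V) (P : ℕ) (δ : G), 0 < P → (∀ t, a (t + P) = δ • a t) →
    (∀ t, b (t + P) = δ • b t) → (∀ t, X.M.lev (b t) = - X.P.lev (a t)) →
    (∀ t, Po X.s B₀ (a t) (a (t + 1))) → (∀ t, Po X.t B₀ (b (t + 1)) (b t)) →
    ∀ t, Po X.s B (X.h.f (b t)) (X.h.f (b (t + 1))) ∧ X.s.NoLeg L (a t) (X.h.f (b t)) ∧
      X.s.NL R (a t) (X.h.f (b t)) := by
  obtain ⟨B₁, h1⟩ := po_flip hd X B₀
  obtain ⟨B₂, h2⟩ := po_flip (hd.symm X) X.symm B₀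
  obtain ⟨L₁, l1⟩ := grow hd hs.toTT (B₀ + B₁ + B₂)
  obtain ⟨L₂, l2⟩ := grow (hd.symm X) ht.toTT (B₀ + B₁ + B₂)
  obtain ⟨j, hj⟩ := T2.bi_holds G d d' hd X hs ht (L₁ + L₂)
  obtain ⟨C₁, c1⟩ := po_iter X.s (B₀ + B₁ + B₂) j
  obtain ⟨C₂, c2⟩ := (X.h'.comp X.h).exists_disp (hd.symm X).surj
  obtain ⟨R, hR⟩ := hj j le_rfl (C₁ + C₂)
  refine ⟨L₁ + L₂, B₀ + B₁ + B₂, R, fun a b P δ hP pa pb l ha hb => ?_⟩
  have a1 : ∀ t, Po X.s (B₀ + B₁ + B₂) (a t) (a (t + 1)) := fun t => (ha t).mono (by omega)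
  have a2 : ∀ t, Po X.s (B₀ + B₁ + B₂) (X.h.f (b t)) (X.h.f (b (t + 1))) := fun t =>
    (h2 _ _ (hb t)).mono (by omega)
  have big : ∀ m : ℕ, m < (m + 1) * P := fun m => by nlinarith
  have n1 : ∀ t, X.s.NoLeg (L₁ + L₂) (a t) (X.h.f (b t)) := fun t =>
    l1 _ (by omega) ((X.P.dist (a t) (X.h.f (b t)) + 1) * P) (fun i => a (t + i))
      (fun i => X.h.f (b (t + i))) (fun i _ => ⟨a1 _, a2 _⟩)
      (by simpa only [per_iter pa, per_iter pb, X.h.smul, Forest.dist_smul] using big _)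
  have n2 : ∀ t, X.t.NoLeg (L₁ + L₂) (X.h'.f (a t)) (b t) := fun t => by
    set q := X.M.dist (X.h'.f (a t)) (b t) + 1
    have := l2 (L₁ + L₂) (by omega) (q * P) (fun i => X.h'.f (a (t + (q * P - i))))
      (fun i => b (t + (q * P - i))) (fun i hi => by
        rw [show t + (q * P - i) = t + (q * P - (i + 1)) + 1 by omega]
        exact ⟨(h1 _ _ (ha _)).mono (by omega), (hb _).mono (by omega)⟩) (by simpa using big _)
    simp only [Nat.sub_zero, per_iter pa, per_iter pb, X.h'.smul] at this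
    exact noLeg_smul _ this
  refine fun t => ⟨a2 t, n1 t, ?_⟩
  have l' : ∀ t, X.P.lev (a t) = X.P.lev (X.h.f (b t)) := fun t => by rw [X.lev_h, l, neg_neg]
  have l'' : X.P.lev (a (t + j)) = X.P.lev (a t) + j := by rw [← (c1 a a1 t).1, X.s.lev_iter]
  exact hR _ _ _ _ _ _ (l' t) l'' ((l' _).symm.trans l'') (X.lev_h' _) (l t)
    ((c1 a a1 t).2.trans (by omega)) ((c1 _ a2 t).2.trans (by omega)) (by simp)
    ((c2 _).trans (by omega)) (n1 _) (n2 t)

/-- closing up a finite itinerary with interior steps -/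
lemma close (T : s.TT) (F n : ℕ) (e : ℕ → Y.Dir) (h : s.Chn e n) :
    ∃ (E : ℕ → Y.Dir) (p : ℕ) (g : G), 0 < p ∧ s.Itin E ∧ (∀ t, E (t + p) = (E t).tr g) ∧
      (∀ t ≤ n, E (F + 1 + t) = e t) ∧ (∀ t ≤ F, s.IDesc 1 (E t) (E (t + 1))) ∧
      ∀ t ≤ F, s.IDesc 1 (E (F + 1 + n + t)) (E (F + 1 + n + t + 1)) := by
  choose α hα using fun c : Y.Dir => T.sa_anc c c.1.i
  choose β β' hβ using fun c : Y.Dir => T.prim c c.1.i
  obtain ⟨x, -, -, x1, -, x2, -⟩ := T.prim (β^[F] (e n)) (α^[F + 1] (e 0)).1.i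
  obtain ⟨g, hg⟩ := exists_tr x1.symm
  let w : ℕ → Y.Dir := fun t => if t ≤ F + 1 then α^[F + 1 - t] (e 0) else
    if t ≤ F + 1 + n then e (t - (F + 1)) else if t ≤ F + 1 + n + F then
      β^[t - (F + 1 + n)] (e n) else x
  have w1 : ∀ t ≤ F + 1, w t = α^[F + 1 - t] (e 0) := fun t ht => if_pos ht
  have w2 : ∀ t ≤ n, w (F + 1 + t) = e t := fun t ht => by
    rcases t with _ | t
    · simp [w]
    · simp only [w]; rw [if_neg (by omega), if_pos (by omega), Nat.add_sub_cancel_left]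
  have w3 : ∀ t ≤ F, w (F + 1 + n + t) = β^[t] (e n) := fun t ht => by
    rcases t with _ | t
    · exact w2 n le_rfl
    · simp only [w]
      rw [if_neg (by omega), if_neg (by omega), if_pos (by omega), Nat.add_sub_cancel_left]
  have w4 : w (F + 1 + n + F + 1) = x := by
    simp only [w]; rw [if_neg (by omega), if_neg (by omega), if_neg (by omega)]
  have i1 : ∀ t ≤ F, s.IDesc 1 (w t) (w (t + 1)) := fun t ht => by
    rw [w1 t (by omega), w1 _ (by omega), show F + 1 - t = F + 1 - (t + 1) + 1 by omega,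
      Function.iterate_succ_apply']
    exact (hα _).2
  have i2 : ∀ t ≤ F, s.IDesc 1 (w (F + 1 + n + t)) (w (F + 1 + n + t + 1)) := fun t ht => by
    rcases ht.eq_or_lt with rfl | ht
    · rwa [w4, w3 _ le_rfl]
    · rw [add_assoc _ t, w3 _ ht.le, w3 _ ht, Function.iterate_succ_apply']
      exact (hβ _).2.2.2.1
  obtain ⟨E, e1, e2, e3⟩ := peri (s := s) (w := w) (n := F + 1 + n + F + 1) (g := g) (by omega)
    (fun t ht => by
      rcases le_or_gt t F with c | c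
      · exact (i1 t c).1
      rcases lt_or_ge t (F + 1 + n) with c' | c'
      · obtain ⟨k, rfl⟩ := Nat.exists_eq_add_of_le (show F + 1 ≤ t from c)
        rw [add_assoc _ k, w2 _ (by omega), w2 _ (by omega)]
        exact h k (by omega)
      · obtain ⟨k, rfl⟩ := Nat.exists_eq_add_of_le c'
        exact (i2 k (by omega)).1) (by rwa [w4, w1 0 (by omega)])
  exact ⟨E, 2 * (F + 1 + n + F + 1), _, by omega, e2, e3,
    fun t ht => (e1 _ (by omega)).trans (w2 t ht),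
    fun t ht => by rw [e1 _ (by omega), e1 _ (by omega)]; exact i1 t ht,
    fun t ht => by rw [e1 _ (by omega), e1 _ (by omega)]; exact i2 t ht⟩

/-- a periodic orbit of the flow, read backwards -/
lemma back {γ : G} (h : s.PP γ) (c : ℤ) : ∃ (b : ℕ → Y.V) (P : ℕ), 0 < P ∧ dg d (γ ^ 2) = P ∧
    (∀ t, b (t + P) = (γ ^ 2)⁻¹ • b t) ∧ (∀ t, Y.lev (b t) = c - t) ∧
    ((∀ t, s.σ (b (t + 1)) = b t) ∨ ∃ ε : ℕ → Y.Dir, (∀ t, (ε t).src = b t) ∧
      ∀ t, s.Desc 1 (ε (t + 1)) (ε t)) := by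
  obtain ⟨N, h0, h1, h2⟩ := h
  obtain ⟨P, hP⟩ : ∃ P, 2 * N = P + 1 := ⟨2 * N - 1, by omega⟩
  have hd : dg d (γ ^ 2) = (P + 1 : ℕ) := by rw [dg_pow, h1, ← hP]; simp
  rcases h2 with ⟨v, hv⟩ | ⟨k, hk⟩
  · obtain ⟨b, b1, b2, b3⟩ := zext (fun x => (γ ^ 2)⁻¹ • x) (fun i => s.σ^[i] v) P (fun i => by
      rw [← hP, two_mul, Function.iterate_add_apply, Function.iterate_add_apply, hv, s.iter_smul,
        hv, smul_smul γ, ← sq, s.iter_smul, inv_smul_smul]) (fun x y => s.σ x = y)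
      (fun x y t => by rw [s.σ_smul, t]) (fun i => (Function.iterate_succ_apply' _ _ _).symm)
      Y.lev (fun x y t => by rw [← t, s.lev_σ])
      (fun x => by rw [lev_smul', dg_inv, hd]; push_cast; ring) c
    exact ⟨b, P + 1, by omega, hd, b1, b3, Or.inl b2⟩
  · obtain ⟨y, y1, y2⟩ : ∃ y, s.Desc N (k, false) y ∧
        (y = Dir.tr γ (k, false) ∨ y = (Dir.tr γ (k, false)).rv) :=
      (cross_or_of_mem (e := Dir.tr γ (k, false)) hk).elim (fun t => ⟨_, t, Or.inl rfl⟩)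
        fun t => ⟨_, t, Or.inr rfl⟩
    obtain ⟨w, w0, w1, w2⟩ := chn_of_desc y1
    obtain ⟨E, -, e2, e3⟩ := peri (g := γ) h0 w2 (by rwa [w0, w1])
    obtain ⟨ε, b1, b2, b3⟩ := zext (Dir.tr (γ ^ 2)⁻¹) E P (fun i => by rw [← hP, e3, tr_inv_tr])
      (s.Desc 1) (fun _ _ t => t.lh_tr _) e2 (fun x => Y.lev x.src) (fun _ _ t => t.lh_lev)
      (fun x => by rw [src_tr, lev_smul', dg_inv, hd]; push_cast; ring) c
    exact ⟨fun t => (ε t).src, P + 1, by omega, hd, fun t => by simp only [b1, src_tr], b3,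
      Or.inr ⟨ε, fun _ => rfl, b2⟩⟩

end SH

open SH

theorem stSH (hA : St_THA) (hL : St_LING) : St_SH := by
  intro G _ d d' hd X hs ht K hK
  obtain ⟨B₁, b1⟩ := po_desc X.s
  obtain ⟨B₂, b2⟩ := po_desc X.t
  obtain ⟨L, B, R, hc⟩ := core hd X hs ht (B₁ + B₂)
  obtain ⟨T, D, hT⟩ := hL G d hd _ _ hs K L B R hK
  obtain ⟨F, D', hF⟩ := hL G d hd _ _ hs 1 L B R one_pos
  obtain ⟨C₁, c1⟩ := po_iter X.s (B₁ + B₂) (F + 1)
  obtain ⟨C₂, c2⟩ := po_iter X.s B (F + 1)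
  obtain ⟨Λ, -, hΛ⟩ := X.s.exists_lip (F + 1)
  obtain ⟨Λ', -, hΛ'⟩ := X.h'.exists_lip
  obtain ⟨C₃, c3⟩ := (X.h'.comp X.h).exists_disp (hd.symm X).surj
  refine ⟨T, Λ' * (D + D' + (C₁ + Λ * D' + C₂)) + C₃, fun n e he => ?_⟩
  obtain ⟨E, p, g, p0, e1, e2, e3, e4, e5⟩ := close hs.toTT F n e he
  have dp : dg d g = p := by
    have := e1.lev (0 + p)
    rw [e2, src_tr, lev_smul'] at this
    omega
  obtain ⟨k, k0, hk⟩ := hA G d' d (hd.symm X) X.symm ht hs g (E 0) ⟨p, p0, dp, by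
    have := idesc_trans hs.toTT (e4 0 (by omega)) (e1.desc hs.toTT (0 + 1) (p - 1))
    rwa [show 0 + 1 + (p - 1) = 0 + p by omega, e2, Nat.sub_add_cancel p0] at this⟩
  obtain ⟨b, P, P0, dP, pb, lb, hb⟩ := back (s := X.t) hk (- X.P.lev (E 0).src)
  obtain rfl : P = 2 * k * p := by
    rw [X.neg, dg_pow, dg_pow, dg_inv, dp] at dP
    exact_mod_cast (show (P : ℤ) = 2 * k * p by rw [← dP]; push_cast; ring)
  have l : ∀ t, X.M.lev (b t) = - X.P.lev (E t).src := fun t => by rw [lb, e1.lev t]; ring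
  have pa : ∀ t, Po X.s (B₁ + B₂) (E t).src (E (t + 1)).src := fun t =>
    (b1 _ _ (e1 t)).mono (by omega)
  have H := hc (fun t => (E t).src) b _ _ P0 (fun t => by
    rw [per_iter (a := fun t => (E t).src) (fun t => by rw [e2, src_tr]), ← pow_mul, inv_pow,
      inv_inv, mul_comm]) pb l pa fun t => by
    rcases hb with hb | ⟨ε, h1, h2⟩
    · exact ⟨by rw [hb], by simp [hb]⟩
    · exact h1 t ▸ h1 (t + 1) ▸ (b2 _ _ (h2 t)).mono (by omega)
  have l' : ∀ t, X.P.lev (X.h.f (b t)) = X.P.lev (E t).src := fun t => by rw [X.lev_h, l, neg_neg]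
  have ling : ∀ t, (∀ i ≤ F, X.s.IDesc 1 (E (t + i)) (E (t + i + 1))) →
      X.P.dist (E t).src (X.h.f (b t)) ≤ D' := fun t h =>
    hF (fun i => E (t + i)) (fun i => X.h.f (b (t + i))) ⟨fun i _ => e1 _, fun i hi => h i (by omega)⟩
      (fun i _ => l' _) (fun i _ => (H _).1.2) (fun i _ => (H _).2.1) (H t).2.2
  refine ⟨fun t => b (F + 1 + t), fun t h => by rw [l, e3 t h], hb.imp (fun h t _ => h _)
    fun ⟨ε, h1, h2⟩ => ⟨fun t => ε (F + 1 + t), fun t _ => h1 _, fun t _ => h2 _⟩, fun t h h' => ?_⟩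
  have key : X.P.dist (E (F + 1 + t)).src (X.h.f (b (F + 1 + t))) ≤
      D + D' + (C₁ + Λ * D' + C₂) := by
    rcases h' with rfl | rfl | ⟨h1, h2⟩
    · obtain ⟨a1, a2⟩ := c1 _ pa 0
      obtain ⟨a3, a4⟩ := c2 _ (fun t => (H t).1) 0
      have a5 := (hΛ _ _ (l' 0).symm).trans
        (Nat.mul_le_mul_left _ (ling 0 fun i hi => by simpa using e4 i hi))
      have a6 := X.s.lev_iter_eq (F + 1) (l' 0).symm
      have a7 := dist_triangle a1.symm (a6.trans a3)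
      have a8 := dist_triangle a6 a3
      rw [Forest.dist_comm] at a2
      simp only [zero_add, add_zero] at *
      omega
    · exact (ling _ e5).trans (by omega)
    · have a : ∀ i ≤ T, E (F + 1 + t + i) = e (t + i) := fun i hi => by
        rw [add_assoc, e3 _ (by omega)]
      refine (hT (fun i => E (F + 1 + t + i)) (fun i => X.h.f (b (F + 1 + t + i)))
        ⟨fun i _ => e1 _, fun i hi => ?_⟩ (fun i _ => l' _) (fun i _ => (H _).1.2)
        (fun i _ => (H _).2.1) (H _).2.2).trans (by omega)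
      simpa only [a i (by omega), a _ hi] using h2.2 i hi
  rw [← e3 t h]
  exact (dist_triangle (X.h'.lev_eq (l' _).symm) (X.lev_hh' _)).trans
    (add_le_add ((hΛ' _ _ (l' _).symm).trans (Nat.mul_le_mul_left _ key)) (c3 _))

end Pool.Agent.Lib.FBC.T7
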