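import Pool.Agent.Lib.FBC.T7.Blue7

/-!
An itinerary that stays near an interior itinerary merges with it.
-/

namespace Pool.Agent.Lib.FBC.T7

open Forest

variable {G : Type} [Group G] {d : Dg G} {Y : Forest d} {s : Flow Y}

lemma uni_desc (hT : s.TT) {ι : ℕ → Y.Dir} {T : ℕ} (h : s.Chn ι T) (n j : ℕ) (hj : n + j ≤ T) :
    s.Desc j (ι n) (ι (n + j)) := by
  induction j with
  | zero => exact cross_self _
  | succ j ih =>
    have := hT.lh_trans (ih (by omega)) (h (n + j) (by omega))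
    rwa [Nat.add_comm 1] at this

lemma uni_shift {ι : ℕ → Y.Dir} {K T : ℕ} (h : s.KI K ι T) (n m : ℕ) (hm : n + m ≤ T) :
    s.KI K (fun i => ι (n + i)) m :=
  ⟨fun t ht => h.1 (n + t) (by omega), fun t ht => by
    simpa only [Nat.add_assoc] using h.2 (n + t) (by omega)⟩

/-- A point on two geodesics from `p` lies on the geodesic to every point between their ends. -/
lemma uni_cone {p m a b z : Y.V} (h1 : Y.btw p m a) (h2 : Y.btw p m b) (h : Y.btw a z b) :
    Y.btw p m z :=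
  ⟨h1.lev1, h1.lev2.trans h.lev1, fun k => by
    have t1 := h1.sd k; have t2 := h2.sd k; have t3 := h.sd k
    revert t1 t2 t3
    cases k.sd p <;> cases k.sd m <;> cases k.sd a <;> cases k.sd b <;> cases k.sd z <;> simp⟩

lemma uni_in {a b : Y.V} {e e' : Y.Dir} {n : ℕ} (h : s.LegalP a b) (h1 : Y.btw a e.src b)
    (h2 : Y.btw a e.tgt b) (hd : s.Desc n e e') : Y.btw (s.σ^[n] a) e'.src (s.σ^[n] b) :=
  (h.sa_btw h1 n).convex (h.sa_btw h2 n) (Cross.btw_src hd)

/-- Descendants of two different edges of a legal path are separated by an image vertex. -/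
lemma uni_sep {a b : Y.V} {x y x' y' : Y.Dir} {n : ℕ} (h : s.LegalP a b) (hx : Y.Cross a b x)
    (h1 : Y.btw a y.src b) (h2 : Y.btw a y.tgt b) (hne : x.1 ≠ y.1) (dx : s.Desc n x x')
    (dy : s.Desc n y y') : ∃ u, Y.btw x.src u x.tgt ∧ Y.btw x'.src (s.σ^[n] u) y'.src := by
  have e := sd_src_tgt (e := y) hne
  have l : Y.lev y.src = Y.lev x.src := h1.lev1.symm.trans hx.lev_src
  have l' : Y.lev y.tgt = Y.lev x.src := (lev_src_tgt y).symm.trans l
  rcases mem_H_or (e := x) l with t | t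
  · have t' : y.tgt ∈ x.H := ⟨l', e ▸ t.2⟩
    have a1 := uni_in (h.sa_sub (btw_left h.1) hx.btw_tgt) hx.btw1 (btw_right hx.btw_tgt.lev1) dx
    have a2 := uni_in (h.sa_sub hx.btw_tgt (btw_right h.1))
      (h1.trans_left' (Cross.btw_tgt ⟨hx.1, t⟩)) (h2.trans_left' (Cross.btw_tgt ⟨hx.1, t'⟩)) dy
    exact ⟨x.tgt, btw_right (lev_src_tgt x),
      ((h.sa_btw hx.btw_tgt n).trans_left' a1).trans_right' a2⟩
  · have t' : y.tgt ∈ x.rv.H := mem_rv_H.2 ⟨l', e ▸ (mem_rv_H.1 t).2⟩
    have a1 := uni_in (h.sa_sub hx.btw_src (btw_right h.1)) (btw_left hx.btw_src.lev2) hx.btw2 dx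
    have a2 := uni_in (h.sa_sub (btw_left h.1) hx.btw_src)
      (h1.trans_right' (Cross.btw_src ⟨t, hx.2⟩)) (h2.trans_right' (Cross.btw_src ⟨t', hx.2⟩)) dy
    exact ⟨x.src, btw_left (lev_src_tgt x),
      (((h.sa_btw hx.btw_src n).trans_left' a2).trans_right' a1).symm⟩

/-- Projections on different sides of a dart. -/
lemma uni_cross {a b c c' m m' : Y.V} {x : Y.Dir} (hx : Y.Cross a b x) (h : Y.Med a b c m)
    (h' : Y.Med a b c' m') (t : Y.btw a m x.src) (t' : Y.btw x.tgt m' b) : Y.Cross c c' x :=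
  ⟨mem_rv_H_of_not (h.2.2.lev3.symm.trans hx.lev_src) fun r =>
      not_mem_H_both ((h.gate hx.btw_tgt).mem_H (tgt_mem_H x) r) (t.mem_H hx.1 (src_mem_rv_H x)),
    mem_H_of_not (h'.2.2.lev3.symm.trans hx.lev_src) fun r =>
      not_mem_H_both (t'.mem_H (tgt_mem_H x) hx.2)
        ((h'.gate hx.btw_src).mem_H (src_mem_rv_H x) r)⟩

theorem stUNI (hD : St_DIV) : St_UNI := by
  intro G _ d hd Y s hs K R hK
  obtain ⟨T, hT⟩ := hD G d hd Y s hs K (R + 1) (R + 1) hK
  refine ⟨T, fun ι ε hι hε l hR => ?_⟩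
  have tt := hs.toTT
  have hx : s.Desc T (ι 0) (ι T) := by simpa using uni_desc tt hι.1 0 T (by omega)
  have hy : s.Desc T (ε 0) (ε T) := by simpa using uni_desc tt hε 0 T (by omega)
  have hx' := uni_desc tt hι.1 T T (by omega)
  have hy' := uni_desc tt hε T T (by omega)
  have k0 : s.KI K ι T := by simpa using uni_shift hι 0 T (by omega)
  have l' : Y.lev (ε 0).tgt = Y.lev (ι 0).src := (lev_src_tgt _).symm.trans l
  have r0 := hR 0 (by omega)
  have r1 := hR T (by omega)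
  have r2 := hR (T + T) (by omega)
  obtain ⟨m, hm⟩ := exists_med (Cross.lev hx) (s.lev_iter_eq T l.symm)
  obtain ⟨m', hm'⟩ := exists_med (Cross.lev hx) (s.lev_iter_eq T l'.symm)
  have d1 := hT T le_rfl ι _ m k0 l (by omega) hm
  have d2 := hT T le_rfl ι _ m' k0 l' (by
    have := dist_triangle l.symm (lev_src_tgt (ε 0))
    rw [dist_src_tgt] at this
    omega) hm'
  have g1 := hm.gate (Cross.btw_src hx)
  have g2 := hm'.gate (Cross.btw_src hx)
  have same : ¬ (Y.btw (ι T).src m m' ∨ Y.btw (ι T).src m' m) := by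
    rintro (t | t)
    · have := (uni_cone g1 (g2.trans_left t) (Cross.btw_src hy)).dist_le
      omega
    · have := (uni_cone (g1.trans_left t) g2 (Cross.btw_src hy)).dist_le
      omega
  have lg := tt.sa_iter_dir (ε 0) T
  by_contra hne
  have fin : ∀ u, Y.btw (ι T).src u (ι T).tgt →
      ¬ Y.btw (ι (T + T)).src (s.σ^[T] u) (ε (T + T)).src := by
    intro u hu hb
    have h1 := hb.dist_le
    have h2 := hu.dist_le
    rw [dist_src_tgt] at h2
    have h3 : R + 1 ≤ Y.dist (ι (T + T)).src (s.σ^[T] u) :=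
      hT T le_rfl (fun i => ι (T + i)) u _ (uni_shift hι T T (by omega)) hu.lev1.symm
        (h2.trans (by omega)) ((s.sa_legal_dir (ι T)).sa_btw hu T).med
    omega
  rcases Cross.side hx hm.1 with t | t <;> rcases Cross.side hx hm'.1 with t' | t'
  · exact same (t.symm.total t'.symm)
  · obtain ⟨u, h1, h2⟩ := uni_sep lg (uni_cross hx hm hm' t t') (Cross.btw_src hy)
      (Cross.btw_tgt hy) (Ne.symm hne) hx' hy'
    exact fin u h1 h2
  · obtain ⟨u, h1, h2⟩ := uni_sep lg.lh_symm (uni_cross hx hm' hm t' t) (Cross.btw_src hy).symm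
      (Cross.btw_tgt hy).symm (Ne.symm hne) hx' hy'
    exact fin u h1 h2
  · exact same (((Cross.btw2 hx).trans_right t).total ((Cross.btw2 hx).trans_right t'))

end Pool.Agent.Lib.FBC.T7
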