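import Pool.Agent.Lib.FBC.X3.All
import Pool.Agent.Lib.FBC.X4.All
import Pool.Agent.Lib.FBC.T7.QL
import Pool.Agent.Lib.FBC.T7.SH
import Pool.Agent.Lib.FBC.T7.GOOD
import Pool.Agent.Lib.FBC.T7.UNI
import Pool.Agent.Lib.FBC.T7.Div
import Pool.Agent.Lib.FBC.T7.BT
import Pool.Agent.Lib.FBC.T7.B2
import Pool.Agent.Lib.FBC.T7.PIECE

/-!
Theorem A, quasi-lines and the pairing.
-/

namespace Pool.Agent.Lib.FBC.T7

theorem tha_holds : St_THA := X3.tha_of X4.stNS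

theorem ql_holds : St_QL :=
  stQL (stSH tha_holds stLING) (stGOOD tha_holds stDIV (stUNI stDIV)) stDIV (stUNI stDIV)

theorem t7_of' (h4 : St_ONE) (h5 : St_C) : St_T7 :=
  t7_of ql_holds (T7B.stPAIR stBT) stPIECE h4 h5

end Pool.Agent.Lib.FBC.T7
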