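import Pool.Agent.Lib.FBC.T7.Blue7
import Pool.Agent.Lib.FBC.T7.Flag

/-!
Geometry of quasi-lines, changes of component, cover, diverging flags, overlaps.
-/

namespace Pool.Agent.Lib.FBC.T7B

open Forest T2 Flow Flow.Flag T7

variable {G : Type} [Group G] {d : Dg G} {Y : Forest d} {s : Flow Y}
variable {a b a' b' x x' z e : Y.Dir} {n i j k D : ℕ} {ξ ζ η η' : s.Flag} {ι : ℕ → Y.Dir}

lemma fin_unif {α : Type} {S : Set α} (hS : S.Finite) (P : α → ℕ → Prop)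
    (mono : ∀ e k k', k ≤ k' → P e k → P e k') (ex : ∀ e ∈ S, ∃ k, P e k) :
    ∃ k, ∀ e ∈ S, P e k := by
  choose! f hf using ex
  obtain ⟨k, hk⟩ := (hS.image f).bddAbove
  exact ⟨k, fun e he => mono _ _ _ (hk ⟨e, he, rfl⟩) (hf e he)⟩

lemma walk (h : s.QL ι D) {C : Set Y.Dir} (hC : C ⊆ s.Fib ι) (ha : a ∈ C)
    (hl : ∀ a' ∈ C, Y.lev a'.src = Y.lev a.src) (hb : b ∈ s.Fib ι) (hb' : b ∉ C)
    (l : Y.lev a.src = Y.lev b.src) : ∃ u ∈ C, ∃ v ∈ s.Fib ι, v ∉ C ∧ Y.lev v.src = Y.lev a.src ∧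
      Y.dist u.src v.src ≤ 2 * D + 1 ∧ ∃ w, Y.btw a.src w b.src ∧ Y.dist u.src w ≤ D := by
  refine dir_ind (P := fun w => Y.btw a.src w b.src → ∀ u ∈ C, Y.dist u.src w ≤ D → _)
    (fun t u hu r => ⟨u, hu, b, hb, hb', l.symm, by omega, _, t, r⟩) (fun e he ih t u hu r => ?_) l
    (btw_left l) a ha (by simp)
  have t' := (he.extend_left t).btw_tgt
  obtain ⟨f, f1, f2, f3⟩ := h.den a (hC ha) b hb _ t'
  by_cases c : f ∈ C
  · exact ih t' f c f3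
  refine ⟨u, hu, f, f1, c, f2.trans t'.lev1.symm, ?_, _, t, r⟩
  have k1 := dist_triangle ((hl u hu).trans t.lev1) ((lev_src_tgt e).trans f2.symm)
  have k2 := dist_triangle (lev_src_tgt e) f2.symm
  rw [dist_src_tgt, Forest.dist_comm e.tgt] at k2
  omega

theorem stCONF : St_CONF := by
  intro G _ d Y s ι D h C hf hC a ha hl z lz
  obtain ⟨B, hB⟩ := fin_unif hf (fun e k => Y.dist a.src e.src ≤ k) (fun _ _ _ t r => r.trans t)
    fun _ _ => ⟨_, le_rfl⟩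
  obtain ⟨y1, h1, y2, h2, c, c1, c2, c3, c4, c5⟩ := h.two a (hC ha) (B + D + 1)
  have key : ∀ y ∈ s.Fib ι, B + D + 1 ≤ Y.dist c y.src → Y.btw z c y.src → ∃ u ∈ C,
      ∃ v ∈ s.Fib ι, v ∉ C ∧ Y.lev v.src = Y.lev a.src ∧ Y.dist u.src v.src ≤ 2 * D + 1 ∧
      Y.dist a.src z ≤ Y.dist u.src z + 3 * D + 2 := by
    intro y hy r t
    have l := c2.trans t.lev2
    obtain ⟨u, hu, v, v1, v2, v3, v4, w, w1, w2⟩ := walk h hC ha hl hy (fun m => by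
      have k1 := hB y m
      have k2 := dist_triangle c2.symm l
      rw [Forest.dist_comm c a.src] at k2
      omega) l
    refine ⟨u, hu, v, v1, v2, v3, v4, ?_⟩
    have lu : Y.lev w = Y.lev u.src := w1.lev1.symm.trans (hl u hu).symm
    have k0 := dist_triangle lu ((hl u hu).trans lz.symm)
    rw [Forest.dist_comm w u.src] at k0
    rcases w1.cover c2 with m | m
    · have k1 := m.dist_le
      have k2 := dist_triangle w1.lev1 (w1.lev1.symm.trans lz.symm)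
      omega
    · have k1 := (t.trans_right' m).dist_le
      have k2 := dist_triangle c2 t.lev1.symm
      rw [Forest.dist_comm z, Forest.dist_comm z] at k1
      omega
  rcases c1.cover (c1.lev1.trans (c2.symm.trans lz.symm)) with t | t
  · exact key y1 h1 c4 t.symm
  · exact key y2 h2 c5 t

/-- small overlap of two geodesics -/
def Ov (L : ℕ) (a b c e : Y.V) : Prop :=
  ∀ v w, Y.btw a v b → Y.btw a w b → Y.btw c v e → Y.btw c w e → Y.dist v w ≤ L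

lemma Ov.symm {L : ℕ} {a b c e : Y.V} (h : Ov L a b c e) : Ov L c e a b :=
  fun v w h1 h2 h3 h4 => h v w h3 h4 h1 h2

lemma Ov.mono {L L' : ℕ} {a b c e : Y.V} (h : Ov L a b c e) (t : L ≤ L') : Ov L' a b c e :=
  fun v w h1 h2 h3 h4 => (h v w h1 h2 h3 h4).trans t

section
variable {z1 z2 z3 u1 u2 u3 m : Y.V} {ρ L l : ℕ}

lemma trip_aux (l1 : Y.lev z1 = Y.lev u1) (l2 : Y.lev z1 = Y.lev z2) (t : Y.btw z2 m u2)
    (h : Y.dist z1 z2 ≤ ρ) (hD : Y.dist u1 m ≤ D) (o : Ov L z1 u1 z2 u2) :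
    Y.dist z1 u1 ≤ D + L + 2 * ρ := by
  obtain ⟨v, hv⟩ := exists_med l1 l2
  obtain ⟨w, hw⟩ := exists_med l1 (l2.trans t.lev1)
  have k1 := hv.2.2.dist_le
  have k2 := hw.2.1.dist_le
  have k3 := dist_triangle hv.1.lev1 hv.1.lev2
  have k4 := dist_triangle (hv.1.lev2.trans hw.1.lev2.symm) hw.1.lev2
  rw [Forest.dist_comm w] at k4
  have : Y.dist v w ≤ L := by
    by_cases e : v = w
    · simp [e]
    · exact o v w hv.1 hw.1 (t.trans_left (hv.piece hw e).1) (t.trans_left (hv.piece hw e).2)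
  omega

lemma trip (l1 : Y.lev z1 = Y.lev u1) (l2 : Y.lev z1 = Y.lev z2) (l3 : Y.lev z1 = Y.lev z3)
    (l4 : Y.lev z1 = Y.lev u2) (h12 : Y.dist z1 z2 ≤ ρ) (h13 : Y.dist z1 z3 ≤ ρ)
    (h23 : Y.dist z2 z3 ≤ ρ) (t : Y.btw u2 m u3) (hD : Y.dist u1 m ≤ D) (o2 : Ov L z1 u1 z2 u2)
    (o3 : Ov L z1 u1 z3 u3) : Y.dist z1 u1 ≤ D + L + 2 * ρ := by
  rcases t.cover (l4.symm.trans l2) with r | r
  · exact trip_aux l1 l2 r.symm h12 hD o2
  rcases r.cover (l2.symm.trans l3) with r' | r'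
  swap
  · exact trip_aux l1 l3 r' h13 hD o3
  have k1 := r'.dist_le
  have k2 := dist_triangle l2 (l2.symm.trans l1)
  have k3 := dist_triangle r.lev1 (r.lev1.symm.trans (l2.symm.trans l1))
  rw [Forest.dist_comm m] at k3
  omega

lemma trip3 (l1 : Y.lev z1 = Y.lev u1) (l2 : Y.lev z1 = Y.lev z2) (l3 : Y.lev z1 = Y.lev z3)
    (h12 : Y.dist z1 z2 ≤ ρ) (h13 : Y.dist z1 z3 ≤ ρ) (h23 : Y.dist z2 z3 ≤ ρ)
    (hm : Y.Med u1 u2 u3 m) (hD : Y.dist u1 m ≤ D ∨ Y.dist u2 m ≤ D ∨ Y.dist u3 m ≤ D)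
    (o12 : Ov L z1 u1 z2 u2) (o13 : Ov L z1 u1 z3 u3) (o23 : Ov L z2 u2 z3 u3)
    (e1 : l ≤ Y.dist z1 u1) (e2 : l ≤ Y.dist z2 u2) (e3 : l ≤ Y.dist z3 u3) :
    l ≤ D + L + 2 * ρ := by
  have m2 := l1.trans hm.1.lev3
  have m3 := l1.trans hm.2.2.lev3
  rcases hD with t | t | t
  · exact e1.trans (trip l1 l2 l3 m2 h12 h13 h23 hm.2.1 t o12 o13)
  · exact e2.trans (trip (l2.symm.trans m2) l2.symm (l2.symm.trans l3) (l2.symm.trans l1)
      (ds_comm z1 z2 ▸ h12) h23 h13 hm.2.2 t o12.symm o23)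
  · exact e3.trans (trip (l3.symm.trans m3) l3.symm (l3.symm.trans l2) (l3.symm.trans l1)
      (ds_comm z1 z3 ▸ h13) (ds_comm z2 z3 ▸ h23) h12 hm.1 t o13.symm o23.symm)

end

theorem stSTABK : St_STABK := by
  intro G _ d _ Y s h
  obtain ⟨k, hk⟩ := unif (fun x k => ∀ w ∈ {ξ : s.Flag | ξ.x = x} ×ˢ {ξ : s.Flag | ξ.x = x},
      ∀ n ≥ k, s.Cmp n w.1.x (w.1.anc n).x (w.2.anc n).x → w.1.Opp w.2)
    (fun _ _ _ t r w hw n hn => r w hw n (t.trans hn))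
    (fun g e k r w hw n hn c => by
      have := r (g • w.1, g • w.2) ⟨congrArg (Dir.tr g) hw.1, congrArg (Dir.tr g) hw.2⟩ n hn
        (by rw [anc_smul, anc_smul]; exact cmp_smul g c)
      simpa using opp_smul g⁻¹ this)
    (fun x => fin_unif ((fin_flag h x).prod (fin_flag h x)) _
      (fun _ _ _ t r n hn => r n (t.trans hn)) fun w hw => by
        have e : w.1.x = w.2.x := hw.1.trans hw.2.symm
        by_cases c : w.1.Opp w.2
        · exact ⟨0, fun _ _ _ => c⟩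
        · obtain ⟨k, hk⟩ := not_forall.1 fun t => c ⟨e, t⟩
          exact ⟨k, fun n hn t => (hk (cmp_anc_mono h.toTT e hn t)).elim⟩)
  exact ⟨k, fun n hn ξ ζ e c => hk ξ.x (ξ, ζ) ⟨rfl, e.symm⟩ n hn c⟩

lemma fib_anc (T : s.TT) (hx : x ∈ s.Fib ι) (h : s.Desc n a x) : a ∈ s.Fib ι :=
  let ⟨m, _, t⟩ := hx; ⟨m, _, desc_trans T rfl h t⟩

lemma common (T : s.TT) (hι : s.Itin ι) (hx : x ∈ s.Fib ι) (hb : b ∈ s.Fib ι) {m : ℕ}
    (l : Y.lev x.src = Y.lev b.src + m) : ∃ i z, s.Desc i x z ∧ s.Desc (m + i) b z := by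
  obtain ⟨n1, k1, h1⟩ := hx
  obtain ⟨n2, k2, h2⟩ := hb
  have h3 := hι.desc_of T h1 n2
  have h4 := hι.desc_of T h2 n1
  rw [add_comm n2] at h4
  have l3 := h3.lh_lev
  have l4 := h4.lh_lev
  exact ⟨_, _, h3, (show k2 + n1 = m + (k1 + n2) by omega) ▸ h4⟩

theorem stCH (hB : St_BT) : St_CH := by
  intro G _ d hd Y s h R
  have T := h.toTT
  obtain ⟨j, hj⟩ := hB G d hd Y s h R
  refine ⟨j, fun ι hι n x a a' b' hx h1 h2 hb l r => ?_⟩
  obtain ⟨i, z, z1, z2⟩ := common T hι hx hb (m := j + n) (by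
    have := h1.lh_lev; have := h2.lh_lev; push_cast; omega)
  obtain ⟨b, b1, b2⟩ := desc_mid (add_assoc j n i) z2
  rcases hj _ a' b' a b z r h2 b1 (desc_trans T rfl h1 z1) b2 with t | t
  · exact Or.inl ⟨b, t ▸ .refl, b1⟩
  obtain ⟨x', x1, x2⟩ := desc_mid rfl b2
  rcases tip_td T t h1 x1 z1 x2 with c | ⟨ξ, c1, c2, -⟩
  · exact Or.inl ⟨b, .single c.2, b1⟩
  · exact Or.inr ⟨ξ, c1, c2⟩

lemma QL.itin (h : s.QL ι D) : s.Itin ι := fun t => (h.int t).1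

lemma chg (hB : St_BT) (hd : FC d) (h : s.NF) (hq : s.QL ι D) : ∃ j, ∀ (n : ℕ) a a' z,
    s.Desc n a (ι 0) → s.Desc j a' a → Y.lev z = Y.lev a'.src → ∃ (ξ : s.Flag) (u : Y.Dir),
      ξ.x = ι 0 ∧ s.Cmp n (ι 0) a (ξ.anc n).x ∧ s.Desc j u (ξ.anc n).x ∧
      Y.dist a'.src z ≤ Y.dist u.src z + 3 * D + 2 := by
  have T := h.toTT
  obtain ⟨j, hj⟩ := stCH hB G d hd Y s h (2 * D + 1)
  refine ⟨j, fun n a a' z h1 h2 lz => ?_⟩
  have x0 : ι 0 ∈ s.Fib ι := ⟨0, 0, desc_refl _⟩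
  have hC : ∀ u ∈ {u | ∃ c, s.Cmp n (ι 0) a c ∧ s.Desc j u c}, s.Desc (j + n) u (ι 0) :=
    fun u ⟨c, c1, c2⟩ => desc_trans T rfl c2 (cmp_desc c1 h1)
  have ha : a' ∈ {u | ∃ c, s.Cmp n (ι 0) a c ∧ s.Desc j u c} := ⟨a, .refl, h2⟩
  have hl : ∀ u ∈ {u | ∃ c, s.Cmp n (ι 0) a c ∧ s.Desc j u c}, Y.lev u.src = Y.lev a'.src :=
    fun u hu => by have := (hC u hu).lh_lev; have := (hC a' ha).lh_lev; omega
  obtain ⟨u, hu, v, v1, v2, v3, v4, v5⟩ := stCONF G d Y s ι D hq _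
    ((s.finite_anc (j + n) (ι 0)).subset hC) (fun u hu => fib_anc T x0 (hC u hu)) a' ha hl z lz
  have lu := hl u hu
  obtain ⟨c, c1, c2⟩ := hu
  rcases hj ι (QL.itin hq) n (ι 0) c u v x0 (cmp_desc c1 h1) c2 v1 (v3.trans lu.symm) v4 with
    ⟨b, b1, b2⟩ | ⟨ξ, e1, e2⟩
  · exact (v2 ⟨b, c1.trans b1, b2⟩).elim
  · exact ⟨ξ, u, e1, e2 ▸ c1, e2 ▸ c2, v5⟩

theorem stCOVER (hB : St_BT) : St_COVER := by
  intro G _ d hd Y s h hq n x a ha
  obtain ⟨ι, D, rfl, q⟩ := hq x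
  obtain ⟨j, hj⟩ := chg hB hd h q
  obtain ⟨a', h'⟩ := ex_anc h.toTT j a
  obtain ⟨ξ, -, h1, h2, -⟩ := hj n a a' _ ha h' rfl
  exact ⟨ξ, h1, h2⟩

/-- flags that do not diverge have equal or folded ancestors -/
lemma not_far (hB : St_BT) (hd : FC d) (h : s.NF) (hx : ξ.x = ζ.x) (hf : ¬ ξ.Far ζ) (n : ℕ) :
    (ξ.anc n).x = (ζ.anc n).x ∨ s.Tip n ξ.x (ξ.anc n).x (ζ.anc n).x := by
  have T := h.toTT
  simp only [Flow.Flag.Far, not_forall, not_exists, not_le] at hf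
  obtain ⟨R, hR⟩ := hf
  obtain ⟨j, hj⟩ := hB G d hd Y s h R
  obtain ⟨m, hm, r⟩ := hR (j + n)
  obtain ⟨t, rfl⟩ : ∃ t, m = j + (t + n) := ⟨m - j - n, by omega⟩
  have k1 := anc_anc T (rfl : t + n = t + n) ξ
  have k2 := anc_anc T (rfl : t + n = t + n) ζ
  have k3 : s.Desc n (ζ.anc n).x ξ.x := hx ▸ anc_desc n ζ
  rcases hj _ _ _ _ _ ξ.x r.le (anc_anc T rfl ξ) (anc_anc T rfl ζ) (anc_desc _ ξ)
    (hx ▸ anc_desc _ ζ) with c | c
  · exact Or.inl (mid_unique T k1 (c ▸ k2) (anc_desc n ξ) k3)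
  · exact tip_mono T c k1 k2 (anc_desc n ξ) k3

lemma many_anc (T : s.TT) (t : ℕ) (a : Y.Dir) : t + 1 ≤ {b | s.Desc t b a}.ncard := by
  induction t generalizing a with
  | zero => exact (Set.ncard_pos (s.finite_anc 0 a)).2 ⟨a, desc_refl a⟩
  | succ t ih =>
    obtain ⟨a1, a2, hne, h1, h2⟩ := two_anc T a
    have k := Set.ncard_le_ncard (s := {b | s.Desc t b a1} ∪ {b | s.Desc t b a2})
      (t := {b | s.Desc (t + 1) b a}) (fun b hb => hb.elim (fun r => desc_trans T rfl r h1) fun r => desc_trans T rfl r h2)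
      (s.finite_anc (t + 1) a)
    have k' := Set.ncard_union_eq (s := {b | s.Desc t b a1}) (t := {b | s.Desc t b a2})
      (Set.disjoint_left.2 fun b r1 r2 => hne (mid_unique T r1 r2 h1 h2))
      (s.finite_anc t a1) (s.finite_anc t a2)
    have := ih a1
    have := ih a2
    omega

lemma tip_fin (h : s.NF) (n : ℕ) (x a : Y.Dir) : {b | s.Tip n x a b}.Finite ∧
    {b | s.Tip n x a b}.ncard ≤ {ξ : s.Flag | ξ.x = a}.ncard := by
  have : {b | s.Tip n x a b} ⊆ (fun η : s.Flag =>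
      @Classical.epsilon _ ⟨x⟩ fun b => Y.Cross η.q η.p b ∧ s.Desc n b x) '' {ξ | ξ.x = a} := by
    rintro b ⟨-, h2, p, q, ⟨y, w⟩, c1, c2⟩
    have k := Classical.epsilon_spec (p := fun b => Y.Cross q p b ∧ s.Desc n b x) ⟨b, c2, h2⟩
    exact ⟨⟨p, q, a, ⟨y, w⟩, c1⟩, rfl, anc_unique (inp_symm w) k.1 c2 k.2 h2⟩
  exact ⟨((fin_flag h a).image _).subset this, (Set.ncard_le_ncard this
    ((fin_flag h a).image _)).trans (Set.ncard_image_le (fin_flag h a))⟩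

theorem stFAR2 (hB : St_BT) : St_FAR2 := by
  intro G _ d hd Y s h hq hc ξ
  have T := h.toTT
  by_contra hn
  obtain ⟨N, hN⟩ := wd_bound h
  obtain ⟨M, hM⟩ := card_flag h
  obtain ⟨k, hk⟩ := stSTABK G d hd Y s h
  obtain ⟨ι, D, e, q⟩ := hq ξ.x
  obtain ⟨j, hj⟩ := chg hB hd h q
  rw [e] at hj
  obtain ⟨Q, hQ⟩ := anc_close (s := s) hd.surj j N
  have bd : ∀ m n, k ≤ n → m = j + n → ∀ a', s.Cmp m ξ.x (ξ.anc m).x a' →
      Y.dist (ξ.anc m).x.src a'.src ≤ Q + 3 * D + 2 := by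
    intro m n hn' hm a' c
    have c0 := cmp_desc c (anc_desc m ξ)
    obtain ⟨a, a1, a2⟩ := desc_mid hm c0
    obtain ⟨ζ, u, z1, z2, z3, z4⟩ := hj n a a' (ξ.anc m).x.src a2 a1 (by
      have := c0.lh_lev; have := (anc_desc m ξ).lh_lev; omega)
    have o := hk n hn' ξ ζ z1.symm
      ((cmp_mono T hm c (anc_anc T hm ξ) a1 (anc_desc n ξ) a2).trans z2)
    have r : Y.lev (ξ.anc n).x.src = Y.lev (ζ.anc n).x.src ∧
        Y.dist (ξ.anc n).x.src (ζ.anc n).x.src ≤ N := by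
      rcases not_far hB hd h z1.symm (fun t => hn ⟨ζ, o, t⟩) n with t | t
      · simp [t]
      · exact tip_dist hN t
    have := hQ _ _ _ _ (anc_anc T hm ξ) z3 r.1 r.2
    rw [Forest.dist_comm u.src, Forest.dist_comm a'.src] at z4
    omega
  obtain ⟨j', hj'⟩ := hB G d hd Y s h (Q + 3 * D + 2)
  have hm : M + 1 + (j + k) = M + 1 + (j + k) := rfl
  have sub : {b | s.Desc (M + 1) b (ξ.anc (j + k)).x} ⊆ insert (ξ.anc (M + 1 + (j + k))).x
      {b | s.Tip (M + 1 + (j + k)) ξ.x (ξ.anc (M + 1 + (j + k))).x b} := by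
    intro b hb
    obtain ⟨b', b1⟩ := ex_anc T j' b
    have c := pull_cmp T hc hk (n := j + k) (by omega) (add_assoc j' (M + 1) (j + k)).symm .refl
      (anc_desc _ ξ) (anc_anc T (add_assoc j' (M + 1) (j + k)).symm ξ) (desc_trans T rfl b1 hb)
    exact (hj' _ _ _ _ _ _ (bd _ (j' + (M + 1) + k) (by omega) (by omega) _ c) (anc_anc T rfl ξ)
      b1 (anc_desc _ ξ) (desc_trans T rfl hb (anc_desc _ ξ))).imp Eq.symm id
  obtain ⟨f1, f2⟩ := tip_fin h (M + 1 + (j + k)) ξ.x (ξ.anc (M + 1 + (j + k))).x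
  have k1 := (many_anc T _ _).trans ((Set.ncard_le_ncard sub (f1.insert _)).trans
    (Set.ncard_insert_le _ _))
  have k2 := hM (ξ.anc (M + 1 + (j + k))).x
  omega

lemma chain_near {N : ℕ} (hN : ∀ p q, s.Wd p q → Y.dist p q ≤ N) (h : s.Cmp n x a b)
    (ha : s.Desc n a x) {v : Y.V} (t : Y.btw a.src v b.src) :
    ∃ c, s.Desc n c x ∧ Y.lev c.src = Y.lev v ∧ Y.dist c.src v ≤ N := by
  induction h with
  | refl => exact ⟨a, ha, t.lev1, by simp [t.eq_of_self]⟩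
  | tail _ r ih =>
    have k := tip_dist hN r
    rcases t.cover (t.lev3.trans k.1.symm) with c | c
    · exact ih c
    · exact ⟨_, r.1, c.lev1, c.dist_le.trans k.2⟩

lemma pigeon {α : Type} {S : Set α} (hS : S.Finite) (f : α → Y.V) {v w : Y.V} {r : ℕ}
    (l : Y.lev v = Y.lev w)
    (h : ∀ c, Y.btw v c w → ∃ i ∈ S, Y.lev (f i) = Y.lev c ∧ Y.dist (f i) c ≤ r) :
    Y.dist v w ≤ S.ncard * (2 * r + 1) := by
  by_contra hn
  have : ∀ t : Fin (S.ncard + 1), ∃ i ∈ S, ∃ c, Y.btw v c w ∧ Y.dist v c = t * (2 * r + 1) ∧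
      Y.lev (f i) = Y.lev c ∧ Y.dist (f i) c ≤ r := fun t => by
    obtain ⟨c, c1, c2⟩ := exists_btw_dist l (k := t * (2 * r + 1))
      ((Nat.mul_le_mul_right _ (Nat.le_of_lt_succ t.2)).trans (not_le.1 hn).le)
    obtain ⟨i, i1, i2⟩ := h c c1
    exact ⟨i, i1, c, c1, c2, i2⟩
  choose g g1 c c1 c2 c3 c4 using this
  have key : ∀ t t' : Fin (S.ncard + 1), t < t' → g t ≠ g t' := fun t t' o e => by
    have k1 := Nat.mul_le_mul_right (2 * r + 1) (Nat.succ_le_of_lt o)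
    have k2 := dist_triangle (c1 t).lev1 ((c1 t).lev2.trans (c1 t').lev2.symm)
    have k3 := dist_triangle (c3 t).symm (e ▸ c3 t')
    have k4 := c4 t
    have k5 := c4 t'
    rw [Forest.dist_comm (c t) (f (g t))] at k3
    rw [← e] at k5
    rw [c2, c2] at k2
    rw [Nat.succ_mul] at k1
    omega
  have := Set.ncard_le_ncard_of_injOn (s := Set.univ) g (fun t _ => g1 t)
    (fun t _ t' _ e => by
      rcases lt_trichotomy t t' with o | o | o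
      exacts [(key _ _ o e).elim, o, (key _ _ o e.symm).elim]) hS
  simp at this

theorem stOVL (hB : St_BT) : St_OVL := by
  intro G _ d hd Y s h ι hι x hx x' hx' hne l
  have T := h.toTT
  obtain ⟨N, hN⟩ := wd_bound h
  obtain ⟨j, hj⟩ := hB G d hd Y s h (N + N)
  obtain ⟨Q, hQ⟩ := anc_close (s := s) hd.surj j 0
  obtain ⟨i, z, z1, z2⟩ := common T hι hx hx' (m := 0) (by simpa using l)
  rw [zero_add] at z2
  refine ⟨{ξ : s.Flag | ξ.x = x}.ncard * (2 * (Q + N) + 1), j,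
    fun n hn a1 a2 b1 b2 v w h1 h2 c1 c2 t1 t2 t3 t4 => ?_⟩
  obtain ⟨m, rfl⟩ := Nat.exists_eq_add_of_le hn
  refine pigeon (fin_flag h x) (fun ξ => (ξ.anc (j + m)).x.src) (t1.lev2.trans t2.lev2.symm)
    fun c hc => ?_
  obtain ⟨a, p1, p2, p3⟩ := chain_near hN c1 h1 (t1.convex t2 hc)
  obtain ⟨b, q1, q2, q3⟩ := chain_near hN c2 h2 (t3.convex t4 hc)
  obtain ⟨a', r1, r2⟩ := desc_mid rfl p1
  obtain ⟨b', r3, r4⟩ := desc_mid rfl q1
  have k := dist_triangle p2 q2.symm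
  rw [Forest.dist_comm c] at k
  rcases hj _ a b a' b' z (by omega) r1 r3 (desc_trans T rfl r2 z1) (desc_trans T rfl r4 z2)
    with t | t
  · exact (hne (mid_unique T r2 (t ▸ r4) z1 z2)).elim
  rcases tip_td T t r2 r4 z1 z2 with t' | ⟨ξ, e1, e2, -⟩
  · exact (hne t'.1).elim
  have k1 := anc_anc T (rfl : j + m = j + m) ξ
  rw [e2] at k1
  have k2 := hQ _ _ _ _ k1 r1 rfl (by simp)
  have l1 : Y.lev (ξ.anc (j + m)).x.src = Y.lev a.src := by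
    have := k1.lh_lev; have := r1.lh_lev; omega
  have k3 := dist_triangle l1 p2
  exact ⟨ξ, e1, l1.trans p2, by omega⟩

end Pool.Agent.Lib.FBC.T7B
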