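import Pool.Agent.Lib.FBC.T7.Defs7

/-!
Interface statements for the surface case.
-/

namespace Pool.Agent.Lib.FBC.T7

open Forest Flow

/-! ### A: quasi-lines -/

/-- vertices near an interior itinerary diverge from it along the legal path of its first dart -/
def St_DIV : Prop := ∀ (G : Type) [Group G] (d : Dg G), FC d → ∀ (Y : Forest d) (s : Flow Y),
  s.NF → ∀ K R L : ℕ, 0 < K → ∃ T : ℕ, ∀ t ≥ T, ∀ (ι : ℕ → Y.Dir) (c μ : Y.V), s.KI K ι t →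
    Y.lev c = Y.lev (ι 0).src → Y.dist (ι 0).src c ≤ R →
    Y.Med (s.σ^[t] (ι 0).src) (s.σ^[t] (ι 0).tgt) (s.σ^[t] c) μ → L ≤ Y.dist (ι t).src μ

/-- an itinerary that stays near an interior itinerary merges with it -/
def St_UNI : Prop := ∀ (G : Type) [Group G] (d : Dg G), FC d → ∀ (Y : Forest d) (s : Flow Y),
  s.NF → ∀ K R : ℕ, 0 < K → ∃ T : ℕ, ∀ ι ε : ℕ → Y.Dir, s.KI K ι (2 * T) → s.Chn ε (2 * T) →
    Y.lev (ε 0).src = Y.lev (ι 0).src → (∀ t ≤ 2 * T, Y.dist (ι t).src (ε t).src ≤ R) →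
    (ε T).1 = (ι T).1

/-- an interior itinerary does not linger along Nielsen runs -/
def St_LING : Prop := ∀ (G : Type) [Group G] (d : Dg G), FC d → ∀ (Y : Forest d) (s : Flow Y),
  s.NF → ∀ K L B R : ℕ, 0 < K → ∃ T D : ℕ, ∀ (ι : ℕ → Y.Dir) (b : ℕ → Y.V), s.KI K ι T →
    (∀ t ≤ T, Y.lev (b t) = Y.lev (ι t).src) → (∀ t < T, Y.dist (s.σ (b t)) (b (t + 1)) ≤ B) →
    (∀ t ≤ T, s.NoLeg L (ι t).src (b t)) → s.NL R (ι 0).src (b 0) → Y.dist (ι 0).src (b 0) ≤ D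

/-- shadowing of finite itineraries by orbits of the backward flow -/
def St_SH : Prop := ∀ (G : Type) [Group G] (d d' : Dg G), FC d → ∀ X : Pair d d',
  X.s.NF → X.t.NF → ∀ K : ℕ, 0 < K → ∃ T D : ℕ, ∀ (n : ℕ) (e : ℕ → X.P.Dir), X.s.Chn e n →
    ∃ b : ℕ → X.M.V, (∀ t ≤ n, X.M.lev (b t) = - X.P.lev (e t).src) ∧
      ((∀ t < n, X.t.σ (b (t + 1)) = b t) ∨ ∃ ε : ℕ → X.M.Dir, (∀ t ≤ n, (ε t).src = b t) ∧
        ∀ t < n, X.t.Desc 1 (ε (t + 1)) (ε t)) ∧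
      ∀ t ≤ n, (t = 0 ∨ t = n ∨ (t + T ≤ n ∧ X.s.KI K (fun i => e (t + i)) T)) →
        X.M.dist (X.h'.f (e t).src) (b t) ≤ D

/-- a pair of interior itineraries, one for each direction of time, through a given dart -/
def St_GOOD : Prop := ∀ (G : Type) [Group G] (d d' : Dg G), FC d → ∀ X : Pair d d',
  X.s.NF → X.t.NF → ∀ x : X.P.Dir, ∃ (ι : ℤ → X.P.Dir) (κ : ℤ → X.M.Dir) (K C : ℕ), 0 < K ∧
    ι 0 = x ∧ (∀ t, X.s.IDesc 1 (ι t) (ι (t + 1))) ∧ (∀ t, X.t.Desc 1 (κ (t + 1)) (κ t)) ∧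
    (∀ t, X.t.IDesc K (κ (t + K)) (κ t)) ∧ ∀ t, X.M.lev (κ t).src = - X.P.lev (ι t).src ∧
      X.M.dist (X.h'.f (ι t).src) (κ t).src ≤ C

def St_QL : Prop := ∀ (G : Type) [Group G] (d d' : Dg G), FC d → ∀ X : Pair d d',
  X.s.NF → X.t.NF → X.s.QLine

/-! ### B: the pairing -/

/-- close darts with a common descendant merge or become a tip in bounded time -/
def St_BT : Prop := ∀ (G : Type) [Group G] (d : Dg G), FC d → ∀ (Y : Forest d) (s : Flow Y),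
  s.NF → ∀ R : ℕ, ∃ j : ℕ, ∀ (i : ℕ) (a b a' b' x : Y.Dir), Y.dist a.src b.src ≤ R →
    s.Desc j a a' → s.Desc j b b' → s.Desc i a' x → s.Desc i b' x → a' = b' ∨ s.Tip i x a' b'

/-- confinement of finite subsets of a fibre -/
def St_CONF : Prop := ∀ (G : Type) [Group G] (d : Dg G) (Y : Forest d) (s : Flow Y)
  (ι : ℕ → Y.Dir) (D : ℕ), s.QL ι D → ∀ C : Set Y.Dir, C.Finite → C ⊆ s.Fib ι → ∀ a ∈ C,
    (∀ a' ∈ C, Y.lev a'.src = Y.lev a.src) → ∀ z, Y.lev z = Y.lev a.src →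
    ∃ u ∈ C, ∃ v ∈ s.Fib ι, v ∉ C ∧ Y.lev v.src = Y.lev a.src ∧ Y.dist u.src v.src ≤ 2 * D + 1 ∧
      Y.dist a.src z ≤ Y.dist u.src z + 3 * D + 2

/-- three long geodesics from one place with small overlaps make a large tripod -/
def St_TRIP : Prop := ∀ (G : Type) [Group G] (d : Dg G) (Y : Forest d) (z u : Fin 3 → Y.V)
  (m : Y.V) (ρ L l D : ℕ), (∀ i j, Y.lev (z i) = Y.lev (u j)) → (∀ i j, Y.dist (z i) (z j) ≤ ρ) →
    (∀ i, l ≤ Y.dist (z i) (u i)) →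
    (∀ i j, i ≠ j → ∀ v w, Y.btw (z i) v (u i) → Y.btw (z i) w (u i) → Y.btw (z j) v (u j) →
      Y.btw (z j) w (u j) → Y.dist v w ≤ L) →
    Y.Med (u 0) (u 1) (u 2) m → (∃ i, Y.dist (u i) m ≤ D) → l ≤ D + L + 4 * ρ + 4

def St_STABK : Prop := ∀ (G : Type) [Group G] (d : Dg G), FC d → ∀ (Y : Forest d) (s : Flow Y),
  s.NF → ∃ k, s.Stab k

/-- a change of component happens near the ancestor of a flag -/
def St_CH : Prop := ∀ (G : Type) [Group G] (d : Dg G), FC d → ∀ (Y : Forest d) (s : Flow Y),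
  s.NF → ∀ R : ℕ, ∃ j : ℕ, ∀ (ι : ℕ → Y.Dir), s.Itin ι → ∀ (n : ℕ) (x a a' b' : Y.Dir),
    x ∈ s.Fib ι → s.Desc n a x → s.Desc j a' a → b' ∈ s.Fib ι → Y.lev b'.src = Y.lev a'.src →
    Y.dist a'.src b'.src ≤ R →
    (∃ b, s.Cmp n x a b ∧ s.Desc j b' b) ∨ ∃ ξ : s.Flag, ξ.x = x ∧ (ξ.anc n).x = a

def St_COVER : Prop := ∀ (G : Type) [Group G] (d : Dg G), FC d → ∀ (Y : Forest d) (s : Flow Y),
  s.NF → s.QLine → s.Cover

def St_FAR2 : Prop := ∀ (G : Type) [Group G] (d : Dg G), FC d → ∀ (Y : Forest d) (s : Flow Y),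
  s.NF → s.QLine → s.Cover → s.Far2

/-- components over different darts of one fibre overlap little -/
def St_OVL : Prop := ∀ (G : Type) [Group G] (d : Dg G), FC d → ∀ (Y : Forest d) (s : Flow Y),
  s.NF → ∀ (ι : ℕ → Y.Dir), s.Itin ι → ∀ x ∈ s.Fib ι, ∀ x' ∈ s.Fib ι, x ≠ x' →
    Y.lev x.src = Y.lev x'.src → ∃ L n₀ : ℕ, ∀ n ≥ n₀, ∀ a₁ a₂ b₁ b₂ v w, s.Desc n a₁ x →
      s.Desc n b₁ x' → s.Cmp n x a₁ a₂ → s.Cmp n x' b₁ b₂ → Y.btw a₁.src v a₂.src →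
      Y.btw a₁.src w a₂.src → Y.btw b₁.src v b₂.src → Y.btw b₁.src w b₂.src → Y.dist v w ≤ L

def St_TS : Prop := ∀ (G : Type) [Group G] (d : Dg G), FC d → ∀ (Y : Forest d) (s : Flow Y),
  s.NF → s.QLine → s.Far2 → s.TS

def St_DIST : Prop := ∀ (G : Type) [Group G] (d : Dg G), FC d → ∀ (Y : Forest d) (s : Flow Y),
  s.NF → s.TS → ∀ ξ ζ : s.Flag, ξ.x = ζ.x → ξ ≠ ζ → ξ.Far ζ

def St_TWO : Prop := ∀ (G : Type) [Group G] (d : Dg G), FC d → ∀ (Y : Forest d) (s : Flow Y),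
  s.NF → s.QLine → s.Far2 → (∀ ξ ζ : s.Flag, ξ.x = ζ.x → ξ ≠ ζ → ξ.Far ζ) →
  ∀ ξ : s.Flag, ∃! ζ, ζ ≠ ξ ∧ ξ.Opp ζ

def St_PAIR : Prop := ∀ (G : Type) [Group G] (d : Dg G), FC d → ∀ (Y : Forest d) (s : Flow Y),
  s.NF → s.QLine → ∃ k, s.Pairing k

/-! ### C: the ribbon tree -/

/-- forests from darts and walls -/
def St_MKF : Prop := ∀ (K : Type) [Group K] (e : Dg K) (V D : Type) [MulAction K V]
  [MulAction K D] (A : FData e V D), ∃ (T : Forest e) (ν : V ≃ T.V) (φ : D ≃ T.Dir),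
    (∀ (k : K) v, ν (k • v) = k • ν v) ∧ (∀ (k : K) δ, φ (k • δ) = (φ δ).tr k) ∧
    (∀ v, T.lev (ν v) = A.lev v) ∧ (∀ δ, (φ δ).src = ν (A.src δ)) ∧
    (∀ δ, φ (A.rv δ) = (φ δ).rv) ∧
    ∀ δ v, A.lev v = A.lev (A.src δ) → (ν v ∈ (φ δ).H ↔ A.sd δ v)

/-- closing up the links -/
def St_CHAIN : Prop := ∀ (K X : Type) [Group K] [MulAction K X] (o θ : X → X) (En : X → Prop),
  (∀ (k : K) x, o (k • x) = k • o x) → (∀ x, o (o x) = x) → (∀ x, o x ≠ x) →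
  (∀ (k : K) x, En (k • x) ↔ En x) → (∀ (k : K) x, ¬ En x → θ (k • x) = k • θ x) →
  (∀ x, ¬ En x → ¬ En (θ x) ∧ θ (θ x) = x ∧ θ x ≠ x) →
  (∃ S : Finset X, ∀ x : X, ∃ k : K, k • x ∈ S) →
  ∃ J : X → X, (∀ x, ¬ En x → J x = θ x) ∧ (∀ (k : K) x, J (k • x) = k • J x) ∧
    (∀ x, J (J x) = x) ∧ (∀ x, J x ≠ x) ∧
    (∀ x, En x → En (J x) ∧ Relation.EqvGen (fun a b => b = o a ∨ (¬ En a ∧ b = θ a)) x (J x)) ∧
    ∀ x y, En x → En y → Relation.EqvGen (fun a b => b = o a ∨ b = J a) x y → y = x ∨ y = J x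

/-- vertex groups of ribbon trees are cyclic -/
def St_VCYC : Prop := ∀ (K : Type) [Group K], (∀ (k : K) (n : ℕ), 0 < n → k ^ n = 1 → k = 1) →
  ∀ (T : Forest (1 : Dg K)) (R : Ribbon T), R.Conn → ∀ ξ : R.Fl,
    IsCyclic (MulAction.stabilizer K (R.dart ξ).src)

/-- periodic elements that are not elliptic translate a Nielsen class -/
def St_AXN : Prop := ∀ (G : Type) [Group G] (d : Dg G), FC d → ∀ (Y : Forest d) (s : Flow Y),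
  s.NF → ∀ u ∈ d.ker, u ∉ Y.Ell → ∀ g : G, dg d g ≠ 0 → g * u = u * g →
    ∃ p q, Y.lev p = 0 ∧ s.Wd p q ∧ s.Cls p (u • p)

/-- the pieces; if there is one piece, all flags of one level are related -/
def St_PIECE : Prop := ∀ (G : Type) [Group G] (d : Dg G), FC d → ∀ (Y : Forest d) (s : Flow Y),
  s.NF → ∀ k, s.Pairing k → ∃ r, s.PieceRel r ∧ ∀ ξ ζ : s.Flag, Y.lev ξ.p = Y.lev ζ.p →
    r ξ.x.1 ζ.x.1 → ξ.Rel ζ

/-- the ribbon tree -/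
def St_C : Prop := ∀ (G : Type) [Group G] (d : Dg G), FC d → ∀ (Y : Forest d) (s : Flow Y),
  s.NF → ∀ k, s.Pairing k → (∀ ξ ζ : s.Flag, Y.lev ξ.p = Y.lev ζ.p → ξ.Rel ζ) →
  ∃ (T : Forest (1 : Dg d.ker)) (R : Ribbon T), (∀ a, T.lev a = 0) ∧ Nonempty T.I ∧ R.Conn ∧
    ∀ x : d.ker, R.Peri x ↔ ∃ g : G, dg d g ≠ 0 ∧ g * x = x * g

/-! ### D: one piece -/

def St_ONE : Prop := ∀ (G : Type) [Group G] (d : Dg G), FC d → ∀ (Y : Forest d) (s : Flow Y),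
  s.TT → MAX d Y.Ell → ∀ r, s.PieceRel r → ∀ c c', r c c'

theorem pair_of (h1 : St_STABK) (h2 : St_COVER) (h3 : St_FAR2) (h4 : St_TS) (h5 : St_DIST)
    (h6 : St_TWO) : St_PAIR := fun G _ d hd Y s hs hq =>
  let ⟨k, hk⟩ := h1 G d hd Y s hs
  have c := h2 G d hd Y s hs hq
  have f := h3 G d hd Y s hs hq c
  have t := h4 G d hd Y s hs hq f
  ⟨k, c, hk, t, h6 G d hd Y s hs hq f (h5 G d hd Y s hs t)⟩

theorem t7_of (h1 : St_QL) (h2 : St_PAIR) (h3 : St_PIECE) (h4 : St_ONE) (h5 : St_C) : St_T7 :=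
  fun G _ d d' hd X hs ht hm =>
    let ⟨k, hk⟩ := h2 G d hd X.P X.s hs (h1 G d d' hd X hs ht)
    let ⟨r, hr, h⟩ := h3 G d hd X.P X.s hs k hk
    h5 G d hd X.P X.s hs k hk fun ξ ζ l =>
      h ξ ζ l (h4 G d hd X.P X.s hs.toTT hm r hr _ _)

end Pool.Agent.Lib.FBC.T7
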