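import Pool.Agent.Lib.FBC.T7.Blue7

/-!
Closing up chains of two involutions.
-/

namespace Pool.Agent.Lib.FBC.T7

namespace CHAIN

variable {X : Type} {o t : X → X}

lemma dih (ho : ∀ x, o (o x) = x) (ht : ∀ x, t (t x) = x) (i : ℕ) (z : X) :
    (t ∘ o)^[i] (t ((t ∘ o)^[i] z)) = t z := by
  induction i with
  | zero => rfl
  | succ i ih =>
    rw [Function.iterate_succ_apply, Function.iterate_succ_apply']
    simpa only [Function.comp, ho, ht] using ih

/-- the abstract version: `t` is an involution of the whole set and fixes the ends -/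
lemma core (ho : ∀ x, o (o x) = x) (ht : ∀ x, t (t x) = x) (hn : ∀ x, o x ≠ x) {x : X} {m : ℕ}
    (hx : t x = x) (h0 : 0 < m) (h1 : t ((t ∘ o)^[m] x) = (t ∘ o)^[m] x)
    (h2 : ∀ i, 0 < i → i < m → t ((t ∘ o)^[i] x) ≠ (t ∘ o)^[i] x) :
    (t ∘ o)^[m] ((t ∘ o)^[m] x) = x ∧ (t ∘ o)^[m] x ≠ x ∧
      ∀ i, 0 < i → i < m → t ((t ∘ o)^[i] ((t ∘ o)^[m] x)) ≠ (t ∘ o)^[i] ((t ∘ o)^[m] x) := by
  have key : ∀ i j, i + j = m → (t ∘ o)^[i] ((t ∘ o)^[m] x) = t ((t ∘ o)^[j] x) := by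
    rintro i j rfl
    rw [← h1, Function.iterate_add_apply, dih ho ht]
  refine ⟨by simpa [hx] using key m 0 rfl, fun e => ?_, fun i a b e => ?_⟩
  · rw [e] at key
    obtain ⟨i, rfl | rfl⟩ := Nat.even_or_odd' m
    · exact h2 i (by omega) (by omega) (key i i (by omega)).symm
    · have := key (i + 1) i (by omega)
      rw [Function.iterate_succ_apply'] at this
      exact hn _ (by simpa only [Function.comp, ht] using congrArg t this)
  · rw [key i (m - i) (by omega), ht] at e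
    exact h2 (m - i) (by omega) (by omega) e.symm

end CHAIN

open CHAIN

theorem stCHAIN : St_CHAIN := by
  classical
  intro K X _ _ o θ En o1 o2 o3 e1 t1 t2 ⟨S, hS⟩
  obtain ⟨t, ht⟩ : ∃ t : X → X, ∀ x, t x = if En x then x else θ x := ⟨_, fun _ => rfl⟩
  have a1 : ∀ x, t x = x ↔ En x := fun x => by
    by_cases h : En x <;> simp [ht, h, (t2 x _).2.2]
  have a2 : ∀ x, t (t x) = x := fun x => by
    by_cases h : En x
    · simp [ht, h]
    · simp [ht, h, (t2 x h).1, (t2 x h).2.1]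
  have a3 : ∀ x, En (t x) ↔ En x := fun x => by rw [← a1, ← a1, a2, eq_comm]
  have a4 : ∀ (k : K) x, t (k • x) = k • t x := fun k x => by
    by_cases h : En x <;> simp [ht, h, e1, t1]
  have a5 : ∀ (k : K) i x, (t ∘ o)^[i] (k • x) = k • (t ∘ o)^[i] x := fun k i x => by
    induction i with
    | zero => rfl
    | succ i ih => simp only [Function.iterate_succ_apply', ih, Function.comp, o1, a4]
  have inj : Function.Injective (t ∘ o) :=
    (Function.LeftInverse.injective a2).comp (Function.LeftInverse.injective o2)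
  have ex : ∀ x, En x → ∃ m, 0 < m ∧ En ((t ∘ o)^[m] x) := fun x hx => by
    choose k hk using hS
    obtain ⟨i, j, hij, e⟩ := S.finite_toSet.exists_lt_map_eq_of_forall_mem
      (f := fun i : ℕ => k ((t ∘ o)^[i] x) • (t ∘ o)^[i] x) fun i => hk _
    obtain ⟨n, rfl⟩ := Nat.exists_eq_add_of_lt hij
    rw [add_assoc, Function.iterate_add_apply (t ∘ o) i (n + 1), ← a5, ← a5] at e
    exact ⟨n + 1, by omega, (e1 _ _).1 (inj.iterate i e ▸ (e1 _ _).2 hx)⟩
  have uq : ∀ x m m', 0 < m → 0 < m' → En ((t ∘ o)^[m] x) → En ((t ∘ o)^[m'] x) →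
      (∀ i, 0 < i → i < m → ¬ En ((t ∘ o)^[i] x)) → (∀ i, 0 < i → i < m' → ¬ En ((t ∘ o)^[i] x)) →
      m = m' := fun x m m' p p' q q' r r' =>
    le_antisymm (not_lt.1 fun h => r m' p' h q') (not_lt.1 fun h => r' m p h q)
  have ex' : ∀ x, ∃ m, En x → 0 < m ∧ En ((t ∘ o)^[m] x) ∧
      ∀ i, 0 < i → i < m → ¬ En ((t ∘ o)^[i] x) := fun x => by
    by_cases h : En x
    · exact ⟨Nat.find (ex x h), fun _ => ⟨(Nat.find_spec (ex x h)).1, (Nat.find_spec (ex x h)).2,
        fun i a b c => Nat.find_min (ex x h) b ⟨a, c⟩⟩⟩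
    · exact ⟨0, fun h' => (h h').elim⟩
  choose m hm using ex'
  have co : ∀ x, En x → _ := fun x h => core o2 a2 o3 ((a1 x).2 h) (hm x h).1
    ((a1 _).2 (hm x h).2.1) fun i a b c => (hm x h).2.2 i a b ((a1 _).1 c)
  obtain ⟨J, hJ⟩ : ∃ J : X → X, ∀ x, J x = if En x then (t ∘ o)^[m x] x else θ x :=
    ⟨_, fun _ => rfl⟩
  have j1 : ∀ x, En x → J x = (t ∘ o)^[m x] x := fun x h => by simp [hJ, h]
  have j2 : ∀ x, ¬ En x → J x = θ x := fun x h => by simp [hJ, h]
  have j3 : ∀ x, J (J x) = x := fun x => by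
    by_cases h : En x
    · obtain ⟨b1, b2, b3⟩ := hm x h
      obtain ⟨c1, c2, c3⟩ := hm _ b2
      obtain ⟨d1, -, d3⟩ := co x h
      rw [j1 x h, j1 _ b2, uq _ _ _ c1 b1 c2 (d1.symm ▸ h) c3 fun i a b c =>
        d3 i a b ((a1 _).2 c), d1]
    · rw [j2 x h, j2 _ (t2 x h).1, (t2 x h).2.1]
  refine ⟨J, j2, fun k x => ?_, j3, fun x => ?_, fun x h => ⟨j1 x h ▸ (hm x h).2.1, ?_⟩,
    fun x y hx hy h => ?_⟩
  · by_cases h : En x
    · have h' := (e1 k x).2 h
      obtain ⟨b1, b2, b3⟩ := hm x h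
      obtain ⟨c1, c2, c3⟩ := hm _ h'
      rw [j1 x h, j1 _ h', uq _ _ _ c1 b1 c2 (by rwa [a5, e1]) c3 (by simpa only [a5, e1] using b3),
        a5]
    · rw [j2 x h, j2 _ (mt (e1 k x).1 h), t1 k x h]
  · by_cases h : En x
    · exact j1 x h ▸ (co x h).2.1
    · exact j2 x h ▸ (t2 x h).2.2
  · rw [j1 x h]
    induction m x with
    | zero => exact .refl _
    | succ i ih =>
      rw [Function.iterate_succ_apply']
      refine .trans _ _ _ ih (.trans _ _ _ (.rel _ _ (Or.inl rfl)) ?_)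
      by_cases h : En (o ((t ∘ o)^[i] x))
      · rw [Function.comp, (a1 _).2 h]; exact .refl _
      · exact .rel _ _ (Or.inr ⟨h, by simp [ht, h]⟩)
  · obtain ⟨b1, b2, b3⟩ := hm x hx
    let P : X → Prop := fun z => ∃ i ≤ m x, z = (t ∘ o)^[i] x ∨ z = t ((t ∘ o)^[i] x)
    have p1 : ∀ z, P z → En z → z = x ∨ z = J x := by
      rintro z ⟨i, hi, h⟩ hz
      have e : En ((t ∘ o)^[i] x) := h.elim (fun h => h ▸ hz) fun h => (a3 _).1 (h ▸ hz)
      rw [(a1 _).2 e, or_self] at h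
      rcases Nat.eq_zero_or_pos i with rfl | p
      · exact Or.inl h
      · obtain rfl : i = m x := le_antisymm hi (not_lt.1 fun q => b3 i p q e)
        exact Or.inr (h.trans (j1 x hx).symm)
    have p2 : ∀ i < m x, P (o ((t ∘ o)^[i] x)) := fun i hi =>
      ⟨i + 1, hi, Or.inr (by rw [Function.iterate_succ_apply', Function.comp, a2])⟩
    have p3 : ∀ i, 0 < i → i ≤ m x → P (o (t ((t ∘ o)^[i] x))) := fun i p hi => by
      obtain ⟨i, rfl⟩ := Nat.exists_eq_add_of_lt p
      exact ⟨i, by omega, Or.inl (by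
        rw [zero_add, Function.iterate_succ_apply', Function.comp, a2, o2])⟩
    have p4 : ∀ z, P z → P (o z) := by
      rintro z ⟨i, hi, rfl | rfl⟩
      · rcases hi.lt_or_eq with q | rfl
        · exact p2 i q
        · simpa only [(a1 _).2 b2] using p3 _ b1 hi
      · rcases Nat.eq_zero_or_pos i with rfl | p
        · simpa [(a1 _).2 hx] using p2 0 b1
        · exact p3 i p hi
    have p5 : ∀ z, P z → P (J z) := fun z hz => by
      by_cases e : En z
      · rcases p1 z hz e with rfl | rfl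
        · exact ⟨_, le_rfl, Or.inl (j1 _ e)⟩
        · exact ⟨0, by omega, Or.inl (j3 x)⟩
      · have : J z = t z := by simp [j2, ht, e]
        obtain ⟨i, hi, h | h⟩ := hz
        · exact ⟨i, hi, Or.inr (by rw [this, h])⟩
        · exact ⟨i, hi, Or.inl (by rw [this, h, a2])⟩
    have p6 : ∀ a b, Relation.EqvGen (fun a b => b = o a ∨ b = J a) a b → (P a ↔ P b) := by
      intro a b h
      induction h with
      | rel a b h =>
        rcases h with rfl | rfl
        · exact ⟨p4 a, fun h => o2 a ▸ p4 _ h⟩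
        · exact ⟨p5 a, fun h => j3 a ▸ p5 _ h⟩
      | refl => rfl
      | symm _ _ _ ih => exact ih.symm
      | trans _ _ _ _ _ ih ih' => exact ih.trans ih'
    exact p1 y ((p6 x y h).1 ⟨0, by omega, Or.inl rfl⟩) hy

end Pool.Agent.Lib.FBC.T7
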