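import Pool.Agent.Lib.FBC.T7.Blue7

/-!
Confinement of finite subsets of a fibre.
-/

namespace Pool.Agent.Lib.FBC.T7

open Forest Flow

/-- A property that is lost along a geodesic is lost across one of its darts. -/
lemma exists_lost {G : Type} [Group G] {d : Dg G} {Y : Forest d} (φ : Y.V → Prop) {a b : Y.V}
    (h : Y.lev a = Y.lev b) (ha : φ a) (hb : ¬ φ b) :
    ∃ e : Y.Dir, Y.Cross a b e ∧ φ e.src ∧ ¬ φ e.tgt := by
  revert ha
  refine dir_ind (P := fun a => φ a → ∃ e : Y.Dir, Y.Cross a b e ∧ φ e.src ∧ ¬ φ e.tgt)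
    (fun k => (hb k).elim) (fun e he ih ha => ?_) h
  by_cases k : φ e.tgt
  · obtain ⟨e', h1, h2⟩ := ih k
    exact ⟨e', h1.extend_left he.btw2, h2⟩
  · exact ⟨e, he, ha, k⟩

theorem stCONF : St_CONF := by
  intro G _ d Y s ι D q C hC hF a ha hl z hz
  obtain ⟨B, hB⟩ := (hC.image fun u => Y.dist a.src u.src).bddAbove
  have hB' : ∀ u ∈ C, Y.dist a.src u.src ≤ B := fun u hu => hB ⟨u, hu, rfl⟩
  obtain ⟨y, hy, c, l1, l2, h1, h2, h3⟩ : ∃ y ∈ s.Fib ι, ∃ c, Y.lev a.src = Y.lev c ∧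
      Y.lev c = Y.lev y.src ∧ Y.btw z c y.src ∧ Y.dist a.src c ≤ D ∧
      B + 2 * D + 1 ≤ Y.dist c y.src := by
    obtain ⟨y, hy, y', hy', c, k1, k2, k3, k4, k5⟩ := q.two a (hF ha) (B + 2 * D + 1)
    rcases k1.cover (c := z) (k1.lev1.trans (k2.symm.trans hz.symm)) with k | k
    · exact ⟨y, hy, c, k2, k1.lev1.symm, k.symm, k3, k4⟩
    · exact ⟨y', hy', c, k2, k1.lev2, k, k3, k5⟩
  have l3 : Y.lev a.src = Y.lev y.src := l1.trans l2
  obtain ⟨e, he, ⟨u, hu, hue⟩, hn⟩ := exists_lost (fun p => ∃ u ∈ C, Y.dist u.src p ≤ D) l3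
    ⟨a, ha, by simp [Forest.dist]⟩ (by
      rintro ⟨u, hu, k⟩
      have t1 := dist_triangle (a := c) (x := a.src) (b := y.src) l1.symm l3
      have t2 := dist_triangle (a := a.src) (x := u.src) (b := y.src) (hl u hu).symm
        ((hl u hu).trans l3)
      have := hB' u hu
      rw [dist_comm c a.src] at t1
      omega)
  obtain ⟨v, hv, lv, hve⟩ := q.den a (hF ha) y hy e.tgt he.btw_tgt
  have l4 : Y.lev a.src = Y.lev e.src := he.btw_src.lev1
  have l5 : Y.lev a.src = Y.lev e.tgt := he.btw_tgt.lev1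
  have lu := hl u hu
  refine ⟨u, hu, v, hv, fun k => hn ⟨v, k, hve⟩, lv.trans l5.symm, ?_, ?_⟩
  · have t1 := dist_triangle (a := u.src) (x := e.src) (b := v.src) (lu.trans l4)
      (l4.symm.trans (l5.trans lv.symm))
    have t2 := dist_triangle (a := e.src) (x := e.tgt) (b := v.src) (lev_src_tgt e) lv.symm
    have t3 := (adj_dir e).dist
    rw [dist_comm e.tgt v.src] at t2
    omega
  · have t1 := h1.dist_add
    have t2 := he.btw_src.dist_add
    have t3 := dist_triangle (a := z) (x := e.src) (b := y.src) (hz.trans l4) he.btw_src.lev2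
    have t4 := dist_triangle (a := a.src) (x := c) (b := y.src) l1 l2
    have t5 := dist_triangle (a := a.src) (x := c) (b := z) l1 (l1.symm.trans hz.symm)
    have t6 := dist_triangle (a := z) (x := u.src) (b := e.src) (hz.trans lu.symm) (lu.trans l4)
    rw [dist_comm c z] at t5
    rw [dist_comm z u.src] at t6
    omega

end Pool.Agent.Lib.FBC.T7
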