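import Pool.Agent.Lib.FBC.T7.Blue7
import Pool.Agent.Lib.FBC.T7.Flag

/-!
Different flags on one dart have diverging ancestors.
-/

namespace Pool.Agent.Lib.FBC.T7

open Forest Flow Flow.Flag T7B

namespace DIST

variable {G : Type} [Group G] {d : Dg G} {Y : Forest d} {s : Flow Y} {ξ ζ : s.Flag}

lemma down (T : s.TT) (hx : ξ.x = ζ.x) {i k : ℕ} (hk : i ≤ k) (h : (ξ.anc k).x = (ζ.anc k).x) :
    (ξ.anc i).x = (ζ.anc i).x :=
  have e : k = k - i + i := by omega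
  mid_unique T (anc_anc T e ξ) (h ▸ anc_anc T e ζ) (anc_desc i ξ) (hx ▸ anc_desc i ζ)

lemma typ (T : s.TT) {N : ℕ} (hN : ∀ p q, s.Wd p q → Y.dist p q ≤ N) (ξ : s.Flag) :
    (∀ n ≥ N, (ξ.anc n).x.src = (ξ.anc n).p) ∨ ∀ n ≥ N, (ξ.anc n).x.tgt = (ξ.anc n).q := by
  obtain ⟨y, h⟩ := ξ.wd
  refine (arm h ξ.cr).imp (fun t n hn => anc_deep1 T hN hn h t) fun t n hn => ?_
  have := anc_deep1 (ξ := ξ.rev) T hN hn (T2.inp_symm h) t.symm
  rwa [anc_rev] at this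

lemma mixed (T : s.TT) {N : ℕ} (h : ∀ n, (ξ.anc n).x = (ζ.anc n).x)
    (h1 : ∀ n ≥ N, (ξ.anc n).x.src = (ξ.anc n).p) (h2 : ∀ n ≥ N, (ζ.anc n).x.tgt = (ζ.anc n).q) :
    False := by
  have k := T.sa_four (ξ.anc (N + 1)).x
  have e1 : s.σ (ξ.anc (N + 1)).p = (ξ.anc N).p := by
    rw [anc_add T (add_comm N 1)]
    exact (anc_up 1 _).1
  have e2 : s.σ (ζ.anc (N + 1)).q = (ζ.anc N).q := by
    rw [anc_add T (add_comm N 1)]
    exact (anc_up 1 _).2.1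
  rw [h1 _ (by omega), e1, h, h2 _ (by omega), e2, ← h1 _ le_rfl, ← h2 _ le_rfl, h,
    dist_src_tgt] at k
  omega

lemma same (hs : s.NF) (ts : s.TS) (h : ∀ n, (ξ.anc n).x = (ζ.anc n).x) : ξ = ζ := by
  obtain ⟨N, hN⟩ := wd_bound hs
  have key : ζ.anc N = ξ.anc N → ξ = ζ := fun e =>
    Flow.Flag.ext (by rw [← (anc_up N ξ).1, ← (anc_up N ζ).1, e])
      (by rw [← (anc_up N ξ).2.1, ← (anc_up N ζ).2.1, e]) (by simpa using h 0)
  rcases typ hs.toTT hN ξ with h1 | h1 <;> rcases typ hs.toTT hN ζ with h2 | h2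
  · exact key (ts _ _ (h N) (h1 N le_rfl) (by rw [← h1 N le_rfl, ← h2 N le_rfl, h]))
  · exact (mixed hs.toTT h h1 h2).elim
  · exact (mixed hs.toTT (fun n => (h n).symm) h2 h1).elim
  · refine key ?_
    have := ts (ξ.anc N).rev (ζ.anc N).rev (congrArg Dir.rv (h N)) (h1 N le_rfl)
      (by rw [rev_p, rev_p, ← h1 N le_rfl, ← h2 N le_rfl, h])
    simpa using congrArg Flow.Flag.rev this

end DIST

open DIST in
theorem stDIST (hBT : St_BT) : St_DIST := by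
  intro G _ d hd Y s hs ts ξ ζ hx hne R
  have T := hs.toTT
  by_contra hc
  push Not at hc
  obtain ⟨j, hj⟩ := hBT G d hd Y s hs R
  obtain ⟨k, hk⟩ : ∃ k, (ξ.anc k).x ≠ (ζ.anc k).x := by
    by_contra t
    push Not at t
    exact hne (same hs ts t)
  have fr : ∃ᶠ m in Filter.atTop, ∃ η ∈ {η : s.Flag | η.x = (ξ.anc k).x},
      (η.anc m).x = ((ξ.anc k).anc m).x ∧ Y.Cross η.q η.p (ζ.anc k).x := by
    refine Filter.frequently_atTop.2 fun m₀ => ?_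
    obtain ⟨n, hn, h⟩ := hc (j + (m₀ + k))
    obtain ⟨m, rfl⟩ : ∃ m, n = j + (m + k) := ⟨n - j - k, by omega⟩
    refine ⟨m, by omega, ?_⟩
    rcases hj (m + k) _ _ _ _ _ h.le (anc_anc T rfl ξ) (anc_anc T rfl ζ) (anc_desc _ ξ)
      (hx ▸ anc_desc _ ζ) with t | t
    · exact absurd (down T hx (by omega) t) hk
    rcases tip_td T t (anc_anc T rfl ξ) (anc_anc T rfl ζ) (anc_desc _ ξ) (hx ▸ anc_desc _ ζ) with
      r | ⟨η, r1, r2, r3⟩
    · exact absurd r.1 hk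
    · exact ⟨η, r1, by rw [r2, anc_add T rfl], r3⟩
  obtain ⟨η, h1, h2⟩ := ((fin_flag hs _).frequently_exists).1 fr
  obtain rfl : η = ξ.anc k := same hs ts fun n =>
    let ⟨_, hm, h⟩ := Filter.frequently_atTop.1 h2 n; down T h1 hm h.1
  obtain ⟨y, w⟩ := (ξ.anc k).wd
  refine nt T w h2.exists.choose_spec.2 (hx ▸ anc_desc k ζ) ?_
  rw [(anc_up k ξ).1, (anc_up k ξ).2.1]
  exact ξ.cr

end Pool.Agent.Lib.FBC.T7
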