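import Pool.Agent.Lib.FBC.T2.All
import Pool.Agent.Lib.FBC.Sand

/-!
Definitions for the surface case.
-/

namespace Pool.Agent.Lib.FBC

open Forest

variable {G : Type} [Group G] {d : Dg G}

namespace Flow

variable {Y : Forest d} (s : Flow Y)

/-- a finite itinerary with `T` steps -/
def Chn (ι : ℕ → Y.Dir) (T : ℕ) : Prop := ∀ t < T, s.Desc 1 (ι t) (ι (t + 1))

/-- a finite itinerary in which every block of `K` steps is interior -/
def KI (K : ℕ) (ι : ℕ → Y.Dir) (T : ℕ) : Prop :=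
  s.Chn ι T ∧ ∀ t, t + K ≤ T → s.IDesc K (ι t) (ι (t + K))

/-- the fibre of an itinerary -/
def Fib (ι : ℕ → Y.Dir) : Set Y.Dir := {e | ∃ n k : ℕ, s.Desc k e (ι n)}

/-- the fibres of the interior itinerary `ι` are quasi-lines -/
structure QL (ι : ℕ → Y.Dir) (D : ℕ) : Prop where
  int : ∀ t, s.IDesc 1 (ι t) (ι (t + 1))
  tri : ∀ x ∈ s.Fib ι, ∀ y ∈ s.Fib ι, ∀ z ∈ s.Fib ι, ∀ m, Y.Med x.src y.src z.src m →
    Y.dist x.src m ≤ D ∨ Y.dist y.src m ≤ D ∨ Y.dist z.src m ≤ D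
  den : ∀ x ∈ s.Fib ι, ∀ y ∈ s.Fib ι, ∀ c, Y.btw x.src c y.src →
    ∃ z ∈ s.Fib ι, Y.lev z.src = Y.lev c ∧ Y.dist z.src c ≤ D
  two : ∀ x ∈ s.Fib ι, ∀ R : ℕ, ∃ y ∈ s.Fib ι, ∃ z ∈ s.Fib ι, ∃ c, Y.btw y.src c z.src ∧
    Y.lev x.src = Y.lev c ∧ Y.dist x.src c ≤ D ∧ R ≤ Y.dist c y.src ∧ R ≤ Y.dist c z.src

/-- every dart starts an itinerary whose fibres are quasi-lines -/
def QLine : Prop := ∀ x, ∃ (ι : ℕ → Y.Dir) (D : ℕ), ι 0 = x ∧ s.QL ι D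

/-- wedges: oriented indivisible Nielsen paths -/
def Wd (p q : Y.V) : Prop := ∃ y, s.INP p y q

/-- a wedge with a dart on it -/
@[ext] structure Flag where
  /-- start of the wedge -/
  p : Y.V
  /-- end of the wedge -/
  q : Y.V
  /-- the dart -/
  x : Y.Dir
  wd : s.Wd p q
  cr : Y.Cross p q x

/-- `a` and `b` lie on the two arms of a wedge and are folded onto `x` by the `n`-th iterate -/
def Tip (n : ℕ) (x a b : Y.Dir) : Prop :=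
  s.Desc n a x ∧ s.Desc n b x ∧ ∃ p q, s.Wd p q ∧ Y.Cross p q a ∧ Y.Cross q p b

/-- components of the graph of tips on the `n`-th ancestors of `x` -/
def Cmp (n : ℕ) (x : Y.Dir) : Y.Dir → Y.Dir → Prop := Relation.ReflTransGen (s.Tip n x)

variable {s}

lemma Wd.symm {p q : Y.V} (h : s.Wd p q) : s.Wd q p := h.imp fun _ => T2.inp_symm

lemma Wd.smul {p q : Y.V} (h : s.Wd p q) (g : G) : s.Wd (g • p) (g • q) :=
  let ⟨_, k⟩ := h; ⟨_, T2.inp_smul g k⟩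

namespace Flag

/-- the reversed flag -/
def rev (ξ : s.Flag) : s.Flag := ⟨ξ.q, ξ.p, ξ.x.rv, ξ.wd.symm, ξ.cr.symm⟩

instance : MulAction G s.Flag where
  smul g ξ := ⟨g • ξ.p, g • ξ.q, ξ.x.tr g, ξ.wd.smul g, ξ.cr.smul g⟩
  one_smul ξ := Flag.ext (one_smul G _) (one_smul G _) (Prod.ext (one_smul G _) rfl)
  mul_smul a b ξ := Flag.ext (mul_smul a b _) (mul_smul a b _) (Prod.ext (mul_smul a b _) rfl)

@[simp] lemma smul_p (g : G) (ξ : s.Flag) : (g • ξ).p = g • ξ.p := rfl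
@[simp] lemma smul_q (g : G) (ξ : s.Flag) : (g • ξ).q = g • ξ.q := rfl
@[simp] lemma smul_x (g : G) (ξ : s.Flag) : (g • ξ).x = ξ.x.tr g := rfl
@[simp] lemma rev_p (ξ : s.Flag) : ξ.rev.p = ξ.q := rfl
@[simp] lemma rev_q (ξ : s.Flag) : ξ.rev.q = ξ.p := rfl
@[simp] lemma rev_x (ξ : s.Flag) : ξ.rev.x = ξ.x.rv := rfl

/-- `η` is the `n`-th ancestor of `ξ` -/
def Up (n : ℕ) (η ξ : s.Flag) : Prop :=
  s.σ^[n] η.p = ξ.p ∧ s.σ^[n] η.q = ξ.q ∧ s.Desc n η.x ξ.x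

/-- the `n`-th ancestor of a flag -/
noncomputable def anc (n : ℕ) (ξ : s.Flag) : s.Flag :=
  @Classical.epsilon _ ⟨ξ⟩ fun η => Up n η ξ

/-- two flags on one dart whose ancestors are always joined by tips -/
def Opp (ξ ζ : s.Flag) : Prop := ξ.x = ζ.x ∧ ∀ n, s.Cmp n ξ.x (ξ.anc n).x (ζ.anc n).x

/-- the ancestors diverge -/
def Far (ξ ζ : s.Flag) : Prop :=
  ∀ R : ℕ, ∃ n₀ : ℕ, ∀ n ≥ n₀, R ≤ Y.dist (ξ.anc n).x.src (ζ.anc n).x.src

/-- flags of one piece -/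
def Rel : s.Flag → s.Flag → Prop :=
  Relation.EqvGen fun ξ ζ => (ζ.p = ξ.p ∧ ζ.q = ξ.q) ∨ ζ = ξ.rev ∨ Opp ξ ζ

end Flag

variable (s)

/-- every component of tips carries a flag -/
def Cover : Prop := ∀ n x a, s.Desc n a x → ∃ ξ : s.Flag, ξ.x = x ∧ s.Cmp n x a (ξ.anc n).x

/-- from depth `k` on the components of tips do not split -/
def Stab (k : ℕ) : Prop := ∀ n ≥ k, ∀ ξ ζ : s.Flag, ξ.x = ζ.x →
  s.Cmp n ξ.x (ξ.anc n).x (ζ.anc n).x → ξ.Opp ζ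

/-- a wedge is determined by its first dart -/
def TS : Prop := ∀ ξ ζ : s.Flag, ξ.x = ζ.x → ξ.x.src = ξ.p → ζ.p = ξ.p → ζ = ξ

/-- every class of flags has diverging members -/
def Far2 : Prop := ∀ ξ : s.Flag, ∃ ζ, ξ.Opp ζ ∧ ξ.Far ζ

/-- the flags are paired -/
structure Pairing (k : ℕ) : Prop where
  cover : s.Cover
  stab : s.Stab k
  ts : s.TS
  two : ∀ ξ : s.Flag, ∃! ζ, ζ ≠ ξ ∧ ξ.Opp ζ

/-- an invariant partition of the edges into pieces -/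
structure PieceRel (r : Y.E → Y.E → Prop) : Prop where
  eqv : Equivalence r
  inv : ∀ (g : G) c c', r c c' → r (g • c) (g • c')
  desc : ∀ e e', s.Desc 1 e e' → r e.1 e'.1
  conv : ∀ c c' b b' k, r c c' → k ∈ sep (c.ed b) (c'.ed b') → r c k
  fg : ∀ c, ∃ H : Subgroup G, H.FG ∧ ∀ u, u ∈ H ↔ u ∈ d.ker ∧ r c (u • c)

end Flow

/-- Data from which a forest is built: darts `D`, vertices `V`, walls `sd`. -/
structure FData {K : Type} [Group K] (e : Dg K) (V D : Type) [MulAction K V] [MulAction K D] where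
  /-- source -/
  src : D → V
  /-- reversal -/
  rv : D → D
  /-- level -/
  lev : V → ℤ
  /-- the side of the target -/
  sd : D → V → Prop
  src_smul : ∀ (k : K) δ, src (k • δ) = k • src δ
  rv_smul : ∀ (k : K) δ, rv (k • δ) = k • rv δ
  lev_smul : ∀ (k : K) v, lev (k • v) = dg e k + lev v
  sd_smul : ∀ (k : K) δ v, sd (k • δ) (k • v) ↔ sd δ v
  rv_rv : ∀ δ, rv (rv δ) = δ
  free : ∀ (k : K) δ, k • δ = δ ∨ k • δ = rv δ → k = 1
  fin : ∃ S : Finset D, ∀ δ : D, ∃ k : K, k • δ ∈ S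
  lev_zero : ∀ δ, ∃ k : K, lev (k • src δ) = 0
  lev_rv : ∀ δ, lev (src (rv δ)) = lev (src δ)
  sd_src : ∀ δ, ¬ sd δ (src δ)
  sd_tgt : ∀ δ, sd δ (src (rv δ))
  sd_ne : ∀ δ δ', lev (src δ') = lev (src δ) → δ' ≠ δ → δ' ≠ rv δ →
    (sd δ (src δ') ↔ sd δ (src (rv δ')))
  conn : ∀ u v, lev u = lev v →
    Relation.ReflTransGen (fun x y => ∃ δ, x = src δ ∧ y = src (rv δ)) u v

end Pool.Agent.Lib.FBC
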