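import Pool.Agent.Lib.FBC.T7.Blue7
import Pool.Agent.Lib.FBC.T7.Flag

/-!
Components of tips over different darts of one fibre overlap little.
-/

namespace Pool.Agent.Lib.FBC.T7

open Forest T7B

namespace OVL

variable {G : Type} [Group G] {d : Dg G} {Y : Forest d} {s : Flow Y}

/-- the geodesic spanned by two members of a component stays near the component -/
lemma near {N n : ℕ} (hN : ∀ p q, s.Wd p q → Y.dist p q ≤ N) {x a b : Y.Dir} (h : s.Cmp n x a b)
    {c : Y.V} (hc : Y.btw a.src c b.src) :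
    ∃ e, s.Cmp n x a e ∧ Y.lev e.src = Y.lev c ∧ Y.dist e.src c ≤ N := by
  induction h generalizing c with
  | refl => exact ⟨a, .refl, hc.lev1, by rw [hc.eq_of_self]; simp⟩
  | tail h t ih =>
    obtain ⟨l, k⟩ := tip_dist hN t
    rcases hc.cover (hc.lev3.trans l.symm) with r | r
    · exact ih r
    · exact ⟨_, h, r.lev1, r.dist_le.trans k⟩

/-- two darts of one level of a fibre have a common descendant -/
lemma common (T : s.TT) {ι : ℕ → Y.Dir} (hι : s.Itin ι) {x x' : Y.Dir} (hx : x ∈ s.Fib ι)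
    (hx' : x' ∈ s.Fib ι) (l : Y.lev x.src = Y.lev x'.src) :
    ∃ i z, s.Desc i x z ∧ s.Desc i x' z := by
  obtain ⟨n, k, h⟩ := hx
  obtain ⟨n', k', h'⟩ := hx'
  have h1 := hι.desc_of T h n'
  have h2 := hι.desc_of T h' n
  rw [add_comm n' n] at h2
  have l1 := h1.lh_lev
  have l2 := h2.lh_lev
  have e : k' + n = k + n' := by omega
  exact ⟨_, _, h1, e ▸ h2⟩

/-- pigeonhole on a geodesic -/
lemma pigeon {α : Type} (F : Finset α) (K : ℕ) {v w : Y.V} (l : Y.lev v = Y.lev w)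
    (P : Y.V → α → Prop) (h1 : ∀ c, Y.btw v c w → ∃ ξ ∈ F, P c ξ)
    (h2 : ∀ c c' ξ, P c ξ → P c' ξ → Y.dist c c' ≤ K) : Y.dist v w ≤ F.card * (K + 1) := by
  by_contra hc
  have : ∀ k : Fin (F.card + 1), ∃ c, (Y.btw v c w ∧ Y.dist v c = k * (K + 1)) ∧
      ∃ ξ ∈ F, P c ξ := fun k => by
    obtain ⟨c, h⟩ := exists_btw_dist l (k := k * (K + 1))
      ((Nat.mul_le_mul_right _ (Nat.lt_succ_iff.1 k.2)).trans (not_le.1 hc).le)
    exact ⟨c, h, h1 c h.1⟩
  choose c hc f hf hP using this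
  obtain ⟨k, -, k', -, ne, e⟩ := Finset.exists_ne_map_eq_of_card_lt_of_maps_to
    (s := Finset.univ) (t := F) (f := f) (by simp) fun k _ => hf k
  wlog lt : k < k' generalizing k k'
  · exact this k' k ne.symm e.symm (lt_of_le_of_ne (not_lt.1 lt) ne.symm)
  have h3 := h2 _ _ _ (hP k) (e ▸ hP k')
  have h4 := dist_triangle (hc k).1.lev1 ((hc k).1.lev2.trans (hc k').1.lev2.symm)
  have h5 := Nat.mul_le_mul_right (K + 1) (Nat.succ_le_of_lt (Fin.lt_def.1 lt))
  rw [(hc k).2, (hc k').2] at h4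
  rw [Nat.succ_mul] at h5
  omega

end OVL

open OVL in
theorem stOVL (hBT : St_BT) : St_OVL := by
  intro G _ d hd Y s hs ι hι x hx x' hx' ne l
  have T := hs.toTT
  obtain ⟨N, hN⟩ := wd_bound hs
  obtain ⟨j, hj⟩ := hBT G d hd Y s hs (N + N)
  obtain ⟨Q, hQ⟩ := anc_close (s := s) hd.surj j 0
  obtain ⟨i, z, hz, hz'⟩ := common T hι hx hx' l
  refine ⟨(fin_flag hs x).toFinset.card * (N + Q + N + 1), j, ?_⟩
  intro n hn a₁ a₂ b₁ b₂ v w ha hb ca cb va wa vb wb
  obtain ⟨m, rfl⟩ := Nat.exists_eq_add_of_le hn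
  refine pigeon _ _ (va.lev2.trans wa.lev2.symm) (fun c ξ => ∃ a : Y.Dir, Y.lev a.src = Y.lev c ∧
    Y.dist a.src c ≤ N ∧ s.Desc j a (ξ.anc m).x) (fun c hc => ?_) ?_
  · obtain ⟨a, a1, a2, a3⟩ := near hN ca (va.convex wa hc)
    obtain ⟨b, b1, b2, b3⟩ := near hN cb (vb.convex wb hc)
    obtain ⟨a', a4, a5⟩ := desc_mid rfl (cmp_desc a1 ha)
    obtain ⟨b', b4, b5⟩ := desc_mid rfl (cmp_desc b1 hb)
    have h1 := dist_triangle a2 b2.symm
    rw [Forest.dist_comm c] at h1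
    rcases hj _ a b a' b' z (by omega) a4 b4 (desc_trans T rfl a5 hz) (desc_trans T rfl b5 hz')
      with rfl | t
    · exact (ne (mid_unique T a5 b5 hz hz')).elim
    · rcases tip_td T t a5 b5 hz hz' with r | ⟨ξ, r1, r2, -⟩
      · exact (ne r.1).elim
      · exact ⟨ξ, by simpa using r1, a, a2, a3, r2 ▸ a4⟩
  · rintro c c' ξ ⟨a, a1, a2, a3⟩ ⟨b, b1, b2, b3⟩
    have l1 := a3.lh_lev
    have l2 := b3.lh_lev
    have l3 : Y.lev a.src = Y.lev b.src := by omega
    have h1 := hQ a b _ _ a3 b3 rfl (by simp)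
    have h2 := dist_triangle a1.symm (l3.trans b1)
    have h3 := dist_triangle l3 b1
    rw [Forest.dist_comm c a.src] at h2
    omega

end Pool.Agent.Lib.FBC.T7
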