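import Pool.Agent.Lib.FBC.T7.Blue7
import Pool.Agent.Lib.FBC.X1.Max

/-!
Pieces of an invariant partition of the edges: basic geometry.
-/

namespace Pool.Agent.Lib.FBC.T7

open Forest Flow

variable {G : Type} [Group G] {d : Dg G} {Y : Forest d} {s : Flow Y} {r : Y.E → Y.E → Prop}

/-- the pieces -/
def Pc (_ : s.PieceRel r) : Type := Quot r

/-- the piece of an edge -/
def pc (hr : s.PieceRel r) (c : Y.E) : Pc hr := Quot.mk r c

variable {hr : s.PieceRel r}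

lemma pc_eq {c c' : Y.E} : pc hr c = pc hr c' ↔ r c c' := Quot.eq.trans hr.eqv.eqvGen_iff

lemma pc_surj (S : Pc hr) : ∃ c, pc hr c = S := Quot.exists_rep S

instance : MulAction G (Pc hr) where
  smul g := Quot.map (g • ·) (hr.inv g)
  one_smul S := by
    obtain ⟨c, rfl⟩ := pc_surj S
    exact congrArg (pc hr) (one_smul G c)
  mul_smul a b S := by
    obtain ⟨c, rfl⟩ := pc_surj S
    exact congrArg (pc hr) (mul_smul a b c)

lemma smul_pc (g : G) (c : Y.E) : g • pc hr c = pc hr (g • c) := rfl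

lemma pc_desc {e e' : Y.Dir} (h : s.Desc 1 e e') : pc hr e'.1 = pc hr e.1 :=
  (pc_eq.2 (hr.desc e e' h)).symm

/-- Every piece has edges of every type on every level. -/
lemma pc_type (hT : s.TT) (S : Pc hr) (i : Y.I) (n : ℤ) :
    ∃ e : Y.Dir, pc hr e.1 = S ∧ e.1.i = i ∧ Y.lev e.src = n := by
  obtain ⟨c, rfl⟩ := pc_surj S
  have up : ∀ e : Y.Dir, ∃ e' : Y.Dir, pc hr e'.1 = pc hr e.1 ∧ e'.1.i = i ∧
      Y.lev e'.src = Y.lev e.src + 1 := fun e => by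
    obtain ⟨e', -, -, h1, -, h2, -⟩ := hT.prim e i
    exact ⟨e', pc_desc h2.1, h1, by simpa using h2.1.lh_lev⟩
  have key : ∀ k : ℤ, ∃ e : Y.Dir, pc hr e.1 = pc hr c ∧
      Y.lev e.src = Y.lev (c.ed false) + k := fun k => by
    induction k using Int.induction_on with
    | zero => exact ⟨(c, false), rfl, (add_zero _).symm⟩
    | succ k ih =>
      obtain ⟨e, h1, h2⟩ := ih
      obtain ⟨e', h3, -, h4⟩ := up e
      exact ⟨e', h3.trans h1, by omega⟩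
    | pred k ih =>
      obtain ⟨e, h1, h2⟩ := ih
      obtain ⟨e', -, h3⟩ := hT.sa_anc e i
      have := h3.1.lh_lev
      exact ⟨e', (pc_desc h3.1).symm.trans h1, by push_cast at this; omega⟩
  obtain ⟨e, h1, h2⟩ := key (n - 1 - Y.lev (c.ed false))
  obtain ⟨e', h3, h4, h5⟩ := up e
  exact ⟨e', h3.trans h1, h4, by omega⟩

/-- Elements of every degree move any piece to any piece. -/
lemma pc_trans (hT : s.TT) (S S' : Pc hr) (n : ℤ) : ∃ g : G, dg d g = n ∧ g • S = S' := by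
  obtain ⟨c, rfl⟩ := pc_surj S
  obtain ⟨e, h1, h2, h3⟩ := pc_type hT S' c.i (dg d c.g + n)
  rw [lev_src] at h3
  exact ⟨e.1.g * c.g⁻¹, by simp [h3], by rw [smul_pc, ← eq_smul_of_i h2.symm, h1]⟩

/-- the vertex `y` lies on the piece `S` -/
def OnP (y : Y.V) (S : Pc hr) : Prop := ∃ e : Y.Dir, pc hr e.1 = S ∧ e.src = y

variable {x y z : Y.V} {S S' : Pc hr}

lemma on_src (e : Y.Dir) : OnP e.src (pc hr e.1) := ⟨e, rfl, rfl⟩

lemma on_tgt (e : Y.Dir) : OnP e.tgt (pc hr e.1) := ⟨e.rv, rfl, rfl⟩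

lemma OnP.smul (h : OnP y S) (g : G) : OnP (g • y) (g • S) := by
  obtain ⟨e, rfl, rfl⟩ := h
  exact ⟨e.tr g, rfl, src_tr _ _⟩

lemma OnP.sep (hx : OnP x S) (hy : OnP y S) {k : Y.E} (h : k ∈ sep x y) : pc hr k = S := by
  obtain ⟨e, rfl, rfl⟩ := hx
  obtain ⟨e', h1, rfl⟩ := hy
  exact (pc_eq.2 (hr.conv _ _ _ _ k (pc_eq.1 h1.symm) h)).symm

lemma OnP.btw (hx : OnP x S) (hy : OnP y S) (h : Y.btw x z y) : OnP z S := by
  by_cases e : x = z
  · exact e ▸ hx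
  · obtain ⟨e', h1, h2⟩ := exists_last h.lev1 e
    exact h1 ▸ hx.sep hy (h.subset h2.mem) ▸ on_tgt e'

lemma OnP.σ (hT : s.TT) (h : OnP y S) : OnP (s.σ y) S := by
  obtain ⟨e, rfl, rfl⟩ := h
  obtain ⟨e', h1, h2⟩ := exists_step (s.lev_σ_eq (lev_src_tgt e))
    (T2.exp_ne hT (T2.lp_adj (adj_dir e)) (src_ne_tgt e) 1)
  exact ⟨e', pc_desc h2, h1⟩

lemma OnP.iter (hT : s.TT) (h : OnP y S) (n : ℕ) : OnP (s.σ^[n] y) S := by
  induction n with
  | zero => exact h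
  | succ n ih => rw [Function.iterate_succ_apply']; exact ih.σ hT

lemma exists_on (hT : s.TT) (S : Pc hr) (n : ℤ) : ∃ y, OnP y S ∧ Y.lev y = n :=
  let ⟨e, h1, _, h2⟩ := pc_type hT S hT.ne.some n; ⟨e.src, ⟨e, h1, rfl⟩, h2⟩

/-- the gate of a vertex in a piece -/
lemma exists_gate (hT : s.TT) (S : Pc hr) (y : Y.V) : ∃ m, OnP m S ∧ Y.lev m = Y.lev y ∧
    ∀ z, OnP z S → Y.lev z = Y.lev y → Y.btw y m z := by
  classical
  have h0 : ∃ n, ∃ m, OnP m S ∧ Y.lev m = Y.lev y ∧ Y.dist y m = n :=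
    let ⟨m, h1, h2⟩ := exists_on hT S (Y.lev y); ⟨_, m, h1, h2, rfl⟩
  obtain ⟨m, h1, h2, h3⟩ := Nat.find_spec h0
  refine ⟨m, h1, h2, fun z h4 h5 => ?_⟩
  obtain ⟨μ, h6⟩ := exists_med h2.symm h5.symm
  have h7 := Nat.find_min' h0 ⟨μ, h1.btw h4 h6.2.1, h6.1.lev1.symm, rfl⟩
  exact h6.1.eq_right (h3 ▸ h7) ▸ h6.2.2

/-- The fixed vertex of a nontrivial element that preserves a piece lies on the piece. -/
lemma inc (hT : s.TT) {u : G} (hu : u ≠ 1) (h1 : u • S = S) (h2 : u • y = y) : OnP y S := by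
  obtain ⟨z, h3, h4⟩ := exists_on hT S (Y.lev y)
  exact h3.btw (h1 ▸ h3.smul u) (btw_of_fix hu h2 h4)

lemma not_fix {e : Y.Dir} {w : G} (hw : w ≠ 1) (h : (e.tr w).H ⊆ e.H) (l : Y.lev y = Y.lev e.src) :
    w • y ≠ y := fun e' => by
  have l0 : Y.lev (e.tr w).src = Y.lev e.src := by
    rw [src_tr, lev_smul', deg_eq_zero_of_fix e', add_zero]
  rcases mem_H_or l with h1 | h1
  · refine not_mem_H_both (e' ▸ (smul_mem_H w).2 h1) ((btw_of_fix hw e' l.symm).mem_H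
      (mem_rv_H_of_not l0.symm fun t => src_not_mem_H e (h t)) ?_)
    exact src_tr w e ▸ src_mem_rv_H _
  · exact not_mem_H_both ((btw_of_fix hw e' ((lev_src_tgt e).symm.trans l.symm)).mem_H
      (tgt_mem_H e) (h (tgt_tr w e ▸ tgt_mem_H _))) h1

lemma not_ell (hd : FC d) (s : Flow Y) {e : Y.Dir} {u : G} (hu : u ≠ 1) (h : (e.tr u).H ⊆ e.H)
    {n : ℕ} (hn : 0 < n) : u ^ n ∉ Y.Ell := by
  rw [← ellAt_eq s.hom_all (Y.lev e.src)]
  rintro ⟨y, h1, h2⟩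
  have key : ∀ k : ℕ, (e.tr (u ^ k)).H ⊆ e.H := fun k => by
    induction k with
    | zero => simp
    | succ k ih =>
      intro x hx
      rw [pow_succ', ← tr_tr, mem_tr_H] at hx
      exact h ((mem_tr_H u).2 (ih hx))
  exact not_fix (fun e => hu (hd.torsionFree hn e)) (key n) h1 h2

/-- Every piece is preserved by a hyperbolic element of the fibre. -/
lemma hyp (hd : FC d) (hT : s.TT) (S : Pc hr) :
    ∃ u ∈ d.ker, u • S = S ∧ ∀ n : ℕ, 0 < n → u ^ n ∉ Y.Ell := by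
  obtain ⟨c, rfl⟩ := pc_surj S
  let e : Y.Dir := (c, false)
  have h1 := T2.exp_lt hT (T2.lp_adj (adj_dir e)) (src_ne_tgt e) (Fintype.card (Y.I × Bool))
  have h2 : OnP _ (pc hr c) := (on_src e).iter hT (Fintype.card (Y.I × Bool))
  have h3 : OnP _ (pc hr c) := (on_tgt e).iter hT (Fintype.card (Y.I × Bool))
  generalize s.σ^[Fintype.card (Y.I × Bool)] e.src = a at h1 h2 h3
  generalize s.σ^[Fintype.card (Y.I × Bool)] e.tgt = b at h1 h2 h3
  obtain ⟨k, k1, k', k2, k3, k4⟩ := Finset.exists_ne_map_eq_of_card_lt_of_maps_to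
    (t := (Finset.univ : Finset (Y.I × Bool))) (f := fun k : Y.E => (k.i, k.sd a)) h1
    fun _ _ => Finset.mem_univ _
  have key : ∀ k ∈ sep a b, ∀ k' ∈ sep a b, k ≠ k' → (k.i, k.sd a) = (k'.i, k'.sd a) →
      Dir.H (k', k'.sd a) ⊆ Dir.H (k, k.sd a) →
      ∃ u ∈ d.ker, u • pc hr c = pc hr c ∧ ∀ n : ℕ, 0 < n → u ^ n ∉ Y.Ell :=
    fun k k1 k' k2 k3 k4 k5 => by
      obtain ⟨k6, k7⟩ := Prod.ext_iff.1 k4
      have e1 := eq_smul_of_i k6
      have e2 := (lev_ed_of_mem k1 false).trans (lev_ed_of_mem k2 false).symm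
      rw [lev_ed, lev_ed] at e2
      refine ⟨k'.g * k.g⁻¹, mem_ker_iff.2 (by rw [dg_mul, dg_inv]; simp only [dg]; omega), ?_, fun n => not_ell hd s
        (e := (k, k.sd a)) (fun t => k3 (by rw [e1, t, one_smul])) ?_⟩
      · rw [← h2.sep h3 k1, smul_pc, ← e1, h2.sep h3 k1, h2.sep h3 k2]
      · rw [Dir.tr, ← e1]
        exact (show k.sd a = k'.sd a from k7) ▸ k5
  rcases (cross_of_mem k1).nested (cross_of_mem k2) with h | h
  exacts [key k' k2 k k1 k3.symm k4.symm h, key k k1 k' k2 k3 k4 h]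

/-- the first dart from `y` to `z` lies in `S` -/
def SV (y : Y.V) (S : Pc hr) (z : Y.V) : Prop := ∃ e : Y.Dir, e.src = y ∧ pc hr e.1 = S ∧ z ∈ e.H

/-- the piece `S'` lies on the side of `S`, seen from `y` -/
def SP (y : Y.V) (S S' : Pc hr) : Prop := ∃ z, OnP z S' ∧ SV y S z

lemma sv_self : ¬ SV y S y := fun ⟨e, h1, _, h2⟩ => src_not_mem_H e (h1 ▸ h2)

lemma sp_self (h : OnP y S) : SP y S S := by
  obtain ⟨e, rfl, rfl⟩ := h
  exact ⟨e.tgt, on_tgt e, e, rfl, rfl, tgt_mem_H e⟩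

lemma SV.smul (h : SV y S z) (g : G) : SV (g • y) (g • S) (g • z) := by
  obtain ⟨e, rfl, rfl, h⟩ := h
  exact ⟨e.tr g, src_tr _ _, rfl, (smul_mem_H g).2 h⟩

lemma SP.smul (h : SP y S S') (g : G) : SP (g • y) (g • S) (g • S') :=
  let ⟨_, h1, h2⟩ := h; ⟨_, h1.smul g, h2.smul g⟩

lemma side_iff (hy : OnP y S) (hz : OnP z S') (l : Y.lev z = Y.lev y) (hne : ¬ (z = y ∧ S' = S)) :
    SV y S z ↔ SP y S S' := by
  refine ⟨fun h => ⟨z, hz, h⟩, ?_⟩
  rintro ⟨z', h1, e, rfl, rfl, h2⟩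
  rcases mem_H_or l with h3 | h3
  · exact ⟨e, rfl, rfl, h3⟩
  · have h4 := hz.sep h1 (Cross.mem ⟨h3, h2⟩)
    obtain ⟨e', h5, h6⟩ := exists_step l.symm fun t => hne ⟨t.symm, h4.symm⟩
    exact ⟨e', h5, hy.sep (h4 ▸ hz) h6.mem, h6.2⟩

/-- two pieces with nontrivial stabilisers at a common vertex -/
def Near (S S' : Pc hr) : Prop :=
  ∃ (y : Y.V) (u u' : G), u ≠ 1 ∧ u' ≠ 1 ∧ u • y = y ∧ u' • y = y ∧ u • S = S ∧ u' • S' = S'

lemma Near.zero (h : Near S S') : ∃ (y : Y.V) (u u' : G), Y.lev y = 0 ∧ u ≠ 1 ∧ u' ≠ 1 ∧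
    u • y = y ∧ u' • y = y ∧ u • S = S ∧ u' • S' = S' := by
  obtain ⟨y, u, u', h1, h2, h3, h4, h5⟩ := h
  obtain ⟨f⟩ := s.hom_all (-Y.lev y)
  exact ⟨f y, u, u', by rw [f.lev_map, add_neg_cancel], h1, h2, by rw [← f.map_smul, h3],
    by rw [← f.map_smul, h4], h5⟩

lemma conj_fix {X : Type} [MulAction G X] {u : G} {a : X} (h : u • a = a) (g : G) :
    (g * u * g⁻¹) • g • a = g • a := by
  rw [mul_smul, inv_smul_smul, mul_smul, h]

lemma Near.smul (h : Near S S') (g : G) : Near (g • S) (g • S') :=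
  let ⟨y, u, u', h1, h2, h3, h4, h5, h6⟩ := h
  ⟨g • y, g * u * g⁻¹, g * u' * g⁻¹, by simpa using h1, by simpa using h2, conj_fix h3 g,
    conj_fix h4 g, conj_fix h5 g, conj_fix h6 g⟩

end Pool.Agent.Lib.FBC.T7
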