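import Pool.Agent.Lib.FBC.T7.One0
import Pool.Agent.Lib.FBC.X1.FGV
import Pool.Agent.Lib.FBC.X2.SUN

/-!
The tree of pieces and vertex groups; spirality forbids two different neighbouring pieces.
-/

namespace Pool.Agent.Lib.FBC.T7

open Forest Flow MulAction

variable {G : Type} [Group G] {d : Dg G} {Y : Forest d} {s : Flow Y} {r : Y.E → Y.E → Prop}
  {hr : s.PieceRel r} {y : Y.V} {S S' : Pc hr} {u : G}

/-- a nontrivial element fixes `y` and preserves `S` -/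
def Ns (y : Y.V) (S : Pc hr) : Prop := ∃ u : G, u ≠ 1 ∧ u • y = y ∧ u • S = S

/-- translate, then return to the original level -/
noncomputable def dn (s : Flow Y) (g : G) (y : Y.V) : Y.V := (s.hom_all (-dg d g)).some (g • y)

lemma dn_lev (g : G) (y : Y.V) : Y.lev (dn s g y) = Y.lev y := by
  rw [dn, Hom.lev_map, lev_smul_dg]; ring

lemma dn_fix (h : u • y = y) (g : G) : (g * u * g⁻¹) • dn s g y = dn s g y := by
  rw [dn, ← Hom.map_smul, conj_fix h]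

lemma Ns.dn (h : Ns y S) (g : G) : Ns (dn s g y) (g • S) :=
  let ⟨u, h1, h2, h3⟩ := h
  ⟨g * u * g⁻¹, by simpa using h1, dn_fix h2 g, conj_fix h3 g⟩

lemma dn_ker (h : Ns y S) {g : G} (hg : dg d g = 0) : dn s g y = g • y :=
  let ⟨u, h1, h2, _⟩ := h
  fix_unique (g := g * u * g⁻¹) (by simpa using h1) (dn_fix h2 g) (conj_fix h2 g)
    (by rw [dn_lev, lev_smul_dg, hg, zero_add])

/-- vertices of level zero with a nontrivial element that preserves a piece -/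
def Wv (hr : s.PieceRel r) : Type := {y : Y.V // Y.lev y = 0 ∧ ∃ S : Pc hr, Ns y S}

noncomputable instance : MulAction G (Wv hr) where
  smul g y := ⟨dn s g y.1, (dn_lev g _).trans y.2.1, let ⟨S, h⟩ := y.2.2; ⟨g • S, h.dn g⟩⟩
  one_smul y := Subtype.ext (let ⟨_, h⟩ := y.2.2; (dn_ker h dg_one).trans (one_smul _ _))
  mul_smul a b y := Subtype.ext (by
    obtain ⟨-, u, h1, h2, -⟩ := y.2.2
    show dn s (a * b) y.1 = dn s a (dn s b y.1)
    refine fix_unique (g := a * b * u * (a * b)⁻¹) (mt conj_eq_one_iff.1 h1) (dn_fix h2 _) ?_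
      (by rw [dn_lev, dn_lev, dn_lev])
    have := dn_fix (s := s) (dn_fix (s := s) h2 b) a
    rwa [show a * (b * u * b⁻¹) * a⁻¹ = a * b * u * (a * b)⁻¹ by group] at this)

lemma wv_ker (w : Wv hr) {g : G} (hg : g ∈ d.ker) : (g • w).1 = g • w.1 :=
  let ⟨_, h⟩ := w.2.2; dn_ker h (mem_ker_iff.1 hg)

lemma Ns.wv {w : Wv hr} (h : Ns w.1 S) (g : G) : Ns (g • w).1 (g • S) := h.dn g

/-- the graph of pieces and vertex groups -/
def ZG (hr : s.PieceRel r) : SimpleGraph (Pc hr ⊕ Wv hr) where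
  Adj a b := ∃ (S : Pc hr) (w : Wv hr), Ns w.1 S ∧ (a = .inl S ∧ b = .inr w ∨ b = .inl S ∧ a = .inr w)
  symm := ⟨fun _ _ ⟨S, w, h1, h2⟩ => ⟨S, w, h1, h2.symm⟩⟩
  loopless := ⟨by rintro _ ⟨S, w, -, ⟨rfl, h⟩ | ⟨rfl, h⟩⟩ <;> exact Sum.inl_ne_inr h⟩

lemma zg_adj {w : Wv hr} (h : Ns w.1 S) : (ZG hr).Adj (.inl S) (.inr w) :=
  ⟨S, w, h, Or.inl ⟨rfl, rfl⟩⟩

lemma Ns.on (hT : s.TT) (h : Ns y S) : OnP y S := let ⟨_, h1, h2, h3⟩ := h; inc hT h1 h3 h2

lemma zg_bridge (hT : s.TT) {w : Wv hr} (h : Ns w.1 S) :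
    (ZG hr).IsBridge s(.inl S, .inr w) := by
  rw [SimpleGraph.isBridge_iff, SimpleGraph.reachable_iff_reflTransGen]
  intro h0
  let f : Pc hr ⊕ Wv hr → Prop := Sum.elim (SP w.1 S) fun z => SV w.1 S z.1
  have : ∀ x, Relation.ReflTransGen ((ZG hr).deleteEdges {s(.inl S, .inr w)}).Adj (.inl S) x →
      f x := fun x hx => by
    induction hx with
    | refl => exact sp_self (h.on hT)
    | @tail a b _ hab ih =>
      rw [SimpleGraph.deleteEdges_adj] at hab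
      obtain ⟨⟨S', z, h1, h2⟩, h3⟩ := hab
      have h4 := side_iff (h.on hT) (h1.on hT) (z.2.1.trans w.2.1.symm) fun e => h3 (by
        obtain rfl : z = w := Subtype.ext e.1
        obtain rfl := e.2
        rcases h2 with ⟨rfl, rfl⟩ | ⟨rfl, rfl⟩
        exacts [rfl, Sym2.eq_swap])
      rcases h2 with ⟨rfl, rfl⟩ | ⟨rfl, rfl⟩
      exacts [h4.2 ih, h4.1 ih]
  exact sv_self (this _ h0)

/-- the tree of pieces and vertex groups -/
noncomputable def ZT (hT : s.TT) (hc : ∀ S S' : Pc hr, (ZG hr).Reachable (.inl S) (.inl S')) :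
    GTree G where
  V := Pc hr ⊕ Wv hr
  Y := ZG hr
  tree := by
    let o : Pc hr := pc hr ⟨1, hT.ne.some⟩
    have : Nonempty (Pc hr ⊕ Wv hr) := ⟨.inl o⟩
    have k : ∀ a, (ZG hr).Reachable (.inl o) a := by
      rintro (S | w)
      · exact hc _ _
      · obtain ⟨S, h⟩ := w.2.2
        exact (hc _ S).trans (zg_adj h).reachable
    refine ⟨⟨fun a b => (k a).symm.trans (k b)⟩, SimpleGraph.isAcyclic_iff_forall_adj_isBridge.2 ?_⟩
    rintro _ _ ⟨S, w, h, ⟨rfl, rfl⟩ | ⟨rfl, rfl⟩⟩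
    · exact zg_bridge hT h
    · exact Sym2.eq_swap ▸ zg_bridge hT h
  adj_smul := by
    rintro g _ _ ⟨S, w, h, ⟨rfl, rfl⟩ | ⟨rfl, rfl⟩⟩
    exacts [zg_adj (h.wv g), (zg_adj (h.wv g)).symm]

/-- An element of positive degree preserves the piece and the vertex group. -/
lemma exists_per (hT : s.TT) {w : Wv hr} (h : Ns w.1 S) :
    ∃ t : G, 0 < dg d t ∧ t • S = S ∧ t • w = w := by
  obtain ⟨t, h1, h2⟩ := pc_trans hT S S 1
  have h3 : ∀ k : ℕ, t ^ k • S = S := fun k => pow_mem (show t ∈ stabilizer G S from h2) k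
  have h4 : ∀ k : ℕ, OnP (t ^ k • w).1 S := fun k => (h3 k ▸ h.wv (t ^ k)).on hT
  choose e h5 h6 using h4
  have key : ∀ j k : ℕ, j < k → ((e j).1.i, (e j).2) = ((e k).1.i, (e k).2) →
      ∃ t : G, 0 < dg d t ∧ t • S = S ∧ t • w = w := fun j k hjk h7 => by
    obtain ⟨h8, h9⟩ := Prod.ext_iff.1 h7
    have e1 := eq_smul_of_i h8
    have e2 : ∀ k, dg d (e k).1.g = 0 := fun k => by rw [← lev_src, h6]; exact (t ^ k • w).2.1
    generalize hu : (e k).1.g * (e j).1.g⁻¹ = u at e1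
    have e3 : dg d u = 0 := by rw [← hu, dg_mul, dg_inv, e2, e2]; rfl
    have e4 : u • S = S := by rw [← h5 j, smul_pc, ← e1, h5, h5]
    have e5 : u • t ^ j • w = t ^ k • w := Subtype.ext (by
      rw [wv_ker _ (mem_ker_iff.2 e3), ← h6, ← h6, Dir.src, Dir.src, ← ed_smul, ← e1]
      exact congrArg _ h9)
    refine ⟨(u * t ^ j)⁻¹ * t ^ k, by simp [e3, h1, hjk], ?_, ?_⟩
    · rw [mul_smul, h3, inv_smul_eq_iff, mul_smul, h3, e4]
    · rw [mul_smul, inv_smul_eq_iff, mul_smul, e5]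
  obtain ⟨j, k, h7, h8⟩ := Finite.exists_ne_map_eq_of_infinite fun k => ((e k).1.i, (e k).2)
  rcases lt_or_gt_of_ne h7 with h9 | h9
  exacts [key j k h9 h8, key k j h9 h8.symm]

/-- the conclusion of the virtual homology theorem for the stabiliser of a piece -/
def SubV (S : Pc hr) : Prop := ∀ t : G, t • S = S → 0 < dg d t →
  ∃ (L : Subgroup G) (η : Dg L) (a : G) (N : ℕ) (x y : L), L ≤ stabilizer G S ∧
    L.relIndex (stabilizer G S) ≠ 0 ∧ a ∈ d.ker ∧ a ∈ stabilizer G S ∧ 0 < N ∧ (x : G) = t ^ N ∧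
    (y : G) = a * t ^ N * a⁻¹ ∧ η x ≠ η y ∧ ∀ z : L, (z : G) ∈ Y.Ell → η z = 1

theorem ns_eq (hd : FC d) (hT : s.TT)
    (hc : ∀ S S' : Pc hr, (ZG hr).Reachable (.inl S) (.inl S')) (hV : SubV S) (l : Y.lev y = 0)
    (h : Ns y S) (h' : Ns y S') : S = S' := by
  by_contra hne
  obtain ⟨g, -, rfl⟩ := pc_trans hT S S' 0
  let w : Wv hr := ⟨y, l, S, h⟩
  have a1 : Ns (g⁻¹ • w).1 S := inv_smul_smul g S ▸ Ns.wv (w := w) h' g⁻¹
  obtain ⟨t, t1, t2, t3⟩ := exists_per hT (w := w) h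
  obtain ⟨t', t4, t5, t6⟩ := exists_per hT a1
  obtain ⟨L, η, a, N, x, x', b1, b2, -, b4, b5, b6, b7, b8, b9⟩ := hV t t2 t1
  have st : stabilizer G (Sum.inl S : Pc hr ⊕ Wv hr) = stabilizer G S :=
    Subgroup.ext fun g => ⟨Sum.inl.inj, congrArg Sum.inl⟩
  have fx : ∀ (z : Wv hr), ∀ k ∈ d.ker, k • (Sum.inr z : Pc hr ⊕ Wv hr) = .inr z ↔ k • z.1 = z.1 :=
    fun z k hk => by
      rw [← wv_ker z hk]
      exact ⟨fun e => congrArg Subtype.val (Sum.inr.inj e), fun e => congrArg Sum.inr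
        (Subtype.ext e)⟩
  have key : ∀ (z : Wv hr) (k : G) (p q : L), Ns z.1 S → k • g⁻¹ • w = z → k • S ≠ S →
      0 < dg d p → dg d p = dg d q → (p : G) • z = z → (q : G) • g⁻¹ • w = g⁻¹ • w →
      η p = η q := fun z k p q c1 c2 c3 c4 c5 c6 c7 => by
    by_contra c8
    refine X2.sun hd.lerf (ZT hT hc) (v := .inl S) (w := .inr z) (w' := .inr (g⁻¹ • w)) (g := k)
      η p q (zg_adj c1) (zg_adj a1) (congrArg Sum.inr c2) (fun e => c3 (Sum.inl.inj e)) ?_ ?_ ?_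
      (st ▸ b1) (st ▸ b2) c4 c5 (congrArg Sum.inr c6) (congrArg Sum.inr c7) c8 ?_
    · obtain ⟨c, rfl⟩ := pc_surj S
      obtain ⟨H, f1, f2⟩ := hr.fg c
      refine (Subgroup.ext fun u => (f2 u).trans (and_congr_right fun _ => ?_) :
        H = d.ker ⊓ stabilizer G (Sum.inl (pc hr c) : Pc hr ⊕ Wv hr)) ▸ f1
      rw [st]
      exact pc_eq.symm.trans eq_comm
    · refine (Subgroup.ext fun u => ⟨fun e => ?_, fun e => (fx z u e.1).1 e.2⟩ :
        stabilizer G z.1 = d.ker ⊓ stabilizer G (Sum.inr z : Pc hr ⊕ Wv hr)) ▸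
        stFGV G d hd.fg Y z.1
      have := mem_ker_iff.2 (deg_eq_zero_of_fix e)
      exact ⟨this, (fx z u this).2 e⟩
    · obtain ⟨u, f1, f2, f3⟩ := hyp hd hT S
      exact ⟨u, f1, congrArg Sum.inl f2, fun n hn e => f3 n hn ⟨_, (fx _ _ (pow_mem f1 n)).1 e⟩⟩
    · rintro z' f1 (e | e) <;> exact b9 z' ⟨_, (fx _ _ f1).1 e⟩
  obtain ⟨M, m1, -, m2⟩ := Subgroup.exists_pow_mem_of_index_ne_zero b2 ⟨t', t5⟩
  obtain ⟨p, hp⟩ := Int.eq_ofNat_of_zero_le t1.le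
  obtain ⟨p', hp'⟩ := Int.eq_ofNat_of_zero_le t4.le
  let q : L := ⟨t' ^ M, m2⟩
  have n1 : 0 < M * p' := Nat.mul_pos m1 (by omega)
  have pw : ∀ (k : G) (z : Wv hr) (n : ℕ), k • z = z → k ^ n • z = z := fun k z n e =>
    pow_mem (show k ∈ stabilizer G z from e) n
  have d1 : dg d (x ^ (M * p') : L) = N * p * (M * p') := by
    rw [Subgroup.coe_pow, b6, dg_pow, dg_pow, hp]; push_cast; ring
  have d2 : dg d (x' ^ (M * p') : L) = N * p * (M * p') := by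
    rw [Subgroup.coe_pow, b7, dg_pow, dg_mul, dg_mul, dg_inv, dg_pow, hp]; push_cast; ring
  have d3 : dg d (q ^ (N * p) : L) = N * p * (M * p') := by
    rw [Subgroup.coe_pow, dg_pow, dg_pow, hp']; push_cast; ring
  have d0 : (0 : ℤ) < N * p * (M * p') := by
    have : 0 < p := by omega
    have : 0 < p' := by omega
    positivity
  have q1 := pw _ _ (N * p) (pw _ _ M t6)
  have r1 := key w g (x ^ (M * p')) (q ^ (N * p)) h (smul_inv_smul _ _) (Ne.symm hne) (d1 ▸ d0)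
    (d1.trans d3.symm) (pw _ _ _ (b6 ▸ pw _ _ _ t3)) q1
  have b4' : a • S = S := b4
  have r2 := key (a • w) (a * g) (x' ^ (M * p')) (q ^ (N * p)) (b4' ▸ Ns.wv (w := w) h a)
    (by rw [mul_smul, smul_inv_smul]) (fun e => hne (by
      rw [mul_smul, ← eq_inv_smul_iff] at e
      rw [e, eq_inv_smul_iff, b4'])) (d2 ▸ d0) (d2.trans d3.symm)
    (pw _ _ _ (b7 ▸ conj_fix (pw _ _ _ t3) a)) q1
  have r3 := r1.trans r2.symm
  rw [map_pow, map_pow] at r3
  exact b8 (pow_left_injective n1.ne' r3)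

end Pool.Agent.Lib.FBC.T7
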