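import Pool.Agent.Lib.FBC.T7.One3
import Pool.Agent.Lib.FBC.X2.D

/-!
A piece is a train track forest for its stabiliser.
-/

namespace Pool.Agent.Lib.FBC.T7.Sb

open Forest Flow MulAction

variable {G : Type} [Group G] {d : Dg G} {Y : Forest d} {s : Flow Y} {r : Y.E → Y.E → Prop}
  {hr : s.PieceRel r} (hT : s.TT) (S : Pc hr)

/-- base edges in the piece -/
noncomputable def ce (i : Y.I) : Y.E := (pc_type hT S i 0).choose.1

lemma ce_pc (i : Y.I) : pc hr (ce hT S i) = S := (pc_type hT S i 0).choose_spec.1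
lemma ce_i (i : Y.I) : (ce hT S i).i = i := (pc_type hT S i 0).choose_spec.2.1
lemma ce_lev (i : Y.I) (b : Bool) : Y.lev ((ce hT S i).ed b) = 0 :=
  (lev_ed_eq _ _ _).trans (pc_type hT S i 0).choose_spec.2.2

lemma ce_surj {k : Y.E} (h : pc hr k = S) : ∃ g : stabilizer G S, (g : G) • ce hT S k.i = k := by
  have e := eq_smul_of_i (ce_i hT S k.i)
  exact ⟨⟨_, (congrArg _ (ce_pc hT S k.i)).symm.trans ((congrArg (pc hr) e).symm.trans h)⟩, e.symm⟩

instance : MulAction (stabilizer G S) {y : Y.V // OnP y S} where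
  smul g y := ⟨g.1 • y.1, (congrArg _ g.2).mp (y.2.smul g.1)⟩
  one_smul y := Subtype.ext (one_smul G y.1)
  mul_smul a b y := Subtype.ext (mul_smul a.1 b.1 y.1)

/-- the forest of a piece -/
noncomputable def SF : Forest (X2.res d (stabilizer G S)) where
  V := {y : Y.V // OnP y S}
  I := Y.I
  en i b := ⟨(ce hT S i).ed b, (ce hT S i, b), ce_pc hT S i, rfl⟩
  lev y := Y.lev y.1
  lev_smul g y := Y.lev_smul g.1 y.1
  lev_en := ce_lev hT S
  side i y := (ce hT S i).sd y.1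
  side_en i b := sd_ed _ _
  cross i j g h := by
    have : ce hT S i ≠ g.1 • ce hT S j := fun e => h (by
      obtain rfl : i = j := by simpa [ce_i] using congrArg E.i e
      exact Prod.ext (Subtype.ext (smul_eq_self e.symm)) rfl)
    have := sd_ed_ne this false true
    rwa [ed_smul, ed_smul] at this
  conn := by
    rintro ⟨u, hu⟩ ⟨v, hv⟩ h
    refine dir_ind (P := fun u => ∀ hu : OnP u S, Relation.ReflTransGen _ (⟨u, hu⟩ : {y // OnP y S})
      ⟨v, hv⟩) (fun _ => .refl) (fun e h1 ih h2 => ?_) h hu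
    have h3 := h2.sep hv h1.mem
    obtain ⟨g, h4⟩ := ce_surj hT S h3
    refine .head ⟨g, e.1.i, e.2, Subtype.ext ?_, Subtype.ext ?_⟩ (ih (h3 ▸ on_tgt e))
    exacts [(congrArg (E.ed · e.2) h4).symm.trans (ed_smul _ _ _),
      (congrArg (E.ed · (!e.2)) h4).symm.trans (ed_smul _ _ _)]

variable {hT S}

/-- the edges of the piece as edges of the forest -/
noncomputable def em (c : (SF hT S).E) : Y.E := c.g.1 • ce hT S c.i

lemma em_ed (c : (SF hT S).E) (b : Bool) : (c.ed b).1 = (em c).ed b := (ed_smul _ _ _).symm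
lemma em_sd (c : (SF hT S).E) (v : (SF hT S).V) : c.sd v = (em c).sd v.1 := (sd_smul' _ _ _).symm
lemma em_i (c : (SF hT S).E) : (em c).i = c.i := ce_i hT S c.i

lemma em_surj {k : Y.E} (h : pc hr k = S) : ∃ c : (SF hT S).E, em c = k :=
  let ⟨g, h⟩ := ce_surj hT S h; ⟨⟨g, k.i⟩, h⟩

lemma em_pc (c : (SF hT S).E) : pc hr (em c) = S := by
  rw [em, ← smul_pc, ce_pc]; exact c.g.2

lemma sf_btw {a x b : (SF hT S).V} : (SF hT S).btw a x b ↔ Y.btw a.1 x.1 b.1 := by
  refine and_congr_right fun h1 => and_congr_right fun _ => ⟨fun h k hk => by_contra fun e => ?_,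
    fun h c => by rw [em_sd, em_sd, em_sd]; exact h _⟩
  obtain ⟨c, rfl⟩ := em_surj (hT := hT) (a.2.sep x.2 ((mem_sep (T := Y) h1).2 (Ne.symm e)))
  have := h c
  rw [em_sd, em_sd, em_sd] at this
  exact e (this hk)

lemma sf_H {e : (SF hT S).Dir} {v : (SF hT S).V} : v ∈ e.H ↔ v.1 ∈ Dir.H (em e.1, e.2) := by
  rw [mem_H, mem_H, em_sd, Dir.src, Dir.src, ← em_ed]; rfl

/-- the gate -/
noncomputable def gt (y : Y.V) : (SF hT S).V :=
  ⟨(exists_gate hT S y).choose, (exists_gate hT S y).choose_spec.1⟩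

lemma gt_lev (y : Y.V) : Y.lev (gt (hT := hT) (S := S) y).1 = Y.lev y :=
  (exists_gate hT S y).choose_spec.2.1

lemma gt_btw (y : Y.V) (z : (SF hT S).V) (h : Y.lev z.1 = Y.lev y) :
    Y.btw y (gt (hT := hT) (S := S) y).1 z.1 := (exists_gate hT S y).choose_spec.2.2 z.1 z.2 h

lemma gt_smul (g : stabilizer G S) (y : Y.V) : (gt (g.1 • y) : (SF hT S).V) = g • gt y := by
  have l : Y.lev (g.1 • (gt y : (SF hT S).V).1) = Y.lev (g.1 • y) := by
    rw [lev_smul', lev_smul', gt_lev]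
  refine Subtype.ext ((gt_btw _ (g • gt y) l).antisymm ?_)
  have := (gt_btw y (g⁻¹ • (gt (g.1 • y) : (SF hT S).V)) (by
    show Y.lev (g.1⁻¹ • _) = _
    rw [lev_smul_dg, gt_lev, ← lev_smul_dg, inv_smul_smul])).smul g.1
  rwa [show g.1 • (g⁻¹ • (gt (g.1 • y) : (SF hT S).V)).1 = _ from smul_inv_smul g.1 _] at this

variable (hT S)

/-- the restricted flow -/
noncomputable def sf : Flow (SF hT S) where
  f := ⟨fun y => ⟨s.σ y.1, y.2.σ hT⟩, fun g y => Subtype.ext (s.f.map_smul g.1 y.1),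
    fun y => s.f.lev_map y.1⟩
  rev := let ⟨ρ⟩ := s.rev; ⟨⟨fun y => gt (ρ y.1), fun g y =>
    (congrArg gt (ρ.map_smul g.1 y.1)).trans (gt_smul g _), fun y =>
    (gt_lev _).trans (ρ.lev_map y.1)⟩⟩

lemma sf_iter (n : ℕ) (y : (SF hT S).V) : ((sf hT S).σ^[n] y).1 = s.σ^[n] y.1 := by
  induction n with
  | zero => rfl
  | succ n ih => rw [Function.iterate_succ_apply', Function.iterate_succ_apply', ← ih]; rfl

lemma sf_tt : (sf hT S).TT where
  ne := hT.ne
  legal e := by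
    have h := hT.legal (em e.1, e.2)
    rw [Dir.src, Dir.tgt, ← em_ed, ← em_ed] at h
    refine ⟨h.1, fun x y z h1 h2 h3 h4 n => sf_btw.2 ?_⟩
    rw [sf_iter, sf_iter, sf_iter]
    exact h.2 _ _ _ (sf_btw.1 h1) (sf_btw.1 h2) (sf_btw.1 h3) (sf_btw.1 h4) n
  prim e i := by
    have key : ∀ a : Y.Dir, s.IDesc 1 (em e.1, e.2) a → ∃ c : (SF hT S).E, em c = a.1 ∧
        (sf hT S).IDesc 1 e (c, a.2) := fun a h => by
      obtain ⟨c, hc⟩ := em_surj (hT := hT) ((pc_desc h.1).trans (em_pc e.1))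
      obtain ⟨a, b⟩ := a
      obtain rfl : em c = a := hc
      obtain ⟨⟨h1, h2⟩, h3, h4⟩ := h
      simp only [Dir.src, Dir.tgt, ← em_ed] at h1 h2 h3 h4
      exact ⟨c, rfl, ⟨sf_H.2 h1, sf_H.2 h2⟩, fun t => h3 (congrArg Subtype.val t),
        fun t => h4 (congrArg Subtype.val t)⟩
    obtain ⟨a, a', h1, h2, h3, h4, h5⟩ := hT.prim (em e.1, e.2) i
    obtain ⟨c, h6, h7⟩ := key a h4
    obtain ⟨c', h8, h9⟩ := key a' h5
    exact ⟨_, _, fun t => h1 (h6.symm.trans ((congrArg em t).trans h8)),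
      (em_i c).symm.trans (h6 ▸ h2), (em_i c').symm.trans (h8 ▸ h3), h7, h9⟩

include hT

lemma fc_stab (hd : FC d) : FC (X2.res d (stabilizer G S)) where
  surj n := let ⟨g, h1, h2⟩ := pc_trans hT S S n.toAdd; ⟨⟨g, h2⟩, h1⟩
  free := by
    have := hd.free
    exact IsFreeGroup.ofMulEquiv (MonoidHom.ofInjective (f := X2.kin d (stabilizer G S))
      fun x y e => Subtype.ext (Subtype.ext (congrArg (fun z : d.ker => z.1) e))).symm
  fg := by
    obtain ⟨c, rfl⟩ := pc_surj S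
    obtain ⟨H, f1, f2⟩ := hr.fg c
    have h : ∀ u, u ∈ stabilizer G (pc hr c) ↔ r c (u • c) := fun u => eq_comm.trans pc_eq
    convert X2.fg_subgroupOf (fun u hu => (h u).2 ((f2 u).1 hu).2) f1 using 1
    exact Subgroup.ext fun u => ⟨fun e => (f2 u).2 ⟨e, (h u).1 u.2⟩, fun e => ((f2 u).1 e).1⟩
  lerf := hd.lerf.of_injective (stabilizer G S).subtype Subtype.val_injective

theorem subV (hV : St_VHT) (hd : FC d) : SubV S := fun t ht h0 => by
  obtain ⟨L, hL, η, a, N, x, y, h1, h2, h3, h4, h5, h6⟩ :=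
    hV _ _ (fc_stab hT S hd) _ _ (sf_tt hT S) ⟨t, ht⟩ h0
  obtain ⟨η', h7⟩ := X2.exists_map (stabilizer G S).subtype Subtype.val_injective L η
  refine ⟨_, η', a, N, ⟨_, Subgroup.mem_map_of_mem _ x.2⟩, ⟨_, Subgroup.mem_map_of_mem _ y.2⟩,
    Subgroup.map_subtype_le L, ?_, h1, a.2, h2, congrArg Subtype.val h3, congrArg Subtype.val h4,
    by rwa [h7, h7], ?_⟩
  · rw [Subgroup.relIndex, Subgroup.subgroupOf,
      Subgroup.comap_map_eq_self_of_injective Subtype.val_injective]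
    exact hL.1
  · rintro ⟨_, z, hz, rfl⟩ ⟨v, hv⟩
    refine (h7 ⟨z, hz⟩).trans ?_
    by_cases e : (z : G) = 1
    · rw [show (⟨z, hz⟩ : L) = 1 from Subtype.ext (Subtype.ext e), map_one]
    · exact h6 _ ⟨⟨v, inc hT e z.2 hv⟩, Subtype.ext hv⟩

end Pool.Agent.Lib.FBC.T7.Sb
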