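import Pool.Agent.Lib.FBC.T7.Blue7

/-!
Three long geodesics from one place with small overlaps make a large tripod.
-/

namespace Pool.Agent.Lib.FBC.T7

open Forest

theorem stTRIP : St_TRIP := by
  intro G _ d Y z u m ρ L l D hl hz hu ho hm ⟨i, hi⟩
  have key : ∀ j, i ≠ j → Y.btw (z i) m (u j) → Y.btw (u i) m (u j) → l ≤ D + L + ρ := by
    intro j hj h1 h2
    obtain ⟨n, n1, n2, n3⟩ := exists_med (hl i i) (hl i j)
    obtain ⟨w, w1, w2, w3⟩ := exists_med ((hl i j).trans (hl j j).symm) (hl i j)
    have a1 := n1.dist_add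
    have a2 := n2.dist_add
    have a3 := n3.dist_add
    have a4 := h1.dist_add
    have a5 := h2.dist_add
    have a6 := dist_triangle h1.lev1 h2.lev1.symm
    have a7 := w1.dist_le
    have a8 := hz i j
    have a9 := hu i
    rw [dist_comm n (u i)] at a1
    rw [dist_comm m (u i)] at a6
    rcases le_total (Y.dist (z i) n) (Y.dist (z i) w) with e | e
    · omega
    · have b := w3.of_dist_le n3 e
      have c := ho i j hj w n (n1.trans_left b) n1 w2 (w2.trans_right (n3.trans_left' b))
      have := b.dist_add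
      omega
  have two : ∀ j k, i ≠ j → i ≠ k → Y.btw (u j) m (u k) → Y.btw (u i) m (u j) →
      Y.btw (u i) m (u k) → l ≤ D + L + ρ := fun j k hj hk h h1 h2 =>
    (h.cover (hl i j).symm).elim (fun t => key j hj t.symm h1) fun t => key k hk t h2
  obtain ⟨m1, m2, m3⟩ := hm
  have : l ≤ D + L + ρ := by
    fin_cases i
    · exact two 1 2 (by decide) (by decide) m2 m1 m3
    · exact two 0 2 (by decide) (by decide) m3 m1.symm m2
    · exact two 0 1 (by decide) (by decide) m1 m3.symm m2.symm
  omega

end Pool.Agent.Lib.FBC.T7
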