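import Pool.Agent.Lib.FBC.T7.Blue7
import Pool.Agent.Lib.FBC.T7.Flag

/-!
A wedge is determined by its first dart.
-/

namespace Pool.Agent.Lib.FBC.T7

open Forest T7B

namespace TS

variable {G : Type} [Group G] {d : Dg G} {Y : Forest d} {s : Flow Y}

lemma fib_anc (T : s.TT) {ι : ℕ → Y.Dir} {a x : Y.Dir} {n : ℕ} (h : s.Desc n a x)
    (hx : x ∈ s.Fib ι) : a ∈ s.Fib ι :=
  let ⟨m, _, e⟩ := hx; ⟨m, _, desc_trans T rfl h e⟩

/-- Three flags on different darts of one fibre do not have ancestors at bounded distance. -/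
lemma three (hO : St_OVL) (hT : St_TRIP) (hd : FC d) (hs : s.NF) (hf : s.Far2) {ι : ℕ → Y.Dir}
    {D ρ : ℕ} (hq : s.QL ι D) (η : Fin 3 → s.Flag) (h1 : ∀ i, (η i).x ∈ s.Fib ι)
    (h2 : ∀ i j, i ≠ j → (η i).x ≠ (η j).x) (h3 : ∀ i j, Y.lev (η i).x.src = Y.lev (η j).x.src)
    (h4 : ∀ n i j, Y.dist ((η i).anc n).x.src ((η j).anc n).x.src ≤ ρ) : False := by
  have T := hs.toTT
  choose θ a1 a2 using fun i => hf (η i)
  have ov : ∀ p : Fin 3 × Fin 3, ∃ L n₀ : ℕ, p.1 ≠ p.2 → ∀ n ≥ n₀, ∀ a₁ a₂ b₁ b₂ v w,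
      s.Desc n a₁ (η p.1).x → s.Desc n b₁ (η p.2).x → s.Cmp n (η p.1).x a₁ a₂ →
      s.Cmp n (η p.2).x b₁ b₂ → Y.btw a₁.src v a₂.src → Y.btw a₁.src w a₂.src →
      Y.btw b₁.src v b₂.src → Y.btw b₁.src w b₂.src → Y.dist v w ≤ L := fun p => by
    by_cases t : p.1 = p.2
    · exact ⟨0, 0, fun h => (h t).elim⟩
    · obtain ⟨L, n₀, h⟩ := hO G d hd Y s hs ι (fun t => (hq.int t).1) _ (h1 p.1) _ (h1 p.2)
        (h2 _ _ t) (h3 _ _)
      exact ⟨L, n₀, fun _ => h⟩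
  choose L n₀ ov using ov
  obtain ⟨M, hM⟩ := (Set.finite_range L).bddAbove
  choose n₁ b1 using fun i => a2 i (D + M + 4 * ρ + 4 + 1)
  obtain ⟨n₂, hn₂⟩ := (Set.finite_range n₀).bddAbove
  obtain ⟨n₃, hn₃⟩ := (Set.finite_range n₁).bddAbove
  have c1 : ∀ i, s.Desc (n₂ + n₃) ((θ i).anc (n₂ + n₃)).x (η i).x := fun i =>
    (a1 i).1 ▸ anc_desc _ _
  have l : ∀ i j, Y.lev ((η i).anc (n₂ + n₃)).x.src = Y.lev ((θ j).anc (n₂ + n₃)).x.src :=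
    fun i j => by
      have := (anc_desc (n₂ + n₃) (η i)).lh_lev
      have := (c1 j).lh_lev
      have := h3 i j
      omega
  obtain ⟨m, hm⟩ := exists_med ((l 0 0).symm.trans (l 0 1)) ((l 0 0).symm.trans (l 0 2))
  have f := fun i => fib_anc T (c1 i) (h1 i)
  have := hT G d Y (fun i => ((η i).anc (n₂ + n₃)).x.src) (fun i => ((θ i).anc (n₂ + n₃)).x.src)
    m ρ M _ D l (h4 _) (fun i => b1 i _ ((hn₃ ⟨i, rfl⟩).trans (Nat.le_add_left _ _)))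
    (fun i j t v w e1 e2 e3 e4 => (ov (i, j) t _ ((hn₂ ⟨_, rfl⟩).trans (Nat.le_add_right _ _))
      _ _ _ _ v w (anc_desc _ _) (anc_desc _ _) ((a1 i).2 _) ((a1 j).2 _) e1 e2 e3 e4).trans
        (hM ⟨_, rfl⟩)) hm (by
      rcases hq.tri _ (f 0) _ (f 1) _ (f 2) m hm with t | t | t
      exacts [⟨0, t⟩, ⟨1, t⟩, ⟨2, t⟩])
  omega

lemma first {ξ : s.Flag} {y : Y.V} (h : s.INP ξ.p y ξ.q) (e : ξ.x.src = ξ.p) :
    Y.Cross ξ.p y ξ.x := by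
  refine (arm h ξ.cr).resolve_right fun t => h.2.2.2.1 ?_
  have := h.1.antisymm' (e ▸ t.btw_src)
  exact this ▸ h.2.2.1

/-- the partner flag on the other arm -/
lemma partner (T : s.TT) {N : ℕ} (hN : ∀ p q, s.Wd p q → Y.dist p q ≤ N) {ι : ℕ → Y.Dir}
    (hι : ∀ t, s.IDesc 1 (ι t) (ι (t + 1))) {ξ : s.Flag} (h0 : ι 0 = ξ.x) (e : ξ.x.src = ξ.p) :
    ∃ ζ : s.Flag, ζ.p = ξ.q ∧ ζ.q = ξ.p ∧ ζ.x ∈ s.Fib ι ∧ (ζ.anc N).x.src = (ζ.anc N).p := by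
  obtain ⟨y, h⟩ := ξ.wd
  obtain ⟨x', a1, a2⟩ := part_aux T h (fun t => (hι t).1) (fun t => (hι t).2.1)
    (h0 ▸ first h e) (h.1.dist_le.trans (hN _ _ ξ.wd))
  exact ⟨⟨ξ.q, ξ.p, x', ξ.wd.symm, a1.extend_right h.1.symm⟩, rfl, rfl, ⟨N, N, a2⟩,
    anc_deep1 T hN le_rfl (T2.inp_symm h) a1⟩

end TS

theorem stTS (hO : St_OVL) (hT : St_TRIP) : St_TS := by
  intro G _ d hd Y s hs hq hf ξ ζ hx h1 h2
  have T := hs.toTT
  obtain ⟨N, hN⟩ := wd_bound hs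
  refine Flow.Flag.ext h2 (by_contra fun hne => ?_) hx.symm
  obtain ⟨ι, D, h0, hι⟩ := hq ξ.x
  obtain ⟨α, a1, a2, a3, a4⟩ := TS.partner T hN hι.int h0 h1
  obtain ⟨β, b1, b2, b3, b4⟩ := TS.partner T hN hι.int (h0.trans hx) (by rw [← hx, h1, h2])
  obtain ⟨y, hy⟩ := ξ.wd
  have c4 := anc_deep1 T hN le_rfl hy (TS.first hy h1)
  have key : ∀ (γ : s.Flag) n v, v = γ.p ∨ v = γ.q → Y.lev γ.x.src = Y.lev v ∧
      Y.dist γ.x.src v ≤ N + n := by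
    rintro γ n v (rfl | rfl)
    · exact ⟨γ.cr.lev_src.symm, by
        rw [Forest.dist_comm]
        exact γ.cr.btw_src.dist_le.trans ((hN _ _ γ.wd).trans (Nat.le_add_right _ _))⟩
    · exact ⟨γ.cr.btw_src.lev2,
        γ.cr.btw_src.dist_le'.trans ((hN _ _ γ.wd).trans (Nat.le_add_right _ _))⟩
  let η : Fin 3 → s.Flag := ![ξ, α, β]
  have e1 : ∀ i n, (ξ.anc n).p = ((η i).anc n).p ∨ (ξ.anc n).p = ((η i).anc n).q := fun i n => by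
    fin_cases i
    exacts [Or.inl rfl, Or.inr (anc_pq n a2.symm), Or.inr (anc_pq n (b2.trans h2).symm)]
  have e2 : ∀ i, s.σ^[N] ((η i).anc N).x.src = (η i).p := fun i => by
    fin_cases i
    exacts [c4 ▸ (anc_up N ξ).1, a4 ▸ (anc_up N α).1, b4 ▸ (anc_up N β).1]
  have n1 := wd_ne ξ.wd
  have n2 := h2 ▸ wd_ne ζ.wd
  refine TS.three hO hT hd hs hf (ρ := N + N) hι (fun i => (η i).anc N)
    (fun i => TS.fib_anc T (anc_desc N _) ?_) (fun i j t e => ?_)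
    (fun i j => (key _ 0 _ (e1 i N)).1.trans (key _ 0 _ (e1 j N)).1.symm) fun n i j => ?_
  · fin_cases i
    exacts [⟨0, 0, h0 ▸ desc_refl _⟩, a3, b3]
  · have := (e2 i).symm.trans ((congrArg (fun x : Y.Dir => s.σ^[N] x.src) e).trans (e2 j))
    fin_cases i <;> fin_cases j <;> simp_all [η]
  · rw [← anc_add T rfl, ← anc_add T rfl]
    have u := key _ 0 _ (e1 i (n + N))
    have v := key _ 0 _ (e1 j (n + N))
    have := Forest.dist_triangle u.1 v.1.symm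
    rw [Forest.dist_comm (ξ.anc (n + N)).p] at this
    omega

end Pool.Agent.Lib.FBC.T7
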