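import Pool.Agent.Lib.FBC.T7.Blue7
import Pool.Agent.Lib.FBC.T7.Flag

/-!
Every class of flags has exactly two members.
-/

namespace Pool.Agent.Lib.FBC.T7

open Forest Flow Flow.Flag T7B

section
variable {G : Type} [Group G] {d : Dg G} {Y : Forest d} {s : Flow Y}

lemma two_overlap {a b c m v : Y.V} (hm : Y.btw b m c) (h1 : Y.btw a v b) (h2 : Y.btw a v c) :
    Y.btw a v m :=
  ⟨h1.lev1, h1.lev2.trans hm.lev1, fun k hk => by
    have t1 := h1.sd k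
    have t2 := h2.sd k
    have t3 := hm.sd k
    revert hk t1 t2 t3
    cases k.sd a <;> cases k.sd b <;> cases k.sd c <;> cases k.sd m <;> cases k.sd v <;> simp⟩

lemma two_fib (T : s.TT) {ι : ℕ → Y.Dir} {x a : Y.Dir} {n : ℕ} (hx : x ∈ s.Fib ι)
    (ha : s.Desc n a x) : a ∈ s.Fib ι :=
  let ⟨j, _, h⟩ := hx; ⟨j, _, desc_trans T rfl ha h⟩

/-- the ancestor of a flag is not near the geodesic between the ancestors of two other flags of its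
class -/
lemma two_key (hO : St_OVL) (hT : St_TRIP) (hd : FC d) (hs : s.NF) (hF : s.Far2)
    {ι : ℕ → Y.Dir} {D : ℕ} (hq : s.QL ι D) {ξ ζ η : s.Flag} (h0 : ι 0 = ξ.x) (o1 : ξ.Opp ζ)
    (o2 : ξ.Opp η) (f1 : ξ.Far ζ) (f2 : ξ.Far η) : ∃ n₀, ∀ n ≥ n₀, ∀ m,
      Y.btw (ζ.anc n).x.src m (η.anc n).x.src → D < Y.dist (ξ.anc n).x.src m := by
  have T := hs.toTT
  obtain ⟨N, hN⟩ := wd_bound hs
  obtain ⟨y, hy⟩ := ξ.wd
  obtain ⟨x', d1, c1⟩ := part T hy hq.int (h0 ▸ ξ.cr) (hN _ _ ξ.wd)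
  have c2 : Y.Cross ξ.q ξ.p x' :=
    c1.elim (fun t => t.2.extend_right hy.1.symm) fun t => t.2.extend_left hy.1.symm
  have hx : ξ.x ∈ s.Fib ι := ⟨0, 0, h0 ▸ desc_refl _⟩
  have hx' : x' ∈ s.Fib ι := ⟨N, N, d1⟩
  have hne : ξ.x ≠ x' := fun e => not_mem_H_both ξ.cr.2 (e ▸ c2.1)
  have hl : Y.lev ξ.x.src = Y.lev x'.src := ξ.cr.lev_src.symm.trans (ξ.cr.lev.trans c2.lev_src)
  obtain ⟨L, n0, hL⟩ := hO G d hd Y s hs ι (fun t => (hq.int t).1) _ hx _ hx' hne hl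
  set θ : s.Flag := ⟨ξ.q, ξ.p, x', ξ.wd.symm, c2⟩ with hθ
  obtain ⟨θ', o3, f3⟩ := hF θ
  set l := D + (L + D) + 4 * N + 5 with hl'
  obtain ⟨n1, h1⟩ := f1 l
  obtain ⟨n2, h2⟩ := f2 l
  obtain ⟨n3, h3⟩ := f3 l
  refine ⟨n0 + n1 + n2 + n3, fun n hn m hm => ?_⟩
  by_contra hc
  have hc : Y.dist (ξ.anc n).x.src m ≤ D := not_lt.1 hc
  have a0 := anc_desc n ξ
  have a1 : s.Desc n (ζ.anc n).x ξ.x := o1.1 ▸ anc_desc n ζ
  have a2 : s.Desc n (η.anc n).x ξ.x := o2.1 ▸ anc_desc n η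
  have a3 : s.Desc n (θ.anc n).x x' := anc_desc n θ
  have a4 : s.Desc n (θ'.anc n).x x' := (o3.1 ▸ anc_desc n θ' : s.Desc n (θ'.anc n).x θ.x)
  have l0 := a0.lh_lev
  have l1 := a1.lh_lev
  have l2 := a2.lh_lev
  have l3 := a3.lh_lev
  have l4 := a4.lh_lev
  have e1 : (ξ.anc n).p = (θ.anc n).q := anc_pq n rfl
  have e2 : (θ.anc n).p = (ξ.anc n).q := anc_pq n rfl
  have b1 := (θ.anc n).cr.btw_src
  rw [e2, ← e1] at b1
  have k1 := ((ξ.anc n).cr.btw_src.dist_mid b1.symm).trans (hN _ _ (ξ.anc n).wd)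
  have k2 := (b1.symm.dist_mid (ξ.anc n).cr.btw_src).trans (hN _ _ (ξ.anc n).wd)
  obtain ⟨μ, hμ⟩ := exists_med (Y := Y) (a := (ζ.anc n).x.src) (b := (η.anc n).x.src)
    (c := (θ'.anc n).x.src) (by omega) (by omega)
  have t1 := hq.tri _ (two_fib T hx a1) _ (two_fib T hx a2) _ (two_fib T hx' a4) μ hμ
  have p1 := fun v w => hL n (by omega) _ _ _ _ v w a0 a3 (o1.2 n) (o3.2 n)
  have p2 := fun v w => hL n (by omega) _ _ _ _ v w a0 a3 (o2.2 n) (o3.2 n)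
  have p3 : ∀ v w, Y.btw (ξ.anc n).x.src v (ζ.anc n).x.src →
      Y.btw (ξ.anc n).x.src w (ζ.anc n).x.src → Y.btw (ξ.anc n).x.src v (η.anc n).x.src →
      Y.btw (ξ.anc n).x.src w (η.anc n).x.src → Y.dist v w ≤ D := fun v w r1 r2 r3 r4 =>
    ((two_overlap hm r1 r3).dist_mid (two_overlap hm r2 r4)).trans hc
  have := hT G d Y ![(ξ.anc n).x.src, (ξ.anc n).x.src, (θ.anc n).x.src]
    ![(ζ.anc n).x.src, (η.anc n).x.src, (θ'.anc n).x.src] μ N (L + D) l D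
    (fun i j => by fin_cases i <;> fin_cases j <;> simp <;> omega)
    (fun i j => by fin_cases i <;> fin_cases j <;> simp [k1, k2])
    (fun i => by
      fin_cases i
      exacts [h1 n (by omega), h2 n (by omega), h3 n (by omega)])
    (fun i j hij v w r1 r2 r3 r4 => by
      fin_cases i <;> fin_cases j
      · exact (hij rfl).elim
      · exact (p3 v w r1 r2 r3 r4).trans (Nat.le_add_left _ _)
      · exact (p1 v w r1 r2 r3 r4).trans (Nat.le_add_right _ _)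
      · exact (p3 v w r3 r4 r1 r2).trans (Nat.le_add_left _ _)
      · exact (hij rfl).elim
      · exact (p2 v w r1 r2 r3 r4).trans (Nat.le_add_right _ _)
      · exact (p1 v w r3 r4 r1 r2).trans (Nat.le_add_right _ _)
      · exact (p2 v w r3 r4 r1 r2).trans (Nat.le_add_right _ _)
      · exact (hij rfl).elim)
    hμ (by
      rcases t1 with t | t | t
      exacts [⟨0, t⟩, ⟨1, t⟩, ⟨2, t⟩])
  omega

end

theorem stTWO (hO : St_OVL) (hT : St_TRIP) : St_TWO := by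
  intro G _ d hd Y s hs hq hF hD ξ
  obtain ⟨ζ, o1, f1⟩ := hF ξ
  have n1 : ζ ≠ ξ := by
    rintro rfl
    obtain ⟨n, hn⟩ := f1 1
    simpa using hn n le_rfl
  refine ⟨ζ, ⟨n1, o1⟩, fun η ⟨n2, o2⟩ => ?_⟩
  by_contra n3
  obtain ⟨ι, D, h0, hι⟩ := hq ξ.x
  have o3 := opp_trans (opp_symm o1) o2
  obtain ⟨j1, k1⟩ := two_key hO hT hd hs hF hι h0 o1 o2 f1 (hD _ _ o2.1 n2.symm)
  obtain ⟨j2, k2⟩ := two_key hO hT hd hs hF hι (h0.trans o1.1) (opp_symm o1) o3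
    (hD _ _ o1.1.symm n1) (hD _ _ o3.1 (Ne.symm n3))
  obtain ⟨j3, k3⟩ := two_key hO hT hd hs hF hι (h0.trans o2.1) (opp_symm o2) (opp_symm o3)
    (hD _ _ o2.1.symm n2) (hD _ _ o3.1.symm n3)
  have hx : ξ.x ∈ s.Fib ι := ⟨0, 0, h0 ▸ desc_refl _⟩
  have a0 := anc_desc (j1 + j2 + j3) ξ
  have a1 : s.Desc (j1 + j2 + j3) (ζ.anc _).x ξ.x := o1.1 ▸ anc_desc _ ζ
  have a2 : s.Desc (j1 + j2 + j3) (η.anc _).x ξ.x := o2.1 ▸ anc_desc _ η
  have l0 := a0.lh_lev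
  have l1 := a1.lh_lev
  have l2 := a2.lh_lev
  obtain ⟨m, hm⟩ := exists_med (Y := Y) (a := (ξ.anc (j1 + j2 + j3)).x.src)
    (b := (ζ.anc (j1 + j2 + j3)).x.src) (c := (η.anc (j1 + j2 + j3)).x.src) (by omega) (by omega)
  have t1 := k1 _ (by omega) m hm.2.1
  have t2 := k2 _ (by omega) m hm.2.2
  have t3 := k3 _ (by omega) m hm.1
  have := hι.tri _ (two_fib hs.toTT hx a0) _ (two_fib hs.toTT hx a1) _ (two_fib hs.toTT hx a2) m hm
  omega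

end Pool.Agent.Lib.FBC.T7
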